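import Mathlib

/-!
# Project ST: products which avoid one value
-/

set_option autoImplicit false

open Filter Set

namespace Pool.Agent.Helper21S

theorem exp_half_le {x : ℝ} (h0 : 0 ≤ x) (h1 : x ≤ 1) : Real.exp (x / 2) ≤ 1 + x := by
  have h2 : -(x / 2) + 1 ≤ Real.exp (-(x / 2)) := Real.add_one_le_exp _
  have h3 : 0 < Real.exp (x / 2) := Real.exp_pos _
  have h4 : Real.exp (x / 2) * Real.exp (-(x / 2)) = 1 := by
    rw [← Real.exp_add]; simp
  have h5 : Real.exp (x / 2) * (1 - x / 2) ≤ 1 := by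
    rw [← h4]
    apply mul_le_mul_of_nonneg_left _ h3.le
    linarith
  have h6 : (1 : ℝ) ≤ (1 + x) * (1 - x / 2) := by nlinarith
  have h7 : 0 < 1 - x / 2 := by linarith
  have h8 : Real.exp (x / 2) * (1 - x / 2) ≤ (1 + x) * (1 - x / 2) := h5.trans h6
  exact le_of_mul_le_mul_right h8 h7

/-- If `M ∏ (1 + s b_i) ≠ 1` for all `|s| ≤ s₀` then `M` is far from `1`. -/
theorem ivt_prod (m : ℕ) (b : ℕ → ℝ) (s₀ : ℝ) (h0 : 0 < s₀) (h1 : s₀ ≤ 1 / 2)
    (hb : ∀ i, 0 ≤ b i ∧ b i ≤ 1) (M : ℝ) (hM : 0 ≤ M)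
    (h : ∀ s : ℝ, |s| ≤ s₀ → |∏ i ∈ Finset.range m, (1 + s * b (i + 1))| * M ≠ 1) :
    Real.exp (s₀ / 2 * ∑ i ∈ Finset.range m, b (i + 1)) ≤ M ∨
      M ≤ Real.exp (-(s₀ / 2 * ∑ i ∈ Finset.range m, b (i + 1))) := by
  set P : ℝ → ℝ := fun s => ∏ i ∈ Finset.range m, (1 + s * b (i + 1)) with hP
  have hpos : ∀ s : ℝ, |s| ≤ s₀ → ∀ i, 0 < 1 + s * b (i + 1) := by
    intro s hs i
    have h2 := abs_le.1 hs
    have h3 := hb (i + 1)
    nlinarith
  have hPpos : ∀ s : ℝ, |s| ≤ s₀ → 0 < P s := fun s hs =>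
    Finset.prod_pos fun i _ => hpos s hs i
  have h' : ∀ s : ℝ, |s| ≤ s₀ → P s * M ≠ 1 := by
    intro s hs
    have := h s hs
    rwa [abs_of_pos (hPpos s hs)] at this
  have hc : Continuous fun s => P s * M := by
    apply Continuous.mul _ continuous_const
    apply continuous_finset_prod
    intro i _
    fun_prop
  have hsum : 0 ≤ ∑ i ∈ Finset.range m, b (i + 1) :=
    Finset.sum_nonneg fun i _ => (hb (i + 1)).1
  rcases lt_or_ge 1 (P (-s₀) * M) with h2 | h2
  · left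
    have h3 : P (-s₀) ≤ Real.exp (-(s₀ * ∑ i ∈ Finset.range m, b (i + 1))) := by
      rw [Finset.mul_sum, ← Finset.sum_neg_distrib, Real.exp_sum]
      apply Finset.prod_le_prod
      · intro i _
        exact (hpos (-s₀) (by rw [abs_neg, abs_of_pos h0]) i).le
      · intro i _
        have := Real.add_one_le_exp (-(s₀ * b (i + 1)))
        linarith
    have h4 : 1 ≤ Real.exp (-(s₀ * ∑ i ∈ Finset.range m, b (i + 1))) * M :=
      h2.le.trans (mul_le_mul_of_nonneg_right h3 hM)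
    have h5 : Real.exp (s₀ * ∑ i ∈ Finset.range m, b (i + 1)) ≤ M := by
      have h6 : Real.exp (s₀ * ∑ i ∈ Finset.range m, b (i + 1)) *
          Real.exp (-(s₀ * ∑ i ∈ Finset.range m, b (i + 1))) = 1 := by
        rw [← Real.exp_add]; simp
      have h7 := mul_le_mul_of_nonneg_left h4
        (Real.exp_pos (s₀ * ∑ i ∈ Finset.range m, b (i + 1))).le
      rw [← mul_assoc, h6] at h7
      linarith
    refine le_trans ?_ h5
    apply Real.exp_le_exp.2
    nlinarith
  rcases lt_or_ge (P s₀ * M) 1 with h3 | h3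
  · right
    have h4 : Real.exp (s₀ / 2 * ∑ i ∈ Finset.range m, b (i + 1)) ≤ P s₀ := by
      rw [Finset.mul_sum, Real.exp_sum]
      apply Finset.prod_le_prod
      · intro i _
        exact (Real.exp_pos _).le
      · intro i _
        have h5 := hb (i + 1)
        have h6 := exp_half_le (x := s₀ * b (i + 1)) (by nlinarith) (by nlinarith)
        rwa [show s₀ * b (i + 1) / 2 = s₀ / 2 * b (i + 1) by ring] at h6
    have h5 : Real.exp (s₀ / 2 * ∑ i ∈ Finset.range m, b (i + 1)) * M ≤ 1 :=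
      (mul_le_mul_of_nonneg_right h4 hM).trans h3.le
    have h6 : Real.exp (-(s₀ / 2 * ∑ i ∈ Finset.range m, b (i + 1))) *
        Real.exp (s₀ / 2 * ∑ i ∈ Finset.range m, b (i + 1)) = 1 := by
      rw [← Real.exp_add]; simp
    have h7 := mul_le_mul_of_nonneg_left h5
      (Real.exp_pos (-(s₀ / 2 * ∑ i ∈ Finset.range m, b (i + 1)))).le
    rw [← mul_assoc, h6] at h7
    linarith
  · exfalso
    have h4 : (1 : ℝ) ∈ (fun s => P s * M) '' Icc (-s₀) s₀ :=
      intermediate_value_Icc (by linarith) hc.continuousOn ⟨h2, h3⟩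
    obtain ⟨s, hs, hs1⟩ := h4
    exact h' s (abs_le.2 hs) hs1

end Pool.Agent.Helper21S
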