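import Pool.Agent.Helper21S.Push
import Pool.Agent.Helper21S.Num

/-!
# Project ST: sums of small scaled linear fields with disjoint supports
-/

set_option autoImplicit false
set_option linter.unusedSectionVars false

open scoped Manifold ContDiff Topology
open Filter Set Metric

universe u

namespace Pool.Agent.Helper21S

open Pool.Agent.H718R2.G

/-- one field, with centre `c` and radius `σ` -/
theorem bump_one (n k : ℕ) (hk : 1 ≤ k) : ∃ C : ℝ, 0 < C ∧ ∃ T : V n → ℝ → V n → V n,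
    ∀ (c : V n) (σ : ℝ), 0 < σ → σ ≤ 1 → ContDiff ℝ ∞ (T c σ) ∧
      (∀ j ≤ k, ∀ x, ‖iteratedFDeriv ℝ j (T c σ) x‖ ≤ C) ∧ T c σ c = 0 ∧
      HasFDerivAt (T c σ) (σ ^ (k - 1) • ContinuousLinearMap.id ℝ (V n)) c ∧
      ∀ x, 2 * σ < ‖x - c‖ → T c σ =ᶠ[𝓝 x] fun _ => 0 := by
  let β : ContDiffBump (0 : V n) := ⟨1, 2, one_pos, one_lt_two⟩
  set b : V n → V n := fun w => β w • w with hb
  have hbs : ContDiff ℝ ∞ b := β.contDiff.smul contDiff_id
  have hbc : HasCompactSupport b := β.hasCompactSupport.smul_right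
  have hbd : ∀ j : ℕ, ∃ C : ℝ, ∀ x : V n, ‖iteratedFDeriv ℝ j b x‖ ≤ C := by
    intro j
    have hc : Continuous (iteratedFDeriv ℝ j b) :=
      hbs.continuous_iteratedFDeriv (by exact_mod_cast le_top)
    exact hc.bounded_above_of_compact_support (hbc.iteratedFDeriv j)
  choose C hC using hbd
  have hC0 : ∀ j, 0 ≤ C j := fun j => (norm_nonneg _).trans (hC j 0)
  have hsum := Finset.sum_nonneg (fun j (_ : j ∈ Finset.range (k + 1)) => hC0 j)
  have hb1 : ∀ w : V n, ‖w‖ < 1 → b w = w := by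
    intro w hw
    have h1 : β w = 1 := by
      apply β.one_of_mem_closedBall
      rw [mem_closedBall, dist_zero_right]
      exact hw.le
    simp only [hb, h1, one_smul]
  have hb2 : ∀ w : V n, 2 < ‖w‖ → b w = 0 := by
    intro w hw
    have h1 : β w = 0 := by
      apply β.zero_of_le_dist
      rw [dist_zero_right]
      exact hw.le
    simp only [hb, h1, zero_smul]
  refine ⟨1 + ∑ j ∈ Finset.range (k + 1), C j, by linarith,
    fun c σ x => σ ^ k • b (σ⁻¹ • (x - c)), ?_⟩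
  intro c σ hσ hσ1
  beta_reduce
  set M : V n →L[ℝ] V n := σ⁻¹ • ContinuousLinearMap.id ℝ (V n) with hM
  have hMx : ∀ x, M x = σ⁻¹ • x := fun x => by simp [hM]
  have hnM : ‖M‖ ≤ σ⁻¹ := by
    refine ContinuousLinearMap.opNorm_le_bound _ (inv_nonneg.2 hσ.le) (fun x => ?_)
    rw [hMx, norm_smul, Real.norm_of_nonneg (inv_nonneg.2 hσ.le)]
  have hnx : ∀ x : V n, ‖σ⁻¹ • x‖ = ‖x‖ / σ := fun x => by
    rw [norm_smul, Real.norm_of_nonneg (inv_nonneg.2 hσ.le), div_eq_inv_mul]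
  have hbM : ContDiff ℝ ∞ (b ∘ M) := hbs.comp M.contDiff
  have hsm : ContDiff ℝ ∞ (fun x : V n => σ ^ k • b (σ⁻¹ • (x - c))) := by
    have h1 : ContDiff ℝ ∞ (fun x : V n => σ⁻¹ • (x - c)) := by fun_prop
    exact (hbs.comp h1).const_smul (σ ^ k)
  refine ⟨hsm, ?_, ?_, ?_, ?_⟩
  · intro j hj x
    have e1 : (fun x : V n => σ ^ k • b (σ⁻¹ • (x - c))) =
        σ ^ k • (fun x : V n => (b ∘ M) (x - c)) := by
      funext x
      simp only [Pi.smul_apply, Function.comp_apply, hMx]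
    rw [e1, iteratedFDeriv_const_smul_apply, iteratedFDeriv_comp_sub]
    · rw [norm_smul, Real.norm_of_nonneg (pow_nonneg hσ.le k)]
      have h2 : ‖iteratedFDeriv ℝ j (b ∘ M) (x - c)‖ ≤ C j * (σ⁻¹) ^ j := by
        rw [M.iteratedFDeriv_comp_right hbs (x - c) (by exact_mod_cast le_top)]
        refine (ContinuousMultilinearMap.norm_compContinuousLinearMap_le _ _).trans ?_
        rw [Finset.prod_const, Finset.card_univ, Fintype.card_fin]
        exact mul_le_mul (hC j _) (pow_le_pow_left₀ (norm_nonneg _) hnM j)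
          (pow_nonneg (norm_nonneg _) _) (hC0 j)
      have h4 : C j ≤ 1 + ∑ j ∈ Finset.range (k + 1), C j := by
        have := Finset.single_le_sum (fun i (_ : i ∈ Finset.range (k + 1)) => hC0 i)
          (Finset.mem_range.2 (Nat.lt_succ_of_le hj))
        linarith
      calc σ ^ k * ‖iteratedFDeriv ℝ j (b ∘ M) (x - c)‖ ≤ σ ^ k * (C j * (σ⁻¹) ^ j) :=
            mul_le_mul_of_nonneg_left h2 (pow_nonneg hσ.le k)
        _ = C j * σ ^ (k - j) := by
            rw [← Nat.sub_add_cancel hj, pow_add]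
            simp only [Nat.sub_add_cancel hj]
            rw [inv_pow]
            field_simp
        _ ≤ C j * 1 := by
            apply mul_le_mul_of_nonneg_left (pow_le_one₀ hσ.le hσ1) (hC0 j)
        _ ≤ _ := by rw [mul_one]; exact h4
    · exact ((hbM.comp (contDiff_id.sub contDiff_const)).of_le
        (by exact_mod_cast le_top)).contDiffAt
  · simp only [sub_self, smul_zero]
    rw [hb1 0 (by simp)]
    simp
  · have e1 : (fun x : V n => σ ^ k • b (σ⁻¹ • (x - c))) =ᶠ[𝓝 c]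
        fun x => σ ^ (k - 1) • (x - c) := by
      have : ball c σ ∈ 𝓝 c := ball_mem_nhds _ hσ
      filter_upwards [this] with x hx
      rw [mem_ball, dist_eq_norm] at hx
      rw [hb1 _ (by rw [hnx, div_lt_one hσ]; exact hx), smul_smul]
      congr 1
      obtain ⟨k', rfl⟩ : ∃ k', k = k' + 1 := ⟨k - 1, by omega⟩
      rw [Nat.add_sub_cancel, pow_succ, mul_assoc, mul_inv_cancel₀ hσ.ne', mul_one]
    apply HasFDerivAt.congr_of_eventuallyEq _ e1
    exact ((hasFDerivAt_id c).sub_const c).const_smul (σ ^ (k - 1))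
  · intro x hx
    have : {y : V n | 2 * σ < ‖y - c‖} ∈ 𝓝 x := by
      apply (isOpen_lt continuous_const (by fun_prop)).mem_nhds
      exact hx
    filter_upwards [this] with y hy
    have hy' : 2 * σ < ‖y - c‖ := hy
    rw [hb2 _ (by rw [hnx, lt_div_iff₀ hσ]; exact hy'), smul_zero]

/-- many fields with disjoint supports -/
theorem bumps (n k : ℕ) (hk : 1 ≤ k) : ∃ C : ℝ, 0 < C ∧
    ∀ (J : Finset ℕ) (c : ℕ → V n) (σ : ℕ → ℝ), (∀ i ∈ J, 0 < σ i ∧ σ i ≤ 1 / 8) →
      (∀ i ∈ J, ‖c i‖ < 1 / 4) →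
      (∀ i ∈ J, ∀ j ∈ J, i ≠ j → 2 * σ i + 2 * σ j < ‖c i - c j‖) →
      ∃ u : V n → V n, ContDiff ℝ ∞ u ∧ (∀ x, 1 / 2 ≤ ‖x‖ → u x = 0) ∧
        (∀ j ≤ k, ∀ x, ‖iteratedFDeriv ℝ j u x‖ ≤ C) ∧
        (∀ i ∈ J, u (c i) = 0 ∧
          HasFDerivAt u (σ i ^ (k - 1) • ContinuousLinearMap.id ℝ (V n)) (c i)) ∧
        ∀ x, (∀ i ∈ J, 2 * σ i < ‖x - c i‖) → u =ᶠ[𝓝 x] fun _ => 0 := by
  obtain ⟨C, hC, T, hT⟩ := bump_one n k hk
  refine ⟨C, hC, ?_⟩
  intro J c σ hσ hc hdis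
  have hσ1 : ∀ i ∈ J, σ i ≤ 1 := fun i hi => (hσ i hi).2.trans (by norm_num)
  set u : V n → V n := fun x => ∑ i ∈ J, T (c i) (σ i) x with hu
  -- near each point at most one term does not vanish
  have hloc1 : ∀ x, (∀ i ∈ J, 2 * σ i < ‖x - c i‖) → u =ᶠ[𝓝 x] fun _ => 0 := by
    intro x hx
    have : ∀ᶠ y in 𝓝 x, ∀ i ∈ J, T (c i) (σ i) y = 0 := by
      rw [Filter.eventually_all_finset]
      intro i hi
      exact (hT (c i) (σ i) (hσ i hi).1 (hσ1 i hi)).2.2.2.2 x (hx i hi)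
    filter_upwards [this] with y hy
    exact Finset.sum_eq_zero hy
  have hloc2 : ∀ x, ∀ i ∈ J, ‖x - c i‖ ≤ 2 * σ i → u =ᶠ[𝓝 x] T (c i) (σ i) := by
    intro x i hi hx
    have : ∀ᶠ y in 𝓝 x, ∀ j ∈ J, j ≠ i → T (c j) (σ j) y = 0 := by
      rw [Filter.eventually_all_finset]
      intro j hj
      by_cases hji : j = i
      · exact Filter.Eventually.of_forall fun y h => absurd hji h
      · have h1 := hdis j hj i hi hji
        have h2 : 2 * σ j < ‖x - c j‖ := by
          have h3 : ‖c j - c i‖ ≤ ‖x - c j‖ + ‖x - c i‖ := by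
            calc ‖c j - c i‖ = ‖(x - c i) - (x - c j)‖ := by congr 1; abel
              _ ≤ ‖x - c i‖ + ‖x - c j‖ := norm_sub_le _ _
              _ = _ := add_comm _ _
          linarith
        filter_upwards [(hT (c j) (σ j) (hσ j hj).1 (hσ1 j hj)).2.2.2.2 x h2] with y hy _
        exact hy
    filter_upwards [this] with y hy
    exact Finset.sum_eq_single_of_mem i hi hy
  have hloc : ∀ x, (u =ᶠ[𝓝 x] fun _ => 0) ∨ ∃ i ∈ J, u =ᶠ[𝓝 x] T (c i) (σ i) := by
    intro x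
    by_cases h : ∀ i ∈ J, 2 * σ i < ‖x - c i‖
    · exact Or.inl (hloc1 x h)
    · push Not at h
      obtain ⟨i, hi, hx⟩ := h
      exact Or.inr ⟨i, hi, hloc2 x i hi hx⟩
  refine ⟨u, ?_, ?_, ?_, ?_, hloc1⟩
  · apply ContDiff.sum
    intro i hi
    exact (hT (c i) (σ i) (hσ i hi).1 (hσ1 i hi)).1
  · intro x hx
    refine (hloc1 x fun i hi => ?_).self_of_nhds
    have h1 := hc i hi
    have h2 := (hσ i hi).2
    have h3 : ‖x‖ ≤ ‖x - c i‖ + ‖c i‖ := by
      calc ‖x‖ = ‖(x - c i) + c i‖ := by congr 1; abel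
        _ ≤ _ := norm_add_le _ _
    linarith
  · intro j hj x
    rcases hloc x with h | ⟨i, hi, h⟩
    · rw [h.iteratedFDeriv ℝ j |>.self_of_nhds]
      have : iteratedFDeriv ℝ j (fun _ : V n => (0 : V n)) x = 0 := by
        rw [iteratedFDeriv_fun_zero]
        rfl
      rw [this, norm_zero]
      exact hC.le
    · rw [h.iteratedFDeriv ℝ j |>.self_of_nhds]
      exact (hT (c i) (σ i) (hσ i hi).1 (hσ1 i hi)).2.1 j hj x
  · intro i hi
    have h1 := hT (c i) (σ i) (hσ i hi).1 (hσ1 i hi)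
    have h2 := hloc2 (c i) i hi (by
      rw [sub_self, norm_zero]
      have := (hσ i hi).1
      positivity)
    exact ⟨h2.self_of_nhds.trans h1.2.2.1, h1.2.2.2.1.congr_of_eventuallyEq h2⟩

end Pool.Agent.Helper21S
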