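import Pool.Agent.Helper21S.Lin

/-!
# Project ST: derivatives of iterates of perturbed maps
-/

set_option autoImplicit false
set_option linter.unusedSectionVars false

open scoped Manifold ContDiff Topology
open Filter Set Metric

universe u

namespace Pool.Agent.Helper21S

open Pool.Agent.H718R2.G

variable {n : ℕ} {N : Type u} [TopologicalSpace N] [ChartedSpace (V n) N]

/-- The derivative of `F` at `x`, from the tangent space at `x` to the tangent space at `F x`. (Mathlib
identifies each tangent space `T_x N` with `ℝⁿ`, by means of the preferred chart at `x`.) -/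
noncomputable def dm (F : N → N) (x : N) : V n →L[ℝ] V n := mfderiv (𝓡 n) (𝓡 n) F x

theorem mdiff_iter {F : N → N} (hF : MDifferentiable (𝓡 n) (𝓡 n) F) (k : ℕ) :
    MDifferentiable (𝓡 n) (𝓡 n) F^[k] := by
  induction k with
  | zero => exact mdifferentiable_id
  | succ k ih => rw [Function.iterate_succ]; exact ih.comp hF

theorem dm_comp {F G : N → N} (hF : MDifferentiable (𝓡 n) (𝓡 n) F)
    (hG : MDifferentiable (𝓡 n) (𝓡 n) G) (x : N) :
    dm (n := n) (G ∘ F) x = (dm G (F x)).comp (dm F x) :=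
  mfderiv_comp x (hG (F x)) (hF x)

theorem dm_iter_succ {F : N → N} (hF : MDifferentiable (𝓡 n) (𝓡 n) F) (k : ℕ) (x : N) :
    dm (n := n) F^[k + 1] x = (dm F^[k] (F x)).comp (dm F x) := by
  rw [Function.iterate_succ]
  exact dm_comp hF (mdiff_iter hF k) x

theorem dm_iter_add {F : N → N} (hF : MDifferentiable (𝓡 n) (𝓡 n) F) (k l : ℕ) (x : N) :
    dm (n := n) F^[k + l] x = (dm F^[k] (F^[l] x)).comp (dm F^[l] x) := by
  rw [Function.iterate_add]
  exact dm_comp (mdiff_iter hF l) (mdiff_iter hF k) x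

omit [TopologicalSpace N] [ChartedSpace (V n) N] in
theorem iter_push {F Θ : N → N} {x : N} (k : ℕ) (hfix : ∀ i, 1 ≤ i → i ≤ k → Θ (F^[i] x) = F^[i] x) :
    (Θ ∘ F)^[k] x = F^[k] x := by
  induction k with
  | zero => rfl
  | succ k ih =>
    rw [Function.iterate_succ_apply', ih fun i h1 h2 => hfix i h1 (h2.trans (Nat.le_succ k)),
      Function.comp_apply, ← Function.iterate_succ_apply' F]
    exact hfix (k + 1) (Nat.succ_le_succ (Nat.zero_le k)) le_rfl

/-- The derivative of the iterates of `Θ ∘ F`, seen by a functional. -/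
theorem dm_push {F Θ : N → N} (hF : MDifferentiable (𝓡 n) (𝓡 n) F)
    (hΘ : MDifferentiable (𝓡 n) (𝓡 n) Θ) (l : V n →ₗ[ℝ] ℂ) (k : ℕ) :
    ∀ (x : N) (c : ℕ → ℝ), (∀ i, 1 ≤ i → i ≤ k → Θ (F^[i] x) = F^[i] x) →
    (∀ i, 1 ≤ i → i ≤ k → ∀ v : V n, l (dm F^[k - i] (F^[i] x) (dm Θ (F^[i] x) v)) =
      ((1 + c i : ℝ) : ℂ) * l (dm F^[k - i] (F^[i] x) v)) →
    ∀ v : V n, l (dm (Θ ∘ F)^[k] x v) =
      ((∏ i ∈ Finset.range k, (1 + c (i + 1)) : ℝ) : ℂ) * l (dm F^[k] x v) := by
  induction k with
  | zero =>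
    intro x c _ _ v
    simp [Function.iterate_zero]
  | succ k ih =>
    intro x c hfix hl v
    have hG : MDifferentiable (𝓡 n) (𝓡 n) (Θ ∘ F) := hΘ.comp hF
    have h1 : (Θ ∘ F) x = F x := hfix 1 le_rfl (by omega)
    rw [dm_iter_succ hG, dm_iter_succ hF, h1]
    have h2 : dm (n := n) (Θ ∘ F) x = (dm Θ (F x)).comp (dm F x) := dm_comp hF hΘ x
    rw [h2]
    simp only [ContinuousLinearMap.comp_apply]
    rw [ih (F x) (fun i => c (i + 1))
      (fun i hi1 hi2 => by
        rw [← Function.iterate_succ_apply]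
        exact hfix (i + 1) (by omega) (by omega))
      (fun i hi1 hi2 v => by
        have := hl (i + 1) (by omega) (by omega) v
        rw [show k + 1 - (i + 1) = k - i by omega] at this
        rw [← Function.iterate_succ_apply]
        exact this)]
    have h3 := hl 1 le_rfl (by omega) (dm F x v)
    rw [show k + 1 - 1 = k by omega] at h3
    simp only [Function.iterate_one] at h3
    rw [h3, ← mul_assoc]
    congr 1
    rw [← Complex.ofReal_mul]
    congr 1
    rw [Finset.prod_range_succ']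

end Pool.Agent.Helper21S
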