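import Pool.Agent.Helper21S.Flg2

/-!
# Project ST: hyperbolic splittings are closed
-/

set_option autoImplicit false
set_option linter.unusedSectionVars false

open scoped Manifold ContDiff Topology
open Filter Set Metric

universe u v

namespace Pool.Agent.Helper21S

open Pool.Agent.H718R2.G Pool.Agent.Y504.CO Pool.Agent.TH80.OMS Pool.Agent.W564.SC
  Pool.Agent.W74.SC

section

variable {n : ℕ} {N : Type u} [TopologicalSpace N] [ChartedSpace (V n) N] [IsManifold (𝓡 n) ∞ N]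
  {E E' : Type*} [NormedAddCommGroup E] [NormedSpace ℝ E] [NormedAddCommGroup E'] [NormedSpace ℝ E']

/-- Convergence of tangent vectors, tested by an immersion. -/
theorem dE_tendsto {z : N} {a : N → E} {b : N → E'} (ha : Reg (n := n) a z)
    (hb : Reg (n := n) b z) (hinj : Function.Injective (dE (n := n) b z)) {α : Type*}
    {l : Filter α} {x : α → N} {v : α → V n} {w : V n} (hx : Tendsto x l (𝓝 z))
    (hv : Tendsto (fun i => dE b (x i) (v i)) l (𝓝 (dE b z w))) :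
    Tendsto (fun i => dE a (x i) (v i)) l (𝓝 (dE a z w)) := by
  obtain ⟨χ, hχ⟩ := Pool.Agent.W699.SC.gc n N z
  obtain ⟨A, hA, O₁, hO₁, hA'⟩ := chart_fun hχ ha
  obtain ⟨B, hB, O₂, hO₂, hB'⟩ := chart_fun hχ hb
  have hzO₁ : z ∈ O₁ := mem_of_mem_nhds hO₁
  have hzO₂ : z ∈ O₂ := mem_of_mem_nhds hO₂
  have hBinj : Function.Injective (B z) := by
    intro w w' hww
    obtain ⟨v, rfl⟩ := (dc_bij hχ.mem hχ.src).surjective w
    obtain ⟨v', rfl⟩ := (dc_bij hχ.mem hχ.src).surjective w'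
    rw [← hB' z hzO₂, ← hB' z hzO₂] at hww
    rw [hinj hww]
  obtain ⟨R, hR0, hR⟩ : ∃ R : ℝ, 0 ≤ R ∧ ∀ w : V n, ‖w‖ ≤ R * ‖B z w‖ := by
    have hker : (B z : V n →ₗ[ℝ] E').ker = ⊥ := LinearMap.ker_eq_bot.2 hBinj
    obtain ⟨R, -, hR⟩ := LinearMap.exists_antilipschitzWith (B z : V n →ₗ[ℝ] E') hker
    refine ⟨R, R.2, fun w => ?_⟩
    have := hR.le_mul_dist w 0
    simpa using this
  have hAx : Tendsto (fun i => A (x i)) l (𝓝 (A z)) := hA.tendsto.comp hx
  have hBx : Tendsto (fun i => B (x i)) l (𝓝 (B z)) := hB.tendsto.comp hx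
  set u₀ := dc χ z w with hu₀
  have e1 : ∀ᶠ i in l, ‖B (x i) - B z‖ < 1 / (2 * (R + 1)) := by
    have h1 := tendsto_iff_norm_sub_tendsto_zero.1 hBx
    exact h1.eventually (gt_mem_nhds (by positivity))
  have e2 : ∀ᶠ i in l, x i ∈ O₁ := hx hO₁
  have e3 : ∀ᶠ i in l, x i ∈ O₂ := hx hO₂
  -- the vectors in the chart converge
  have hu : Tendsto (fun i => dc χ (x i) (v i)) l (𝓝 u₀) := by
    rw [tendsto_iff_norm_sub_tendsto_zero]
    have h1 : Tendsto (fun i => 2 * R * ‖dE b (x i) (v i) - B (x i) u₀‖) l (𝓝 0) := by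
      have h2 : Tendsto (fun i => dE b (x i) (v i) - B (x i) u₀) l (𝓝 (dE b z w - B z u₀)) :=
        hv.sub ((ContinuousLinearMap.apply ℝ E' u₀).continuous.continuousAt.tendsto.comp hBx)
      have h3 : dE b z w - B z u₀ = 0 := by rw [hB' z hzO₂, sub_self]
      rw [h3] at h2
      have h4 := h2.norm.const_mul (2 * R)
      simpa using h4
    refine squeeze_zero' (Eventually.of_forall fun i => norm_nonneg _) ?_ h1
    filter_upwards [e1, e3] with i h4 h5
    rw [hB' (x i) h5, ← map_sub]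
    set y := dc χ (x i) (v i) - u₀ with hy
    have k1 := hR y
    have k2 : ‖B z y‖ ≤ ‖B (x i) y‖ + ‖B (x i) - B z‖ * ‖y‖ := by
      have : B z y = B (x i) y - (B (x i) - B z) y := by simp
      rw [this]
      exact (norm_sub_le _ _).trans (add_le_add le_rfl ((B (x i) - B z).le_opNorm y))
    have k3 : R * (‖B (x i) - B z‖ * ‖y‖) ≤ 1 / 2 * ‖y‖ := by
      rw [← mul_assoc]
      apply mul_le_mul_of_nonneg_right _ (norm_nonneg _)
      have k4 : R * ‖B (x i) - B z‖ ≤ R * (1 / (2 * (R + 1))) :=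
        mul_le_mul_of_nonneg_left h4.le hR0
      have k5 : R * (1 / (2 * (R + 1))) ≤ 1 / 2 := by
        rw [mul_one_div, div_le_div_iff₀ (by positivity) (by norm_num)]
        linarith
      linarith
    have k6 := mul_le_mul_of_nonneg_left k2 hR0
    rw [mul_add] at k6
    linarith
  have h6 : Tendsto (fun i => A (x i) (dc χ (x i) (v i))) l (𝓝 (A z u₀)) :=
    ((isBoundedBilinearMap_apply (𝕜 := ℝ) (E := V n) (F := E)).continuous.tendsto
      (A z, u₀)).comp (hAx.prodMk_nhds hu)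
  rw [hA' z hzO₁]
  refine h6.congr' ?_
  filter_upwards [e2] with i hi
  rw [hA' (x i) hi]

theorem iter_c1 {F : N → N} (hF : ContMDiff (𝓡 n) (𝓡 n) 1 F) (m : ℕ) :
    ContMDiff (𝓡 n) (𝓡 n) 1 F^[m] := by
  induction m with
  | zero => exact contMDiff_id
  | succ m ih => rw [Function.iterate_succ]; exact ih.comp hF

theorem dE_iter {F : N → N} (hF : ContMDiff (𝓡 n) (𝓡 n) 1 F) {ι : N → E'}
    (hι : ContMDiff (𝓡 n) 𝓘(ℝ, E') 1 ι) (m : ℕ) (x : N) (v : V n) :
    dE (ι ∘ F^[m]) x v = dE ι (F^[m] x) (dm F^[m] x v) := by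
  have h2 : mfderiv (𝓡 n) 𝓘(ℝ, E') (ι ∘ F^[m]) x =
      (mfderiv (𝓡 n) 𝓘(ℝ, E') ι (F^[m] x)).comp (mfderiv (𝓡 n) (𝓡 n) F^[m] x) :=
    mfderiv_comp x (hι.mdifferentiable (by norm_num) _)
      ((iter_c1 hF m).mdifferentiable (by norm_num) x)
  exact congrArg (fun L : V n →L[ℝ] E' => L v) h2

theorem Spl.mem_s {F : N → N} {K : Set N} {L : N → V n →L[ℝ] E'} {P S U : N → Submodule ℝ (V n)}
    {κ C : ℝ} (h : Spl F K L P S U κ C) {x : N} (hx : x ∈ K) (hinj : Function.Injective (L x))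
    {w : V n} (hw : w ∈ P x) (hc : ∀ m : ℕ,
      ‖L (F^[m] x) (dm F^[m] x w)‖ ≤ C * Real.exp (-(κ * m)) * ‖L x w‖) : w ∈ S x := by
  rw [← h.sup x hx] at hw
  obtain ⟨s, hs, u, hu, rfl⟩ := Submodule.mem_sup.1 hw
  have hκ := h.κ_pos
  have hC := h.C_pos
  have h1 : ∀ m : ℕ, ‖L x u‖ ≤ (C * C * (‖L x (s + u)‖ + ‖L x s‖)) * Real.exp (-(κ * m)) := by
    intro m
    have k1 := h.expand x hx m u hu
    have k2 := h.contr x hx m s hs
    have k3 := hc m
    have k4 : ‖L (F^[m] x) (dm F^[m] x u)‖ ≤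
        ‖L (F^[m] x) (dm F^[m] x (s + u))‖ + ‖L (F^[m] x) (dm F^[m] x s)‖ := by
      have : L (F^[m] x) (dm F^[m] x u) =
          L (F^[m] x) (dm F^[m] x (s + u)) - L (F^[m] x) (dm F^[m] x s) := by
        rw [map_add, map_add, add_sub_cancel_left]
      rw [this]
      exact norm_sub_le _ _
    have k5 : Real.exp (κ * m) * ‖L x u‖ ≤
        C * (C * Real.exp (-(κ * m)) * ‖L x (s + u)‖ + C * Real.exp (-(κ * m)) * ‖L x s‖) :=
      k1.trans (mul_le_mul_of_nonneg_left (k4.trans (add_le_add k3 k2)) hC.le)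
    have k6 : ‖L x u‖ ≤ Real.exp (κ * m) * ‖L x u‖ := by
      have : (1 : ℝ) ≤ Real.exp (κ * m) := Real.one_le_exp (by positivity)
      nlinarith [norm_nonneg (L x u)]
    calc ‖L x u‖ ≤ _ := k6
      _ ≤ _ := k5
      _ = _ := by ring
  have h2 : Tendsto (fun m : ℕ => (C * C * (‖L x (s + u)‖ + ‖L x s‖)) *
      Real.exp (-(κ * m))) atTop (𝓝 0) := by
    have k1 : Tendsto (fun m : ℕ => κ * (m : ℝ)) atTop atTop :=
      tendsto_natCast_atTop_atTop.const_mul_atTop hκ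
    have k2 := (Real.tendsto_exp_neg_atTop_nhds_zero.comp k1).const_mul
      (C * C * (‖L x (s + u)‖ + ‖L x s‖))
    simpa using k2
  have h3 : ‖L x u‖ ≤ 0 := ge_of_tendsto' h2 h1
  have h4 : u = 0 := by
    apply hinj
    rw [map_zero]
    exact norm_le_zero_iff.1 h3
  rw [h4, add_zero]
  exact hs

theorem Spl.closed_s {F : N → N} (hF : ContMDiff (𝓡 n) (𝓡 n) 1 F) {ι : N → E'}
    (hι : ContMDiff (𝓡 n) 𝓘(ℝ, E') 1 ι) {K : Set N}
    (hinj : ∀ x ∈ K, Function.Injective (dE (n := n) ι x)) {P S U : N → Submodule ℝ (V n)}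
    {κ C : ℝ} (h : Spl F K (dE (n := n) ι) P S U κ C) {z : N} (hz : z ∈ K) {w : V n}
    (hw : w ∈ P z) (hcl : (z, dE (n := n) ι z w) ∈
      closure {p : N × E' | ∃ x ∈ K, ∃ v : V n, v ∈ S x ∧ p = (x, dE (n := n) ι x v)}) :
    w ∈ S z := by
  have hreg : ∀ {a : N → E'}, ContMDiff (𝓡 n) 𝓘(ℝ, E') 1 a → Reg (n := n) a z :=
    fun ha => ⟨univ, univ_mem, ha.contMDiffOn⟩
  rw [mem_closure_iff_comap_neBot] at hcl
  set T : Set (N × E') := {p | ∃ x ∈ K, ∃ v : V n, v ∈ S x ∧ p = (x, dE (n := n) ι x v)} with hT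
  set l : Filter T := comap Subtype.val (𝓝 (z, dE (n := n) ι z w)) with hl
  have hp : ∀ p : T, ∃ x ∈ K, ∃ v : V n, v ∈ S x ∧ (p : N × E') = (x, dE (n := n) ι x v) :=
    fun p => p.2
  choose x hx v hv hxv using hp
  have t0 : Tendsto (fun p : T => (p : N × E')) l (𝓝 (z, dE (n := n) ι z w)) := tendsto_comap
  have t1 : Tendsto x l (𝓝 z) := by
    have := (continuous_fst.tendsto _).comp t0
    refine this.congr fun p => ?_
    simp only [Function.comp_apply]
    rw [hxv p]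
  have t2 : Tendsto (fun p => dE (n := n) ι (x p) (v p)) l (𝓝 (dE (n := n) ι z w)) := by
    have := (continuous_snd.tendsto _).comp t0
    refine this.congr fun p => ?_
    simp only [Function.comp_apply]
    rw [hxv p]
  refine h.mem_s hz (hinj z hz) hw fun m => ?_
  have t3 := (dE_tendsto (hreg (hι.comp (iter_c1 hF m))) (hreg hι) (hinj z hz) t1 t2).norm
  have t4 := t2.norm.const_mul (C * Real.exp (-(κ * m)))
  rw [dE_iter hF hι] at t3
  refine le_of_tendsto_of_tendsto t3 t4 (Eventually.of_forall fun p => ?_)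
  simp only
  rw [dE_iter hF hι]
  exact h.contr (x p) (hx p) m (v p) (hv p)

theorem Spl.flip {F G : N → N} (hF : MDifferentiable (𝓡 n) (𝓡 n) F)
    (hG : MDifferentiable (𝓡 n) (𝓡 n) G) (hFG : ∀ x, F (G x) = x) {K : Set N}
    (hK' : ∀ x ∈ K, G x ∈ K) {L : N → V n →L[ℝ] E'} {P S U : N → Submodule ℝ (V n)} {κ C : ℝ}
    (h : Spl F K L P S U κ C) : Spl G K L P U S κ C where
  κ_pos := h.κ_pos
  C_pos := h.C_pos
  inf := fun x hx => by rw [inf_comm]; exact h.inf x hx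
  sup := fun x hx => by rw [sup_comm]; exact h.sup x hx
  inv_s := iff_flip hF hG hFG hK' h.inv_u
  inv_u := iff_flip hF hG hFG hK' h.inv_s
  contr := flipE hG hF hFG hK' (P := fun x v => v ∈ U x) (fun y hy w hw => (h.inv_u y hy w).2 hw)
    h.expand
  expand := flipC hG hF hFG hK' (P := fun x v => v ∈ S x) (fun y hy w hw => (h.inv_s y hy w).2 hw)
    h.contr

end

end Pool.Agent.Helper21S
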