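import Pool.Agent.Helper21S.Flg3

/-!
# Project ST: hyperbolic sets from conformal flags of the normal bundle, general norms
-/

set_option autoImplicit false
set_option linter.unusedSectionVars false

open scoped Manifold ContDiff Topology
open Filter Set Metric

universe u v

namespace Pool.Agent.Helper21S

open Pool.Agent.H718R2.G Pool.Agent.Y504.CO Pool.Agent.TH80.OMS Pool.Agent.W564.SC
  Pool.Agent.W74.SC

section

variable {n : ℕ} {N : Type u} [TopologicalSpace N] [ChartedSpace (V n) N] [IsManifold (𝓡 n) ∞ N]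
  [T2Space N] [CompactSpace N] {r : ℕ∞}

/-- the flag theorem, contraction or expansion of the quotients -/
theorem flag_ce2 (hr : 1 ≤ r) {F : DiffM n N r} (hF : OmegaStable n N r F) {Y : Type v}
    [MetricSpace Y] [CompactSpace Y] {h : Y → Y} (hh : Continuous h) (hsh : PerShadow h)
    (ht : ChainTrans h) {Θ : Y → N} (hΘ : Continuous Θ) (hconj : ∀ y, F (Θ y) = Θ (h y))
    {E : ℕ → N → Submodule ℝ (V n)} {q : ℕ}
    (hS : ∀ z ∈ range Θ, LocSub n (range Θ) (E 0) z)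
    (hinv : ∀ j ≤ q, ∀ x ∈ range Θ, ∀ v, v ∈ E j x ↔ dm F x v ∈ E j (F x))
    (hlt : ∀ j < q, ∀ x ∈ range Θ, E j x < E (j + 1) x) {ν : ℕ → N → Seminorm ℝ (V n)}
    (hν : ∀ j < q, ∀ x ∈ range Θ, ∀ v ∈ E (j + 1) x, ν j x v = 0 ↔ v ∈ E j x)
    {a : ℕ → N → ℝ} (hac : ∀ j < q, ContinuousOn (a j) (range Θ))
    (ha : ∀ j < q, ∀ x ∈ range Θ, 0 < a j x)
    (hconf : ∀ j < q, ∀ x ∈ range Θ, ∀ v ∈ E (j + 1) x,
      ν j (F x) (dm F x v) = a j x * ν j x v) (j : ℕ) (hj : j < q) :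
    ∃ κ : ℝ, 0 < κ ∧ ∃ C : ℝ, 0 < C ∧
      ((∀ x ∈ range Θ, ∀ (m : ℕ), ∀ v ∈ E (j + 1) x,
        ν j (F^[m] x) (dm F^[m] x v) ≤ C * Real.exp (-(κ * m)) * ν j x v) ∨
      ∀ x ∈ range Θ, ∀ (m : ℕ), ∀ v ∈ E (j + 1) x,
        Real.exp (κ * m) * ν j x v ≤ C * ν j (F^[m] x) (dm F^[m] x v)) := by
  have hmono : ∀ x ∈ range Θ, ∀ i ≤ q, E 0 x ≤ E i x := by
    intro x hx i
    induction i with
    | zero => intro _; exact le_rfl
    | succ i ih => intro hi; exact (ih (by omega)).trans (hlt i (by omega) x hx).le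
  exact subquotG hr hF hh hsh ht hΘ hconj (E₀ := E 0) (E := E j) (P := E (j + 1))
    (ν := ν j) (a := a j) hS (fun x hx v hv => (hinv 0 (by omega) x hx v).1 hv)
    (fun x hx => hmono x hx j hj.le) (fun x hx v hv => (hinv j hj.le x hx v).1 hv)
    (fun x hx v hv => (hinv (j + 1) hj x hx v).1 hv) (fun x hx => hlt j hj x hx)
    (hν j hj) (hac j hj) (ha j hj) (hconf j hj)

/-- the flag theorem, hyperbolicity -/
theorem flag_hyp2 (hr : 1 ≤ r) {F : DiffM n N r} (hF : OmegaStable n N r F) {Y : Type v}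
    [MetricSpace Y] [CompactSpace Y] {h : Y → Y} (hh : Continuous h) (hsh : PerShadow h)
    (ht : ChainTrans h) {Θ : Y → N} (hΘ : Continuous Θ) (hconj : ∀ y, F (Θ y) = Θ (h y))
    {E : ℕ → N → Submodule ℝ (V n)} {q : ℕ}
    (hS : ∀ z ∈ range Θ, LocSub n (range Θ) (E 0) z)
    (hinv : ∀ j ≤ q, ∀ x ∈ range Θ, ∀ v, v ∈ E j x ↔ dm F x v ∈ E j (F x))
    (hlt : ∀ j < q, ∀ x ∈ range Θ, E j x < E (j + 1) x) {ν : ℕ → N → Seminorm ℝ (V n)}
    (hν : ∀ j < q, ∀ x ∈ range Θ, ∀ v ∈ E (j + 1) x, ν j x v = 0 ↔ v ∈ E j x)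
    {a : ℕ → N → ℝ} (hac : ∀ j < q, ContinuousOn (a j) (range Θ))
    (ha : ∀ j < q, ∀ x ∈ range Θ, 0 < a j x)
    (hconf : ∀ j < q, ∀ x ∈ range Θ, ∀ v ∈ E (j + 1) x,
      ν j (F x) (dm F x v) = a j x * ν j x v)
    {p : ℕ} {ι : N → V p} (hι : ContMDiff (𝓡 n) (𝓡 p) 1 ι)
    (hinj : ∀ x ∈ range Θ, Function.Injective (dE (n := n) ι x)) {B : ℝ}
    (hB : ∀ j < q, ∀ x ∈ range Θ, ∀ v ∈ E (j + 1) x, ν j x v ≤ B * ‖dE (n := n) ι x v‖ ∧
      ∃ e ∈ E j x, ‖dE (n := n) ι x (v - e)‖ ≤ B * ν j x v)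
    (h0 : ∃ (S U : N → Submodule ℝ (V n)) (κ C : ℝ),
      Spl F (range Θ) (dE (n := n) ι) (E 0) S U κ C) :
    ∀ j ≤ q, ∃ (S U : N → Submodule ℝ (V n)) (κ C : ℝ),
      Spl F (range Θ) (dE (n := n) ι) (E j) S U κ C := by
  have hK : ∀ x ∈ range Θ, F x ∈ range Θ := by
    rintro _ ⟨y, rfl⟩
    exact ⟨h y, (hconj y).symm⟩
  have hK' : ∀ x ∈ range Θ, F.symm x ∈ range Θ := by
    rintro _ ⟨y, rfl⟩
    obtain ⟨y', rfl⟩ := mem_of_chain hh ht y
    refine ⟨y', ?_⟩
    rw [← hconj]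
    exact (F.symm_apply_apply _).symm
  have hKi : ∀ m : ℕ, ∀ x ∈ range Θ, F^[m] x ∈ range Θ := by
    intro m
    induction m with
    | zero => intro x hx; exact hx
    | succ m ih =>
      intro x hx
      rw [Function.iterate_succ_apply]
      exact ih _ (hK x hx)
  have hKc : IsCompact (range Θ) := isCompact_range hΘ
  have hreg : ∀ {a : N → V p}, ContMDiff (𝓡 n) (𝓡 p) 1 a → ∀ z ∈ range Θ, Reg (n := n) a z :=
    fun ha z _ => ⟨univ, univ_mem, ha.contMDiffOn⟩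
  have hF1 : ∀ F : DiffM n N r, ContMDiff (𝓡 n) (𝓡 n) 1 F := fun F =>
    F.contMDiff.of_le
      (show ((1 : ℕ∞) : WithTop ℕ∞) ≤ (r : WithTop ℕ∞) from WithTop.coe_le_coe.mpr hr)
  obtain ⟨Ca, hCa, hca⟩ := compare hKc (hreg (hι.comp (hF1 F))) (hreg hι) hinj
  obtain ⟨Cb, hCb, hcb⟩ := compare hKc (hreg (hι.comp (hF1 F.symm))) (hreg hι) hinj
  set A : ℝ := max B 1 with hA
  have hA1 : 1 ≤ A := le_max_right _ _
  have hA0 : 0 < A := by linarith
  -- the two norms of the quotients are comparable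
  have q1 : ∀ j < q, ∀ x ∈ range Θ, ∀ v ∈ E (j + 1) x,
      ν j x v ≤ A * ‖qm (dE (n := n) ι x) (E j x) v‖ := by
    intro j hj x hx v hv
    obtain ⟨e, he, hle⟩ := qm_lift (dE (n := n) ι x) (E j x) v
    have hel : e ∈ E (j + 1) x := (hlt j hj x hx).le he
    have h1 : ν j x e = 0 := (hν j hj x hx e hel).2 he
    have h2 : ν j x v ≤ ν j x (v - e) := by
      have := map_add_le_add (ν j x) (v - e) e
      rw [sub_add_cancel, h1, add_zero] at this
      exact this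
    have h3 := (hB j hj x hx (v - e) (sub_mem hv hel)).1
    rw [hle] at h3
    exact h2.trans (h3.trans (mul_le_mul_of_nonneg_right (le_max_left _ _) (norm_nonneg _)))
  have q2 : ∀ j < q, ∀ x ∈ range Θ, ∀ v ∈ E (j + 1) x,
      ‖qm (dE (n := n) ι x) (E j x) v‖ ≤ A * ν j x v := by
    intro j hj x hx v hv
    obtain ⟨e, he, hle⟩ := (hB j hj x hx v hv).2
    have h1 : qm (dE (n := n) ι x) (E j x) v = qm (dE (n := n) ι x) (E j x) (v - e) := by
      rw [map_sub, (qm_zero (hinj x hx) _ e).2 he, sub_zero]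
    rw [h1]
    exact (qm_le _ _ _).trans (hle.trans
      (mul_le_mul_of_nonneg_right (le_max_left _ _) (apply_nonneg _ _)))
  intro j
  induction j with
  | zero => intro _; exact h0
  | succ j ih =>
    intro hj
    obtain ⟨S, U, κ₀, C₀, h1⟩ := ih (by omega)
    obtain ⟨κ₁, hκ₁, C₁', hC₁', h2'⟩ := flag_ce2 hr hF hh hsh ht hΘ hconj hS hinv hlt hν hac ha hconf
      j (by omega)
    set C₁ : ℝ := A * C₁' * A with hC₁e
    have hC₁ : 0 < C₁ := by positivity
    have memP : ∀ x ∈ range Θ, ∀ m : ℕ, ∀ v ∈ E (j + 1) x, dm F^[m] x v ∈ E (j + 1) (F^[m] x) :=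
      fun x hx m v hv => (iff_iter (diffM_mdiff hr F) hK (fun x hx v => hinv (j + 1) hj x hx v)
        m x hx v).1 hv
    have h2 : (∀ x ∈ range Θ, ∀ (m : ℕ), ∀ v ∈ E (j + 1) x,
        ‖qm (dE (n := n) ι (F^[m] x)) (E j (F^[m] x)) (dm F^[m] x v)‖ ≤
          C₁ * Real.exp (-(κ₁ * m)) * ‖qm (dE (n := n) ι x) (E j x) v‖) ∨
      ∀ x ∈ range Θ, ∀ (m : ℕ), ∀ v ∈ E (j + 1) x,
        Real.exp (κ₁ * m) * ‖qm (dE (n := n) ι x) (E j x) v‖ ≤
          C₁ * ‖qm (dE (n := n) ι (F^[m] x)) (E j (F^[m] x)) (dm F^[m] x v)‖ := by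
      rcases h2' with h2' | h2'
      · left
        intro x hx m v hv
        have e1 := q2 j (by omega) _ (hKi m x hx) _ (memP x hx m v hv)
        have e2 := h2' x hx m v hv
        have e3 := q1 j (by omega) x hx v hv
        have e4 := Real.exp_pos (-(κ₁ * (m : ℝ)))
        calc _ ≤ A * ν j (F^[m] x) (dm F^[m] x v) := e1
          _ ≤ A * (C₁' * Real.exp (-(κ₁ * m)) * ν j x v) := mul_le_mul_of_nonneg_left e2 hA0.le
          _ ≤ A * (C₁' * Real.exp (-(κ₁ * m)) * (A * ‖qm (dE (n := n) ι x) (E j x) v‖)) := by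
            gcongr
          _ = _ := by rw [hC₁e]; ring
      · right
        intro x hx m v hv
        have e1 := q1 j (by omega) _ (hKi m x hx) _ (memP x hx m v hv)
        have e2 := h2' x hx m v hv
        have e3 := q2 j (by omega) x hx v hv
        have e4 := Real.exp_pos (κ₁ * (m : ℝ))
        calc _ ≤ Real.exp (κ₁ * m) * (A * ν j x v) := mul_le_mul_of_nonneg_left e3 e4.le
          _ = A * (Real.exp (κ₁ * m) * ν j x v) := by ring
          _ ≤ A * (C₁' * ν j (F^[m] x) (dm F^[m] x v)) := mul_le_mul_of_nonneg_left e2 hA0.le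
          _ ≤ A * (C₁' * (A * ‖qm (dE (n := n) ι (F^[m] x)) (E j (F^[m] x)) (dm F^[m] x v)‖)) := by
            gcongr
          _ = _ := by rw [hC₁e]; ring
    have hC₀ := h1.C_pos
    set C : ℝ := 1 + C₀ + C₁ + Ca + Cb with hC
    refine flag_step (κ := min κ₀ κ₁) (C := C) (G := F.symm) (L := dE (n := n) ι)
      (Q := fun x => qm (dE (n := n) ι x) (E j x)) (S := S) (U := U) (P := E (j + 1))
      (lt_min h1.κ_pos hκ₁) (by linarith) (diffM_mdiff hr F)
      (symm_mdiff hr F) (fun x => F.symm_apply_apply x) (fun x => F.apply_symm_apply x) hK hK'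
      hinj ?_ ?_ (fun x hx v => hinv (j + 1) hj x hx v) h1.inv_s h1.inv_u ?_ ?_ ?_ ?_ ?_ ?_ ?_
    · intro x hx v _
      rw [h1.sup x hx]
      exact qm_zero (hinj x hx) _ _
    · intro x hx
      rw [h1.sup x hx]
      exact (hlt j (by omega) x hx).le
    · intro x hx m v hv
      exact contr_mono (min_le_left _ _) hC₀.le (by linarith) m (norm_nonneg _)
        (h1.contr x hx m v hv)
    · intro x hx m v hv
      exact expd_mono (min_le_left _ _) (by linarith) m (norm_nonneg _) (norm_nonneg _)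
        (h1.expand x hx m v hv)
    · intro x hx v
      rw [← dE_comp hr (hreg hι _ (hK x hx))]
      exact (hca x hx v).trans (mul_le_mul_of_nonneg_right (by linarith) (norm_nonneg _))
    · intro x hx v
      rw [← dE_comp (F := F.symm) hr (hreg hι _ (hK' x hx))]
      exact (hcb x hx v).trans (mul_le_mul_of_nonneg_right (by linarith) (norm_nonneg _))
    · intro x hx v
      refine (qm_le _ _ _).trans ?_
      have : (1 : ℝ) ≤ C := by linarith
      nlinarith [norm_nonneg (dE (n := n) ι x v)]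
    · intro x hx v _
      rw [h1.sup x hx]
      obtain ⟨e, he, hle⟩ := qm_lift (dE (n := n) ι x) (E j x) v
      refine ⟨e, he, ?_⟩
      rw [hle]
      have : (1 : ℝ) ≤ C := by linarith
      nlinarith [norm_nonneg (qm (dE (n := n) ι x) (E j x) v)]
    · rcases h2 with h2 | h2
      · left
        intro x hx m v hv
        exact contr_mono (min_le_right _ _) hC₁.le (by linarith) m (norm_nonneg _) (h2 x hx m v hv)
      · right
        intro x hx m v hv
        exact expd_mono (min_le_right _ _) (by linarith) m (norm_nonneg _) (norm_nonneg _)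
          (h2 x hx m v hv)

end

end Pool.Agent.Helper21S
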