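import Pool.Agent.Helper21S.Cts
import Pool.Agent.Helper21S.Flg4

/-!
# Project ST: hyperbolic splittings over shadowing factors are closed
-/

set_option autoImplicit false
set_option linter.unusedSectionVars false

open scoped Manifold ContDiff Topology
open Filter Set Metric

universe u v

namespace Pool.Agent.Helper21S

open Pool.Agent.H718R2.G Pool.Agent.Y504.CO Pool.Agent.TH80.OMS Pool.Agent.W564.SC
  Pool.Agent.W74.SC

section

variable {n : ℕ} {N : Type u} [TopologicalSpace N] [ChartedSpace (V n) N] [IsManifold (𝓡 n) ∞ N]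
  [T2Space N] [CompactSpace N] {r : ℕ∞} {E' : Type*} [NormedAddCommGroup E'] [NormedSpace ℝ E']

theorem spl_closed (hr : 1 ≤ r) {F : DiffM n N r} {Y : Type v}
    [MetricSpace Y] [CompactSpace Y] {h : Y → Y} (hh : Continuous h)
    (ht : ChainTrans h) {Θ : Y → N} (hconj : ∀ y, F (Θ y) = Θ (h y))
    {ι : N → E'} (hι : ContMDiff (𝓡 n) 𝓘(ℝ, E') 1 ι)
    (hinj : ∀ x ∈ range Θ, Function.Injective (dE (n := n) ι x))
    {P S U : N → Submodule ℝ (V n)} {κ C : ℝ}
    (hs : Spl F (range Θ) (dE (n := n) ι) P S U κ C) :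
    (∀ z ∈ range Θ, ∀ w, w ∈ P z → (z, dE (n := n) ι z w) ∈
      closure {p : N × E' | ∃ x ∈ range Θ, ∃ v : V n, v ∈ S x ∧ p = (x, dE (n := n) ι x v)} →
      w ∈ S z) ∧
    ∀ z ∈ range Θ, ∀ w, w ∈ P z → (z, dE (n := n) ι z w) ∈
      closure {p : N × E' | ∃ x ∈ range Θ, ∃ v : V n, v ∈ U x ∧ p = (x, dE (n := n) ι x v)} →
      w ∈ U z := by
  have hK' : ∀ x ∈ range Θ, F.symm x ∈ range Θ := by
    rintro _ ⟨y, rfl⟩
    obtain ⟨y', rfl⟩ := mem_of_chain hh ht y
    refine ⟨y', ?_⟩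
    rw [← hconj]
    exact (F.symm_apply_apply _).symm
  have hF1 : ∀ F : DiffM n N r, ContMDiff (𝓡 n) (𝓡 n) 1 F := fun F =>
    F.contMDiff.of_le
      (show ((1 : ℕ∞) : WithTop ℕ∞) ≤ (r : WithTop ℕ∞) from WithTop.coe_le_coe.mpr hr)
  have hs' := hs.flip (G := F.symm) (diffM_mdiff hr F) (symm_mdiff hr F)
    (fun x => F.apply_symm_apply x) hK'
  exact ⟨fun z hz w hw hcl => hs.closed_s (hF1 F) hι hinj hz hw hcl,
    fun z hz w hw hcl => hs'.closed_s (hF1 F.symm) hι hinj hz hw hcl⟩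

end

end Pool.Agent.Helper21S
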