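import Pool.Agent.Helper21S.Lin

/-!
# Project ST: eigenvalues of conformal subquotients
-/

set_option autoImplicit false

open scoped Manifold ContDiff Topology
open Filter

universe u v

namespace Pool.Agent.Helper21S

open Pool.Agent.H718R2.G

section gen

variable {W : Type u} [AddCommGroup W] [Module ℝ W]

theorem aeval_left' (A : W →ₗ[ℝ] W) (l : W →ₗ[ℝ] ℂ) (μ : ℂ)
    (h : ∀ v, l (A v) = μ * l v) (p : Polynomial ℝ) (v : W) :
    l (Polynomial.aeval A p v) = Polynomial.aeval μ p * l v := by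
  induction p using Polynomial.induction_on' generalizing v with
  | add p q hp hq =>
    rw [map_add, LinearMap.add_apply, map_add, hp, hq, map_add, add_mul]
  | monomial k a =>
    rw [Polynomial.aeval_monomial, Polynomial.aeval_monomial]
    have hk : ∀ (k : ℕ) (v : W), l ((A ^ k) v) = μ ^ k * l v := by
      intro k
      induction k with
      | zero => intro v; simp
      | succ k ih =>
        intro v
        rw [pow_succ, Module.End.mul_apply, ih, h, pow_succ]
        ring
    rw [Module.End.mul_apply, Module.algebraMap_end_apply, map_smul, hk]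
    rw [Complex.coe_algebraMap, mul_assoc, Complex.real_smul]

theorem aeval_intertwine {W' : Type v} [AddCommGroup W'] [Module ℝ W'] (A : W →ₗ[ℝ] W)
    (T : W' →ₗ[ℝ] W') (j : W →ₗ[ℝ] W') (h : ∀ w, T (j w) = j (A w)) (p : Polynomial ℝ) (w : W) :
    Polynomial.aeval T p (j w) = j (Polynomial.aeval A p w) := by
  induction p using Polynomial.induction_on' generalizing w with
  | add p q hp hq =>
    rw [map_add, map_add, LinearMap.add_apply, LinearMap.add_apply, map_add, hp, hq]
  | monomial k a =>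
    rw [Polynomial.aeval_monomial, Polynomial.aeval_monomial]
    have hk : ∀ (k : ℕ) (w : W), (T ^ k) (j w) = j ((A ^ k) w) := by
      intro k
      induction k with
      | zero => intro w; simp
      | succ k ih =>
        intro w
        rw [pow_succ, Module.End.mul_apply, h, ih, pow_succ, Module.End.mul_apply]
    rw [Module.End.mul_apply, Module.End.mul_apply, Module.algebraMap_end_apply,
      Module.algebraMap_end_apply, hk, map_smul]

variable [FiniteDimensional ℝ W]

theorem exists_left' (A : W →ₗ[ℝ] W) (μ : ℂ)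
    (h : ((LinearMap.charpoly A).map (algebraMap ℝ ℂ)).IsRoot μ) :
    ∃ l : W →ₗ[ℝ] ℂ, l ≠ 0 ∧ ∀ v, l (A v) = μ * l v := by
  classical
  set b := Module.finBasis ℝ W with hb
  set M : Matrix (Fin (Module.finrank ℝ W)) (Fin (Module.finrank ℝ W)) ℝ :=
    LinearMap.toMatrix b b A with hM
  have hc : (LinearMap.charpoly A) = M.charpoly := by
    rw [hM, LinearMap.charpoly_toMatrix]
  rw [hc, ← Matrix.charpoly_map, Polynomial.IsRoot.def, Matrix.eval_charpoly] at h
  obtain ⟨w, hw, hw0⟩ := Matrix.exists_vecMul_eq_zero_iff.2 h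
  refine ⟨∑ i, w i • (Complex.ofRealCLM.toLinearMap.comp (b.coord i)), ?_, ?_⟩
  · intro h0
    apply hw
    funext i
    have h1 := congrArg (fun l : W →ₗ[ℝ] ℂ => l (b i)) h0
    simp only [LinearMap.sum_apply, LinearMap.smul_apply, LinearMap.comp_apply,
      LinearMap.zero_apply, Module.Basis.coord_apply, Module.Basis.repr_self] at h1
    rw [Finset.sum_eq_single i] at h1
    · simpa using h1
    · intro j _ hj
      simp [hj.symm]
    · simp
  · intro v
    have h1 : ∀ i, b.repr (A v) i = ∑ j, M i j * b.repr v j := by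
      intro i
      have := LinearMap.toMatrix_mulVec_repr b b A v
      have h2 := congrFun this i
      rw [← hM] at h2
      simpa [Matrix.mulVec, dotProduct] using h2.symm
    have h3 : ∀ j, ∑ i, w i * (M i j : ℂ) = μ * w j := by
      intro j
      have h4 := congrFun hw0 j
      simp only [Matrix.vecMul, dotProduct, Matrix.sub_apply, Matrix.scalar_apply,
        Matrix.map_apply, Pi.zero_apply, mul_sub, Finset.sum_sub_distrib] at h4
      rw [sub_eq_zero] at h4
      rw [Complex.coe_algebraMap] at h4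
      rw [← h4, Finset.sum_eq_single j]
      · simp [mul_comm]
      · intro i _ hij
        simp [hij]
      · simp
    simp only [LinearMap.sum_apply, LinearMap.smul_apply, LinearMap.comp_apply,
      Module.Basis.coord_apply, smul_eq_mul]
    have h5 : ∀ i, Complex.ofRealCLM.toLinearMap (b.repr (A v) i) =
        ∑ j, (M i j : ℂ) * (b.repr v j : ℂ) := by
      intro i
      rw [h1]
      simp
    simp only [h5, Finset.mul_sum]
    rw [Finset.sum_comm]
    refine Finset.sum_congr rfl fun j _ => ?_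
    have h6 : Complex.ofRealCLM.toLinearMap (b.repr v j) = (b.repr v j : ℂ) := rfl
    rw [h6, ← mul_assoc, ← h3, Finset.sum_mul]
    refine Finset.sum_congr rfl fun i _ => ?_
    ring

/-- Eigenvalues of conformal linear maps. -/
theorem conf_eig (ν : Seminorm ℝ W) (hν : ∀ w, ν w = 0 → w = 0) (A : W →ₗ[ℝ] W) {c : ℝ}
    (hc : 0 < c) (hA : ∀ w, ν (A w) = c * ν w) (l : W →ₗ[ℝ] ℂ) (hl : l ≠ 0) (μ : ℂ)
    (h : ∀ w, l (A w) = μ * l w) : ‖μ‖ = c := by
  let _ : Norm W := ⟨ν⟩
  have hcore : NormedSpace.Core ℝ W :=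
    { norm_nonneg := fun w => apply_nonneg ν w
      norm_smul := fun a w => map_smul_eq_mul ν a w
      norm_triangle := fun v w => map_add_le_add ν v w
      norm_eq_zero_iff := fun w => ⟨hν w, fun h => by rw [h]; exact map_zero ν⟩ }
  let _ : NormedAddCommGroup W := NormedAddCommGroup.ofCore hcore
  let _ : NormedSpace ℝ W := NormedSpace.ofCore hcore
  have hA' : ∀ w : W, ‖A w‖ = c * ‖w‖ := hA
  obtain ⟨w₀, hw₀⟩ : ∃ v, l v ≠ 0 := by
    by_contra hcon
    push Not at hcon
    exact hl (LinearMap.ext hcon)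
  set L : W →L[ℝ] ℂ := LinearMap.toContinuousLinearMap l with hL
  have hLb : ∀ w, ‖l w‖ ≤ ‖L‖ * ‖w‖ := fun w => L.le_opNorm w
  have hpow : ∀ (k : ℕ) (w : W), l ((A ^ k) w) = μ ^ k * l w := by
    intro k
    induction k with
    | zero => intro w; simp
    | succ k ih =>
      intro w
      rw [pow_succ, Module.End.mul_apply, ih, h, pow_succ]
      ring
  have hnorm : ∀ (k : ℕ) (w : W), ‖(A ^ k) w‖ = c ^ k * ‖w‖ := by
    intro k
    induction k with
    | zero => intro w; simp
    | succ k ih =>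
      intro w
      rw [pow_succ, Module.End.mul_apply, ih, hA', pow_succ]
      ring
  have hinj : Function.Injective A := by
    rw [injective_iff_map_eq_zero]
    intro w hw
    have h1 := hA' w
    rw [hw, norm_zero] at h1
    rcases mul_eq_zero.1 h1.symm with h2 | h2
    · exact absurd h2 hc.ne'
    · exact norm_eq_zero.1 h2
  have hsurj : Function.Surjective A := LinearMap.surjective_of_injective hinj
  have hsurjk : ∀ k : ℕ, Function.Surjective (A ^ k : W →ₗ[ℝ] W) := by
    intro k
    rw [Module.End.coe_pow]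
    exact hsurj.iterate k
  have hl0 : 0 < ‖l w₀‖ := norm_pos_iff.2 hw₀
  have hLw : 0 < ‖L‖ * ‖w₀‖ := hl0.trans_le (hLb w₀)
  apply le_antisymm
  · by_contra hcon
    push Not at hcon
    have h1 : 1 < ‖μ‖ / c := by rwa [one_lt_div hc]
    obtain ⟨k, hk⟩ := pow_unbounded_of_one_lt (‖L‖ * ‖w₀‖ / ‖l w₀‖) h1
    have h2 := hLb ((A ^ k) w₀)
    rw [hpow, hnorm, norm_mul, norm_pow] at h2
    rw [div_pow, div_lt_div_iff₀ hl0 (by positivity)] at hk
    nlinarith
  · by_contra hcon
    push Not at hcon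
    have h1 : ‖μ‖ / c < 1 := by rwa [div_lt_one hc]
    obtain ⟨k, hk⟩ := exists_pow_lt_of_lt_one (show 0 < ‖l w₀‖ / (‖L‖ * ‖w₀‖) by positivity) h1
    obtain ⟨w, hw⟩ := hsurjk k w₀
    have h2 := hnorm k w
    have h3 := hpow k w
    rw [hw] at h2 h3
    have h4 := hLb w
    have h5 : ‖l w₀‖ = ‖μ‖ ^ k * ‖l w‖ := by rw [h3, norm_mul, norm_pow]
    rw [div_pow, div_lt_div_iff₀ (by positivity) (by positivity)] at hk
    have h6 : c ^ k * ‖l w₀‖ ≤ ‖μ‖ ^ k * (‖L‖ * ‖w₀‖) := by
      rw [h5, h2]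
      calc c ^ k * (‖μ‖ ^ k * ‖l w‖) ≤ c ^ k * (‖μ‖ ^ k * (‖L‖ * ‖w‖)) := by gcongr
        _ = ‖μ‖ ^ k * (‖L‖ * (c ^ k * ‖w‖)) := by ring
    linarith

/-- If `B` preserves `E < P` and is conformal on `P / E` with the factor `c`, then `B` has on `W / E`
an eigenvalue of modulus `c`. -/
theorem subquot_eig (B : W →ₗ[ℝ] W) (E P : Submodule ℝ W) (hEP : E < P)
    (hE : ∀ v ∈ E, B v ∈ E) (hP : ∀ v ∈ P, B v ∈ P) (ν : Seminorm ℝ W)
    (hν : ∀ v ∈ P, ν v = 0 ↔ v ∈ E) {c : ℝ} (hc : 0 < c) (hB : ∀ v ∈ P, ν (B v) = c * ν v) :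
    ∃ (l : W →ₗ[ℝ] ℂ) (μ : ℂ), l ≠ 0 ∧ (∀ v ∈ E, l v = 0) ∧ (∀ v, l (B v) = μ * l v) ∧
      ‖μ‖ = c := by
  obtain ⟨E', hE'⟩ := E.exists_isCompl
  -- the projection onto `E'` along `E`
  obtain ⟨π, hπE, hπE', hπr, hπd⟩ : ∃ π : W →ₗ[ℝ] W, (∀ v ∈ E, π v = 0) ∧ (∀ v ∈ E', π v = v) ∧
      (∀ v, π v ∈ E') ∧ ∀ v, v - π v ∈ E := by
    refine ⟨E'.subtype.comp (E'.projectionOnto E hE'.symm), ?_, ?_, ?_, ?_⟩
    · intro v hv
      have := Submodule.projectionOnto_apply_right hE'.symm ⟨v, hv⟩
      simp only [LinearMap.comp_apply]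
      rw [show v = ((⟨v, hv⟩ : E) : W) from rfl, this]
      simp
    · intro v hv
      have := Submodule.projectionOnto_apply_left hE'.symm ⟨v, hv⟩
      simp only [LinearMap.comp_apply]
      rw [show v = ((⟨v, hv⟩ : E') : W) from rfl, this]
      simp
    · intro v
      exact Subtype.mem _
    · intro v
      have h1 : E'.projectionOnto E hE'.symm
          (v - (E'.projectionOnto E hE'.symm v : W)) = 0 := by
        rw [map_sub, Submodule.projectionOnto_apply_left, sub_self]
      exact (Submodule.projectionOnto_apply_eq_zero_iff hE'.symm).1 h1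
  set C : Submodule ℝ W := E' ⊓ P with hC
  have hνE : ∀ v ∈ E, ν v = 0 := fun v hv => (hν v (hEP.le hv)).2 hv
  have hπP : ∀ v ∈ P, π v ∈ C := by
    intro v hv
    refine ⟨hπr v, ?_⟩
    have h1 := hEP.le (hπd v)
    have h2 : π v = v - (v - π v) := by abel
    rw [h2]
    exact P.sub_mem hv h1
  have hνπ : ∀ v ∈ P, ν (π v) = ν v := by
    intro v _
    have h1 := hνE _ (hπd v)
    apply le_antisymm
    · have h2 : π v = v - (v - π v) := by abel
      rw [h2]
      refine (map_sub_le_add ν _ _).trans ?_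
      rw [h1, add_zero]
    · have h2 : v = π v + (v - π v) := by abel
      conv_lhs => rw [h2]
      refine (map_add_le_add ν _ _).trans ?_
      rw [h1, add_zero]
  set T : W →ₗ[ℝ] W := π.comp (B.comp π) with hT
  have hTv : ∀ v, T v = π (B (π v)) := fun v => rfl
  have hTB : ∀ v, T v = π (B v) := by
    intro v
    rw [hTv, ← sub_eq_zero, ← map_sub, ← map_sub]
    apply hπE
    apply hE
    have := E.neg_mem (hπd v)
    rwa [neg_sub] at this
  have hTC : ∀ v ∈ C, T v ∈ C := by
    intro v hv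
    rw [hTB]
    exact hπP _ (hP v hv.2)
  set A : C →ₗ[ℝ] C := T.restrict hTC with hA
  have hAv : ∀ w : C, ((A w : C) : W) = T w := fun w => rfl
  set νC : Seminorm ℝ C := ν.comp C.subtype with hνC
  have hνCw : ∀ w : C, νC w = ν (w : W) := fun w => rfl
  have hAc : ∀ w : C, νC (A w) = c * νC w := by
    intro w
    rw [hνCw, hνCw, hAv, hTB, hνπ _ (hP _ w.2.2), hB _ w.2.2]
  have hCne : C ≠ ⊥ := by
    intro h0
    obtain ⟨v, hvP, hvE⟩ := SetLike.exists_of_lt hEP
    have h1 := hπP v hvP
    rw [h0, Submodule.mem_bot] at h1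
    have h2 := hπd v
    rw [h1, sub_zero] at h2
    exact hvE h2
  obtain ⟨μ, hμ⟩ : ∃ μ : ℂ, ((LinearMap.charpoly A).map (algebraMap ℝ ℂ)).IsRoot μ := by
    apply IsAlgClosed.exists_root
    rw [Polynomial.degree_map]
    have h1 : (LinearMap.charpoly A).natDegree = Module.finrank ℝ C := LinearMap.charpoly_natDegree A
    intro h0
    have h2 : (LinearMap.charpoly A).natDegree = 0 :=
      Polynomial.natDegree_eq_zero_iff_degree_le_zero.2 h0.le
    rw [h1] at h2
    exact hCne (Submodule.finrank_eq_zero.1 h2)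
  obtain ⟨lC, hlC, hlCA⟩ := exists_left' A μ hμ
  have hμc : ‖μ‖ = c := conf_eig νC (fun w hw => by
    rw [hνCw] at hw
    have h1 := (hν _ w.2.2).1 hw
    have h2 : (w : W) ∈ E ⊓ E' := ⟨h1, w.2.1⟩
    rw [hE'.inf_eq_bot, Submodule.mem_bot] at h2
    exact Subtype.ext h2) A hc hAc lC hlC μ hlCA
  have hμ0 : μ ≠ 0 := by
    intro h0
    rw [h0, norm_zero] at hμc
    exact hc.ne hμc
  -- `μ` is an eigenvalue of `T`
  have hroot : ((LinearMap.charpoly T).map (algebraMap ℝ ℂ)).IsRoot μ := by
    obtain ⟨w, hw⟩ : ∃ w, lC w ≠ 0 := by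
      by_contra hcon
      push Not at hcon
      exact hlC (LinearMap.ext hcon)
    have h1 := aeval_intertwine A T C.subtype (fun w => rfl) (LinearMap.charpoly T) w
    rw [LinearMap.aeval_self_charpoly, LinearMap.zero_apply] at h1
    have h2 : Polynomial.aeval A (LinearMap.charpoly T) w = 0 := by
      apply Subtype.ext
      exact h1.symm
    have h3 := aeval_left' A lC μ hlCA (LinearMap.charpoly T) w
    rw [h2, map_zero] at h3
    have h4 : Polynomial.aeval μ (LinearMap.charpoly T) = 0 := by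
      rcases mul_eq_zero.1 h3.symm with h5 | h5
      · exact h5
      · exact absurd h5 hw
    rw [Polynomial.IsRoot.def, Polynomial.eval_map_algebraMap]
    exact h4
  obtain ⟨l, hl, hlT⟩ := exists_left' T μ hroot
  have hlE : ∀ v ∈ E, l v = 0 := by
    intro v hv
    have h1 := hlT v
    rw [hTv, hπE v hv, map_zero, map_zero, map_zero] at h1
    rcases mul_eq_zero.1 h1.symm with h2 | h2
    · exact absurd h2 hμ0
    · exact h2
  refine ⟨l, μ, hl, hlE, ?_, hμc⟩
  intro v
  rw [← hlT, hTB, ← sub_eq_zero, ← map_sub]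
  exact hlE _ (hπd _)

end gen

end Pool.Agent.Helper21S
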