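import Pool.Agent.Helper21S.Seven

/-!
# Project ST: periodic products with an imaginary parameter
-/

set_option autoImplicit false

open Filter Set Complex Topology

namespace Pool.Agent.Helper21S

section

variable {Y : Type*} {J : ℕ} {b : Fin J → Y → ℝ} {h : Y → Y} {α β : Y → ℂ}

theorem D_bd (h0 : ∀ j y, 0 ≤ b j y) (hb1 : ∀ j y, b j y ≤ 1) {θ : ℂ} (hθ : ‖θ‖ ≤ 1) (y : Y) :
    ‖Dp b θ y‖ ≤ 2 ^ J ∧ ‖Dm b θ y‖ ≤ 2 ^ J := by
  have h2 : ∀ j, ‖I * (b j y : ℂ) * θ‖ ≤ 1 := by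
    intro j
    rw [norm_mul, norm_mul, Complex.norm_I, Complex.norm_real, Real.norm_eq_abs,
      abs_of_nonneg (h0 j y), one_mul]
    exact mul_le_one₀ (hb1 j y) (norm_nonneg _) hθ
  constructor
  · unfold Dp
    rw [norm_prod]
    calc _ ≤ ∏ _j : Fin J, (2 : ℝ) := Finset.prod_le_prod (fun _ _ => norm_nonneg _) fun j _ => by
          refine (norm_add_le _ _).trans ?_
          rw [norm_one]
          linarith [h2 j]
      _ = 2 ^ J := by simp
  · unfold Dm
    rw [norm_prod]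
    calc _ ≤ ∏ _j : Fin J, (2 : ℝ) := Finset.prod_le_prod (fun _ _ => norm_nonneg _) fun j _ => by
          refine (norm_sub_le _ _).trans ?_
          rw [norm_one]
          linarith [h2 j]
      _ = 2 ^ J := by simp

theorem row_bd (h0 : ∀ j y, 0 ≤ b j y) (hb1 : ∀ j y, b j y ≤ 1) {A : ℝ}
    (hA : 1 ≤ A) (hA' : ∀ y, ‖α y‖ + ‖β y‖ ≤ A) {θ : ℂ} (hθ : ‖θ‖ ≤ 1) (x : ℂ × ℂ) (n : ℕ) (y : Y) :
    ‖(rm x (PP h α β b θ n y)).1‖ + ‖(rm x (PP h α β b θ n y)).2‖ ≤
      (2 ^ J * A) ^ n * (‖x.1‖ + ‖x.2‖) := by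
  induction n generalizing y with
  | zero =>
    change ‖(rm x 1).1‖ + ‖(rm x 1).2‖ ≤ _
    rw [rm_one]
    simp
  | succ n ih =>
    change ‖(rm x (PP h α β b θ n (h y) * MM α β b θ y)).1‖ +
      ‖(rm x (PP h α β b θ n (h y) * MM α β b θ y)).2‖ ≤ _
    rw [rm_mul]
    have h2 := ih (h y)
    set v := rm x (PP h α β b θ n (h y)) with hv
    obtain ⟨h3, h4⟩ := D_bd h0 hb1 hθ y
    have h5 : ‖(rm v (MM α β b θ y)).1‖ + ‖(rm v (MM α β b θ y)).2‖ ≤
        (2 ^ J * A) * (‖v.1‖ + ‖v.2‖) := by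
      unfold rm MM
      simp only [Matrix.of_apply, Matrix.cons_val', Matrix.cons_val_zero, Matrix.cons_val_one,
        Matrix.cons_val_fin_one]
      have e1 := norm_add_le (v.1 * (Dp b θ y * α y)) (v.2 * (Dm b θ y * (starRingEnd ℂ) (β y)))
      have e2 := norm_add_le (v.1 * (Dp b θ y * β y)) (v.2 * (Dm b θ y * (starRingEnd ℂ) (α y)))
      simp only [norm_mul, RCLike.norm_conj] at e1 e2
      have f1 : ‖v.1‖ * (‖Dp b θ y‖ * (‖α y‖ + ‖β y‖)) ≤ ‖v.1‖ * (2 ^ J * A) := by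
        gcongr
        exact hA' y
      have f2 : ‖v.2‖ * (‖Dm b θ y‖ * (‖α y‖ + ‖β y‖)) ≤ ‖v.2‖ * (2 ^ J * A) := by
        gcongr
        exact hA' y
      linarith
    refine h5.trans ?_
    rw [pow_succ]
    have : (0 : ℝ) ≤ 2 ^ J * A := by positivity
    calc _ ≤ (2 ^ J * A) * ((2 ^ J * A) ^ n * (‖x.1‖ + ‖x.2‖)) :=
          mul_le_mul_of_nonneg_left h2 this
      _ = _ := by ring

theorem T_bd (h0 : ∀ j y, 0 ≤ b j y) (hb1 : ∀ j y, b j y ≤ 1) {A : ℝ}
    (hA : 1 ≤ A) (hA' : ∀ y, ‖α y‖ + ‖β y‖ ≤ A) {θ : ℂ} (hθ : ‖θ‖ ≤ 1) (n : ℕ) (y : Y) :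
    ‖TT h α β b θ n y‖ ≤ 2 * (2 ^ J * A) ^ n := by
  have h1 := row_bd (h := h) h0 hb1 hA hA' hθ (1, 0) n y
  have h2 := row_bd (h := h) h0 hb1 hA hA' hθ (0, 1) n y
  unfold rm at h1 h2
  simp only [one_mul, zero_mul, add_zero, zero_add, norm_one, norm_zero, mul_one] at h1 h2
  unfold TT
  refine (norm_add_le _ _).trans ?_
  have := norm_nonneg (PP h α β b θ n y 0 1)
  have := norm_nonneg (PP h α β b θ n y 1 0)
  linarith

theorem DD_eq (θ : ℂ) (y : Y) : Dp b θ y * Dm b θ y = ∏ j, (1 + (b j y : ℂ) ^ 2 * θ ^ 2) := by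
  unfold Dp Dm
  rw [← Finset.prod_mul_distrib]
  refine Finset.prod_congr rfl fun j _ => ?_
  linear_combination (-(b j y : ℂ) ^ 2 * θ ^ 2) * Complex.I_mul_I

theorem det_low (h0 : ∀ j y, 0 ≤ b j y) (hb1 : ∀ j y, b j y ≤ 1) {δ : ℝ} (hδ : 0 < δ)
    (hδ' : ∀ y, δ ≤ ‖α y‖ ^ 2 - ‖β y‖ ^ 2) {θ : ℂ} (hθ : ‖θ‖ ≤ 3 / 4) (n : ℕ) (y : Y) :
    ((7 / 16) ^ J * δ) ^ n ≤ ‖(PP h α β b θ n y).det‖ := by
  induction n generalizing y with
  | zero =>
    change _ ≤ ‖(1 : Matrix (Fin 2) (Fin 2) ℂ).det‖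
    simp
  | succ n ih =>
    rw [det_PP_succ, norm_mul, norm_mul, pow_succ, DD_eq, norm_prod, Complex.norm_real,
      Real.norm_eq_abs, abs_of_pos (hδ.trans_le (hδ' y))]
    apply mul_le_mul (ih _) _ (by positivity) (norm_nonneg _)
    apply mul_le_mul _ (hδ' y) hδ.le (Finset.prod_nonneg fun _ _ => norm_nonneg _)
    calc ((7 : ℝ) / 16) ^ J = ∏ _j : Fin J, ((7 : ℝ) / 16) := by
          rw [Finset.prod_const, Finset.card_univ, Fintype.card_fin]
      _ ≤ _ := by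
        apply Finset.prod_le_prod (fun _ _ => by norm_num)
        intro j _
        have h3 : ‖(b j y : ℂ) ^ 2 * θ ^ 2‖ ≤ 9 / 16 := by
          rw [norm_mul, norm_pow, norm_pow, Complex.norm_real, Real.norm_eq_abs,
            abs_of_nonneg (h0 j y)]
          have e1 : b j y ^ 2 ≤ 1 := pow_le_one₀ (h0 j y) (hb1 j y)
          have e2 : ‖θ‖ ^ 2 ≤ (3 / 4) ^ 2 := by gcongr
          calc b j y ^ 2 * ‖θ‖ ^ 2 ≤ 1 * (3 / 4) ^ 2 := by gcongr
            _ = 9 / 16 := by norm_num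
        have h4 := norm_sub_norm_le (1 : ℂ) (-((b j y : ℂ) ^ 2 * θ ^ 2))
        rw [norm_neg, norm_one, sub_neg_eq_add] at h4
        linarith

theorem det_le (h0 : ∀ j y, 0 ≤ b j y) (hb1 : ∀ j y, b j y ≤ 1) {ε : ℝ} (hε : 0 ≤ ε) (hε1 : ε ≤ 1) (n : ℕ) (y : Y) :
    ‖(PP h α β b (ε * I) n y).det‖ ≤ ‖(PP h α β b 0 n y).det‖ := by
  induction n generalizing y with
  | zero => rfl
  | succ n ih =>
    rw [det_PP_succ, det_PP_succ, norm_mul, norm_mul, norm_mul _ (_ * _), norm_mul (_ * _)]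
    apply mul_le_mul (ih _) _ (by positivity) (norm_nonneg _)
    apply mul_le_mul_of_nonneg_right _ (norm_nonneg _)
    rw [DD_eq, DD_eq, norm_prod, norm_prod]
    apply Finset.prod_le_prod (fun _ _ => norm_nonneg _)
    intro j _
    have e1 : (1 : ℂ) + (b j y : ℂ) ^ 2 * (ε * I) ^ 2 = ((1 - b j y ^ 2 * ε ^ 2 : ℝ) : ℂ) := by
      push_cast
      linear_combination (b j y : ℂ) ^ 2 * ε ^ 2 * Complex.I_mul_I
    rw [e1, Complex.norm_real, Real.norm_eq_abs]
    simp only [ne_eq, OfNat.ofNat_ne_zero, not_false_eq_true, zero_pow, mul_zero, add_zero,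
      norm_one]
    have e2 : b j y ^ 2 ≤ 1 := pow_le_one₀ (h0 j y) (hb1 j y)
    have e3 : ε ^ 2 ≤ 1 := pow_le_one₀ hε hε1
    have e4 : 0 ≤ b j y ^ 2 * ε ^ 2 := by positivity
    rw [abs_le]
    constructor <;> nlinarith

theorem T_diff (n : ℕ) (y : Y) : Differentiable ℂ fun θ => TT h α β b θ n y :=
  ((isPoly_PP h α β b n y 0 0).add (isPoly_PP h α β b n y 1 1)).differentiable

theorem det_diff (n : ℕ) (y : Y) : Differentiable ℂ fun θ => (PP h α β b θ n y).det := by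
  have e1 : (fun θ => (PP h α β b θ n y).det) = fun θ =>
      PP h α β b θ n y 0 0 * PP h α β b θ n y 1 1 - PP h α β b θ n y 0 1 * PP h α β b θ n y 1 0 := by
    funext θ
    rw [Matrix.det_fin_two]
  rw [e1]
  have := (isPoly_PP h α β b n y 0 0).differentiable
  have := (isPoly_PP h α β b n y 1 1).differentiable
  have := (isPoly_PP h α β b n y 0 1).differentiable
  have := (isPoly_PP h α β b n y 1 0).differentiable
  fun_prop

/-- the bounds at `iε` for contracting and expanding periodic products -/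
theorem small_T [TopologicalSpace Y] [CompactSpace Y] (hd : CD h α β b) {κ ρ : ℝ} (hκ : 0 < κ)
    (hρ : 0 < ρ) (hρ1 : ρ ≤ 1 / 2) (hg : GapR h α β b κ ρ) : ∃ ε₀ : ℝ, 0 < ε₀ ∧ ε₀ ≤ ρ / 2 ∧
    ∀ ε : ℝ, 0 ≤ ε → ε ≤ ε₀ → ∀ (y : Y) (m : ℕ), 1 ≤ m → h^[m] y = y →
      |tr h α β b m y 0| < 1 + dt h α β b m y 0 →
      (dt h α β b m y 0 < 1 → ‖TT h α β b (ε * I) m y‖ ≤ 2 * Real.exp (-(κ / 2 * m))) ∧
      (1 < dt h α β b m y 0 → ‖TT h α β b (ε * I) m y / (PP h α β b (ε * I) m y).det‖ ≤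
        2 * Real.exp (-(κ / 2 * m))) := by
  obtain ⟨δ, A, hδ, hδ1, hA, hδ', hA'⟩ := bounds hd
  set C₀ : ℝ := 2 ^ J * A with hC₀
  set c₁ : ℝ := (7 / 16) ^ J * δ with hc₁
  have h2J : (1 : ℝ) ≤ 2 ^ J := one_le_pow₀ (by norm_num)
  have hC1 : 1 ≤ C₀ := by nlinarith
  have hc0 : 0 < c₁ := by positivity
  have hc1' : c₁ ≤ 1 := by
    have : ((7 : ℝ) / 16) ^ J ≤ 1 := pow_le_one₀ (by norm_num) (by norm_num)
    calc c₁ ≤ 1 * 1 := mul_le_mul this hδ1 hδ.le zero_le_one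
      _ = 1 := one_mul 1
  set c : ℝ := Real.log (C₀ / c₁) with hc
  have hCc : 1 ≤ C₀ / c₁ := by
    rw [le_div_iff₀ hc0]
    linarith
  have hc0' : 0 ≤ c := Real.log_nonneg hCc
  have hexpc : ∀ m : ℕ, Real.exp (c * m) = (C₀ / c₁) ^ m := by
    intro m
    rw [mul_comm, Real.exp_nat_mul, hc, Real.exp_log (by positivity)]
  refine ⟨min (ρ / 2) (κ * ρ / (6 * (κ + c))), by positivity, min_le_left _ _, ?_⟩
  intro ε hε hεε y m hm hy hu
  have hm' : (1 : ℝ) ≤ m := by exact_mod_cast hm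
  have hε1 : ε ≤ ρ / 2 := hεε.trans (min_le_left _ _)
  have hε2 : 3 * (κ + c) / ρ * ε ≤ κ / 2 := by
    have h1 := hεε.trans (min_le_right _ _)
    rw [le_div_iff₀ (by positivity)] at h1
    rw [div_mul_eq_mul_div, div_le_iff₀ hρ]
    linarith
  have hrect : ∀ z : ℂ, |z.re| ≤ ρ → 0 ≤ z.im → z.im ≤ ρ / 2 → ‖z‖ ≤ 3 / 4 := by
    intro z h1 h2 h3
    have := Complex.norm_le_abs_re_add_abs_im z
    rw [abs_of_nonneg h2] at this
    linarith
  have hexp : Real.exp (-(κ * m) + 3 * (κ * m + c * m) / ρ * ε) ≤ Real.exp (-(κ / 2 * m)) := by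
    apply Real.exp_le_exp.2
    have e1 : 3 * (κ * m + c * m) / ρ * ε = (3 * (κ + c) / ρ * ε) * m := by
      field_simp
    rw [e1]
    have := mul_le_mul_of_nonneg_right hε2 (by positivity : (0 : ℝ) ≤ m)
    linarith
  constructor
  · intro hD
    have h1 := two_const (f := fun θ => TT h α β b θ m y) (ρ := ρ) (a := κ * m) (c := c * m)
      (M := 2) hρ (by positivity) (fun z _ _ _ => (T_diff m y) z)
      (fun x hx => by
        rw [TT_real]
        obtain ⟨μ, ν, e1, e2, e3, e4⟩ := roots2 (tr h α β b m y x : ℂ) (dt h α β b m y x : ℂ)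
        have hu' := hg.class0 hκ hm hy hu hx
        have hD' := hg.class0' hκ hm hy hu hD hx
        have hDp := dt_pos (h := h) (α := α) (β := β) hd.b0 hd.lt m y x
        have key : ∀ μ : ℂ, μ ^ 2 - (tr h α β b m y x : ℂ) * μ + (dt h α β b m y x : ℂ) = 0 →
            ‖μ‖ ≤ Real.exp (-(κ * m)) := by
          intro μ hμ
          rcases hg.root hm hy hx hμ with h5 | h5
          · have h6 := jury0 hDp hD' hu' hμ
            have h7 : (1 : ℝ) ≤ Real.exp (κ * m) := Real.one_le_exp (by positivity)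
            linarith
          · exact h5
        rw [← e1]
        refine (norm_add_le _ _).trans ?_
        linarith [key μ e3, key ν e4])
      (fun z h1 h2 h3 => by
        refine (T_bd hd.b0 hd.b1 hA hA' ((hrect z h1 h2 h3).trans (by norm_num)) m y).trans ?_
        rw [hexpc]
        gcongr
        rw [le_div_iff₀ hc0]
        nlinarith) hε hε1
    beta_reduce at h1
    refine h1.trans ?_
    gcongr
  · intro hD
    have hdne : ∀ z : ℂ, ‖z‖ ≤ 3 / 4 → (PP h α β b z m y).det ≠ 0 := by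
      intro z hz h3
      have := det_low (h := h) (α := α) (β := β) hd.b0 hd.b1 hδ hδ' hz m y
      rw [h3, norm_zero] at this
      have h4 : 0 < ((7 / 16) ^ J * δ) ^ m := by positivity
      linarith
    have h1 := two_const (f := fun θ => TT h α β b θ m y / (PP h α β b θ m y).det) (ρ := ρ)
      (a := κ * m) (c := c * m)
      (M := 2) hρ (by positivity)
      (fun z h1 h2 h3 => ((T_diff m y) z).div ((det_diff m y) z) (hdne z (hrect z h1 h2 h3)))
      (fun x hx => by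
        rw [TT_real, det_real]
        obtain ⟨μ, ν, e1, e2, e3, e4⟩ := roots2 (tr h α β b m y x : ℂ) (dt h α β b m y x : ℂ)
        have hu' := hg.class0 hκ hm hy hu hx
        have hD' := hg.class2' hκ hm hy hu hD hx
        have key : ∀ μ : ℂ, μ ^ 2 - (tr h α β b m y x : ℂ) * μ + (dt h α β b m y x : ℂ) = 0 →
            μ ≠ 0 ∧ ‖μ‖⁻¹ ≤ Real.exp (-(κ * m)) := by
          intro μ hμ
          have h6 := jury2 hD' hu' hμ
          refine ⟨norm_pos_iff.1 (by linarith), ?_⟩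
          rcases hg.root hm hy hx hμ with h5 | h5
          · rw [Real.exp_neg]
            exact inv_anti₀ (Real.exp_pos _) h5
          · have h7 : Real.exp (-(κ * m)) ≤ 1 := by
              rw [Real.exp_le_one_iff]
              have : 0 ≤ κ * m := by positivity
              linarith
            linarith
        obtain ⟨k1, k2⟩ := key μ e3
        obtain ⟨k3, k4⟩ := key ν e4
        rw [← e1, ← e2]
        have e5 : (μ + ν) / (μ * ν) = ν⁻¹ + μ⁻¹ := by
          field_simp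
        rw [e5]
        refine (norm_add_le _ _).trans ?_
        rw [norm_inv, norm_inv]
        linarith)
      (fun z h1 h2 h3 => by
        rw [norm_div, hexpc, div_pow, ← mul_div_assoc]
        apply div_le_div₀ (by positivity) _ (by positivity)
        · exact det_low hd.b0 hd.b1 hδ hδ' (hrect z h1 h2 h3) m y
        · exact T_bd hd.b0 hd.b1 hA hA' ((hrect z h1 h2 h3).trans (by norm_num)) m y) hε hε1
    beta_reduce at h1
    refine h1.trans ?_
    gcongr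

end

end Pool.Agent.Helper21S
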