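import Pool.Agent.Helper21S.Ext1

/-!
# Project ST: hyperbolic extensions, cocycles
-/

set_option autoImplicit false
set_option linter.unusedSectionVars false

open Filter Topology

namespace Pool.Agent.Helper21S

variable {W W' W'' : Type*} [NormedAddCommGroup W] [NormedSpace ℝ W] [FiniteDimensional ℝ W]
  [NormedAddCommGroup W'] [NormedSpace ℝ W'] [NormedAddCommGroup W''] [NormedSpace ℝ W'']
  {X : Type*}

/-- A linear cocycle over `f` on `K` with a hyperbolic splitting `S ⊕ U` of the kernel of `G`. -/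
structure Side (κ C : ℝ) (f : X → X) (K : Set X) (D : ℕ → X → W →L[ℝ] W) (L : X → W →L[ℝ] W')
    (G : X → W →L[ℝ] W'') (S U : X → Submodule ℝ W) : Prop where
  map : ∀ x ∈ K, f x ∈ K
  zero : ∀ x ∈ K, ∀ v, D 0 x v = v
  add : ∀ (a b : ℕ), ∀ x ∈ K, ∀ v, D (a + b) x v = D a (f^[b] x) (D b x v)
  inj : ∀ x ∈ K, Function.Injective (L x)
  ker : ∀ x ∈ K, ∀ v, G x v = 0 → ∃ s ∈ S x, ∃ u ∈ U x, v = s + u
  leS : ∀ x ∈ K, ∀ v ∈ S x, G x v = 0
  leU : ∀ x ∈ K, ∀ v ∈ U x, G x v = 0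
  contr : ∀ x ∈ K, ∀ m : ℕ, ∀ v ∈ S x, ‖L (f^[m] x) (D m x v)‖ ≤ C * Real.exp (-(κ * m)) * ‖L x v‖
  expd : ∀ x ∈ K, ∀ m : ℕ, ∀ v ∈ U x, Real.exp (κ * m) * ‖L x v‖ ≤ C * ‖L (f^[m] x) (D m x v)‖
  memS : ∀ x ∈ K, ∀ m : ℕ, ∀ v ∈ S x, D m x v ∈ S (f^[m] x)
  memU : ∀ x ∈ K, ∀ m : ℕ, ∀ v ∈ U x, D m x v ∈ U (f^[m] x)
  surS : ∀ x ∈ K, ∀ m : ℕ, ∀ w ∈ S (f^[m] x), ∃ v ∈ S x, D m x v = w
  surU : ∀ x ∈ K, ∀ m : ℕ, ∀ w ∈ U (f^[m] x), ∃ v ∈ U x, D m x v = w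
  step : ∀ x ∈ K, ∀ v, ‖L (f x) (D 1 x v)‖ ≤ C * ‖L x v‖
  quot : ∀ x ∈ K, ∀ v, ‖G x v‖ ≤ C * ‖L x v‖
  lift : ∀ x ∈ K, ∀ v, ∃ e, G x e = 0 ∧ ‖L x (v - e)‖ ≤ C * ‖G x v‖

/-- contraction of the quotient, for one vector -/
def Con (κ C : ℝ) (f : X → X) (D : ℕ → X → W →L[ℝ] W) (G : X → W →L[ℝ] W'') (x : X) (v : W) :
    Prop :=
  ∀ m : ℕ, ‖G (f^[m] x) (D m x v)‖ ≤ C * Real.exp (-(κ * m)) * ‖G x v‖

/-- expansion of the quotient, for one vector -/
def Exd (κ C : ℝ) (f : X → X) (D : ℕ → X → W →L[ℝ] W) (G : X → W →L[ℝ] W'') (x : X) (v : W) :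
    Prop :=
  ∀ m : ℕ, Real.exp (κ * m) * ‖G x v‖ ≤ C * ‖G (f^[m] x) (D m x v)‖

/-- the vectors which decay exponentially -/
def Est (κ : ℝ) (f : X → X) (D : ℕ → X → W →L[ℝ] W) (L : X → W →L[ℝ] W') (x : X) :
    Submodule ℝ W where
  carrier := {v | ∃ c : ℝ, ∀ m : ℕ, ‖L (f^[m] x) (D m x v)‖ ≤ c * Real.exp (-(κ * m))}
  zero_mem' := ⟨0, fun m => by simp⟩
  add_mem' := by
    rintro v w ⟨c, hc⟩ ⟨d, hd⟩
    refine ⟨c + d, fun m => ?_⟩
    rw [map_add, map_add, add_mul]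
    exact (norm_add_le _ _).trans (add_le_add (hc m) (hd m))
  smul_mem' := by
    rintro a v ⟨c, hc⟩
    refine ⟨|a| * c, fun m => ?_⟩
    rw [map_smul, map_smul, norm_smul, Real.norm_eq_abs, mul_assoc]
    exact mul_le_mul_of_nonneg_left (hc m) (abs_nonneg a)

theorem mem_Est {κ : ℝ} {f : X → X} {D : ℕ → X → W →L[ℝ] W} {L : X → W →L[ℝ] W'} {x : X} {v : W} :
    v ∈ Est κ f D L x ↔ ∃ c : ℝ, ∀ m : ℕ, ‖L (f^[m] x) (D m x v)‖ ≤ c * Real.exp (-(κ * m)) :=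
  Iff.rfl

theorem Side.iter {κ C : ℝ} {f : X → X} {K : Set X} {D : ℕ → X → W →L[ℝ] W} {L : X → W →L[ℝ] W'}
    {G : X → W →L[ℝ] W''} {S U : X → Submodule ℝ W} (h : Side κ C f K D L G S U) (m : ℕ) {x : X}
    (hx : x ∈ K) : f^[m] x ∈ K := by
  induction m with
  | zero => exact hx
  | succ m ih => rw [Function.iterate_succ_apply']; exact h.map _ ih

theorem Side.seq {κ C : ℝ} {f : X → X} {K : Set X} {D : ℕ → X → W →L[ℝ] W} {L : X → W →L[ℝ] W'}
    {G : X → W →L[ℝ] W''} {S U : X → Submodule ℝ W} (h : Side κ C f K D L G S U) {x : X}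
    (hx : x ∈ K) : OSeq κ C (fun m => (L (f^[m] x)).comp (D m x))
      (fun m => (G (f^[m] x)).comp (D m x)) (S x) (U x) := by
  have key : ∀ m k : ℕ, ∀ v, D (m + k) x v = D k (f^[m] x) (D m x v) ∧
      f^[m + k] x = f^[k] (f^[m] x) := by
    intro m k v
    rw [add_comm m k]
    exact ⟨h.add k m x hx v, Function.iterate_add_apply f k m x⟩
  refine ⟨?_, ?_, ?_, ?_, ?_, ?_⟩
  · intro v w hvw
    simp only [ContinuousLinearMap.comp_apply, Function.iterate_zero, id_eq] at hvw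
    rw [h.zero x hx, h.zero x hx] at hvw
    exact h.inj x hx hvw
  · intro m k v hv
    simp only [ContinuousLinearMap.comp_apply]
    rw [(key m k v).1, (key m k v).2]
    exact h.contr _ (h.iter m hx) k _ (h.memS x hx m v hv)
  · intro m k v hv
    simp only [ContinuousLinearMap.comp_apply]
    rw [(key m k v).1, (key m k v).2]
    exact h.expd _ (h.iter m hx) k _ (h.memU x hx m v hv)
  · intro m v
    simp only [ContinuousLinearMap.comp_apply]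
    rw [(key m 1 v).1, (key m 1 v).2]
    exact h.step _ (h.iter m hx) _
  · intro m v
    simp only [ContinuousLinearMap.comp_apply]
    exact h.quot _ (h.iter m hx) _
  · intro m v
    obtain ⟨e, he, hle⟩ := h.lift _ (h.iter m hx) (D m x v)
    obtain ⟨s', hs', u', hu', rfl⟩ := h.ker _ (h.iter m hx) e he
    obtain ⟨s, hs, rfl⟩ := h.surS x hx m s' hs'
    obtain ⟨u, hu, rfl⟩ := h.surU x hx m u' hu'
    refine ⟨s, hs, u, hu, ?_⟩
    simp only [ContinuousLinearMap.comp_apply]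
    rw [map_sub, map_add]
    exact hle

theorem bdd_exp {κ a c : ℝ} (hκ : 0 < κ) (ha : 0 ≤ a) (h : ∀ m : ℕ, Real.exp (κ * m) * a ≤ c) :
    a = 0 := by
  by_contra h0
  have ha' : 0 < a := lt_of_le_of_ne ha (Ne.symm h0)
  obtain ⟨m, hm⟩ := exists_nat_gt (c / a / κ)
  have h1 := h m
  have h2 : c / a < κ * m := by
    rw [div_lt_iff₀ hκ] at hm
    linarith
  have h3 := Real.add_one_le_exp (κ * m)
  have h4 : c / a < Real.exp (κ * m) := by linarith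
  rw [div_lt_iff₀ ha'] at h4
  linarith

theorem Side.kerm {κ C : ℝ} {f : X → X} {K : Set X} {D : ℕ → X → W →L[ℝ] W} {L : X → W →L[ℝ] W'}
    {G : X → W →L[ℝ] W''} {S U : X → Submodule ℝ W} (h : Side κ C f K D L G S U) (m : ℕ) {x : X}
    (hx : x ∈ K) {v : W} (hv : G x v = 0) : G (f^[m] x) (D m x v) = 0 := by
  obtain ⟨s, hs, u, hu, rfl⟩ := h.ker x hx v hv
  rw [map_add, map_add, h.leS _ (h.iter m hx) _ (h.memS x hx m s hs),
    h.leU _ (h.iter m hx) _ (h.memU x hx m u hu), add_zero]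

/-- the one sided theorem -/
theorem side_main {κ C : ℝ} (hκ : 0 < κ) (hC : 1 ≤ C) : ∃ C' : ℝ, 0 < C' ∧
    ∀ (f : X → X) (K : Set X) (D : ℕ → X → W →L[ℝ] W) (L : X → W →L[ℝ] W')
      (G : X → W →L[ℝ] W'') (S U : X → Submodule ℝ W), Side κ C f K D L G S U →
      (∀ x ∈ K, ∀ v, Con κ C f D G x v → ∃ u ∈ U x, ∀ m : ℕ,
        ‖L (f^[m] x) (D m x (v - u))‖ ≤ C' * Real.exp (-(κ / 2 * m)) * ‖L x v‖) ∧
      ((∀ x ∈ K, ∀ v, ∃ v₁ v₂, v = v₁ + v₂ ∧ Con κ C f D G x v₁ ∧ Exd κ C f D G x v₂) →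
        ∀ x ∈ K, ∀ v ∈ Est (κ / 2) f D L x, ∀ m : ℕ,
          ‖L (f^[m] x) (D m x v)‖ ≤ C' * Real.exp (-(κ / 2 * m)) * ‖L x v‖) := by
  obtain ⟨C', hC', hadj⟩ := adjust (W := W) (W' := W') (W'' := W'') hκ hC
  have hC0 : 0 < C := by linarith
  refine ⟨C', hC', fun f K D L G S U h => ?_⟩
  have part : ∀ x ∈ K, ∀ v, Con κ C f D G x v → ∃ u ∈ U x, ∀ m : ℕ,
        ‖L (f^[m] x) (D m x (v - u))‖ ≤ C' * Real.exp (-(κ / 2 * m)) * ‖L x v‖ := by
    intro x hx v hv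
    obtain ⟨u, hu, hb⟩ := hadj _ _ _ _ (h.seq hx) v (by
      intro m
      simp only [ContinuousLinearMap.comp_apply, Function.iterate_zero, id_eq]
      rw [h.zero x hx]
      exact hv m)
    refine ⟨u, hu, fun m => ?_⟩
    have := hb m
    simp only [ContinuousLinearMap.comp_apply, Function.iterate_zero, id_eq] at this
    rw [h.zero x hx] at this
    exact this
  refine ⟨part, fun hq x hx v hv m => ?_⟩
  obtain ⟨c, hc⟩ := mem_Est.1 hv
  obtain ⟨v₁, v₂, rfl, h1, h2⟩ := hq x hx v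
  have hexp : ∀ m : ℕ, Real.exp (-(κ * m)) ≤ 1 ∧ Real.exp (-(κ / 2 * m)) ≤ 1 := by
    intro m
    rw [Real.exp_le_one_iff, Real.exp_le_one_iff]
    have : 0 ≤ κ * m := by positivity
    constructor <;> linarith
  have hc0 : 0 ≤ c := by
    have := hc 0
    simp only [Nat.cast_zero, mul_zero, neg_zero, Real.exp_zero, mul_one] at this
    exact (norm_nonneg _).trans this
  have h3 : ‖G x v₂‖ = 0 := by
    apply bdd_exp hκ (norm_nonneg _) (c := C * (C * c + C * ‖G x v₁‖))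
    intro k
    refine (h2 k).trans (mul_le_mul_of_nonneg_left ?_ hC0.le)
    have e : D k x v₂ = D k x (v₁ + v₂) - D k x v₁ := by rw [map_add, add_sub_cancel_left]
    rw [e, map_sub]
    refine (norm_sub_le _ _).trans (add_le_add ?_ ?_)
    · refine (h.quot _ (h.iter k hx) _).trans (mul_le_mul_of_nonneg_left ?_ hC0.le)
      refine (hc k).trans ?_
      exact mul_le_of_le_one_right hc0 (hexp k).2
    · refine (h1 k).trans ?_
      apply mul_le_mul_of_nonneg_right _ (norm_nonneg _)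
      exact mul_le_of_le_one_right hC0.le (hexp k).1
  have h4 : Con κ C f D G x (v₁ + v₂) := by
    intro k
    have e := h.kerm k hx (norm_eq_zero.1 h3)
    rw [map_add, map_add, e, add_zero, map_add, norm_eq_zero.1 h3, add_zero]
    exact h1 k
  obtain ⟨u, hu, hb⟩ := part x hx _ h4
  have h5 : ‖L x u‖ = 0 := by
    apply bdd_exp hκ (norm_nonneg _) (c := C * (c + C' * ‖L x (v₁ + v₂)‖))
    intro k
    refine (h.expd x hx k u hu).trans (mul_le_mul_of_nonneg_left ?_ hC0.le)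
    have e : D k x u = D k x (v₁ + v₂) - D k x (v₁ + v₂ - u) := by
      rw [← map_sub]
      congr 1
      abel
    rw [e, map_sub]
    refine (norm_sub_le _ _).trans (add_le_add ?_ ?_)
    · refine (hc k).trans ?_
      exact mul_le_of_le_one_right hc0 (hexp k).2
    · refine (hb k).trans ?_
      apply mul_le_mul_of_nonneg_right _ (norm_nonneg _)
      exact mul_le_of_le_one_right hC'.le (hexp k).2
  have h6 : u = 0 := by
    apply h.inj x hx
    rw [norm_eq_zero.1 h5, map_zero]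
  have h7 := hb m
  rw [h6, sub_zero] at h7
  exact h7

theorem est_step {κ' : ℝ} (hκ : 0 < κ') {f : X → X} {D : ℕ → X → W →L[ℝ] W}
    {L : X → W →L[ℝ] W'} {x : X}
    (hadd : ∀ (a : ℕ) (v : W), D (a + 1) x v = D a (f x) (D 1 x v)) (v : W) :
    v ∈ Est κ' f D L x ↔ D 1 x v ∈ Est κ' f D L (f x) := by
  have key : ∀ m : ℕ, ‖L (f^[m] (f x)) (D m (f x) (D 1 x v))‖ =
      ‖L (f^[m + 1] x) (D (m + 1) x v)‖ := by
    intro m
    rw [hadd m v, Function.iterate_succ_apply]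
  rw [mem_Est, mem_Est]
  constructor
  · rintro ⟨c, hc⟩
    have hc0 : 0 ≤ c := by
      have := hc 0
      simp only [Nat.cast_zero, mul_zero, neg_zero, Real.exp_zero, mul_one] at this
      exact (norm_nonneg _).trans this
    refine ⟨c, fun m => ?_⟩
    rw [key m]
    refine (hc (m + 1)).trans (mul_le_mul_of_nonneg_left ?_ hc0)
    rw [Real.exp_le_exp]
    push_cast
    linarith
  · rintro ⟨c, hc⟩
    refine ⟨max ‖L (f^[0] x) (D 0 x v)‖ (c * Real.exp κ'), fun m => ?_⟩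
    rcases m with _ | m
    · simp only [Nat.cast_zero, mul_zero, neg_zero, Real.exp_zero, mul_one]
      exact le_max_left _ _
    · rw [← key m]
      refine (hc m).trans ?_
      have e : c * Real.exp (-(κ' * m)) = c * Real.exp κ' * Real.exp (-(κ' * (m + 1 : ℕ))) := by
        rw [mul_assoc, ← Real.exp_add]
        congr 2
        push_cast
        ring
      rw [e]
      exact mul_le_mul_of_nonneg_right (le_max_right _ _) (Real.exp_pos _).le

/-- Hyperbolicity of the whole cocycle from the hyperbolicity of the subbundle and the quotient. -/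
theorem two_sided {κ C : ℝ} (hκ : 0 < κ) (hC : 1 ≤ C) {f g : X → X} {K : Set X}
    {D D' : ℕ → X → W →L[ℝ] W} {L : X → W →L[ℝ] W'} {G : X → W →L[ℝ] W''}
    {S U : X → Submodule ℝ W} (h : Side κ C f K D L G S U) (h' : Side κ C g K D' L G U S)
    (hgf : ∀ x ∈ K, g (f x) = x)
    (hD : ∀ x ∈ K, ∀ (m : ℕ) (v : W), D' m (f^[m] x) (D m x v) = v)
    (hgfm : ∀ x ∈ K, ∀ m : ℕ, g^[m] (f^[m] x) = x)
    (hq : ∀ x ∈ K, ∀ v, ∃ v₁ v₂, v = v₁ + v₂ ∧ Con κ C f D G x v₁ ∧ Exd κ C f D G x v₂ ∧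
      Con κ C g D' G x v₂ ∧ Exd κ C g D' G x v₁) :
    ∃ (Es Eu : X → Submodule ℝ W) (κ' C' : ℝ), 0 < κ' ∧ 0 < C' ∧ ∀ x ∈ K,
      Es x ⊓ Eu x = ⊥ ∧ Es x ⊔ Eu x = ⊤ ∧ (∀ v, v ∈ Es x ↔ D 1 x v ∈ Es (f x)) ∧
      (∀ v, v ∈ Eu x ↔ D 1 x v ∈ Eu (f x)) ∧
      (∀ m : ℕ, ∀ v ∈ Es x, ‖L (f^[m] x) (D m x v)‖ ≤ C' * Real.exp (-(κ' * m)) * ‖L x v‖) ∧
      ∀ m : ℕ, ∀ v ∈ Eu x, Real.exp (κ' * m) * ‖L x v‖ ≤ C' * ‖L (f^[m] x) (D m x v)‖ := by
  obtain ⟨C', hC', hmain⟩ := side_main (X := X) (W := W) (W' := W') (W'' := W'') hκ hC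
  obtain ⟨p1, p2⟩ := hmain f K D L G S U h
  obtain ⟨q1, q2⟩ := hmain g K D' L G U S h'
  have u1 := p2 (fun x hx v => by
    obtain ⟨v₁, v₂, a1, a2, a3, a4, a5⟩ := hq x hx v
    exact ⟨v₁, v₂, a1, a2, a3⟩)
  have u2 := q2 (fun x hx v => by
    obtain ⟨v₁, v₂, a1, a2, a3, a4, a5⟩ := hq x hx v
    exact ⟨v₂, v₁, by rw [a1, add_comm], a4, a5⟩)
  have hκ2 : 0 < κ / 2 := by linarith
  set Es : X → Submodule ℝ W := Est (κ / 2) f D L with hEs
  set Eu : X → Submodule ℝ W := Est (κ / 2) g D' L with hEu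
  have hstS : ∀ x ∈ K, ∀ v, v ∈ Es x ↔ D 1 x v ∈ Es (f x) := fun x hx v =>
    est_step hκ2 (fun a v => h.add a 1 x hx v) v
  have hstU : ∀ x ∈ K, ∀ v, v ∈ Eu x ↔ D 1 x v ∈ Eu (f x) := by
    intro x hx v
    have h1 := est_step (f := g) (D := D') (x := f x) (L := L) hκ2
      (fun a v => h'.add a 1 (f x) (h.map x hx) v) (D 1 x v)
    have h2 := hD x hx 1 v
    rw [Function.iterate_one] at h2
    rw [h2, hgf x hx] at h1
    exact h1.symm
  have hitU : ∀ (m : ℕ), ∀ x ∈ K, ∀ v ∈ Eu x, D m x v ∈ Eu (f^[m] x) := by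
    intro m
    induction m with
    | zero =>
      intro x hx v hv
      rw [h.zero x hx]
      exact hv
    | succ m ih =>
      intro x hx v hv
      rw [h.add m 1 x hx v, Function.iterate_succ_apply]
      exact ih _ (h.map x hx) _ ((hstU x hx v).1 hv)
  have hexpU : ∀ x ∈ K, ∀ m : ℕ, ∀ v ∈ Eu x,
      Real.exp (κ / 2 * m) * ‖L x v‖ ≤ C' * ‖L (f^[m] x) (D m x v)‖ := by
    intro x hx m v hv
    have h1 := u2 _ (h.iter m hx) _ (hitU m x hx v hv) m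
    rw [hgfm x hx m, hD x hx m v] at h1
    have h2 : Real.exp (κ / 2 * m) * Real.exp (-(κ / 2 * m)) = 1 := by
      rw [← Real.exp_add, add_neg_cancel, Real.exp_zero]
    calc Real.exp (κ / 2 * m) * ‖L x v‖
        ≤ Real.exp (κ / 2 * m) * (C' * Real.exp (-(κ / 2 * m)) * ‖L (f^[m] x) (D m x v)‖) :=
          mul_le_mul_of_nonneg_left h1 (Real.exp_pos _).le
      _ = C' * ‖L (f^[m] x) (D m x v)‖ := by
          linear_combination (C' * ‖L (f^[m] x) (D m x v)‖) * h2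
  refine ⟨Es, Eu, κ / 2, C', hκ2, hC', fun x hx => ⟨?_, ?_, hstS x hx, hstU x hx,
    fun m v hv => u1 x hx v hv m, fun m v hv => hexpU x hx m v hv⟩⟩
  · rw [Submodule.eq_bot_iff]
    intro v hv
    have hvs : v ∈ Es x := hv.1
    have hvu : v ∈ Eu x := hv.2
    have h1 : ‖L x v‖ = 0 := by
      apply bdd_exp hκ2 (norm_nonneg _) (c := C' * (C' * ‖L x v‖))
      intro m
      refine (hexpU x hx m v hvu).trans (mul_le_mul_of_nonneg_left ?_ hC'.le)
      refine (u1 x hx v hvs m).trans ?_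
      apply mul_le_mul_of_nonneg_right _ (norm_nonneg _)
      apply mul_le_of_le_one_right hC'.le
      rw [Real.exp_le_one_iff]
      have : 0 ≤ κ / 2 * m := by positivity
      linarith
    apply h.inj x hx
    rw [norm_eq_zero.1 h1, map_zero]
  · rw [Submodule.eq_top_iff']
    intro v
    obtain ⟨v₁, v₂, rfl, a2, a3, a4, a5⟩ := hq x hx v
    obtain ⟨w₁, hw₁, hb₁⟩ := p1 x hx v₁ a2
    obtain ⟨w₂, hw₂, hb₂⟩ := q1 x hx v₂ a4
    have e1 : v₁ - w₁ ∈ Es x := ⟨C' * ‖L x v₁‖, fun m => by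
      refine (hb₁ m).trans (le_of_eq ?_)
      ring⟩
    have e2 : v₂ - w₂ ∈ Eu x := ⟨C' * ‖L x v₂‖, fun m => by
      refine (hb₂ m).trans (le_of_eq ?_)
      ring⟩
    have hcmp : ∀ m : ℕ, Real.exp (-(κ * m)) ≤ Real.exp (-(κ / 2 * m)) := by
      intro m
      rw [Real.exp_le_exp]
      have : 0 ≤ κ * m := by positivity
      linarith
    have hC0 : 0 < C := by linarith
    have e3 : w₂ ∈ Es x := ⟨C * ‖L x w₂‖, fun m => by
      refine (h.contr x hx m w₂ hw₂).trans ?_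
      have := mul_le_mul_of_nonneg_left (hcmp m) (mul_nonneg hC0.le (norm_nonneg (L x w₂)))
      linarith⟩
    have e4 : w₁ ∈ Eu x := ⟨C * ‖L x w₁‖, fun m => by
      refine (h'.contr x hx m w₁ hw₁).trans ?_
      have := mul_le_mul_of_nonneg_left (hcmp m) (mul_nonneg hC0.le (norm_nonneg (L x w₁)))
      linarith⟩
    have e5 : v₁ + v₂ = ((v₁ - w₁) + w₂) + ((v₂ - w₂) + w₁) := by abel
    rw [e5]
    exact Submodule.add_mem_sup (Submodule.add_mem _ e1 e3) (Submodule.add_mem _ e2 e4)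

end Pool.Agent.Helper21S
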