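import Pool.Agent.Helper21S.Sad11
import Pool.Agent.Helper21S.Ext2

/-!
# Project ST: comparison of derivatives on compact sets
-/

set_option autoImplicit false
set_option linter.unusedSectionVars false

open scoped Manifold ContDiff Topology
open Filter Set Metric

universe u v

namespace Pool.Agent.Helper21S

open Pool.Agent.H718R2.G Pool.Agent.Y504.CO Pool.Agent.TH80.OMS Pool.Agent.W564.SC
  Pool.Agent.W74.SC

section

variable {n : ℕ} {N : Type u} [TopologicalSpace N] [ChartedSpace (V n) N] [IsManifold (𝓡 n) ∞ N]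
  {E E' : Type*} [NormedAddCommGroup E] [NormedSpace ℝ E] [NormedAddCommGroup E'] [NormedSpace ℝ E']

/-- the derivative of a vector valued function -/
noncomputable def dE (g : N → E) (x : N) : V n →L[ℝ] E := mfderiv (𝓡 n) 𝓘(ℝ, E) g x

theorem dE_chart {g : N → E} {χ : OpenPartialHomeomorph N (V n)}
    (hχ : χ ∈ IsManifold.maximalAtlas (𝓡 n) ∞ N) {y : N} (hy : y ∈ χ.source)
    (hd : DifferentiableAt ℝ (fun v => g (χ.symm v)) (χ y)) (v : V n) :
    fderiv ℝ (fun v => g (χ.symm v)) (χ y) (dc χ y v) = dE g y v := by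
  have h2 : HasMFDerivAt (𝓡 n) 𝓘(ℝ, E) ((fun v => g (χ.symm v)) ∘ χ) y
      ((fderiv ℝ (fun v => g (χ.symm v)) (χ y)).comp (mfderiv (𝓡 n) (𝓡 n) χ y)) :=
    HasMFDerivAt.comp y hd.hasFDerivAt.hasMFDerivAt
      ((chart_mdiff hχ).mdifferentiableAt hy).hasMFDerivAt
  have h3 : mfderiv (𝓡 n) 𝓘(ℝ, E) ((fun v => g (χ.symm v)) ∘ χ) y =
      mfderiv (𝓡 n) 𝓘(ℝ, E) g y := by
    apply Filter.EventuallyEq.mfderiv_eq
    filter_upwards [χ.open_source.mem_nhds hy] with y' hy'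
    simp only [Function.comp_apply]
    rw [χ.left_inv hy']
  rw [h2.mfderiv] at h3
  exact congrArg (fun L : V n →L[ℝ] E => L v) h3

/-- `a` is `C^1` near `z`. -/
def Reg (a : N → E) (z : N) : Prop := ∃ W ∈ 𝓝 z, ContMDiffOn (𝓡 n) 𝓘(ℝ, E) 1 a W

theorem chart_fun {χ : OpenPartialHomeomorph N (V n)} {z : N} (hχ : GoodChart n N χ z) {a : N → E}
    (ha : Reg (n := n) a z) : ∃ A : N → V n →L[ℝ] E, ContinuousAt A z ∧ ∃ O ∈ 𝓝 z, ∀ x ∈ O,
      ∀ v, dE a x v = A x (dc χ x v) := by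
  obtain ⟨W, hW, haW⟩ := ha
  set f : V n → E := fun v => a (χ.symm v) with hf
  set O : Set N := χ.source ∩ interior W with hO
  have hOo : IsOpen O := χ.open_source.inter isOpen_interior
  have hzO : z ∈ O := ⟨hχ.src, mem_interior_iff_mem_nhds.2 hW⟩
  have hsm : ∀ x ∈ O, ContDiffAt ℝ 1 f (χ x) := by
    intro x hx
    have hxs : x ∈ χ.source := hx.1
    have m1 : ContMDiffAt (𝓡 n) (𝓡 n) 1 χ.symm (χ x) :=
      ((contMDiffOn_symm_of_mem_maximalAtlas hχ.mem).contMDiffAt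
        (χ.open_target.mem_nhds (χ.map_source hxs))).of_le (by norm_cast)
    have m3 : ContMDiffAt (𝓡 n) 𝓘(ℝ, E) 1 a (χ.symm (χ x)) := by
      rw [χ.left_inv hxs]
      exact haW.contMDiffAt (mem_interior_iff_mem_nhds.1 hx.2)
    rw [← contMDiffAt_iff_contDiffAt]
    exact m3.comp _ m1
  refine ⟨fun x => fderiv ℝ f (χ x), ?_, O, hOo.mem_nhds hzO, ?_⟩
  · have h1 : ContinuousAt (fderiv ℝ f) (χ z) :=
      ((hsm z hzO).fderiv_right (m := 0) (by norm_num)).continuousAt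
    exact ContinuousAt.comp (f := χ) h1 (χ.continuousAt hχ.src)
  · intro x hx v
    exact (dE_chart hχ.mem hx.1 ((hsm x hx).differentiableAt (by norm_num)) v).symm

/-- Comparison with an immersion. -/
theorem compare {K : Set N} (hK : IsCompact K) {a : N → E} {b : N → E'}
    (ha : ∀ z ∈ K, Reg (n := n) a z) (hb : ∀ z ∈ K, Reg (n := n) b z)
    (hinj : ∀ z ∈ K, Function.Injective (dE (n := n) b z)) :
    ∃ C : ℝ, 0 ≤ C ∧ ∀ x ∈ K, ∀ v : V n, ‖dE a x v‖ ≤ C * ‖dE b x v‖ := by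
  refine hK.induction_on (p := fun S => ∃ C : ℝ, 0 ≤ C ∧ ∀ x ∈ S, ∀ v : V n,
    ‖dE a x v‖ ≤ C * ‖dE b x v‖) ?_ ?_ ?_ ?_
  · exact ⟨0, le_rfl, fun x hx => absurd hx (notMem_empty x)⟩
  · rintro S T hST ⟨C, hC, h⟩
    exact ⟨C, hC, fun x hx => h x (hST hx)⟩
  · rintro S T ⟨C, hC, h⟩ ⟨C', hC', h'⟩
    refine ⟨max C C', le_max_of_le_left hC, ?_⟩
    rintro x (hx | hx) v
    · exact (h x hx v).trans (mul_le_mul_of_nonneg_right (le_max_left _ _) (norm_nonneg _))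
    · exact (h' x hx v).trans (mul_le_mul_of_nonneg_right (le_max_right _ _) (norm_nonneg _))
  · intro z hz
    obtain ⟨χ, hχ⟩ := Pool.Agent.W699.SC.gc n N z
    obtain ⟨A, hA, O₁, hO₁, hA'⟩ := chart_fun hχ (ha z hz)
    obtain ⟨B, hB, O₂, hO₂, hB'⟩ := chart_fun hχ (hb z hz)
    have hzO₂ : z ∈ O₂ := mem_of_mem_nhds hO₂
    have hBinj : Function.Injective (B z) := by
      intro w w' hww
      obtain ⟨v, rfl⟩ := (dc_bij hχ.mem hχ.src).surjective w
      obtain ⟨v', rfl⟩ := (dc_bij hχ.mem hχ.src).surjective w'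
      rw [← hB' z hzO₂, ← hB' z hzO₂] at hww
      rw [hinj z hz hww]
    obtain ⟨R, hR0, hR⟩ : ∃ R : ℝ, 0 ≤ R ∧ ∀ w : V n, ‖w‖ ≤ R * ‖B z w‖ := by
      have hker : (B z : V n →ₗ[ℝ] E').ker = ⊥ := LinearMap.ker_eq_bot.2 hBinj
      obtain ⟨R, -, hR⟩ := LinearMap.exists_antilipschitzWith (B z : V n →ₗ[ℝ] E') hker
      refine ⟨R, R.2, fun w => ?_⟩
      have := hR.le_mul_dist w 0
      simpa using this
    have e1 : ∀ᶠ x in 𝓝 z, ‖B x - B z‖ < 1 / (2 * (R + 1)) := by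
      have h1 := (tendsto_iff_norm_sub_tendsto_zero.1 hB)
      exact h1.eventually (gt_mem_nhds (by positivity))
    have e2 : ∀ᶠ x in 𝓝 z, ‖A x‖ < ‖A z‖ + 1 :=
      hA.norm.eventually (gt_mem_nhds (by linarith))
    obtain ⟨O₃, hO₃, h3⟩ := (e1.and e2).exists_mem
    refine ⟨O₁ ∩ O₂ ∩ O₃, mem_nhdsWithin_of_mem_nhds (inter_mem (inter_mem hO₁ hO₂) hO₃),
      (‖A z‖ + 1) * (2 * R), by positivity, ?_⟩
    rintro x ⟨⟨hx1, hx2⟩, hx3⟩ v
    obtain ⟨h4, h5⟩ := h3 x hx3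
    rw [hA' x hx1, hB' x hx2]
    set w := dc χ x v with hw
    have h6 : ‖w‖ ≤ 2 * R * ‖B x w‖ := by
      have k1 := hR w
      have k2 : ‖B z w‖ ≤ ‖B x w‖ + ‖B x - B z‖ * ‖w‖ := by
        have : B z w = B x w - (B x - B z) w := by simp
        rw [this]
        exact (norm_sub_le _ _).trans (add_le_add le_rfl ((B x - B z).le_opNorm w))
      have k3 : R * (‖B x - B z‖ * ‖w‖) ≤ 1 / 2 * ‖w‖ := by
        rw [← mul_assoc]
        apply mul_le_mul_of_nonneg_right _ (norm_nonneg _)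
        have k4 : R * ‖B x - B z‖ ≤ R * (1 / (2 * (R + 1))) :=
          mul_le_mul_of_nonneg_left h4.le hR0
        have k5 : R * (1 / (2 * (R + 1))) ≤ 1 / 2 := by
          rw [mul_one_div, div_le_div_iff₀ (by positivity) (by norm_num)]
          linarith
        linarith
      have k6 := mul_le_mul_of_nonneg_left k2 hR0
      rw [mul_add] at k6
      linarith
    calc ‖A x w‖ ≤ ‖A x‖ * ‖w‖ := (A x).le_opNorm w
      _ ≤ (‖A z‖ + 1) * (2 * R * ‖B x w‖) := by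
          apply mul_le_mul h5.le h6 (norm_nonneg _) (by positivity)
      _ = _ := by ring

/-- Lifting of vectors of the quotient. -/
theorem lift_ex {K : Set N} (hK : IsCompact K) [FiniteDimensional ℝ E] {a : N → E} {b : N → E'}
    (ha : ∀ z ∈ K, Reg (n := n) a z) (hb : ∀ z ∈ K, Reg (n := n) b z)
    (hs : ∀ z ∈ K, Function.Surjective (dE (n := n) a z)) :
    ∃ C : ℝ, 0 ≤ C ∧ ∀ x ∈ K, ∀ v : V n, ∃ e : V n, dE a x e = 0 ∧
      ‖dE b x (v - e)‖ ≤ C * ‖dE a x v‖ := by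
  refine hK.induction_on (p := fun S => ∃ C : ℝ, 0 ≤ C ∧ ∀ x ∈ S, ∀ v : V n, ∃ e : V n,
    dE a x e = 0 ∧ ‖dE b x (v - e)‖ ≤ C * ‖dE a x v‖) ?_ ?_ ?_ ?_
  · exact ⟨0, le_rfl, fun x hx => absurd hx (notMem_empty x)⟩
  · rintro S T hST ⟨C, hC, h⟩
    exact ⟨C, hC, fun x hx => h x (hST hx)⟩
  · rintro S T ⟨C, hC, h⟩ ⟨C', hC', h'⟩
    refine ⟨max C C', le_max_of_le_left hC, ?_⟩
    rintro x (hx | hx) v
    · obtain ⟨e, he, hle⟩ := h x hx v
      exact ⟨e, he, hle.trans (mul_le_mul_of_nonneg_right (le_max_left _ _) (norm_nonneg _))⟩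
    · obtain ⟨e, he, hle⟩ := h' x hx v
      exact ⟨e, he, hle.trans (mul_le_mul_of_nonneg_right (le_max_right _ _) (norm_nonneg _))⟩
  · intro z hz
    obtain ⟨χ, hχ⟩ := Pool.Agent.W699.SC.gc n N z
    obtain ⟨A, hA, O₁, hO₁, hA'⟩ := chart_fun hχ (ha z hz)
    obtain ⟨B, hB, O₂, hO₂, hB'⟩ := chart_fun hχ (hb z hz)
    have hzO₁ : z ∈ O₁ := mem_of_mem_nhds hO₁
    have hAsurj : Function.Surjective (A z) := by
      intro c
      obtain ⟨v, hv⟩ := hs z hz c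
      exact ⟨dc χ z v, by rw [← hA' z hzO₁, hv]⟩
    obtain ⟨R₀, hR₀⟩ := LinearMap.exists_rightInverse_of_surjective (A z : V n →ₗ[ℝ] E)
      (LinearMap.range_eq_top.2 hAsurj)
    set R : E →L[ℝ] V n := LinearMap.toContinuousLinearMap R₀ with hR
    have hAR : ∀ c, A z (R c) = c := fun c => by
      have : A z (R₀ c) = c := congrArg (fun T : E →ₗ[ℝ] E => T c) hR₀
      exact this
    have e1 : ∀ᶠ x in 𝓝 z, ‖A x - A z‖ < 1 / (2 * (‖R‖ + 1)) := by
      have h1 := (tendsto_iff_norm_sub_tendsto_zero.1 hA)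
      exact h1.eventually (gt_mem_nhds (by positivity))
    have e2 : ∀ᶠ x in 𝓝 z, ‖B x‖ < ‖B z‖ + 1 :=
      hB.norm.eventually (gt_mem_nhds (by linarith))
    have e3 : ∀ᶠ x in 𝓝 z, x ∈ χ.source := χ.open_source.mem_nhds hχ.src
    obtain ⟨O₃, hO₃, h3⟩ := ((e1.and e2).and e3).exists_mem
    refine ⟨O₁ ∩ O₂ ∩ O₃, mem_nhdsWithin_of_mem_nhds (inter_mem (inter_mem hO₁ hO₂) hO₃),
      (‖B z‖ + 1) * (‖R‖ * 2), by positivity, ?_⟩
    rintro x ⟨⟨hx1, hx2⟩, hx3⟩ v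
    obtain ⟨⟨h4, h5⟩, h6⟩ := h3 x hx3
    -- the map `A x ∘ R` is bijective
    have h7 : ∀ c : E, ‖c‖ ≤ 2 * ‖A x (R c)‖ := by
      intro c
      have k1 : c = A x (R c) - (A x - A z) (R c) := by
        rw [_root_.sub_apply, hAR]
        abel
      have k2 : ‖c‖ ≤ ‖A x (R c)‖ + ‖A x - A z‖ * (‖R‖ * ‖c‖) := by
        conv_lhs => rw [k1]
        refine (norm_sub_le _ _).trans (add_le_add le_rfl ?_)
        refine ((A x - A z).le_opNorm _).trans ?_
        exact mul_le_mul_of_nonneg_left (R.le_opNorm c) (norm_nonneg _)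
      have k3 : ‖A x - A z‖ * (‖R‖ * ‖c‖) ≤ 1 / 2 * ‖c‖ := by
        rw [← mul_assoc]
        apply mul_le_mul_of_nonneg_right _ (norm_nonneg _)
        have k4 : ‖A x - A z‖ * ‖R‖ ≤ 1 / (2 * (‖R‖ + 1)) * ‖R‖ :=
          mul_le_mul_of_nonneg_right h4.le (norm_nonneg _)
        have k5 : 1 / (2 * (‖R‖ + 1)) * ‖R‖ ≤ 1 / 2 := by
          rw [one_div_mul_eq_div, div_le_div_iff₀ (by positivity) (by norm_num)]
          linarith [norm_nonneg R]
        linarith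
      linarith
    have hT : Function.Injective ((A x).comp R : E →ₗ[ℝ] E) := by
      rw [injective_iff_map_eq_zero]
      intro c hc
      have k1 := h7 c
      have k2 : A x (R c) = 0 := hc
      rw [k2, norm_zero, mul_zero] at k1
      exact norm_le_zero_iff.1 k1
    obtain ⟨c, hc⟩ := (LinearMap.injective_iff_surjective.1 hT) (A x (dc χ x v))
    have hc' : A x (R c) = A x (dc χ x v) := hc
    obtain ⟨v', hv'⟩ := (dc_bij hχ.mem h6).surjective (R c)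
    refine ⟨v - v', ?_, ?_⟩
    · rw [hA' x hx1, map_sub, map_sub, hv', hc', sub_self]
    · rw [sub_sub_cancel, hA' x hx1, hB' x hx2, hv', ← hc']
      calc ‖B x (R c)‖ ≤ ‖B x‖ * ‖R c‖ := (B x).le_opNorm _
        _ ≤ (‖B z‖ + 1) * (‖R‖ * (2 * ‖A x (R c)‖)) := by
            apply mul_le_mul h5.le _ (norm_nonneg _) (by positivity)
            exact (R.le_opNorm c).trans (mul_le_mul_of_nonneg_left (h7 c) (norm_nonneg _))
        _ = _ := by ring

end

end Pool.Agent.Helper21S
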