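import Pool.Agent.Helper21S.Ext3

/-!
# Project ST: hyperbolic sets from tangential and normal hyperbolicity
-/

set_option autoImplicit false
set_option linter.unusedSectionVars false

open scoped Manifold ContDiff Topology
open Filter Set Metric

universe u v

namespace Pool.Agent.Helper21S

open Pool.Agent.H718R2.G Pool.Agent.Y504.CO Pool.Agent.TH80.OMS Pool.Agent.W564.SC
  Pool.Agent.W74.SC

section

variable {n : ℕ} {N : Type u} [TopologicalSpace N] [ChartedSpace (V n) N]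
  {E E' : Type*} [NormedAddCommGroup E] [NormedSpace ℝ E] [NormedAddCommGroup E'] [NormedSpace ℝ E']
  {F G : N → N} {K : Set N}

theorem dm_zero (F : N → N) (x : N) (v : V n) : dm (n := n) F^[0] x v = v := by
  have h3 : dm (n := n) (id : N → N) x = ContinuousLinearMap.id ℝ (V n) := mfderiv_id
  have h4 : F^[0] = id := rfl
  rw [h4, h3]
  rfl

theorem inv_dm (hF : MDifferentiable (𝓡 n) (𝓡 n) F) (hG : MDifferentiable (𝓡 n) (𝓡 n) G)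
    (hGF : ∀ x, G (F x) = x) (m : ℕ) (x : N) (v : V n) :
    dm G^[m] (F^[m] x) (dm F^[m] x v) = v := by
  have h1 : G^[m] ∘ F^[m] = id := by
    funext y
    exact (Function.LeftInverse.iterate hGF m) y
  have h2 := dm_comp (mdiff_iter hF m) (mdiff_iter hG m) x
  rw [h1] at h2
  have h3 : dm (n := n) (id : N → N) x = ContinuousLinearMap.id ℝ (V n) := mfderiv_id
  rw [h3] at h2
  have h4 := congrArg (fun L : V n →L[ℝ] V n => L v) h2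
  exact h4.symm

theorem back (hG : MDifferentiable (𝓡 n) (𝓡 n) G) (hF : MDifferentiable (𝓡 n) (𝓡 n) F)
    (hFG : ∀ x, F (G x) = x) (hK : ∀ x ∈ K, G x ∈ K) {P : N → V n → Prop}
    (hP : ∀ y ∈ K, ∀ w, P (F y) (dm F y w) → P y w) (m : ℕ) :
    ∀ x ∈ K, ∀ v, P x v → P (G^[m] x) (dm G^[m] x v) := by
  induction m with
  | zero =>
    intro x _ v hv
    rw [dm_zero]
    exact hv
  | succ m ih =>
    intro x hx v hv
    rw [dm_iter_succ hG, Function.iterate_succ_apply]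
    have h1 := inv_dm hG hF hFG 1 x v
    rw [Function.iterate_one, Function.iterate_one] at h1
    have h2 : P (F (G x)) (dm F (G x) (dm G x v)) := by
      rw [h1, hFG]
      exact hv
    exact ih _ (hK x hx) _ (hP _ (hK x hx) _ h2)

theorem iterK (hK : ∀ x ∈ K, G x ∈ K) (m : ℕ) : ∀ x ∈ K, G^[m] x ∈ K := by
  induction m with
  | zero => exact fun x hx => hx
  | succ m ih => intro x hx; rw [Function.iterate_succ_apply]; exact ih _ (hK x hx)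

theorem flipC (hG : MDifferentiable (𝓡 n) (𝓡 n) G) (hF : MDifferentiable (𝓡 n) (𝓡 n) F)
    (hFG : ∀ x, F (G x) = x) (hK : ∀ x ∈ K, G x ∈ K) {P : N → V n → Prop}
    (hP : ∀ y ∈ K, ∀ w, P (F y) (dm F y w) → P y w) {κ C : ℝ} {L : N → V n →L[ℝ] E'}
    (hc : ∀ x ∈ K, ∀ m : ℕ, ∀ v, P x v →
      ‖L (F^[m] x) (dm F^[m] x v)‖ ≤ C * Real.exp (-(κ * m)) * ‖L x v‖) :
    ∀ x ∈ K, ∀ m : ℕ, ∀ v, P x v →
      Real.exp (κ * m) * ‖L x v‖ ≤ C * ‖L (G^[m] x) (dm G^[m] x v)‖ := by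
  intro x hx m v hv
  have h1 := hc _ (iterK hK m x hx) m _ (back hG hF hFG hK hP m x hx v hv)
  rw [inv_dm hG hF hFG, (Function.LeftInverse.iterate hFG m) x] at h1
  have h2 : Real.exp (κ * m) * Real.exp (-(κ * m)) = 1 := by
    rw [← Real.exp_add, add_neg_cancel, Real.exp_zero]
  calc Real.exp (κ * m) * ‖L x v‖
      ≤ Real.exp (κ * m) * (C * Real.exp (-(κ * m)) * ‖L (G^[m] x) (dm G^[m] x v)‖) :=
        mul_le_mul_of_nonneg_left h1 (Real.exp_pos _).le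
    _ = _ := by linear_combination (C * ‖L (G^[m] x) (dm G^[m] x v)‖) * h2

theorem flipE (hG : MDifferentiable (𝓡 n) (𝓡 n) G) (hF : MDifferentiable (𝓡 n) (𝓡 n) F)
    (hFG : ∀ x, F (G x) = x) (hK : ∀ x ∈ K, G x ∈ K) {P : N → V n → Prop}
    (hP : ∀ y ∈ K, ∀ w, P (F y) (dm F y w) → P y w) {κ C : ℝ} {L : N → V n →L[ℝ] E'}
    (he : ∀ x ∈ K, ∀ m : ℕ, ∀ v, P x v →
      Real.exp (κ * m) * ‖L x v‖ ≤ C * ‖L (F^[m] x) (dm F^[m] x v)‖) :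
    ∀ x ∈ K, ∀ m : ℕ, ∀ v, P x v →
      ‖L (G^[m] x) (dm G^[m] x v)‖ ≤ C * Real.exp (-(κ * m)) * ‖L x v‖ := by
  intro x hx m v hv
  have h1 := he _ (iterK hK m x hx) m _ (back hG hF hFG hK hP m x hx v hv)
  rw [inv_dm hG hF hFG, (Function.LeftInverse.iterate hFG m) x] at h1
  have h2 : Real.exp (-(κ * m)) * Real.exp (κ * m) = 1 := by
    rw [← Real.exp_add, neg_add_cancel, Real.exp_zero]
  calc ‖L (G^[m] x) (dm G^[m] x v)‖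
      = Real.exp (-(κ * m)) * (Real.exp (κ * m) * ‖L (G^[m] x) (dm G^[m] x v)‖) := by
        linear_combination (-‖L (G^[m] x) (dm G^[m] x v)‖) * h2
    _ ≤ Real.exp (-(κ * m)) * (C * ‖L x v‖) :=
        mul_le_mul_of_nonneg_left h1 (Real.exp_pos _).le
    _ = _ := by ring

theorem mkSide {κ C : ℝ} (hF : MDifferentiable (𝓡 n) (𝓡 n) F)
    (hG : MDifferentiable (𝓡 n) (𝓡 n) G) (hGF : ∀ x, G (F x) = x) (hFG : ∀ x, F (G x) = x)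
    (hK : ∀ x ∈ K, F x ∈ K) {L : N → V n →L[ℝ] E'} {Q : N → V n →L[ℝ] E}
    {S U : N → Submodule ℝ (V n)} (hinj : ∀ x ∈ K, Function.Injective (L x))
    (hker : ∀ x ∈ K, ∀ v, Q x v = 0 ↔ v ∈ S x ⊔ U x)
    (iS : ∀ x ∈ K, ∀ v, v ∈ S x ↔ dm F x v ∈ S (F x))
    (iU : ∀ x ∈ K, ∀ v, v ∈ U x ↔ dm F x v ∈ U (F x))
    (contr : ∀ x ∈ K, ∀ m : ℕ, ∀ v ∈ S x,
      ‖L (F^[m] x) (dm F^[m] x v)‖ ≤ C * Real.exp (-(κ * m)) * ‖L x v‖)
    (expd : ∀ x ∈ K, ∀ m : ℕ, ∀ v ∈ U x,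
      Real.exp (κ * m) * ‖L x v‖ ≤ C * ‖L (F^[m] x) (dm F^[m] x v)‖)
    (step : ∀ x ∈ K, ∀ v, ‖L (F x) (dm F x v)‖ ≤ C * ‖L x v‖)
    (quot : ∀ x ∈ K, ∀ v, ‖Q x v‖ ≤ C * ‖L x v‖)
    (lift : ∀ x ∈ K, ∀ v, ∃ e, Q x e = 0 ∧ ‖L x (v - e)‖ ≤ C * ‖Q x v‖) :
    Side κ C F K (fun m x => dm F^[m] x) L Q S U := by
  have iff : ∀ T : N → Submodule ℝ (V n), (∀ x ∈ K, ∀ v, v ∈ T x ↔ dm F x v ∈ T (F x)) →
      ∀ m : ℕ, ∀ x ∈ K, ∀ v, v ∈ T x ↔ dm F^[m] x v ∈ T (F^[m] x) := by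
    intro T hT m
    induction m with
    | zero =>
      intro x _ v
      rw [dm_zero]
      rfl
    | succ m ih =>
      intro x hx v
      rw [dm_iter_succ hF, Function.iterate_succ_apply]
      exact (hT x hx v).trans (ih _ (hK x hx) _)
  have sur : ∀ T : N → Submodule ℝ (V n), (∀ x ∈ K, ∀ v, v ∈ T x ↔ dm F x v ∈ T (F x)) →
      ∀ x ∈ K, ∀ m : ℕ, ∀ w ∈ T (F^[m] x), ∃ v ∈ T x, dm F^[m] x v = w := by
    intro T hT x hx m w hw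
    have h1 := inv_dm hG hF hFG m (F^[m] x) w
    rw [(Function.LeftInverse.iterate hGF m) x] at h1
    refine ⟨dm G^[m] (F^[m] x) w, ?_, h1⟩
    rw [iff T hT m x hx, h1]
    exact hw
  refine ⟨hK, fun x _ v => dm_zero F x v, ?_, hinj, ?_, ?_, ?_, contr, expd, ?_, ?_, sur S iS,
    sur U iU, ?_, quot, lift⟩
  · intro a b x _ v
    have h1 := dm_iter_add hF a b x
    exact congrArg (fun L : V n →L[ℝ] V n => L v) h1
  · intro x hx v hv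
    obtain ⟨s, hs, u, hu, h⟩ := Submodule.mem_sup.1 ((hker x hx v).1 hv)
    exact ⟨s, hs, u, hu, h.symm⟩
  · intro x hx v hv
    exact (hker x hx v).2 (Submodule.mem_sup_left hv)
  · intro x hx v hv
    exact (hker x hx v).2 (Submodule.mem_sup_right hv)
  · intro x hx m v hv
    exact (iff S iS m x hx v).1 hv
  · intro x hx m v hv
    exact (iff U iU m x hx v).1 hv
  · intro x hx v
    simp only [Function.iterate_one]
    exact step x hx v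

/-- Hyperbolicity from tangential and normal hyperbolicity. -/
theorem hyp_core {κ C : ℝ} (hκ : 0 < κ) (hC : 1 ≤ C) (hF : MDifferentiable (𝓡 n) (𝓡 n) F)
    (hG : MDifferentiable (𝓡 n) (𝓡 n) G) (hGF : ∀ x, G (F x) = x) (hFG : ∀ x, F (G x) = x)
    (hK : ∀ x ∈ K, F x ∈ K) (hK' : ∀ x ∈ K, G x ∈ K) {L : N → V n →L[ℝ] E'}
    {Q : N → V n →L[ℝ] E}
    {S U : N → Submodule ℝ (V n)} (hinj : ∀ x ∈ K, Function.Injective (L x))
    (hker : ∀ x ∈ K, ∀ v, Q x v = 0 ↔ v ∈ S x ⊔ U x)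
    (iS : ∀ x ∈ K, ∀ v, v ∈ S x ↔ dm F x v ∈ S (F x))
    (iU : ∀ x ∈ K, ∀ v, v ∈ U x ↔ dm F x v ∈ U (F x))
    (contr : ∀ x ∈ K, ∀ m : ℕ, ∀ v ∈ S x,
      ‖L (F^[m] x) (dm F^[m] x v)‖ ≤ C * Real.exp (-(κ * m)) * ‖L x v‖)
    (expd : ∀ x ∈ K, ∀ m : ℕ, ∀ v ∈ U x,
      Real.exp (κ * m) * ‖L x v‖ ≤ C * ‖L (F^[m] x) (dm F^[m] x v)‖)
    (step : ∀ x ∈ K, ∀ v, ‖L (F x) (dm F x v)‖ ≤ C * ‖L x v‖)
    (step' : ∀ x ∈ K, ∀ v, ‖L (G x) (dm G x v)‖ ≤ C * ‖L x v‖)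
    (quot : ∀ x ∈ K, ∀ v, ‖Q x v‖ ≤ C * ‖L x v‖)
    (lift : ∀ x ∈ K, ∀ v, ∃ e, Q x e = 0 ∧ ‖L x (v - e)‖ ≤ C * ‖Q x v‖)
    {Ps Pu : N → V n → Prop} (bs : ∀ y ∈ K, ∀ w, Ps (F y) (dm F y w) → Ps y w)
    (bu : ∀ y ∈ K, ∀ w, Pu (F y) (dm F y w) → Pu y w)
    (dec : ∀ x ∈ K, ∀ v, ∃ v₁ v₂, v = v₁ + v₂ ∧ Ps x v₁ ∧ Pu x v₂)
    (cs : ∀ x ∈ K, ∀ m : ℕ, ∀ v, Ps x v →
      ‖Q (F^[m] x) (dm F^[m] x v)‖ ≤ C * Real.exp (-(κ * m)) * ‖Q x v‖)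
    (eu : ∀ x ∈ K, ∀ m : ℕ, ∀ v, Pu x v →
      Real.exp (κ * m) * ‖Q x v‖ ≤ C * ‖Q (F^[m] x) (dm F^[m] x v)‖) :
    ∃ (Es Eu : N → Submodule ℝ (V n)) (κ' C' : ℝ), 0 < κ' ∧ 0 < C' ∧ ∀ x ∈ K,
      Es x ⊓ Eu x = ⊥ ∧ Es x ⊔ Eu x = ⊤ ∧ (∀ v, v ∈ Es x ↔ dm F x v ∈ Es (F x)) ∧
      (∀ v, v ∈ Eu x ↔ dm F x v ∈ Eu (F x)) ∧
      (∀ m : ℕ, ∀ v ∈ Es x, ‖L (F^[m] x) (dm F^[m] x v)‖ ≤
        C' * Real.exp (-(κ' * m)) * ‖L x v‖) ∧
      ∀ m : ℕ, ∀ v ∈ Eu x, Real.exp (κ' * m) * ‖L x v‖ ≤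
        C' * ‖L (F^[m] x) (dm F^[m] x v)‖ := by
  have h1 := mkSide hF hG hGF hFG hK hinj hker iS iU contr expd step quot lift
  have iS' : ∀ T : N → Submodule ℝ (V n), (∀ x ∈ K, ∀ v, v ∈ T x ↔ dm F x v ∈ T (F x)) →
      ∀ x ∈ K, ∀ v, v ∈ T x ↔ dm G x v ∈ T (G x) := by
    intro T hT x hx v
    have h2 := hT (G x) (hK' x hx) (dm G x v)
    have h3 := inv_dm hG hF hFG 1 x v
    rw [Function.iterate_one, Function.iterate_one] at h3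
    rw [h3, hFG] at h2
    exact h2.symm
  have h2 := mkSide (S := U) (U := S) (κ := κ) (C := C) hG hF hFG hGF hK' hinj
    (fun x hx v => by rw [hker x hx v, sup_comm]) (iS' U iU) (iS' S iS)
    (flipE hG hF hFG hK' (P := fun x v => v ∈ U x) (fun y hy w hw => (iU y hy w).2 hw) expd)
    (flipC hG hF hFG hK' (P := fun x v => v ∈ S x) (fun y hy w hw => (iS y hy w).2 hw) contr)
    step' quot lift
  have h3 := two_sided hκ hC h1 h2 (fun x _ => hGF x)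
    (fun x _ m v => inv_dm hF hG hGF m x v)
    (fun x _ m => (Function.LeftInverse.iterate hGF m) x) (by
      intro x hx v
      obtain ⟨v₁, v₂, e, p1, p2⟩ := dec x hx v
      exact ⟨v₁, v₂, e, fun m => cs x hx m v₁ p1, fun m => eu x hx m v₂ p2,
        fun m => flipE hG hF hFG hK' bu eu x hx m v₂ p2,
        fun m => flipC hG hF hFG hK' bs cs x hx m v₁ p1⟩)
  obtain ⟨Es, Eu, κ', C', a1, a2, a3⟩ := h3
  refine ⟨Es, Eu, κ', C', a1, a2, fun x hx => ?_⟩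
  obtain ⟨b1, b2, b3, b4, b5, b6⟩ := a3 x hx
  simp only [Function.iterate_one] at b3 b4
  exact ⟨b1, b2, b3, b4, b5, b6⟩

end

end Pool.Agent.Helper21S
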