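import Pool.Agent.Helper21S.Ext4

/-!
# Project ST: hyperbolic sets in submanifolds of codimension two
-/

set_option autoImplicit false
set_option linter.unusedSectionVars false

open scoped Manifold ContDiff Topology
open Filter Set Metric

universe u v

namespace Pool.Agent.Helper21S

open Pool.Agent.H718R2.G Pool.Agent.Y504.CO Pool.Agent.TH80.OMS Pool.Agent.W564.SC
  Pool.Agent.W74.SC

/-- Coordinates in the plane. -/
theorem plane_dec {s u : ℂ} (hs : ‖s‖ = 1) (h : ¬ Along s u) (z : ℂ) :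
    ∃ a b : ℝ, z = a * s + b * u := by
  have h1 : s.re * s.re + s.im * s.im = 1 := by
    have := Complex.sq_norm s
    rw [hs, Complex.normSq_apply] at this
    linarith
  set d : ℝ := s.re * u.im - s.im * u.re with hd
  have hd0 : d ≠ 0 := by
    intro h0
    apply h
    refine ⟨s.re * u.re + s.im * u.im, ?_⟩
    apply Complex.ext
    · simp only [Complex.mul_re, Complex.ofReal_re, Complex.ofReal_im, zero_mul, sub_zero]
      linear_combination (-u.re) * h1 - s.im * h0 + 0 * hd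
    · simp only [Complex.mul_im, Complex.ofReal_re, Complex.ofReal_im, zero_mul, add_zero]
      linear_combination (-u.im) * h1 + s.re * h0 + 0 * hd
  refine ⟨(u.im * z.re - u.re * z.im) / d, (s.re * z.im - s.im * z.re) / d, ?_⟩
  apply Complex.ext
  · simp only [Complex.add_re, Complex.mul_re, Complex.ofReal_re, Complex.ofReal_im, zero_mul,
      sub_zero]
    field_simp
    rw [hd]
    ring
  · simp only [Complex.add_im, Complex.mul_im, Complex.ofReal_re, Complex.ofReal_im, zero_mul,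
      add_zero]
    field_simp
    rw [hd]
    ring

section

variable {n : ℕ} {N : Type u} [TopologicalSpace N] [ChartedSpace (V n) N] [IsManifold (𝓡 n) ∞ N]
  {E E' : Type*} [NormedAddCommGroup E] [NormedSpace ℝ E] [NormedAddCommGroup E'] [NormedSpace ℝ E']
  [T2Space N] [CompactSpace N] {r : ℕ∞} {F : DiffM n N r} {K : Set N}

theorem symm_mdiff (hr : 1 ≤ r) (F : DiffM n N r) :
    MDifferentiable (𝓡 n) (𝓡 n) (F.symm : N → N) := diffM_mdiff hr F.symm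

/-- the conclusion: a hyperbolic splitting over `K` -/
def HypSplit (F : N → N) (K : Set N) (L : N → V n →L[ℝ] E') : Prop :=
  ∃ (Es Eu : N → Submodule ℝ (V n)) (κ' C' : ℝ), 0 < κ' ∧ 0 < C' ∧ ∀ x ∈ K,
      Es x ⊓ Eu x = ⊥ ∧ Es x ⊔ Eu x = ⊤ ∧ (∀ v, v ∈ Es x ↔ dm F x v ∈ Es (F x)) ∧
      (∀ v, v ∈ Eu x ↔ dm F x v ∈ Eu (F x)) ∧
      (∀ m : ℕ, ∀ v ∈ Es x, ‖L (F^[m] x) (dm F^[m] x v)‖ ≤
        C' * Real.exp (-(κ' * m)) * ‖L x v‖) ∧
      ∀ m : ℕ, ∀ v ∈ Eu x, Real.exp (κ' * m) * ‖L x v‖ ≤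
        C' * ‖L (F^[m] x) (dm F^[m] x v)‖

theorem contr_mono {κ₀ κ C₀ C a b : ℝ} (hκ : κ ≤ κ₀) (hC0 : 0 ≤ C₀) (hC : C₀ ≤ C) (m : ℕ)
    (hb : 0 ≤ b) (h : a ≤ C₀ * Real.exp (-(κ₀ * m)) * b) : a ≤ C * Real.exp (-(κ * m)) * b := by
  refine h.trans (mul_le_mul_of_nonneg_right ?_ hb)
  apply mul_le_mul hC _ (Real.exp_pos _).le (hC0.trans hC)
  rw [Real.exp_le_exp]
  have : κ * m ≤ κ₀ * m := mul_le_mul_of_nonneg_right hκ (Nat.cast_nonneg m)
  linarith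

theorem expd_mono {κ₀ κ C₀ C a b : ℝ} (hκ : κ ≤ κ₀) (hC : C₀ ≤ C) (m : ℕ)
    (ha : 0 ≤ a) (hb : 0 ≤ b) (h : Real.exp (κ₀ * m) * a ≤ C₀ * b) :
    Real.exp (κ * m) * a ≤ C * b := by
  have h1 : Real.exp (κ * m) * a ≤ Real.exp (κ₀ * m) * a := by
    apply mul_le_mul_of_nonneg_right _ ha
    rw [Real.exp_le_exp]
    exact mul_le_mul_of_nonneg_right hκ (Nat.cast_nonneg m)
  exact h1.trans (h.trans (mul_le_mul_of_nonneg_right hC hb))

theorem hyp_geo (hr : 1 ≤ r) (hKc : IsCompact K) (hK : ∀ x ∈ K, F x ∈ K)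
    (hK' : ∀ x ∈ K, F.symm x ∈ K) {ι : N → E'} (hι : ContMDiff (𝓡 n) 𝓘(ℝ, E') 1 ι)
    (hinj : ∀ x ∈ K, Function.Injective (dE (n := n) ι x)) [FiniteDimensional ℝ E] {g : N → E}
    (hg : ∀ z ∈ K, Reg (n := n) g z) (hs : ∀ z ∈ K, Function.Surjective (dE (n := n) g z))
    {S U : N → Submodule ℝ (V n)} (hker : ∀ x ∈ K, ∀ v, dE g x v = 0 ↔ v ∈ S x ⊔ U x)
    (iS : ∀ x ∈ K, ∀ v, v ∈ S x ↔ dm F x v ∈ S (F x))
    (iU : ∀ x ∈ K, ∀ v, v ∈ U x ↔ dm F x v ∈ U (F x))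
    {κ₀ C₀ : ℝ} (hκ₀ : 0 < κ₀) (hC₀ : 0 < C₀)
    (contr : ∀ x ∈ K, ∀ m : ℕ, ∀ v ∈ S x,
      ‖dE ι (F^[m] x) (dm F^[m] x v)‖ ≤ C₀ * Real.exp (-(κ₀ * m)) * ‖dE ι x v‖)
    (expd : ∀ x ∈ K, ∀ m : ℕ, ∀ v ∈ U x,
      Real.exp (κ₀ * m) * ‖dE ι x v‖ ≤ C₀ * ‖dE ι (F^[m] x) (dm F^[m] x v)‖)
    {Ps Pu : N → V n → Prop} (bs : ∀ y ∈ K, ∀ w, Ps (F y) (dm F y w) → Ps y w)
    (bu : ∀ y ∈ K, ∀ w, Pu (F y) (dm F y w) → Pu y w)
    (dec : ∀ x ∈ K, ∀ v, ∃ v₁ v₂, v = v₁ + v₂ ∧ Ps x v₁ ∧ Pu x v₂)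
    {κ₁ C₁ : ℝ} (hκ₁ : 0 < κ₁) (hC₁ : 0 < C₁)
    (cs : ∀ x ∈ K, ∀ m : ℕ, ∀ v, Ps x v →
      ‖dE g (F^[m] x) (dm F^[m] x v)‖ ≤ C₁ * Real.exp (-(κ₁ * m)) * ‖dE g x v‖)
    (eu : ∀ x ∈ K, ∀ m : ℕ, ∀ v, Pu x v →
      Real.exp (κ₁ * m) * ‖dE g x v‖ ≤ C₁ * ‖dE g (F^[m] x) (dm F^[m] x v)‖) :
    HypSplit F K (dE (n := n) ι) := by
  have hreg : ∀ {a : N → E'}, ContMDiff (𝓡 n) 𝓘(ℝ, E') 1 a → ∀ z ∈ K, Reg (n := n) a z :=
    fun ha z _ => ⟨univ, univ_mem, ha.contMDiffOn⟩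
  have hF1 : ∀ F : DiffM n N r, ContMDiff (𝓡 n) (𝓡 n) 1 F := fun F =>
    F.contMDiff.of_le
      (show ((1 : ℕ∞) : WithTop ℕ∞) ≤ (r : WithTop ℕ∞) from WithTop.coe_le_coe.mpr hr)
  have hcomp : ∀ (F : DiffM n N r) (x : N) (v : V n),
      dE (ι ∘ F) x v = dE ι (F x) (dm F x v) := by
    intro F x v
    have h2 : mfderiv (𝓡 n) 𝓘(ℝ, E') (ι ∘ F) x = (mfderiv (𝓡 n) 𝓘(ℝ, E') ι (F x)).comp
        (mfderiv (𝓡 n) (𝓡 n) F x) :=
      mfderiv_comp x ((hι.mdifferentiable (by norm_num)) (F x)) (diffM_mdiff hr F x)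
    exact congrArg (fun L : V n →L[ℝ] E' => L v) h2
  obtain ⟨Ca, hCa, ha⟩ := compare hKc (hreg (hι.comp (hF1 F))) (hreg hι) hinj
  obtain ⟨Cb, hCb, hb⟩ := compare hKc (hreg (hι.comp (hF1 F.symm))) (hreg hι) hinj
  obtain ⟨Cc, hCc, hc⟩ := compare hKc hg (hreg hι) hinj
  obtain ⟨Cd, hCd, hd⟩ := lift_ex hKc hg (hreg hι) hs
  set C : ℝ := 1 + C₀ + C₁ + Ca + Cb + Cc + Cd with hC
  refine hyp_core (κ := min κ₀ κ₁) (C := C) (G := F.symm) (L := dE (n := n) ι)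
    (Q := dE (n := n) g) (S := S) (U := U) (Ps := Ps) (Pu := Pu)
    (lt_min hκ₀ hκ₁) (by linarith) (diffM_mdiff hr F)
    (symm_mdiff hr F) (fun x => F.symm_apply_apply x) (fun x => F.apply_symm_apply x) hK hK'
    hinj hker iS iU ?_ ?_ ?_ ?_ ?_ ?_ bs bu dec ?_ ?_
  · intro x hx m v hv
    exact contr_mono (min_le_left _ _) hC₀.le (by linarith) m (norm_nonneg _) (contr x hx m v hv)
  · intro x hx m v hv
    exact expd_mono (min_le_left _ _) (by linarith) m (norm_nonneg _) (norm_nonneg _)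
      (expd x hx m v hv)
  · intro x hx v
    rw [← hcomp]
    exact (ha x hx v).trans (mul_le_mul_of_nonneg_right (by linarith) (norm_nonneg _))
  · intro x hx v
    rw [← hcomp]
    exact (hb x hx v).trans (mul_le_mul_of_nonneg_right (by linarith) (norm_nonneg _))
  · intro x hx v
    exact (hc x hx v).trans (mul_le_mul_of_nonneg_right (by linarith) (norm_nonneg _))
  · intro x hx v
    obtain ⟨e, he, hle⟩ := hd x hx v
    exact ⟨e, he, hle.trans (mul_le_mul_of_nonneg_right (by linarith) (norm_nonneg _))⟩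
  · intro x hx m v hv
    exact contr_mono (min_le_right _ _) hC₁.le (by linarith) m (norm_nonneg _) (cs x hx m v hv)
  · intro x hx m v hv
    exact expd_mono (min_le_right _ _) (by linarith) m (norm_nonneg _) (norm_nonneg _)
      (eu x hx m v hv)

/-- the kernel is invariant in both directions -/
theorem ker_iff (hr : 1 ≤ r) {Q : N → V n →L[ℝ] E} {S U : N → Submodule ℝ (V n)}
    (hK : ∀ x ∈ K, F x ∈ K) (hker : ∀ x ∈ K, ∀ v, Q x v = 0 ↔ v ∈ S x ⊔ U x)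
    (iS : ∀ x ∈ K, ∀ v, v ∈ S x ↔ dm F x v ∈ S (F x))
    (iU : ∀ x ∈ K, ∀ v, v ∈ U x ↔ dm F x v ∈ U (F x)) {x : N} (hx : x ∈ K) (v : V n) :
    Q x v = 0 ↔ Q (F x) (dm F x v) = 0 := by
  rw [hker x hx v, hker (F x) (hK x hx)]
  constructor
  · intro h
    obtain ⟨s, hs, u, hu, rfl⟩ := Submodule.mem_sup.1 h
    rw [map_add]
    exact Submodule.add_mem_sup ((iS x hx s).1 hs) ((iU x hx u).1 hu)
  · intro h
    obtain ⟨s, hs, u, hu, h1⟩ := Submodule.mem_sup.1 h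
    have hsur : ∀ w : V n, dm F x (dm F.symm (F x) w) = w := by
      intro w
      have h2 := inv_dm (symm_mdiff hr F) (diffM_mdiff hr F) (fun y => F.apply_symm_apply y) 1
        (F x) w
      rw [Function.iterate_one, Function.iterate_one] at h2
      have h3 : (F.symm : N → N) (F x) = x := F.symm_apply_apply x
      rw [h3] at h2
      exact h2
    have hin : Function.Injective (dm (n := n) F x) := by
      intro a b hab
      have h2 := inv_dm (diffM_mdiff hr F) (symm_mdiff hr F) (fun y => F.symm_apply_apply y) 1 x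
      have h3 := h2 a
      have h4 := h2 b
      rw [Function.iterate_one, Function.iterate_one] at h3 h4
      rw [← h3, ← h4, hab]
    have e : v = dm F.symm (F x) s + dm F.symm (F x) u := by
      apply hin
      rw [map_add, hsur, hsur, h1]
    rw [e]
    apply Submodule.add_mem_sup
    · rw [iS x hx, hsur]
      exact hs
    · rw [iU x hx, hsur]
      exact hu

theorem mem_of_chain {Y : Type*} [MetricSpace Y] [CompactSpace Y] {h : Y → Y} (hh : Continuous h)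
    (ht : ChainTrans h) : Function.Surjective h := by
  intro q
  have hc : IsClosed (range h) := (isCompact_range hh).isClosed
  have : q ∈ closure (range h) := by
    rw [Metric.mem_closure_iff]
    intro δ hδ
    obtain ⟨m, hm, w, -, hw, hch⟩ := ht δ hδ q q
    refine ⟨h (w (m - 1)), mem_range_self _, ?_⟩
    have h1 := hch (m - 1) (by omega)
    rw [Nat.sub_add_cancel hm, hw, dist_comm] at h1
    exact h1
  rwa [hc.closure_eq] at this

/-- **Hyperbolic sets in submanifolds of codimension two.** -/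
theorem hyp_planes (hr : 1 ≤ r) (hF : OmegaStable n N r F)
    {Y : Type v}
    [MetricSpace Y] [CompactSpace Y] {h : Y → Y} (hh : Continuous h) (hsh : PerShadow h)
    (ht : ChainTrans h) {Θ : Y → N} {g : N → ℂ}
    (hΘ : Continuous Θ) (hconj : ∀ y, F (Θ y) = Θ (h y))
    (hW : ∀ z ∈ range Θ, ∃ W ∈ 𝓝 z, ContMDiffOn (𝓡 n) 𝓘(ℝ, ℂ) ∞ g W)
    (hg0 : ∀ x ∈ range Θ, g x = 0)
    (hsurj : ∀ x ∈ range Θ, Function.Surjective (dgc (n := n) g x))
    (hor : ∀ x ∈ range Θ, ∀ v w : V n, 0 < om (dgc g x v) (dgc g x w) →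
      0 < om (dgc g (F x) (dm F x v)) (dgc g (F x) (dm F x w)))
    {ι : N → E'} (hι : ContMDiff (𝓡 n) 𝓘(ℝ, E') 1 ι)
    (hinj : ∀ x ∈ range Θ, Function.Injective (dE (n := n) ι x))
    {S U : N → Submodule ℝ (V n)} (hker : ∀ x ∈ range Θ, ∀ v, dgc g x v = 0 ↔ v ∈ S x ⊔ U x)
    (iS : ∀ x ∈ range Θ, ∀ v, v ∈ S x ↔ dm F x v ∈ S (F x))
    (iU : ∀ x ∈ range Θ, ∀ v, v ∈ U x ↔ dm F x v ∈ U (F x))
    {κ₀ C₀ : ℝ} (hκ₀ : 0 < κ₀) (hC₀ : 0 < C₀)
    (contr : ∀ x ∈ range Θ, ∀ m : ℕ, ∀ v ∈ S x,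
      ‖dE ι (F^[m] x) (dm F^[m] x v)‖ ≤ C₀ * Real.exp (-(κ₀ * m)) * ‖dE ι x v‖)
    (expd : ∀ x ∈ range Θ, ∀ m : ℕ, ∀ v ∈ U x,
      Real.exp (κ₀ * m) * ‖dE ι x v‖ ≤ C₀ * ‖dE ι (F^[m] x) (dm F^[m] x v)‖) :
    HypSplit F (range Θ) (dE (n := n) ι) := by
  have hK : ∀ x ∈ range Θ, F x ∈ range Θ := by
    rintro _ ⟨y, rfl⟩
    exact ⟨h y, (hconj y).symm⟩
  have hK' : ∀ x ∈ range Θ, F.symm x ∈ range Θ := by
    rintro _ ⟨y, rfl⟩
    obtain ⟨y', rfl⟩ := mem_of_chain hh ht y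
    refine ⟨y', ?_⟩
    rw [← hconj]
    exact (F.symm_apply_apply _).symm
  have hki := fun {x : N} (hx : x ∈ range Θ) (v : V n) =>
    ker_iff (Q := dgc (n := n) g) hr hK hker iS iU hx v
  obtain ⟨κ, C, hκ, hC, h1⟩ := normal_plane' hr hF hh hsh ht hΘ hconj hW hg0 hsurj
    (fun x hx v hv => (hki hx v).1 hv) hor
  have hKc : IsCompact (range Θ) := isCompact_range hΘ
  have hreg : ∀ z ∈ range Θ, Reg (n := n) g z := by
    intro z hz
    obtain ⟨W, hW1, hW2⟩ := hW z hz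
    exact ⟨W, hW1, hW2.of_le (by norm_cast)⟩
  have hit : ∀ m : ℕ, ∀ x ∈ range Θ, ∀ v : V n, dgc g x v = 0 → dgc g (F^[m] x) (dm F^[m] x v) = 0 := by
    intro m
    induction m with
    | zero => intro x _ v hv; rw [dm_zero]; exact hv
    | succ m ih =>
      intro x hx v hv
      rw [dm_iter_succ (diffM_mdiff hr F), Function.iterate_succ_apply]
      exact ih _ (hK x hx) _ ((hki hx v).1 hv)
  rcases h1 with h1 | h1 | ⟨s, u, -, -, a3, a4, a5, a6, a7⟩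
  · refine hyp_geo (g := g) (Ps := fun _ _ => True) (Pu := fun x v => dgc g x v = 0) hr hKc hK hK'
      hι hinj hreg hsurj hker iS iU hκ₀ hC₀ contr expd (fun _ _ _ _ => trivial)
      (fun y hy w hw => (hki hy w).2 hw) (fun x hx v => ⟨v, 0, (add_zero v).symm, trivial, map_zero _⟩)
      hκ hC (fun x hx m v _ => h1 x hx m v) ?_
    intro x hx m v hv
    have e : dE (n := n) g x v = 0 := hv
    rw [e, norm_zero, mul_zero]
    exact mul_nonneg hC.le (norm_nonneg _)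
  · refine hyp_geo (g := g) (Ps := fun x v => dgc g x v = 0) (Pu := fun _ _ => True) hr hKc hK hK'
      hι hinj hreg hsurj hker iS iU hκ₀ hC₀ contr expd
      (fun y hy w hw => (hki hy w).2 hw) (fun _ _ _ _ => trivial)
      (fun x hx v => ⟨0, v, (zero_add v).symm, map_zero _, trivial⟩)
      hκ hC ?_ (fun x hx m v _ => h1 x hx m v)
    intro x hx m v hv
    have e : dE (n := n) g (F^[m] x) (dm F^[m] x v) = 0 := hit m x hx v hv
    rw [e, norm_zero]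
    exact mul_nonneg (mul_nonneg hC.le (Real.exp_pos _).le) (norm_nonneg _)
  · -- lifts of vectors of the plane
    have hz : ∀ w : ℂ, Along w 0 := fun w => ⟨0, by simp⟩
    have hbk : ∀ (s u : N → ℂ), (∀ x ∈ range Θ, ‖s x‖ = 1 ∧ ¬ Along (s x) (u x)) →
        (∀ x ∈ range Θ, ∀ v : V n, Along (s x) (dgc g x v) →
          Along (s (F x)) (dgc g (F x) (dm F x v))) →
        (∀ x ∈ range Θ, ∀ v : V n, Along (u x) (dgc g x v) →
          Along (u (F x)) (dgc g (F x) (dm F x v))) →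
        ∀ y ∈ range Θ, ∀ w : V n, Along (s (F y)) (dgc g (F y) (dm F y w)) →
          Along (s y) (dgc g y w) := by
      intro s u hsu ks ku y hy w hw
      obtain ⟨a, b, hab⟩ := plane_dec (hsu y hy).1 (hsu y hy).2 (dgc g y w)
      obtain ⟨w₁, hw₁⟩ := hsurj y hy (a * s y)
      obtain ⟨w₂, hw₂⟩ := hsurj y hy (b * u y)
      have e0 : dgc g y (w - w₁ - w₂) = 0 := by
        rw [map_sub, map_sub, hw₁, hw₂, hab]
        ring
      have e1 := (hki hy _).1 e0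
      rw [map_sub, map_sub, map_sub, map_sub] at e1
      obtain ⟨t₁, ht₁⟩ := ks y hy w₁ ⟨a, hw₁⟩
      obtain ⟨t₂, ht₂⟩ := ku y hy w₂ ⟨b, hw₂⟩
      obtain ⟨t, ht'⟩ := hw
      have e2 : dgc g (F y) (dm F y w₂) = 0 := by
        by_contra h0
        apply (hsu (F y) (hK y hy)).2
        have h2 : t₂ ≠ 0 := by
          rintro rfl
          apply h0
          rw [ht₂]
          simp
        refine ⟨(t - t₁) / t₂, ?_⟩
        have h3 : (t₂ : ℂ) ≠ 0 := by exact_mod_cast h2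
        push_cast
        rw [div_mul_eq_mul_div, eq_div_iff h3]
        linear_combination (-1 : ℂ) * e1 + ht' - ht₁ - ht₂
      have e3 := (hki hy _).2 e2
      refine ⟨a, ?_⟩
      rw [hab, ← hw₂, e3, add_zero]
    have hu' : ∀ x ∈ range Θ, ‖u x‖ = 1 ∧ ¬ Along (u x) (s x) := by
      intro x hx
      obtain ⟨b1, b2, b3⟩ := a3 x hx
      refine ⟨b2, ?_⟩
      rintro ⟨t, ht'⟩
      apply b3
      have h2 : t ≠ 0 := by
        rintro rfl
        rw [ht'] at b1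
        simp at b1
      have h3 : (t : ℂ) ≠ 0 := by exact_mod_cast h2
      refine ⟨1 / t, ?_⟩
      rw [ht']
      push_cast
      field_simp
    refine hyp_geo (g := g) (Ps := fun x v => Along (s x) (dgc g x v))
      (Pu := fun x v => Along (u x) (dgc g x v)) hr hKc hK hK'
      hι hinj hreg hsurj hker iS iU hκ₀ hC₀ contr expd
      (hbk s u (fun x hx => ⟨(a3 x hx).1, (a3 x hx).2.2⟩) a4 a5)
      (hbk u s hu' a5 a4) ?_ hκ hC a6 a7
    intro x hx v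
    obtain ⟨a, b, hab⟩ := plane_dec (a3 x hx).1 (a3 x hx).2.2 (dgc g x v)
    obtain ⟨w₁, hw₁⟩ := hsurj x hx (a * s x)
    refine ⟨w₁, v - w₁, by abel, ⟨a, hw₁⟩, ⟨b, ?_⟩⟩
    rw [map_sub, hw₁, hab]
    ring

end

end Pool.Agent.Helper21S
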