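import Pool.Agent.W564.SC.Defs

/-!
# Project ST: Birkhoff sums over chain transitive systems with periodic shadowing
-/

set_option autoImplicit false

open Filter Set Metric

universe w

namespace Pool.Agent.Helper21S

open Pool.Agent.W564.SC

/-- chain transitivity: all points are connected by pseudo-orbits -/
def ChainTrans {Y : Type*} [MetricSpace Y] (h : Y → Y) : Prop :=
  ∀ δ : ℝ, 0 < δ → ∀ p q : Y, ∃ m : ℕ, 1 ≤ m ∧ ∃ w : ℕ → Y, w 0 = p ∧ w m = q ∧
    ∀ i < m, dist (h (w i)) (w (i + 1)) < δ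

/-- Birkhoff sums -/
def bs {Y : Type*} (h : Y → Y) (φ : Y → ℝ) (m : ℕ) (y : Y) : ℝ :=
  ∑ i ∈ Finset.range m, φ (h^[i] y)

/-- pseudo-orbit from `p` to `q` of length `m` with sum `s` -/
def Seg {Y : Type*} [MetricSpace Y] (h : Y → Y) (φ : Y → ℝ) (δ : ℝ) (p q : Y) (m : ℕ) (s : ℝ) :
    Prop :=
  ∃ w : ℕ → Y, w 0 = p ∧ w m = q ∧ (∀ i < m, dist (h (w i)) (w (i + 1)) < δ) ∧
    ∑ i ∈ Finset.range m, φ (w i) = s

section

variable {Y : Type*} [MetricSpace Y] {h : Y → Y} {φ : Y → ℝ} {δ : ℝ}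

theorem Seg.trans {p q r : Y} {m m' : ℕ} {s s' : ℝ} (h1 : Seg h φ δ p q m s)
    (h2 : Seg h φ δ q r m' s') : Seg h φ δ p r (m + m') (s + s') := by
  obtain ⟨w, hw0, hwm, hw, hs⟩ := h1
  obtain ⟨w', hw0', hwm', hw', hs'⟩ := h2
  refine ⟨fun i => if i < m then w i else w' (i - m), ?_, ?_, ?_, ?_⟩
  · by_cases hm : 0 < m
    · simp only [hm, if_true]; exact hw0
    · have : m = 0 := by omega
      subst this
      simp only [lt_irrefl, if_false, Nat.sub_zero]
      rw [hw0', ← hwm, hw0]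
  · beta_reduce
    rw [if_neg (by omega), show m + m' - m = m' by omega]
    exact hwm'
  · intro i hi
    beta_reduce
    by_cases h1 : i + 1 < m
    · rw [if_pos (by omega), if_pos h1]
      exact hw i (by omega)
    · by_cases h2 : i < m
      · have h3 : i + 1 = m := by omega
        rw [if_pos h2, if_neg h1, h3, Nat.sub_self, hw0', ← hwm, ← h3]
        exact hw i h2
      · rw [if_neg h2, if_neg h1, show i + 1 - m = (i - m) + 1 by omega]
        exact hw' (i - m) (by omega)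
  · rw [Finset.sum_range_add, ← hs, ← hs']
    congr 1
    · apply Finset.sum_congr rfl
      intro i hi
      beta_reduce
      rw [if_pos (Finset.mem_range.1 hi)]
    · apply Finset.sum_congr rfl
      intro i _
      beta_reduce
      rw [if_neg (by omega), show m + i - m = i by omega]

theorem Seg.rep {p : Y} {m : ℕ} {s : ℝ} (hδ : 0 < δ) (h1 : Seg h φ δ p p m s) (k : ℕ) :
    Seg h φ δ p p (k * m) (k * s) := by
  induction k with
  | zero =>
    refine ⟨fun _ => p, rfl, rfl, ?_, ?_⟩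
    · intro i hi
      simp at hi
    · simp
  | succ k ih =>
    have := ih.trans h1
    rw [show k * m + m = (k + 1) * m by ring] at this
    rw [show (k : ℝ) * s + s = ((k + 1 : ℕ) : ℝ) * s by push_cast; ring] at this
    exact this

theorem Seg.orbit (hδ : 0 < δ) (y : Y) (m : ℕ) : Seg h φ δ y (h^[m] y) m (bs h φ m y) := by
  refine ⟨fun i => h^[i] y, rfl, rfl, ?_, rfl⟩
  intro i _
  rw [← Function.iterate_succ_apply' h, dist_self]
  exact hδ

theorem Seg.shadow {η κ : ℝ} (hφ : ∀ y y' : Y, dist y y' < η → |φ y - φ y'| ≤ κ)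
    (hsh : ∀ (m : ℕ) (w : ℕ → Y), 1 ≤ m → w m = w 0 →
      (∀ i < m, dist (h (w i)) (w (i + 1)) < δ) →
      ∃ p : Y, h^[m] p = p ∧ ∀ i < m, dist (h^[i] p) (w i) < η)
    {p : Y} {m : ℕ} {s : ℝ} (hm : 1 ≤ m) (h1 : Seg h φ δ p p m s) :
    ∃ y : Y, h^[m] y = y ∧ |bs h φ m y - s| ≤ κ * m := by
  obtain ⟨w, hw0, hwm, hw, hs⟩ := h1
  obtain ⟨y, hy, hyw⟩ := hsh m w hm (by rw [hwm, hw0]) hw
  refine ⟨y, hy, ?_⟩
  rw [bs, ← hs, ← Finset.sum_sub_distrib]
  calc |∑ i ∈ Finset.range m, (φ (h^[i] y) - φ (w i))|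
      ≤ ∑ i ∈ Finset.range m, |φ (h^[i] y) - φ (w i)| := Finset.abs_sum_le_sum_abs _ _
    _ ≤ ∑ _i ∈ Finset.range m, κ :=
        Finset.sum_le_sum fun i hi => hφ _ _ (hyw i (Finset.mem_range.1 hi))
    _ = κ * m := by simp [mul_comm]

/-- uniform length of the connecting pseudo-orbits -/
theorem unif [CompactSpace Y] (hh : Continuous h) (ht : ChainTrans h) (hδ : 0 < δ) :
    ∃ L : ℕ, ∀ p q : Y, ∃ m : ℕ, 1 ≤ m ∧ m ≤ L ∧ ∃ w : ℕ → Y, w 0 = p ∧ w m = q ∧
      ∀ i < m, dist (h (w i)) (w (i + 1)) < δ := by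
  classical
  obtain ⟨δ₁, hδ₁, hu⟩ := Metric.uniformContinuous_iff.1
    (CompactSpace.uniformContinuous_of_continuous hh) (δ / 3) (by positivity)
  obtain ⟨T, hT⟩ := isCompact_univ.elim_finite_subcover
    (fun c : Y => ball c (min δ₁ (δ / 3))) (fun _ => isOpen_ball)
    (fun y _ => mem_iUnion.2 ⟨y, mem_ball_self (by positivity)⟩)
  have h3 : 0 < δ / 3 := by positivity
  choose M hM w hw0 hwm hw using ht (δ / 3) h3
  refine ⟨∑ c ∈ T, ∑ d ∈ T, M c d, fun p q => ?_⟩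
  obtain ⟨c, hc, hpc⟩ := mem_iUnion₂.1 (hT (mem_univ p))
  obtain ⟨d, hd, hqd⟩ := mem_iUnion₂.1 (hT (mem_univ q))
  rw [mem_ball] at hpc hqd
  refine ⟨M c d, hM c d, ?_, fun i => if i = 0 then p else if i = M c d then q else w c d i,
    by simp, ?_, ?_⟩
  · calc M c d ≤ ∑ d ∈ T, M c d := Finset.single_le_sum (fun _ _ => Nat.zero_le _) hd
      _ ≤ _ := Finset.single_le_sum (f := fun c => ∑ d ∈ T, M c d) (fun _ _ => Nat.zero_le _) hc
  · have := hM c d
    beta_reduce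
    rw [if_neg (by omega), if_pos rfl]
  · intro i hi
    beta_reduce
    have h4 := hw c d i hi
    have h5 : dist (h (if i = 0 then p else if i = M c d then q else w c d i)) (h (w c d i)) <
        δ / 3 := by
      by_cases h0 : i = 0
      · rw [if_pos h0, h0, hw0]
        exact hu (hpc.trans_le (min_le_left _ _))
      · rw [if_neg h0, if_neg (by omega), dist_self]
        exact h3
    have h6 : dist (w c d (i + 1)) (if i + 1 = 0 then p else if i + 1 = M c d then q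
        else w c d (i + 1)) < δ / 3 := by
      rw [if_neg (Nat.succ_ne_zero i)]
      by_cases h0 : i + 1 = M c d
      · rw [if_pos h0, h0, hwm, dist_comm]
        exact hqd.trans_le (min_le_right _ _)
      · rw [if_neg h0, dist_self]
        exact h3
    calc dist _ _ ≤ dist (h (if i = 0 then p else if i = M c d then q else w c d i))
          (h (w c d i)) + dist (h (w c d i)) (w c d (i + 1)) + dist (w c d (i + 1))
          (if i + 1 = 0 then p else if i + 1 = M c d then q else w c d (i + 1)) :=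
          dist_triangle4 _ _ _ _
      _ < δ := by linarith

/-- One sign. -/
theorem td_pos [CompactSpace Y] (hh : Continuous h) (hφ : Continuous φ) (hsh : PerShadow h)
    (ht : ChainTrans h) {κ : ℝ} (hκ : 0 < κ)
    (hp : ∀ (y : Y) (m : ℕ), 1 ≤ m → h^[m] y = y → κ * m ≤ bs h φ m y) :
    ∃ C : ℝ, ∀ (y : Y) (m : ℕ), κ / 2 * m - C ≤ bs h φ m y := by
  obtain ⟨B, hB⟩ : ∃ B : ℝ, ∀ y, |φ y| ≤ B := by
    obtain ⟨B, hB⟩ := (isCompact_univ (X := Y)).exists_bound_of_continuousOn hφ.continuousOn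
    exact ⟨B, fun y => hB y (mem_univ y)⟩
  obtain ⟨η, hη, hu⟩ := Metric.uniformContinuous_iff.1
    (CompactSpace.uniformContinuous_of_continuous hφ) (κ / 4) (by positivity)
  obtain ⟨δ, hδ, hsh'⟩ := hsh η hη
  obtain ⟨L, hL⟩ := unif hh ht hδ
  refine ⟨L * |B|, fun y m => ?_⟩
  obtain ⟨m₁, hm₁, hm₁L, w, hw0, hwm, hw⟩ := hL (h^[m] y) y
  have h1 : Seg h φ δ (h^[m] y) y m₁ (∑ i ∈ Finset.range m₁, φ (w i)) := ⟨w, hw0, hwm, hw, rfl⟩
  have h2 := (Seg.orbit (φ := φ) hδ y m).trans h1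
  obtain ⟨p, hp1, hp2⟩ := h2.shadow (η := η) (κ := κ / 4)
    (fun y y' hyy => by
      have := hu hyy
      rw [Real.dist_eq] at this
      exact this.le) hsh' (by omega)
  have h3 := hp p (m + m₁) (by omega) hp1
  have h4 : |∑ i ∈ Finset.range m₁, φ (w i)| ≤ L * |B| := by
    calc |∑ i ∈ Finset.range m₁, φ (w i)| ≤ ∑ i ∈ Finset.range m₁, |φ (w i)| :=
          Finset.abs_sum_le_sum_abs _ _
      _ ≤ ∑ _i ∈ Finset.range m₁, |B| :=
          Finset.sum_le_sum fun i _ => (hB _).trans (le_abs_self B)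
      _ = m₁ * |B| := by simp
      _ ≤ L * |B| := by gcongr
  have h5 := abs_le.1 hp2
  have h6 := abs_le.1 h4
  push_cast at h3 h5
  have h7 : (0 : ℝ) ≤ m := Nat.cast_nonneg m
  have h8 : (0 : ℝ) ≤ m₁ := Nat.cast_nonneg m₁
  nlinarith [h5.2, h6.2, h3]

/-- The sign of the sums over periodic orbits is constant. -/
theorem td_sign [CompactSpace Y] (hh : Continuous h) (hφ : Continuous φ) (hsh : PerShadow h)
    (ht : ChainTrans h) {κ : ℝ} (hκ : 0 < κ)
    (hp : ∀ (y : Y) (m : ℕ), 1 ≤ m → h^[m] y = y → κ * m ≤ |bs h φ m y|)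
    {p q : Y} {a b : ℕ} (ha : 1 ≤ a) (hb : 1 ≤ b) (hpa : h^[a] p = p) (hqb : h^[b] q = q)
    (h1 : 0 < bs h φ a p) (h2 : bs h φ b q < 0) : False := by
  obtain ⟨B, hB⟩ : ∃ B : ℝ, ∀ y, |φ y| ≤ B := by
    obtain ⟨B, hB⟩ := (isCompact_univ (X := Y)).exists_bound_of_continuousOn hφ.continuousOn
    exact ⟨B, fun y => hB y (mem_univ y)⟩
  obtain ⟨η, hη, hu⟩ := Metric.uniformContinuous_iff.1
    (CompactSpace.uniformContinuous_of_continuous hφ) (κ / 4) (by positivity)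
  obtain ⟨δ, hδ, hsh'⟩ := hsh η hη
  obtain ⟨L, hL⟩ := unif hh ht hδ
  have hch : ∀ y y' : Y, ∃ m : ℕ, 1 ≤ m ∧ ∃ s : ℝ, |s| ≤ L * |B| ∧ Seg h φ δ y y' m s := by
    intro y y'
    obtain ⟨m₁, hm₁, hm₁L, w, hw0, hwm, hw⟩ := hL y y'
    refine ⟨m₁, hm₁, ∑ i ∈ Finset.range m₁, φ (w i), ?_, ⟨w, hw0, hwm, hw, rfl⟩⟩
    calc |∑ i ∈ Finset.range m₁, φ (w i)| ≤ ∑ i ∈ Finset.range m₁, |φ (w i)| :=
          Finset.abs_sum_le_sum_abs _ _
      _ ≤ ∑ _i ∈ Finset.range m₁, |B| :=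
          Finset.sum_le_sum fun i _ => (hB _).trans (le_abs_self B)
      _ = m₁ * |B| := by simp
      _ ≤ L * |B| := by gcongr
  obtain ⟨m₁, hm₁, s₁, hs₁, c₁⟩ := hch p q
  obtain ⟨m₂, hm₂, s₂, hs₂, c₂⟩ := hch q p
  set P : ℝ := bs h φ a p with hP
  set Q : ℝ := -bs h φ b q with hQ
  have hQ0 : 0 < Q := by rw [hQ]; linarith
  obtain ⟨β, hβ⟩ := exists_nat_gt ((P + 2 * (L * |B|)) / (κ / 2))
  set α : ℕ := ⌊β * Q / P⌋₊ with hα
  have hα1 : (α : ℝ) * P ≤ β * Q := by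
    have := Nat.floor_le (a := β * Q / P) (by positivity)
    rwa [le_div_iff₀ h1] at this
  have hα2 : (β : ℝ) * Q < (α + 1) * P := by
    have := Nat.lt_floor_add_one (β * Q / P)
    rwa [div_lt_iff₀ h1] at this
  have g1 : Seg h φ δ p p a P := by
    have := Seg.orbit (h := h) (φ := φ) hδ p a
    rwa [hpa] at this
  have g2 : Seg h φ δ q q b (bs h φ b q) := by
    have := Seg.orbit (h := h) (φ := φ) hδ q b
    rwa [hqb] at this
  have g3 := (((g1.rep hδ α).trans c₁).trans (g2.rep hδ β)).trans c₂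
  obtain ⟨y, hy1, hy2⟩ := g3.shadow (η := η) (κ := κ / 4)
    (fun y y' hyy => by
      have := hu hyy
      rw [Real.dist_eq] at this
      exact this.le) hsh' (by omega)
  have h3 := hp y _ (by omega) hy1
  set M : ℕ := α * a + m₁ + β * b + m₂ with hM
  have hMβ : (β : ℝ) ≤ M := by
    have : β ≤ M := by
      have : β * 1 ≤ β * b := Nat.mul_le_mul_left β hb
      omega
    exact_mod_cast this
  have h4 : P + 2 * (L * |B|) < κ / 2 * β := by
    rw [div_lt_iff₀ (by positivity)] at hβ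
    linarith
  have h5 : |bs h φ M y| ≤ κ / 4 * M + (P + 2 * (L * |B|)) := by
    have e1 := abs_le.1 hy2
    have e2 := abs_le.1 hs₁
    have e3 := abs_le.1 hs₂
    rw [abs_le]
    constructor <;> nlinarith [e1.1, e1.2, e2.1, e2.2, e3.1, e3.2]
  nlinarith

/-- Birkhoff sums which grow at least linearly on the periodic orbits. -/
theorem td [CompactSpace Y] (hh : Continuous h) (hφ : Continuous φ) (hsh : PerShadow h)
    (ht : ChainTrans h) {κ : ℝ} (hκ : 0 < κ)
    (hp : ∀ (y : Y) (m : ℕ), 1 ≤ m → h^[m] y = y → κ * m ≤ |bs h φ m y|) :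
    ∃ C : ℝ, (∀ (y : Y) (m : ℕ), κ / 2 * m - C ≤ bs h φ m y) ∨
      ∀ (y : Y) (m : ℕ), bs h φ m y ≤ -(κ / 2 * m - C) := by
  by_cases hpos : ∀ (y : Y) (m : ℕ), 1 ≤ m → h^[m] y = y → 0 < bs h φ m y
  · obtain ⟨C, hC⟩ := td_pos hh hφ hsh ht hκ (fun y m hm hy => by
      have := hp y m hm hy
      rwa [abs_of_pos (hpos y m hm hy)] at this)
    exact ⟨C, Or.inl hC⟩
  · push Not at hpos
    obtain ⟨q, b, hb, hqb, hq⟩ := hpos
    have hq' : bs h φ b q < 0 := by
      rcases hq.lt_or_eq with h1 | h1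
      · exact h1
      · have h2 := hp q b hb hqb
        rw [h1, abs_zero] at h2
        have h3 : (1 : ℝ) ≤ b := by exact_mod_cast hb
        nlinarith
    have hneg : ∀ y m, bs h (fun y => -φ y) m y = -bs h φ m y := by
      intro y m
      rw [bs, bs, Finset.sum_neg_distrib]
    obtain ⟨C, hC⟩ := td_pos (φ := fun y => -φ y) hh hφ.neg hsh ht hκ (fun y m hm hy => by
      have h1 := hp y m hm hy
      rw [hneg]
      rcases lt_trichotomy (bs h φ m y) 0 with h2 | h2 | h2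
      · rwa [abs_of_neg h2] at h1
      · rw [h2, abs_zero] at h1
        rw [h2]
        linarith
      · exact (td_sign hh hφ hsh ht hκ hp hm hb hy hqb h2 hq').elim)
    refine ⟨C, Or.inr fun y m => ?_⟩
    have h1 := hC y m
    rw [hneg] at h1
    linarith

end

end Pool.Agent.Helper21S
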