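import Pool.Agent.Helper21S.Normal
import Pool.Agent.Helper21S.TD
import Pool.Agent.Helper21S.Eig

/-!
# Project ST: conformal subquotients of the normal bundle
-/

set_option autoImplicit false
set_option linter.unusedSectionVars false

open scoped Manifold ContDiff Topology
open Filter Set Metric

universe u v

namespace Pool.Agent.Helper21S

open Pool.Agent.H718R2.G Pool.Agent.Y504.CO Pool.Agent.TH80.OMS Pool.Agent.W564.SC
  Pool.Agent.W74.SC

section

variable {n : ℕ} {N : Type u} [TopologicalSpace N] [ChartedSpace (V n) N] [IsManifold (𝓡 n) ∞ N]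
  [T2Space N] [CompactSpace N] {r : ℕ∞}

/-- the iterates -/
theorem iter_nu (hr : 1 ≤ r) {F : DiffM n N r} {Y : Type v} {h : Y → Y} {Θ : Y → N}
    (hconj : ∀ y, F (Θ y) = Θ (h y)) {P : N → Submodule ℝ (V n)} {ν : N → Seminorm ℝ (V n)}
    {a : N → ℝ} (hP : ∀ y, ∀ v ∈ P (Θ y), dm F (Θ y) v ∈ P (F (Θ y)))
    (ha : ∀ y, 0 < a (Θ y))
    (hν : ∀ y, ∀ v ∈ P (Θ y), ν (F (Θ y)) (dm F (Θ y) v) = a (Θ y) * ν (Θ y) v) (m : ℕ) :
    ∀ y, ∀ v ∈ P (Θ y), dm F^[m] (Θ y) v ∈ P (F^[m] (Θ y)) ∧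
      ν (F^[m] (Θ y)) (dm F^[m] (Θ y) v) =
        Real.exp (bs h (fun y => Real.log (a (Θ y))) m y) * ν (Θ y) v := by
  induction m with
  | zero =>
    intro y v hv
    have h3 : dm (n := n) (id : N → N) (Θ y) = ContinuousLinearMap.id ℝ (V n) := mfderiv_id
    have h4 : (F : N → N)^[0] = id := rfl
    rw [h4, h3]
    refine ⟨hv, ?_⟩
    simp [bs]
  | succ m ih =>
    intro y v hv
    rw [dm_iter_succ (diffM_mdiff hr F), Function.iterate_succ_apply,
      ContinuousLinearMap.comp_apply]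
    have hv' := hP y v hv
    rw [hconj] at hv'
    have h1 := ih (h y) (dm F (Θ y) v) hv'
    rw [← hconj] at h1
    refine ⟨h1.1, ?_⟩
    rw [h1.2, hν y v hv]
    have h2 : bs h (fun y => Real.log (a (Θ y))) (m + 1) y =
        bs h (fun y => Real.log (a (Θ y))) m (h y) + Real.log (a (Θ y)) := by
      rw [bs, Finset.sum_range_succ']
      rfl
    rw [h2, Real.exp_add, Real.exp_log (ha y)]
    ring

/-- Uniform hyperbolicity of conformal subquotients of the normal bundle, over factors of chain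
transitive systems with periodic shadowing. -/
theorem subquot (hr : 1 ≤ r) {F : DiffM n N r} (hF : OmegaStable n N r F) {Y : Type v}
    [MetricSpace Y] [CompactSpace Y] {h : Y → Y} (hh : Continuous h) (hsh : PerShadow h)
    (ht : ChainTrans h) {Θ : Y → N} (hΘ : Continuous Θ) (hconj : ∀ y, F (Θ y) = Θ (h y))
    {E P : N → Submodule ℝ (V n)} (hS : ∀ z ∈ range Θ, LocSub n (range Θ) E z)
    (hE : ∀ x ∈ range Θ, ∀ v ∈ E x, dm F x v ∈ E (F x))
    (hP : ∀ x ∈ range Θ, ∀ v ∈ P x, dm F x v ∈ P (F x)) (hEP : ∀ x ∈ range Θ, E x < P x)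
    {ν : N → Seminorm ℝ (V n)} (hν : ∀ x ∈ range Θ, ∀ v ∈ P x, ν x v = 0 ↔ v ∈ E x)
    {a : N → ℝ} (hac : ContinuousOn a (range Θ)) (ha : ∀ x ∈ range Θ, 0 < a x)
    (hconf : ∀ x ∈ range Θ, ∀ v ∈ P x, ν (F x) (dm F x v) = a x * ν x v) :
    ∃ κ : ℝ, 0 < κ ∧ ∃ C : ℝ, 0 < C ∧
      ((∀ x ∈ range Θ, ∀ (m : ℕ), ∀ v ∈ P x, ν (F^[m] x) (dm F^[m] x v) ≤
        C * Real.exp (-(κ * m)) * ν x v) ∨
      ∀ x ∈ range Θ, ∀ (m : ℕ), ∀ v ∈ P x, Real.exp (κ * m) * ν x v ≤
        C * ν (F^[m] x) (dm F^[m] x v)) := by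
  have hK : ∀ x ∈ range Θ, F x ∈ range Θ := by
    rintro _ ⟨y, rfl⟩
    exact ⟨h y, (hconj y).symm⟩
  have haΘ : Continuous fun y => Real.log (a (Θ y)) := by
    have h1 : Continuous fun y => a (Θ y) :=
      hac.comp_continuous hΘ fun y => ⟨y, rfl⟩
    exact h1.log fun y => (ha (Θ y) ⟨y, rfl⟩).ne'
  have hit := fun m => iter_nu hr hconj (P := P) (ν := ν) (a := a)
    (fun y => hP (Θ y) ⟨y, rfl⟩) (fun y => ha (Θ y) ⟨y, rfl⟩) (fun y => hconf (Θ y) ⟨y, rfl⟩) m
  obtain ⟨U, hU, hFU, -, hH⟩ := stable_hyp Plug.hF2 hr hF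
  obtain ⟨κ, hκ, hgap⟩ := gap_compact hr hU hFU hH (isCompact_range hΘ) (E := E) hK hE hS
  have hiter : ∀ (m : ℕ) (y : Y), F^[m] (Θ y) = Θ (h^[m] y) := by
    intro m
    induction m with
    | zero => intro y; rfl
    | succ m ih =>
      intro y
      rw [Function.iterate_succ_apply, hconj, ih, Function.iterate_succ_apply]
  have hper : ∀ (y : Y) (m : ℕ), 1 ≤ m → h^[m] y = y →
      κ * m ≤ |bs h (fun y => Real.log (a (Θ y))) m y| := by
    intro y m hm hy
    have hx : F^[m] (Θ y) = Θ y := by rw [hiter, hy]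
    obtain ⟨l, μ, hl, hlE, hlμ, hμc⟩ := subquot_eig ((dm F^[m] (Θ y) : V n →L[ℝ] V n) : V n →ₗ[ℝ] V n) (E (Θ y))
      (P (Θ y)) (hEP _ ⟨y, rfl⟩)
      (fun v hv => by
        have := iter_E hr hK hE m (x := Θ y) ⟨y, rfl⟩ v hv
        rwa [hx] at this)
      (fun v hv => by
        have := (hit m y v hv).1
        rwa [hx] at this)
      (ν (Θ y)) (hν _ ⟨y, rfl⟩) (Real.exp_pos (bs h (fun y => Real.log (a (Θ y))) m y))
      (fun v hv => by
        have := (hit m y v hv).2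
        rwa [hx] at this)
    have h1 := hgap (Θ y) ⟨y, rfl⟩ m hm hx l hl hlE μ hlμ
    rw [hμc, Real.exp_le_exp, Real.exp_le_exp] at h1
    rcases h1 with h1 | h1
    · exact h1.trans (le_abs_self _)
    · rw [le_abs]
      right
      linarith
  obtain ⟨C, hC⟩ := td hh haΘ hsh ht hκ hper
  refine ⟨κ / 2, by positivity, Real.exp C, Real.exp_pos _, ?_⟩
  rcases hC with hC | hC
  · right
    rintro _ ⟨y, rfl⟩ m v hv
    rw [(hit m y v hv).2, ← mul_assoc, ← Real.exp_add]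
    apply mul_le_mul_of_nonneg_right _ (apply_nonneg _ _)
    apply Real.exp_le_exp.2
    have := hC y m
    linarith
  · left
    rintro _ ⟨y, rfl⟩ m v hv
    rw [(hit m y v hv).2, ← Real.exp_add]
    apply mul_le_mul_of_nonneg_right _ (apply_nonneg _ _)
    apply Real.exp_le_exp.2
    have := hC y m
    linarith

end

end Pool.Agent.Helper21S
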