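import Pool.Agent.Helper21S.Ext5
import Pool.Agent.Helper21S.Sub

/-!
# Project ST: hyperbolic sets in submanifolds of codimension one
-/

set_option autoImplicit false
set_option linter.unusedSectionVars false

open scoped Manifold ContDiff Topology
open Filter Set Metric

universe u v

namespace Pool.Agent.Helper21S

open Pool.Agent.H718R2.G Pool.Agent.Y504.CO Pool.Agent.TH80.OMS Pool.Agent.W564.SC
  Pool.Agent.W74.SC

section

variable {n : ℕ} {N : Type u} [TopologicalSpace N] [ChartedSpace (V n) N] [IsManifold (𝓡 n) ∞ N]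
  {E E' : Type*} [NormedAddCommGroup E] [NormedSpace ℝ E] [NormedAddCommGroup E'] [NormedSpace ℝ E']
  [T2Space N] [CompactSpace N] {r : ℕ∞} {F : DiffM n N r} {K : Set N}

/-- the derivative of a composition -/
theorem dE_comp (hr : 1 ≤ r) {g : N → E} {x : N} (hg : Reg (n := n) g (F x)) (v : V n) :
    dE (g ∘ F) x v = dE g (F x) (dm F x v) := by
  obtain ⟨W, hW, hgW⟩ := hg
  have h2 : mfderiv (𝓡 n) 𝓘(ℝ, E) (g ∘ F) x = (mfderiv (𝓡 n) 𝓘(ℝ, E) g (F x)).comp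
      (mfderiv (𝓡 n) (𝓡 n) F x) :=
    mfderiv_comp x ((hgW.contMDiffAt hW).mdifferentiableAt (by norm_num)) (diffM_mdiff hr F x)
  exact congrArg (fun L : V n →L[ℝ] E => L v) h2

theorem reg_comp (hr : 1 ≤ r) {g : N → E} {x : N} (hg : Reg (n := n) g (F x)) :
    Reg (n := n) (g ∘ F) x := by
  obtain ⟨W, hW, hgW⟩ := hg
  have hF1 : ContMDiff (𝓡 n) (𝓡 n) 1 F :=
    F.contMDiff.of_le
      (show ((1 : ℕ∞) : WithTop ℕ∞) ≤ (r : WithTop ℕ∞) from WithTop.coe_le_coe.mpr hr)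
  refine ⟨F ⁻¹' W, F.continuous.continuousAt.preimage_mem_nhds hW, ?_⟩
  exact hgW.comp hF1.contMDiffOn (fun y hy => hy)

/-- The factor of a conformal (one dimensional) quotient is continuous. -/
theorem factor_cont (hr : 1 ≤ r) (hK : ∀ x ∈ K, F x ∈ K) {g : N → ℝ}
    (hreg : ∀ z ∈ K, Reg (n := n) g z) (hs : ∀ z ∈ K, Function.Surjective (dE (n := n) g z))
    {c : N → ℝ} (hc : ∀ x ∈ K, ∀ v : V n, dE g (F x) (dm F x v) = c x * dE g x v) :
    ContinuousOn c K := by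
  intro z hz
  obtain ⟨χ, hχ⟩ := Pool.Agent.W699.SC.gc n N z
  obtain ⟨A, hA, O₁, hO₁, hA'⟩ := chart_fun hχ (hreg z hz)
  obtain ⟨B, hB, O₂, hO₂, hB'⟩ := chart_fun hχ (reg_comp hr (hreg (F z) (hK z hz)))
  obtain ⟨v₀, hv₀⟩ := hs z hz 1
  set w := dc χ z v₀ with hw
  have hAz : A z w = 1 := by rw [hw, ← hA' z (mem_of_mem_nhds hO₁), hv₀]
  have c1 : ContinuousAt (fun x => A x w) z := hA.clm_apply continuousAt_const
  have c2 : ContinuousAt (fun x => B x w) z := hB.clm_apply continuousAt_const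
  have hne : ∀ᶠ x in 𝓝 z, A x w ≠ 0 := c1.eventually_ne (by rw [hAz]; norm_num)
  have hev : ∀ᶠ x in 𝓝[K] z, c x = B x w / A x w := by
    filter_upwards [self_mem_nhdsWithin, mem_nhdsWithin_of_mem_nhds hO₁,
      mem_nhdsWithin_of_mem_nhds hO₂, mem_nhdsWithin_of_mem_nhds hne,
      mem_nhdsWithin_of_mem_nhds (χ.open_source.mem_nhds hχ.src)] with x hx h1 h2 h3 h4
    obtain ⟨v, hv⟩ := (dc_bij hχ.mem h4).surjective w
    rw [eq_div_iff h3, ← hv, ← hA' x h1, ← hB' x h2, dE_comp hr (hreg (F x) (hK x hx))]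
    exact (hc x hx v).symm
  exact ((c2.div c1 (by rw [hAz]; norm_num)).continuousWithinAt).congr_of_eventuallyEq hev
    (hev.self_of_nhdsWithin hz)

/-- Hyperbolicity, if the quotient is contracting or expanding. -/
theorem hyp_ce (hr : 1 ≤ r) (hKc : IsCompact K) (hK : ∀ x ∈ K, F x ∈ K)
    (hK' : ∀ x ∈ K, F.symm x ∈ K) {ι : N → E'} (hι : ContMDiff (𝓡 n) 𝓘(ℝ, E') 1 ι)
    (hinj : ∀ x ∈ K, Function.Injective (dE (n := n) ι x)) [FiniteDimensional ℝ E] {g : N → E}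
    (hg : ∀ z ∈ K, Reg (n := n) g z) (hs : ∀ z ∈ K, Function.Surjective (dE (n := n) g z))
    {S U : N → Submodule ℝ (V n)} (hker : ∀ x ∈ K, ∀ v, dE g x v = 0 ↔ v ∈ S x ⊔ U x)
    (iS : ∀ x ∈ K, ∀ v, v ∈ S x ↔ dm F x v ∈ S (F x))
    (iU : ∀ x ∈ K, ∀ v, v ∈ U x ↔ dm F x v ∈ U (F x))
    {κ₀ C₀ : ℝ} (hκ₀ : 0 < κ₀) (hC₀ : 0 < C₀)
    (contr : ∀ x ∈ K, ∀ m : ℕ, ∀ v ∈ S x,
      ‖dE ι (F^[m] x) (dm F^[m] x v)‖ ≤ C₀ * Real.exp (-(κ₀ * m)) * ‖dE ι x v‖)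
    (expd : ∀ x ∈ K, ∀ m : ℕ, ∀ v ∈ U x,
      Real.exp (κ₀ * m) * ‖dE ι x v‖ ≤ C₀ * ‖dE ι (F^[m] x) (dm F^[m] x v)‖)
    {κ₁ C₁ : ℝ} (hκ₁ : 0 < κ₁) (hC₁ : 0 < C₁)
    (hce : (∀ x ∈ K, ∀ (m : ℕ) (v : V n),
        ‖dE g (F^[m] x) (dm F^[m] x v)‖ ≤ C₁ * Real.exp (-(κ₁ * m)) * ‖dE g x v‖) ∨
      ∀ x ∈ K, ∀ (m : ℕ) (v : V n),
        Real.exp (κ₁ * m) * ‖dE g x v‖ ≤ C₁ * ‖dE g (F^[m] x) (dm F^[m] x v)‖) :
    HypSplit F K (dE (n := n) ι) := by
  have hki := fun {x : N} (hx : x ∈ K) (v : V n) =>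
    ker_iff (Q := dE (n := n) g) hr hK hker iS iU hx v
  have hit : ∀ m : ℕ, ∀ x ∈ K, ∀ v : V n, dE g x v = 0 → dE g (F^[m] x) (dm F^[m] x v) = 0 := by
    intro m
    induction m with
    | zero => intro x _ v hv; rw [dm_zero]; exact hv
    | succ m ih =>
      intro x hx v hv
      rw [dm_iter_succ (diffM_mdiff hr F), Function.iterate_succ_apply]
      exact ih _ (hK x hx) _ ((hki hx v).1 hv)
  rcases hce with h1 | h1
  · refine hyp_geo (g := g) (Ps := fun _ _ => True) (Pu := fun x v => dE g x v = 0) hr hKc hK hK'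
      hι hinj hg hs hker iS iU hκ₀ hC₀ contr expd (fun _ _ _ _ => trivial)
      (fun y hy w hw => (hki hy w).2 hw) (fun x hx v => ⟨v, 0, (add_zero v).symm, trivial, map_zero _⟩)
      hκ₁ hC₁ (fun x hx m v _ => h1 x hx m v) ?_
    intro x hx m v hv
    rw [hv, norm_zero, mul_zero]
    exact mul_nonneg hC₁.le (norm_nonneg _)
  · refine hyp_geo (g := g) (Ps := fun x v => dE g x v = 0) (Pu := fun _ _ => True) hr hKc hK hK'
      hι hinj hg hs hker iS iU hκ₀ hC₀ contr expd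
      (fun y hy w hw => (hki hy w).2 hw) (fun _ _ _ _ => trivial)
      (fun x hx v => ⟨0, v, (zero_add v).symm, map_zero _, trivial⟩)
      hκ₁ hC₁ ?_ (fun x hx m v _ => h1 x hx m v)
    intro x hx m v hv
    rw [hit m x hx v hv, norm_zero]
    exact mul_nonneg (mul_nonneg hC₁.le (Real.exp_pos _).le) (norm_nonneg _)

/-- **Hyperbolic sets in submanifolds of codimension one.** -/
theorem hyp_lines (hr : 1 ≤ r) (hF : OmegaStable n N r F)
    {Y : Type v}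
    [MetricSpace Y] [CompactSpace Y] {h : Y → Y} (hh : Continuous h) (hsh : PerShadow h)
    (ht : ChainTrans h) {Θ : Y → N} {g : N → ℝ}
    (hΘ : Continuous Θ) (hconj : ∀ y, F (Θ y) = Θ (h y))
    (hW : ∀ z ∈ range Θ, ∃ W ∈ 𝓝 z, ContMDiffOn (𝓡 n) 𝓘(ℝ, ℝ) ∞ g W)
    (hg0 : ∀ x ∈ range Θ, g x = 0)
    (hsurj : ∀ x ∈ range Θ, Function.Surjective (dE (n := n) g x))
    {ι : N → E'} (hι : ContMDiff (𝓡 n) 𝓘(ℝ, E') 1 ι)
    (hinj : ∀ x ∈ range Θ, Function.Injective (dE (n := n) ι x))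
    {S U : N → Submodule ℝ (V n)} (hker : ∀ x ∈ range Θ, ∀ v, dE g x v = 0 ↔ v ∈ S x ⊔ U x)
    (iS : ∀ x ∈ range Θ, ∀ v, v ∈ S x ↔ dm F x v ∈ S (F x))
    (iU : ∀ x ∈ range Θ, ∀ v, v ∈ U x ↔ dm F x v ∈ U (F x))
    {κ₀ C₀ : ℝ} (hκ₀ : 0 < κ₀) (hC₀ : 0 < C₀)
    (contr : ∀ x ∈ range Θ, ∀ m : ℕ, ∀ v ∈ S x,
      ‖dE ι (F^[m] x) (dm F^[m] x v)‖ ≤ C₀ * Real.exp (-(κ₀ * m)) * ‖dE ι x v‖)
    (expd : ∀ x ∈ range Θ, ∀ m : ℕ, ∀ v ∈ U x,
      Real.exp (κ₀ * m) * ‖dE ι x v‖ ≤ C₀ * ‖dE ι (F^[m] x) (dm F^[m] x v)‖) :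
    HypSplit F (range Θ) (dE (n := n) ι) := by
  have hK : ∀ x ∈ range Θ, F x ∈ range Θ := by
    rintro _ ⟨y, rfl⟩
    exact ⟨h y, (hconj y).symm⟩
  have hK' : ∀ x ∈ range Θ, F.symm x ∈ range Θ := by
    rintro _ ⟨y, rfl⟩
    obtain ⟨y', rfl⟩ := mem_of_chain hh ht y
    refine ⟨y', ?_⟩
    rw [← hconj]
    exact (F.symm_apply_apply _).symm
  have hki := fun {x : N} (hx : x ∈ range Θ) (v : V n) =>
    ker_iff (Q := dE (n := n) g) hr hK hker iS iU hx v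
  have hreg : ∀ z ∈ range Θ, Reg (n := n) g z := by
    intro z hz
    obtain ⟨W, hW1, hW2⟩ := hW z hz
    exact ⟨W, hW1, hW2.of_le (by norm_cast)⟩
  -- the factor
  have hpt : ∀ x : N, ∃ c : ℝ, x ∈ range Θ → c ≠ 0 ∧
      ∀ v : V n, dE g (F x) (dm F x v) = c * dE g x v := by
    intro x
    by_cases hx : x ∈ range Θ
    · obtain ⟨v₀, hv₀⟩ := hsurj x hx 1
      refine ⟨dE g (F x) (dm F x v₀), fun _ => ⟨?_, fun v => ?_⟩⟩
      · intro h0
        have := (hki hx v₀).2 h0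
        rw [hv₀] at this
        norm_num at this
      · have h0 : dE g x (v - dE g x v • v₀) = 0 := by
          rw [map_sub, map_smul, hv₀, smul_eq_mul, mul_one, sub_self]
        have h1 := (hki hx _).1 h0
        rw [map_sub, map_sub, map_smul, map_smul, smul_eq_mul] at h1
        linarith
    · exact ⟨0, fun h => absurd h hx⟩
  choose c hc using hpt
  have hcc : ContinuousOn c (range Θ) := factor_cont hr hK hreg hsurj fun x hx => (hc x hx).2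
  set e : ℝ ≃L[ℝ] V 1 := ContinuousLinearEquiv.ofFinrankEq (by simp) with he
  have hloc : ∀ z ∈ range Θ, LocSub n (range Θ)
      (fun x => ((dE (n := n) g x : V n →ₗ[ℝ] ℝ)).ker) z := by
    intro z hz
    obtain ⟨W, hW1, hW2⟩ := hW z hz
    have hd : ∀ x ∈ interior W, ∀ v, dg (n := n) (e ∘ g) x v = e (dE g x v) := by
      intro x hx v
      have hgx : MDifferentiableAt (𝓡 n) 𝓘(ℝ, ℝ) g x :=
        (hW2.contMDiffAt (mem_interior_iff_mem_nhds.1 hx)).mdifferentiableAt (by simp)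
      have h2 : mfderiv (𝓡 n) (𝓡 1) (e ∘ g) x = (mfderiv 𝓘(ℝ, ℝ) (𝓡 1) e (g x)).comp
          (mfderiv (𝓡 n) 𝓘(ℝ, ℝ) g x) :=
        mfderiv_comp x e.toContinuousLinearMap.hasMFDerivAt.mdifferentiableAt hgx
      have h3 : mfderiv 𝓘(ℝ, ℝ) (𝓡 1) (e : ℝ → V 1) (g x) = (e : ℝ →L[ℝ] V 1) :=
        (e.toContinuousLinearMap.hasMFDerivAt (x := g x)).mfderiv
      rw [h3] at h2
      exact congrArg (fun L : V n →L[ℝ] V 1 => L v) h2
    refine ⟨1, e ∘ g, interior W, isOpen_interior.mem_nhds (mem_interior_iff_mem_nhds.2 hW1),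
      ?_, ?_, ?_⟩
    · have h1 : ContMDiff 𝓘(ℝ, ℝ) (𝓡 1) ∞ (e : ℝ → V 1) := e.contDiff.contMDiff
      exact h1.comp_contMDiffOn (hW2.mono interior_subset)
    · intro w
      obtain ⟨v, hv⟩ := hsurj z hz (e.symm w)
      refine ⟨v, ?_⟩
      rw [hd z (mem_interior_iff_mem_nhds.2 hW1), hv, e.apply_symm_apply]
    · intro x hx hxW
      refine ⟨?_, fun v => ?_⟩
      · rw [Function.comp_apply, hg0 x hx, map_zero]
      · rw [hd x hxW]
        constructor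
        · intro h0
          have : dE g x v = 0 := by
            apply e.injective
            rw [h0, map_zero]
          exact this
        · intro h0
          have : dE g x v = 0 := h0
          rw [this, map_zero]
  obtain ⟨κ, hκ, C, hC, h1⟩ := subquot hr hF hh hsh ht hΘ hconj
    (E := fun x => ((dE (n := n) g x : V n →ₗ[ℝ] ℝ)).ker) (P := fun _ => ⊤)
    (ν := fun x => (normSeminorm ℝ ℝ).comp (dE (n := n) g x : V n →ₗ[ℝ] ℝ)) (a := fun x => |c x|)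
    hloc (fun x hx v hv => (hki hx v).1 hv) (fun _ _ _ _ => trivial)
    (fun x hx => by
      rw [lt_top_iff_ne_top]
      intro h0
      obtain ⟨v, hv⟩ := hsurj x hx 1
      have h2 : v ∈ ((dE (n := n) g x : V n →ₗ[ℝ] ℝ)).ker := by rw [h0]; trivial
      have h3 : dE g x v = 0 := h2
      rw [hv] at h3
      norm_num at h3)
    (fun x hx v _ => by
      change ‖dE g x v‖ = 0 ↔ _
      rw [norm_eq_zero]
      rfl)
    hcc.abs (fun x hx => abs_pos.2 (hc x hx).1)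
    (fun x hx v _ => by
      change ‖dE g (F x) (dm F x v)‖ = |c x| * ‖dE g x v‖
      rw [(hc x hx).2 v, norm_mul, Real.norm_eq_abs])
  refine hyp_ce hr (isCompact_range hΘ) hK hK' hι hinj hreg hsurj hker iS iU hκ₀ hC₀ contr expd hκ
    hC ?_
  rcases h1 with h1 | h1
  · exact Or.inl fun x hx m v => h1 x hx m v trivial
  · exact Or.inr fun x hx m v => h1 x hx m v trivial

end

end Pool.Agent.Helper21S
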