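import Pool.Agent.Helper21S.Geo

/-!
# Project ST: families of pushes
-/

set_option autoImplicit false
set_option linter.unusedSectionVars false

open scoped Manifold ContDiff Topology
open Filter Set Metric

universe u

namespace Pool.Agent.Helper21S

open Pool.Agent.H718R2.G Pool.Agent.Y504.CO Pool.Agent.TH80.OMS Pool.Agent.W564.SC
  Pool.Agent.W74.SC

section

variable {n : ℕ} {N : Type u} [TopologicalSpace N] [ChartedSpace (V n) N] [IsManifold (𝓡 n) ∞ N]
  [T2Space N] [CompactSpace N] {r : ℕ∞}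

/-- Composition of a family with a family of pushes. -/
theorem fam_push {P : Type} [NormedAddCommGroup P] [NormedSpace ℝ P] {H : P → DiffM n N r}
    (hH : IsFam n N r H) {χ : OpenPartialHomeomorph N (V n)} {z : N} (hχ : GoodChart n N χ z)
    {u : V n → V n} (hu : ContDiff ℝ ∞ u) (huc : HasCompactSupport u)
    (hs : ∀ x, 1 / 2 ≤ ‖x‖ → u x = 0) (ℓ : P →L[ℝ] ℝ) :
    ∃ H' : P → DiffM n N r, IsFam n N r H' ∧ H' 0 = H 0 ∧ ∃ s₀ : ℝ, 0 < s₀ ∧ ∀ p, ‖p‖ < s₀ →
      ∃ Θ : DiffM n N r, IsPush n N r χ (fun v => ℓ p • u v) Θ ∧ H' p = (H p).trans Θ := by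
  classical
  obtain ⟨s₁, hs₁, -, hsm⟩ := small_smul u hu huc hs 1 (1 / 2) (by norm_num)
  have hex : ∀ p : P, ∃ Θ : DiffM n N r, |ℓ p| ≤ s₁ → IsPush n N r χ (fun v => ℓ p • u v) Θ := by
    intro p
    by_cases hp : |ℓ p| ≤ s₁
    · obtain ⟨Θ, hΘ⟩ := Pool.Agent.W428.SC.push n N r χ z hχ _ (hsm _ hp)
      exact ⟨Θ, fun _ => hΘ⟩
    · exact ⟨Diffeomorph.refl (𝓡 n) N r, fun h => absurd h hp⟩
  choose Θ hΘ using hex
  have hA : closedBall (0 : V n) (1 / 2) ⊆ χ.target :=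
    (closedBall_subset_closedBall (by norm_num)).trans hχ.ball
  have hcomp : IsCompact (χ.symm '' closedBall (0 : V n) (1 / 2)) :=
    (isCompact_closedBall _ _).image_of_continuousOn (χ.continuousOn_symm.mono hA)
  set R : P × N → N := fun q =>
    if q.2 ∈ χ.source then χ.symm (χ q.2 + ℓ q.1 • u (χ q.2)) else q.2 with hR
  have hRΘ : ∀ p, |ℓ p| ≤ s₁ → ∀ x, Θ p x = R (p, x) := by
    intro p hp x
    simp only [hR]
    split_ifs with hx
    · obtain ⟨a, b⟩ := (hΘ p hp).1 x hx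
      rw [← b, χ.left_inv a]
    · exact (hΘ p hp).2 x hx
  have hG : ContDiff ℝ ∞ fun q : P × V n => q.2 + ℓ q.1 • u q.2 := by
    exact contDiff_snd.add ((ℓ.contDiff.comp contDiff_fst).smul (hu.comp contDiff_snd))
  have hRs : ∀ x : N, ContMDiffAt (𝓘(ℝ, P).prod (𝓡 n)) (𝓡 n) ∞ R ((0 : P), x) := by
    intro x
    by_cases hx : x ∈ χ.source
    · have h1 : ContMDiffAt (𝓡 n) (𝓡 n) ∞ χ x :=
        (contMDiffOn_of_mem_maximalAtlas hχ.mem _ hx).contMDiffAt (χ.open_source.mem_nhds hx)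
      have h3 : ContMDiffAt (𝓘(ℝ, P).prod (𝓡 n)) (𝓡 n) ∞ (fun q : P × N => χ q.2)
          ((0 : P), x) := h1.comp ((0 : P), x) contMDiffAt_snd
      have h4 : ContMDiffAt (𝓘(ℝ, P).prod (𝓡 n)) 𝓘(ℝ, P × V n) ∞
          (fun q : P × N => (q.1, χ q.2)) ((0 : P), x) := (contMDiffAt_fst).prodMk_space h3
      have h5 : ContMDiffAt (𝓘(ℝ, P).prod (𝓡 n)) (𝓡 n) ∞
          (fun q : P × N => χ q.2 + ℓ q.1 • u (χ q.2)) ((0 : P), x) :=
        (hG.contMDiff.contMDiffAt).comp ((0 : P), x) h4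
      have h6 : χ x + ℓ (0 : P) • u (χ x) = χ x := by simp
      have h2 : ContMDiffAt (𝓡 n) (𝓡 n) ∞ χ.symm (χ x + ℓ (0 : P) • u (χ x)) := by
        rw [h6]
        exact (contMDiffOn_symm_of_mem_maximalAtlas hχ.mem _ (χ.map_source hx)).contMDiffAt
          (χ.open_target.mem_nhds (χ.map_source hx))
      have h7 : ContMDiffAt (𝓘(ℝ, P).prod (𝓡 n)) (𝓡 n) ∞
          (fun q : P × N => χ.symm (χ q.2 + ℓ q.1 • u (χ q.2))) ((0 : P), x) :=
        h2.comp ((0 : P), x) h5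
      refine h7.congr_of_eventuallyEq ?_
      filter_upwards [continuous_snd.continuousAt.preimage_mem_nhds
        (χ.open_source.mem_nhds hx)] with q hq
      simp only [hR]
      rw [if_pos (show q.2 ∈ χ.source from hq)]
    · have hx' : x ∈ (χ.symm '' closedBall (0 : V n) (1 / 2))ᶜ := by
        rintro ⟨v, hv, h⟩
        exact hx (by rw [← h]; exact χ.map_target (hA hv))
      have h5 : ContMDiffAt (𝓘(ℝ, P).prod (𝓡 n)) (𝓡 n) ∞ (fun q : P × N => q.2) ((0 : P), x) :=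
        contMDiffAt_snd
      refine h5.congr_of_eventuallyEq ?_
      filter_upwards [continuous_snd.continuousAt.preimage_mem_nhds
        (hcomp.isClosed.isOpen_compl.mem_nhds hx')] with q hq
      simp only [hR]
      split_ifs with h6
      · rw [hs, smul_zero, add_zero, χ.left_inv h6]
        by_contra h7
        push Not at h7
        apply hq
        refine ⟨χ q.2, ?_, χ.left_inv h6⟩
        rw [mem_closedBall, dist_zero_right]
        exact h7.le
      · rfl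
  refine ⟨fun p => (H p).trans (Θ p), ?_, ?_, s₁ / (‖ℓ‖ + 1), by positivity, ?_⟩
  · intro y
    have h1 := hH y
    have h2 : ContMDiffAt (𝓘(ℝ, P).prod (𝓡 n)) (𝓘(ℝ, P).prod (𝓡 n)) r
        (fun q : P × N => (q.1, H q.1 q.2)) ((0 : P), y) := contMDiffAt_fst.prodMk h1
    have hrr : ((r : ℕ∞) : WithTop ℕ∞) ≤ ∞ := by exact_mod_cast le_top
    have h3 : ContMDiffAt (𝓘(ℝ, P).prod (𝓡 n)) (𝓡 n) r
        (fun q : P × N => R (q.1, H q.1 q.2)) ((0 : P), y) :=
      ((hRs (H 0 y)).of_le hrr).comp ((0 : P), y) h2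
    refine h3.congr_of_eventuallyEq ?_
    have h4 : ∀ᶠ q : P × N in 𝓝 ((0 : P), y), |ℓ q.1| < s₁ := by
      have hc : Continuous fun q : P × N => |ℓ q.1| := (ℓ.continuous.comp continuous_fst).abs
      have : |ℓ (((0 : P), y) : P × N).1| < s₁ := by simpa using hs₁
      exact hc.continuousAt.eventually_lt_const this
    filter_upwards [h4] with q hq
    exact hRΘ q.1 hq.le (H q.1 q.2)
  · ext y
    show Θ 0 (H 0 y) = H 0 y
    rw [hRΘ 0 (by simpa using hs₁.le)]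
    simp only [hR]
    split_ifs with h1
    · simp [χ.left_inv h1]
    · rfl
  · intro p hp
    have h1 : |ℓ p| ≤ s₁ := by
      have h2 := ℓ.le_opNorm p
      rw [Real.norm_eq_abs] at h2
      refine h2.trans ?_
      rw [lt_div_iff₀ (by positivity)] at hp
      nlinarith [norm_nonneg p]
    exact ⟨Θ p, hΘ p h1, rfl⟩

/-- Small parameters stay in a neighbourhood. -/
theorem fam_nbhd (hr : 1 ≤ r) {P : Type} [NormedAddCommGroup P] [NormedSpace ℝ P]
    {H : P → DiffM n N r} (hH : IsFam n N r H) (z : N) {U : Set (DiffM n N r)}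
    (hU : IsOpen[strongTop n N r] U) (h0 : H 0 ∈ U) : ∃ s₀ : ℝ, 0 < s₀ ∧ ∀ p, ‖p‖ < s₀ → H p ∈ U := by
  obtain ⟨χ, hχ⟩ := Pool.Agent.W699.SC.gc n N z
  obtain ⟨k, -, -, κ, hκ, h⟩ := t_NBHD n N r hr P H hH χ z hχ U hU h0
  refine ⟨κ, hκ, fun p hp => ?_⟩
  have := h p 0 (Diffeomorph.refl (𝓡 n) N r) hp
    (Pool.Agent.W923.SC.small_mono Pool.Agent.W923.SC.small_zero le_rfl hκ.le)
    (Pool.Agent.W923.SC.isPush_refl χ)
  exact this

end

end Pool.Agent.Helper21S
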