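import Pool.Agent.Helper21S.Push

/-!
# Project ST: fields which vanish on a submanifold and scale its normal vectors
-/

set_option autoImplicit false
set_option linter.unusedSectionVars false

open scoped Manifold ContDiff Topology
open Filter Set Metric

universe u

namespace Pool.Agent.Helper21S

open Pool.Agent.H718R2.G

/-- A field `u` with support in a small ball which vanishes on `{f = 0}` near `0`, and multiplies the
normal vectors of this set by a number `β`. -/
theorem field0 {n q : ℕ} (f : V n → V q) (hf : ∀ᶠ v in 𝓝 (0 : V n), ContDiffAt ℝ ∞ f v)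
    (hs : Function.Surjective (fderiv ℝ f 0)) (ε : ℝ) (hε : 0 < ε) :
    ∃ ρ : ℝ, 0 < ρ ∧ ρ ≤ ε ∧ ∃ (u : V n → V n) (β : V n → ℝ), ContDiff ℝ ∞ u ∧
      HasCompactSupport u ∧ (∀ v, 0 ≤ β v ∧ β v ≤ 1) ∧ (∀ v, ‖v‖ ≤ ρ / 4 → β v = 1) ∧
      (∀ v, ‖v‖ < ρ → DifferentiableAt ℝ f v) ∧
      (∀ v, ‖v‖ < ρ → f v = 0 → u v = 0 ∧
        ∀ h, fderiv ℝ f v (fderiv ℝ u v h) = β v • fderiv ℝ f v h) ∧
      ∀ v, ρ ≤ ‖v‖ → (u =ᶠ[𝓝 v] fun _ => 0) ∧ β v = 0 := by
  obtain ⟨B₀, hB₀⟩ := LinearMap.exists_rightInverse_of_surjective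
    (fderiv ℝ f 0 : V n →ₗ[ℝ] V q) (LinearMap.range_eq_top.2 hs)
  set B : V q →L[ℝ] V n := LinearMap.toContinuousLinearMap B₀ with hB
  set M : V n → V q →L[ℝ] V q := fun v => (fderiv ℝ f v).comp B with hM
  have hM0 : M 0 = ((ContinuousLinearEquiv.refl ℝ (V q) : V q ≃L[ℝ] V q) : V q →L[ℝ] V q) := by
    ext1 y
    exact congrArg (fun L : V q →ₗ[ℝ] V q => L y) hB₀
  have hMs : ∀ v, ContDiffAt ℝ ∞ f v → ContDiffAt ℝ ∞ M v := by
    intro v hv
    have h1 : ContDiffAt ℝ ∞ (fderiv ℝ f) v := hv.fderiv_right (by simp)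
    exact h1.clm_comp contDiffAt_const
  have hinv : ∀ᶠ v in 𝓝 (0 : V n), ∃ e : V q ≃L[ℝ] V q, (e : V q →L[ℝ] V q) = M v := by
    have hc : ContinuousAt M 0 := (hMs 0 hf.self_of_nhds).continuousAt
    have ho : IsOpen (range ((↑) : (V q ≃L[ℝ] V q) → V q →L[ℝ] V q)) :=
      ContinuousLinearEquiv.isOpen
    have := hc.preimage_mem_nhds (ho.mem_nhds ⟨_, hM0.symm⟩)
    filter_upwards [this] with v hv
    exact hv
  obtain ⟨ρ₀, hρ₀, hball⟩ := Metric.eventually_nhds_iff_ball.1 (hf.and hinv)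
  set ρ : ℝ := min ρ₀ ε with hρ
  have hρ0 : 0 < ρ := lt_min hρ₀ hε
  have hgood : ∀ v : V n, ‖v‖ < ρ → ContDiffAt ℝ ∞ f v ∧
      ∃ e : V q ≃L[ℝ] V q, (e : V q →L[ℝ] V q) = M v := by
    intro v hv
    apply hball
    rw [mem_ball, dist_zero_right]
    exact hv.trans_le (min_le_left _ _)
  set c : V n → V q →L[ℝ] V n := fun v => B.comp (ContinuousLinearMap.inverse (M v)) with hc
  have hcs : ∀ v : V n, ‖v‖ < ρ → ContDiffAt ℝ ∞ c v := by
    intro v hv
    obtain ⟨h1, e, he⟩ := hgood v hv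
    have h2 : ContDiffAt ℝ ∞ ContinuousLinearMap.inverse (M v) := by
      rw [← he]
      exact contDiffAt_map_inverse e
    exact contDiffAt_const.clm_comp (h2.comp v (hMs v h1))
  have hcr : ∀ v : V n, ‖v‖ < ρ → ∀ y, fderiv ℝ f v (c v y) = y := by
    intro v hv y
    obtain ⟨h1, e, he⟩ := hgood v hv
    have h2 : fderiv ℝ f v (c v y) = M v (ContinuousLinearMap.inverse (M v) y) := rfl
    rw [h2, ← he, ContinuousLinearMap.inverse_equiv]
    exact e.apply_symm_apply y
  set w : V n → V n := fun v => c v (f v) with hw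
  have hws : ∀ v : V n, ‖v‖ < ρ → ContDiffAt ℝ ∞ w v := fun v hv =>
    (hcs v hv).clm_apply (hgood v hv).1
  let β : ContDiffBump (0 : V n) := ⟨ρ / 4, ρ / 2, by positivity, by linarith⟩
  have hβs : ContDiff ℝ ∞ (β : V n → ℝ) := β.contDiff
  have hβ0 : ∀ v : V n, ρ ≤ ‖v‖ → (β : V n → ℝ) =ᶠ[𝓝 v] fun _ => 0 := by
    intro v hv
    have h1 : {x : V n | ρ / 2 < ‖x‖} ∈ 𝓝 v :=
      (isOpen_lt continuous_const continuous_norm).mem_nhds (by
        show ρ / 2 < ‖v‖
        linarith)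
    filter_upwards [h1] with x hx
    apply β.zero_of_le_dist
    rw [dist_zero_right]
    exact hx.le
  set u : V n → V n := fun v => β v • w v with hu
  have hu0 : ∀ v : V n, ρ ≤ ‖v‖ → u =ᶠ[𝓝 v] fun _ => 0 := by
    intro v hv
    filter_upwards [hβ0 v hv] with x hx
    simp only [hu]
    rw [hx, zero_smul]
  refine ⟨ρ, hρ0, min_le_right _ _, u, β, ?_, ?_, ?_, ?_, ?_, ?_, ?_⟩
  · rw [contDiff_iff_contDiffAt]
    intro v
    by_cases hv : ‖v‖ < ρ
    · exact hβs.contDiffAt.smul (hws v hv)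
    · exact contDiffAt_const.congr_of_eventuallyEq (hu0 v (not_lt.1 hv))
  · exact β.hasCompactSupport.smul_right
  · exact fun v => ⟨β.nonneg, β.le_one⟩
  · intro v hv
    apply β.one_of_mem_closedBall
    rw [mem_closedBall, dist_zero_right]
    exact hv
  · intro v hv
    exact (hgood v hv).1.differentiableAt (by simp)
  · intro v hv hfv
    have hwv : w v = 0 := by
      simp only [hw]
      rw [hfv, map_zero]
    refine ⟨by simp only [hu]; rw [hwv, smul_zero], fun h => ?_⟩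
    have h1 : HasFDerivAt w ((c v).comp (fderiv ℝ f v)) v := by
      have h2 := ((hcs v hv).differentiableAt (by simp)).hasFDerivAt.clm_apply
        ((hgood v hv).1.differentiableAt (by simp)).hasFDerivAt
      rw [hfv] at h2
      refine h2.congr_fderiv ?_
      ext1 x
      simp
    have h3 : HasFDerivAt u (β v • (c v).comp (fderiv ℝ f v)) v := by
      have h4 := (hβs.differentiable (by simp) v).hasFDerivAt.smul h1
      rw [hwv] at h4
      refine h4.congr_fderiv ?_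
      ext1 x
      simp
    rw [h3.fderiv]
    simp only [smul_apply, ContinuousLinearMap.comp_apply, map_smul]
    rw [hcr v hv]
  · intro v hv
    exact ⟨hu0 v hv, (hβ0 v hv).self_of_nhds⟩

/-- Multiples of a fixed smooth field with compact support are small. -/
theorem small_smul {n : ℕ} (u : V n → V n) (hu : ContDiff ℝ ∞ u) (hc : HasCompactSupport u)
    (hs : ∀ x, 1 / 2 ≤ ‖x‖ → u x = 0) (k : ℕ) (κ : ℝ) (hκ : 0 < κ) :
    ∃ s₀ : ℝ, 0 < s₀ ∧ s₀ ≤ 1 / 2 ∧ ∀ s : ℝ, |s| ≤ s₀ →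
      Pool.Agent.W564.SC.Small n k κ (fun v => s • u v) := by
  have hbd : ∀ j : ℕ, ∃ C : ℝ, ∀ x : V n, ‖iteratedFDeriv ℝ j u x‖ ≤ C := by
    intro j
    have hcont : Continuous (iteratedFDeriv ℝ j u) :=
      hu.continuous_iteratedFDeriv (by exact_mod_cast le_top)
    exact hcont.bounded_above_of_compact_support (hc.iteratedFDeriv j)
  choose C hC using hbd
  have hC0 : ∀ j, 0 ≤ C j := fun j => (norm_nonneg _).trans (hC j 0)
  set A : ℝ := 1 + ∑ j ∈ Finset.range (k + 1), C j with hA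
  have hA1 : ∀ j ≤ k, C j ≤ A := by
    intro j hj
    have := Finset.single_le_sum (fun i (_ : i ∈ Finset.range (k + 1)) => hC0 i)
      (Finset.mem_range.2 (Nat.lt_succ_of_le hj))
    linarith
  have hA0 : 0 < A := by
    have := Finset.sum_nonneg (fun j (_ : j ∈ Finset.range (k + 1)) => hC0 j)
    linarith
  refine ⟨min (1 / 2) (κ / A), by positivity, min_le_left _ _, fun s hs' => ⟨?_, ?_, ?_⟩⟩
  · exact hu.const_smul s
  · intro x hx
    simp only [hs x hx, smul_zero]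
  · intro j hj x
    have h1 : iteratedFDeriv ℝ j (s • u) x = s • iteratedFDeriv ℝ j u x := by
      apply iteratedFDeriv_const_smul_apply
      exact (hu.of_le (by exact_mod_cast le_top)).contDiffAt
    change ‖iteratedFDeriv ℝ j (s • u) x‖ ≤ κ
    rw [h1, norm_smul, Real.norm_eq_abs]
    calc |s| * ‖iteratedFDeriv ℝ j u x‖ ≤ (κ / A) * A := by
          apply mul_le_mul (hs'.trans (min_le_right _ _)) ((hC j x).trans (hA1 j hj))
            (norm_nonneg _) (by positivity)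
      _ = κ := by field_simp

end Pool.Agent.Helper21S
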