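import Pool.Agent.Helper21S.Four

/-!
# Project ST: the potential of the cocycle with an imaginary parameter
-/

set_option autoImplicit false

open Filter Set Complex Topology

namespace Pool.Agent.Helper21S

section

variable {Y : Type*} {J : ℕ} {b : Fin J → Y → ℝ} {h : Y → Y} {α β : Y → ℂ}

theorem rm_smul (c : ℂ) (x : ℂ × ℂ) (M : Matrix (Fin 2) (Fin 2) ℂ) :
    rm (c * x.1, c * x.2) M = (c * (rm x M).1, c * (rm x M).2) := by
  unfold rm
  ext <;> simp <;> ring

theorem jf_smul (c : ℂ) (x : ℂ × ℂ) : Jf (c * x.1, c * x.2) = ‖c‖ ^ 2 * Jf x := by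
  unfold Jf
  simp only [norm_mul, mul_pow]
  ring

/-- The section and the potential. -/
theorem section_exists [MetricSpace Y] [CompactSpace Y] (hd : CD h α β b) {ε : ℝ} (hε : 0 < ε)
    (hε1 : ε ≤ 1 / 2) : ∃ (η : Y → ℂ) (ψ : Y → ℝ) (r : ℝ), Continuous ψ ∧ 0 ≤ r ∧ r < 1 ∧
      (∀ y, ‖η y‖ ≤ r) ∧ ∀ (n : ℕ) (y : Y), ∃ E : ℂ, ‖E‖ = Real.exp (bs h ψ n y) ∧
        rm (η (h^[n] y), 1) (PP h α β b (ε * I) n y) = (E * η y, E) := by
  obtain ⟨δ, A, hδ, hδ1, hA, hδ', hA'⟩ := bounds hd
  have hA0 : 0 < A := by linarith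
  set κ : ℝ := ε * δ / A ^ 2 with hκd
  have hκ : 0 < κ := by positivity
  have hκ1 : κ ≤ 1 / 2 := by
    rw [hκd, div_le_iff₀ (by positivity)]
    nlinarith
  set q : ℝ := 1 - ε with hq
  have hq0 : 0 ≤ q := by rw [hq]; linarith
  have hq1 : q < 1 := by rw [hq]; linarith
  set w : ℕ → Y → ℂ × ℂ := fun n y => rm (0, 1) (PP h α β b (ε * I) n y) with hw
  have hwJ : ∀ n y, κ * ‖(w n y).2‖ ^ 2 ≤ Jf (w n y) := by
    intro n y
    apply row_all hd.b0 hd.b1 hd.one hd.lt hε hε1 hδ hA0 hδ' hA'
    have h5 : Jf ((0 : ℂ), (1 : ℂ)) = 1 := by unfold Jf; simp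
    rw [h5]
    simp only [norm_one, one_pow, mul_one]
    linarith
  have hw2 : ∀ n y, (w n y).2 ≠ 0 := by
    intro n y h3
    have h5 : Jf ((0 : ℂ), (1 : ℂ)) = 1 := by unfold Jf; simp
    have g2 := J_grow h hd.b0 hd.lt (θ := ε * I) (by simp [hε.le]) (0, 1) n y
    have hQ := QQ_pos h (α := α) (β := β) hd.b0 hd.lt (θ := ε * I) (by simp [hε.le]) n y
    rw [h5, mul_one] at g2
    have h6 : Jf (w n y) ≤ ‖(w n y).2‖ ^ 2 := by
      unfold Jf
      nlinarith [sq_nonneg ‖(w n y).1‖]
    rw [h3, norm_zero] at h6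
    have h7 : Jf (rm (0, 1) (PP h α β b (ε * I) n y)) = Jf (w n y) := rfl
    rw [h7] at g2
    nlinarith
  set u : ℕ → Y → ℂ := fun n y => (w n y).1 / (w n y).2 with hu
  have hur : ∀ n y, ‖u n y‖ ^ 2 ≤ 1 - κ := by
    intro n y
    have h1 := hwJ n y
    have h2 : 0 < ‖(w n y).2‖ := norm_pos_iff.2 (hw2 n y)
    rw [hu]
    beta_reduce
    rw [norm_div, div_pow, div_le_iff₀ (by positivity)]
    unfold Jf at h1
    linarith
  have hstep : ∀ k n y, w (k + n) y = rm (w k (h^[n] y)) (PP h α β b (ε * I) n y) := by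
    intro k n y
    exact rm_row _ _ _ _ _
  have hcau : ∀ n k y, ‖u (k + n) y - u n y‖ ≤ q ^ n / κ := by
    intro n k y
    have := (cauchy_aux (h := h) hd.b0 hd.b1 hd.one hd.lt hε hε1 hκ (by linarith) (hwJ k (h^[n] y))
      (hw2 _ _) n y).2
    rw [← hstep] at this
    exact this
  have hlim0 : Tendsto (fun n : ℕ => q ^ n / κ) atTop (𝓝 0) := by
    have := (tendsto_pow_atTop_nhds_zero_of_lt_one hq0 hq1).div_const κ
    simpa using this
  have hex : ∀ y, ∃ l, Tendsto (fun n => u n y) atTop (𝓝 l) := by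
    intro y
    apply cauchySeq_tendsto_of_complete
    rw [Metric.cauchySeq_iff']
    intro e he
    obtain ⟨M, hM⟩ := ((hlim0.eventually_lt_const he)).exists
    refine ⟨M, fun n hn => ?_⟩
    rw [dist_eq_norm]
    obtain ⟨k, rfl⟩ := Nat.exists_eq_add_of_le' hn
    exact (hcau M k y).trans_lt hM
  choose η hη using hex
  have hηu : ∀ n y, ‖η y - u n y‖ ≤ q ^ n / κ := by
    intro n y
    have h1 : Tendsto (fun k => ‖u (k + n) y - u n y‖) atTop (𝓝 ‖η y - u n y‖) :=
      (((tendsto_add_atTop_iff_nat n).2 (hη y)).sub_const _).norm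
    exact le_of_tendsto h1 (Eventually.of_forall fun k => hcau n k y)
  have hηr : ∀ y, ‖η y‖ ^ 2 ≤ 1 - κ := by
    intro y
    have h1 : Tendsto (fun n => ‖u n y‖ ^ 2) atTop (𝓝 (‖η y‖ ^ 2)) := ((hη y).norm).pow 2
    exact le_of_tendsto h1 (Eventually.of_forall fun n => hur n y)
  have hcont : Continuous η := by
    have hun : ∀ n, Continuous (u n) := by
      intro n
      have c1 : ∀ j, Continuous fun y => PP h α β b (ε * I) n y 1 j := fun j =>
        cont_PP hd (ε * I) n 1 j
      have e1 : u n = fun y => PP h α β b (ε * I) n y 1 0 / PP h α β b (ε * I) n y 1 1 := by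
        funext y
        simp only [hu, hw]
        unfold rm
        simp
      have e2 : ∀ y, PP h α β b (ε * I) n y 1 1 ≠ 0 := by
        intro y
        have := hw2 n y
        simp only [hw] at this
        unfold rm at this
        simpa using this
      rw [e1]
      exact (c1 0).div (c1 1) e2
    have hunif : TendstoUniformly u η atTop := by
      rw [Metric.tendstoUniformly_iff]
      intro e he
      filter_upwards [hlim0.eventually_lt_const he] with n hn y
      rw [dist_eq_norm]
      exact (hηu n y).trans_lt hn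
    exact hunif.continuous (Eventually.of_forall hun).frequently
  -- the invariance
  set v : Y → ℂ × ℂ := fun y => rm (η (h y), 1) (MM α β b (ε * I) y) with hv
  have hinv : ∀ y, (v y).1 = (v y).2 * η y := by
    intro y
    have h1 : ∀ n, (rm (u n (h y), 1) (MM α β b (ε * I) y)).1 =
        (rm (u n (h y), 1) (MM α β b (ε * I) y)).2 * u (n + 1) y := by
      intro n
      have h2 : w (n + 1) y = rm (w n (h y)) (MM α β b (ε * I) y) := by
        change rm (0, 1) (PP h α β b (ε * I) n (h y) * MM α β b (ε * I) y) = _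
        rw [rm_mul]
      have h3 : w n (h y) = ((w n (h y)).2 * (u n (h y), (1 : ℂ)).1,
          (w n (h y)).2 * (u n (h y), (1 : ℂ)).2) := by
        ext
        · simp only [hu]
          rw [mul_div_cancel₀ _ (hw2 n (h y))]
        · simp
      rw [h3, rm_smul] at h2
      have h4 : u (n + 1) y = (w (n + 1) y).1 / (w (n + 1) y).2 := rfl
      have h5 := hw2 (n + 1) y
      rw [h4, h2]
      rw [h2] at h5
      simp only at h5 ⊢
      have h6 := hw2 n (h y)
      have h7 : (rm (u n (h y), 1) (MM α β b (ε * I) y)).2 ≠ 0 := by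
        intro h8
        apply h5
        rw [h8, mul_zero]
      field_simp
    have c1 : Tendsto (fun n => (rm (u n (h y), 1) (MM α β b (ε * I) y)).1) atTop
        (𝓝 (v y).1) := by
      simp only [hv, rm]
      exact ((hη (h y)).mul_const _).add_const _
    have c2 : Tendsto (fun n => (rm (u n (h y), 1) (MM α β b (ε * I) y)).2 * u (n + 1) y) atTop
        (𝓝 ((v y).2 * η y)) := by
      refine Tendsto.mul ?_ ((tendsto_add_atTop_iff_nat 1).2 (hη y))
      simp only [hv, rm]
      exact ((hη (h y)).mul_const _).add_const _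
    refine tendsto_nhds_unique c1 ?_
    refine c2.congr fun n => (h1 n).symm
  have hv2 : ∀ y, (v y).2 ≠ 0 := by
    intro y h3
    have h1 := J_step hd.b0 hd.lt (θ := ε * I) (by simp [hε.le]) (η (h y), 1) y
    have h2 := det_pos hd.lt y
    have h4 := D_one hd.b0 (θ := ε * I) (by simp [hε.le]) y
    have h5 : κ ≤ Jf (η (h y), 1) := by
      unfold Jf
      simp only [norm_one, one_pow]
      linarith [hηr (h y)]
    have h6 : Jf (v y) ≤ ‖(v y).2‖ ^ 2 := by
      unfold Jf
      nlinarith [sq_nonneg ‖(v y).1‖]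
    rw [h3, norm_zero] at h6
    have h7 : Jf (rm (η (h y), 1) (MM α β b (ε * I) y)) = Jf (v y) := rfl
    rw [h7] at h1
    have h8 : 0 < ‖Dm b (ε * I) y‖ ^ 2 * (‖α y‖ ^ 2 - ‖β y‖ ^ 2) * Jf (η (h y), 1) := by
      have : 0 < Jf (η (h y), 1) := hκ.trans_le h5
      positivity
    nlinarith
  have hvc : Continuous fun y => (v y).2 := by
    have c1 : Continuous fun y => η (h y) := hcont.comp hd.hh
    have c2 := cont_MM hd (ε * I) 0 1
    have c3 := cont_MM hd (ε * I) 1 1
    simp only [hv, rm]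
    exact (c1.mul c2).add (continuous_const.mul c3)
  refine ⟨η, fun y => Real.log ‖(v y).2‖, Real.sqrt (1 - κ), ?_, Real.sqrt_nonneg _, ?_, ?_, ?_⟩
  · exact hvc.norm.log fun y => (norm_pos_iff.2 (hv2 y)).ne'
  · rw [Real.sqrt_lt' one_pos]
    linarith
  · intro y
    exact Real.le_sqrt_of_sq_le (hηr y)
  · intro n
    induction n with
    | zero =>
      intro y
      refine ⟨1, by simp [bs], ?_⟩
      change rm (η y, 1) 1 = _
      rw [rm_one, one_mul]
    | succ n ih =>
      intro y
      obtain ⟨E, hE, hE'⟩ := ih (h y)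
      refine ⟨E * (v y).2, ?_, ?_⟩
      · rw [norm_mul, hE]
        have h2 : bs h (fun y => Real.log ‖(v y).2‖) (n + 1) y =
            bs h (fun y => Real.log ‖(v y).2‖) n (h y) + Real.log ‖(v y).2‖ := by
          rw [bs, Finset.sum_range_succ']
          rfl
        rw [h2, Real.exp_add, Real.exp_log (norm_pos_iff.2 (hv2 y))]
      · rw [Function.iterate_succ_apply]
        change rm (η (h^[n] (h y)), 1) (PP h α β b (ε * I) n (h y) * MM α β b (ε * I) y) = _
        rw [rm_mul, hE']
        have h3 := rm_smul E (η (h y), 1) (MM α β b (ε * I) y)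
        simp only [mul_one] at h3
        rw [h3]
        have h4 : rm (η (h y), 1) (MM α β b (ε * I) y) = v y := rfl
        rw [h4, hinv]
        ext
        · simp only
          ring
        · simp only

end

end Pool.Agent.Helper21S
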