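import Pool.Agent.Helper21S.Ext2

/-!
# Project ST: hyperbolic extensions in subbundles
-/

set_option autoImplicit false
set_option linter.unusedSectionVars false

open Filter Topology

namespace Pool.Agent.Helper21S

variable {W W' W'' : Type*} [NormedAddCommGroup W] [NormedSpace ℝ W] [FiniteDimensional ℝ W]
  [NormedAddCommGroup W'] [NormedSpace ℝ W'] [NormedAddCommGroup W''] [NormedSpace ℝ W'']

/-- data along one forward orbit -/
structure OSeqP (κ C : ℝ) (M : ℕ → W →L[ℝ] W') (Q : ℕ → W →L[ℝ] W'') (S U P : Submodule ℝ W) :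
    Prop where
  inj : Function.Injective (M 0)
  contr : ∀ (m k : ℕ), ∀ v ∈ S, ‖M (m + k) v‖ ≤ C * Real.exp (-(κ * k)) * ‖M m v‖
  exp : ∀ (m k : ℕ), ∀ v ∈ U, Real.exp (κ * k) * ‖M m v‖ ≤ C * ‖M (m + k) v‖
  step : ∀ (m : ℕ) (v : W), ‖M (m + 1) v‖ ≤ C * ‖M m v‖
  quot : ∀ (m : ℕ) (v : W), ‖Q m v‖ ≤ C * ‖M m v‖
  lift : ∀ (m : ℕ), ∀ v ∈ P, ∃ s ∈ S, ∃ u ∈ U, ‖M m (v - (s + u))‖ ≤ C * ‖Q m v‖

theorem OSeqP.iter {κ C : ℝ} (hC : 1 ≤ C) {M : ℕ → W →L[ℝ] W'} {Q : ℕ → W →L[ℝ] W''}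
    {S U P : Submodule ℝ W} (h : OSeqP κ C M Q S U P) (m k : ℕ) (v : W) :
    ‖M (m + k) v‖ ≤ C ^ k * ‖M m v‖ := by
  induction k with
  | zero => simp
  | succ k ih =>
    rw [← add_assoc]
    refine (h.step _ _).trans ?_
    rw [pow_succ, mul_comm (C ^ k), mul_assoc]
    exact mul_le_mul_of_nonneg_left ih (by linarith)

theorem angleP {κ C : ℝ} (hκ : 0 < κ) (hC : 1 ≤ C) : ∃ A : ℝ, 1 ≤ A ∧
    ∀ (M : ℕ → W →L[ℝ] W') (Q : ℕ → W →L[ℝ] W'') (S U P : Submodule ℝ W), OSeqP κ C M Q S U P →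
      ∀ (m : ℕ), ∀ s ∈ S, ∀ u ∈ U, ‖M m s‖ ≤ A * ‖M m (s + u)‖ ∧ ‖M m u‖ ≤ A * ‖M m (s + u)‖ := by
  obtain ⟨k, hk⟩ : ∃ k : ℕ, 2 * C ≤ Real.exp (κ * k) := by
    obtain ⟨k, hk⟩ := exists_nat_ge (2 * C / κ)
    refine ⟨k, ?_⟩
    have h1 : 2 * C ≤ κ * k := by
      rw [div_le_iff₀ hκ] at hk
      linarith
    have := Real.add_one_le_exp (κ * k)
    linarith
  have hC0 : 0 < C := by linarith
  have hp : 0 ≤ C ^ k := by positivity
  refine ⟨C ^ k + 2, by linarith, fun M Q S U P h m s hs u hu => ?_⟩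
  set a := ‖M m s‖ with ha
  set b := ‖M m u‖ with hb
  set w := ‖M m (s + u)‖ with hw
  have ha0 : 0 ≤ a := norm_nonneg _
  have hb0 : 0 ≤ b := norm_nonneg _
  have hw0 : 0 ≤ w := norm_nonneg _
  have h1 : a ≤ b + w := by
    have : M m s = M m (s + u) - M m u := by rw [map_add, add_sub_cancel_right]
    rw [ha, this]
    refine (norm_sub_le _ _).trans ?_
    rw [add_comm]
  have h2 := h.exp m k u hu
  have h3 : ‖M (m + k) u‖ ≤ C ^ k * w + C * Real.exp (-(κ * k)) * a := by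
    have : M (m + k) u = M (m + k) (s + u) - M (m + k) s := by rw [map_add, add_sub_cancel_left]
    rw [this]
    exact (norm_sub_le _ _).trans (add_le_add (h.iter hC m k _) (h.contr m k s hs))
  have h4 : C * Real.exp (-(κ * k)) ≤ 1 / 2 := by
    rw [Real.exp_neg, ← div_eq_mul_inv, div_le_iff₀ (Real.exp_pos _)]
    linarith
  have h5 : 2 * C * b ≤ C * (C ^ k * w + 1 / 2 * a) := by
    calc 2 * C * b ≤ Real.exp (κ * k) * b := mul_le_mul_of_nonneg_right hk hb0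
      _ ≤ C * ‖M (m + k) u‖ := h2
      _ ≤ C * (C ^ k * w + C * Real.exp (-(κ * k)) * a) := mul_le_mul_of_nonneg_left h3 hC0.le
      _ ≤ C * (C ^ k * w + 1 / 2 * a) := by gcongr
  have h6 : 2 * b ≤ C ^ k * w + 1 / 2 * a := by
    have : C * (2 * b) ≤ C * (C ^ k * w + 1 / 2 * a) := by linarith
    exact le_of_mul_le_mul_left this hC0
  have h7 : b ≤ (C ^ k + 1) * w := by nlinarith
  constructor
  · nlinarith
  · nlinarith

theorem adjustP {κ C : ℝ} (hκ : 0 < κ) (hC : 1 ≤ C) : ∃ C' : ℝ, 0 < C' ∧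
    ∀ (M : ℕ → W →L[ℝ] W') (Q : ℕ → W →L[ℝ] W'') (S U P : Submodule ℝ W), OSeqP κ C M Q S U P →
      ∀ v ∈ P, (∀ m : ℕ, ‖Q m v‖ ≤ C * Real.exp (-(κ * m)) * ‖Q 0 v‖) →
        ∃ u ∈ U, ∀ m : ℕ, ‖M m (v - u)‖ ≤ C' * Real.exp (-(κ / 2 * m)) * ‖M 0 v‖ := by
  obtain ⟨A, hA, hang⟩ := angleP (W := W) (W' := W') (W'' := W'') hκ hC
  have hC0 : 0 < C := by linarith
  have hA0 : 0 < A := by linarith
  set E : ℕ → ℝ := fun m => Real.exp (-(κ * m)) with hE
  have hE0 : ∀ m, 0 < E m := fun m => Real.exp_pos _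
  have hEadd : ∀ a b : ℕ, E (a + b) = E a * E b := by
    intro a b
    simp only [hE]
    rw [← Real.exp_add]
    congr 1
    push_cast
    ring
  have hE1 : E 1 < 1 := by
    simp only [hE, Nat.cast_one, mul_one]
    rw [Real.exp_lt_one_iff]
    linarith
  have hEle : ∀ m, E m ≤ 1 := by
    intro m
    simp only [hE]
    rw [Real.exp_le_one_iff]
    have : 0 ≤ κ * m := by positivity
    linarith
  have hEz : E 0 = 1 := by simp [hE]
  set D : ℝ := A * (2 * C ^ 4) with hD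
  have hD0 : 0 < D := by positivity
  set G : ℝ := (1 - E 1)⁻¹ with hG
  have hG0 : 0 < G := inv_pos.2 (by linarith)
  have hG1 : G * (1 - E 1) = 1 := inv_mul_cancel₀ (by linarith)
  set L : ℝ := C * (A * (1 + C ^ 3)) with hL
  have hL0 : 0 < L := by positivity
  refine ⟨C ^ 3 + L + C * D * G + C * D * Real.exp κ * (2 / κ), by positivity, ?_⟩
  intro M Q S U P h v hvP hv
  set B := ‖M 0 v‖ with hB
  have hB0 : 0 ≤ B := norm_nonneg _
  choose s hs u hu hsu using fun m => h.lift m v hvP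
  have h1 : ∀ m, ‖M m (v - (s m + u m))‖ ≤ C ^ 3 * E m * B := by
    intro m
    calc ‖M m (v - (s m + u m))‖ ≤ C * ‖Q m v‖ := hsu m
      _ ≤ C * (C * E m * ‖Q 0 v‖) := mul_le_mul_of_nonneg_left (hv m) hC0.le
      _ ≤ C * (C * E m * (C * B)) := by
          have := h.quot 0 v
          have h2 := (hE0 m).le
          gcongr
      _ = C ^ 3 * E m * B := by ring
  have h2 : ∀ m, ‖M (m + 1) ((s (m + 1) - s m) + (u (m + 1) - u m))‖ ≤ 2 * C ^ 4 * E m * B := by
    intro m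
    have e : (s (m + 1) - s m) + (u (m + 1) - u m) =
        (v - (s m + u m)) - (v - (s (m + 1) + u (m + 1))) := by abel
    rw [e, map_sub]
    refine (norm_sub_le _ _).trans ?_
    have k1 : ‖M (m + 1) (v - (s m + u m))‖ ≤ C * (C ^ 3 * E m * B) :=
      (h.step _ _).trans (mul_le_mul_of_nonneg_left (h1 m) hC0.le)
    have k2 := h1 (m + 1)
    rw [hEadd] at k2
    have k3 : C ^ 3 * (E m * E 1) * B ≤ C ^ 4 * E m * B := by
      have q1 : C ^ 3 ≤ C ^ 4 := pow_le_pow_right₀ hC (by norm_num)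
      have q2 : E m * E 1 ≤ E m := mul_le_of_le_one_right (hE0 m).le hE1.le
      have q3 : 0 ≤ E m * E 1 := mul_nonneg (hE0 m).le (hE0 1).le
      gcongr
    nlinarith
  have h3 : ∀ m, ‖M (m + 1) (s (m + 1) - s m)‖ ≤ D * E m * B ∧
      ‖M (m + 1) (u (m + 1) - u m)‖ ≤ D * E m * B := by
    intro m
    have k1 := hang M Q S U P h (m + 1) _ (S.sub_mem (hs (m + 1)) (hs m)) _
      (U.sub_mem (hu (m + 1)) (hu m))
    have k2 : A * ‖M (m + 1) ((s (m + 1) - s m) + (u (m + 1) - u m))‖ ≤ D * E m * B := by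
      calc _ ≤ A * (2 * C ^ 4 * E m * B) := mul_le_mul_of_nonneg_left (h2 m) hA0.le
        _ = _ := by rw [hD]; ring
    exact ⟨k1.1.trans k2, k1.2.trans k2⟩
  have h4 : ∀ l i : ℕ, ‖M (l + i) (s l)‖ ≤ (L + C * D * Real.exp κ * l) * E (l + i) * B := by
    intro l
    induction l with
    | zero =>
      intro i
      have k1 := h.contr 0 i _ (hs 0)
      have k2 := (hang M Q S U P h 0 _ (hs 0) _ (hu 0)).1
      have k3 : ‖M 0 (s 0 + u 0)‖ ≤ (1 + C ^ 3) * B := by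
        have e : M 0 (s 0 + u 0) = M 0 v - M 0 (v - (s 0 + u 0)) := by
          rw [← map_sub]
          congr 1
          abel
        rw [e]
        refine (norm_sub_le _ _).trans ?_
        have := h1 0
        rw [hEz] at this
        linarith
      have k4 : ‖M 0 (s 0)‖ ≤ A * ((1 + C ^ 3) * B) :=
        k2.trans (mul_le_mul_of_nonneg_left k3 hA0.le)
      have k5 : Real.exp (-(κ * i)) = E i := rfl
      rw [k5] at k1
      simp only [Nat.cast_zero, mul_zero, add_zero]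
      calc ‖M (0 + i) (s 0)‖ ≤ C * E i * ‖M 0 (s 0)‖ := k1
        _ ≤ C * E i * (A * ((1 + C ^ 3) * B)) :=
            mul_le_mul_of_nonneg_left k4 (mul_nonneg hC0.le (hE0 i).le)
        _ = L * E (0 + i) * B := by rw [hL, zero_add]; ring
    | succ l ih =>
      intro i
      have k1 := ih (1 + i)
      rw [← add_assoc] at k1
      have k2 := h.contr (l + 1) i _ (S.sub_mem (hs (l + 1)) (hs l))
      have k5 : Real.exp (-(κ * i)) = E i := rfl
      rw [k5] at k2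
      have k3 : ‖M (l + 1 + i) (s (l + 1) - s l)‖ ≤ C * E i * (D * E l * B) :=
        k2.trans (mul_le_mul_of_nonneg_left (h3 l).1 (mul_nonneg hC0.le (hE0 i).le))
      have e1 : E (l + 1 + i) * Real.exp κ = E i * E l := by
        have : Real.exp κ * E 1 = 1 := by
          simp only [hE, Nat.cast_one, mul_one]
          rw [← Real.exp_add, add_neg_cancel, Real.exp_zero]
        rw [hEadd, hEadd]
        linear_combination (E l * E i) * this
      have e2 : s (l + 1) = s l + (s (l + 1) - s l) := by abel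
      rw [e2, map_add]
      refine (norm_add_le _ _).trans ((add_le_add k1 k3).trans ?_)
      push_cast
      have : C * E i * (D * E l * B) = C * D * Real.exp κ * E (l + 1 + i) * B := by
        linear_combination (-(C * D * B)) * e1
      rw [this]
      apply le_of_eq
      ring
  have h5 : ∀ i t : ℕ, ‖M i (u (i + t) - u i)‖ ≤ C * D * G * E i * B * (1 - E t) := by
    intro i t
    induction t with
    | zero => simp [hEz]
    | succ t ih =>
      have hmem := U.sub_mem (hu (i + t + 1)) (hu (i + t))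
      have k1 := h.exp i (t + 1) _ hmem
      have k2 : ‖M (i + (t + 1)) (u (i + t + 1) - u (i + t))‖ ≤ D * E (i + t) * B :=
        (h3 (i + t)).2
      have k3 : ‖M i (u (i + t + 1) - u (i + t))‖ ≤ C * D * E i * E t * B := by
        have q1 : Real.exp (κ * (t + 1 : ℕ)) * E (t + 1) = 1 := by
          simp only [hE]
          rw [← Real.exp_add, add_neg_cancel, Real.exp_zero]
        have q2 : ‖M i (u (i + t + 1) - u (i + t))‖ =
            E (t + 1) * (Real.exp (κ * (t + 1 : ℕ)) * ‖M i (u (i + t + 1) - u (i + t))‖) := by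
          linear_combination (-‖M i (u (i + t + 1) - u (i + t))‖) * q1
        rw [q2]
        calc _ ≤ E (t + 1) * (C * (D * E (i + t) * B)) := by
              apply mul_le_mul_of_nonneg_left (k1.trans _) (hE0 _).le
              exact mul_le_mul_of_nonneg_left k2 hC0.le
          _ ≤ 1 * (C * (D * E (i + t) * B)) := by
              apply mul_le_mul_of_nonneg_right (hEle _)
              have := (hE0 (i + t)).le
              positivity
          _ = _ := by rw [hEadd]; ring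
      have e : u (i + (t + 1)) - u i = (u (i + t) - u i) + (u (i + t + 1) - u (i + t)) := by
        rw [← add_assoc]
        abel
      rw [e, map_add]
      refine (norm_add_le _ _).trans ((add_le_add ih k3).trans (le_of_eq ?_))
      rw [hEadd t 1]
      linear_combination (-(C * D * E i * E t * B)) * hG1
  -- the limit
  obtain ⟨R, hR0, hR⟩ : ∃ R : ℝ, 0 ≤ R ∧ ∀ w : W, ‖w‖ ≤ R * ‖M 0 w‖ := by
    have hker : (M 0 : W →ₗ[ℝ] W').ker = ⊥ := LinearMap.ker_eq_bot.2 h.inj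
    obtain ⟨R, -, hR⟩ := LinearMap.exists_antilipschitzWith (M 0 : W →ₗ[ℝ] W') hker
    refine ⟨R, R.2, fun w => ?_⟩
    have := hR.le_mul_dist w 0
    simpa using this
  have hbd : ∀ l, u l ∈ Metric.closedBall (0 : W) (R * (‖M 0 (u 0)‖ + C * D * G * B)) := by
    intro l
    rw [mem_closedBall_zero_iff]
    refine (hR _).trans (mul_le_mul_of_nonneg_left ?_ hR0)
    have k1 := h5 0 l
    rw [zero_add, hEz] at k1
    have e : M 0 (u l) = M 0 (u 0) + M 0 (u l - u 0) := by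
      rw [← map_add]
      congr 1
      abel
    rw [e]
    refine (norm_add_le _ _).trans ?_
    have k2 : C * D * G * 1 * B * (1 - E l) ≤ C * D * G * B := by
      have q1 : 1 - E l ≤ 1 := by linarith [hE0 l]
      have q2 : 0 ≤ C * D * G * B := by positivity
      nlinarith
    linarith
  haveI : ProperSpace W := FiniteDimensional.proper ℝ W
  obtain ⟨u', -, φ, hφ, hlim⟩ :=
    (isCompact_closedBall (0 : W) (R * (‖M 0 (u 0)‖ + C * D * G * B))).tendsto_subseq hbd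
  have hu' : u' ∈ U :=
    (Submodule.closed_of_finiteDimensional U).mem_of_tendsto hlim
      (Eventually.of_forall fun k => hu (φ k))
  have h6 : ∀ i, ‖M i (u' - u i)‖ ≤ C * D * G * E i * B := by
    intro i
    have k1 : Tendsto (fun k => ‖M i (u (φ k) - u i)‖) atTop (𝓝 ‖M i (u' - u i)‖) :=
      (((M i).continuous.tendsto _).comp (hlim.sub_const (u i))).norm
    apply le_of_tendsto k1
    filter_upwards [eventually_ge_atTop i] with k hk
    have hik : i ≤ φ k := hk.trans (hφ.id_le k)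
    have k2 := h5 i (φ k - i)
    rw [Nat.add_sub_cancel' hik] at k2
    refine k2.trans ?_
    have q1 : 1 - E (φ k - i) ≤ 1 := by linarith [hE0 (φ k - i)]
    have q2 : 0 ≤ C * D * G * E i * B := by
      have := (hE0 i).le
      positivity
    nlinarith
  refine ⟨u', hu', fun m => ?_⟩
  have e : v - u' = (v - (s m + u m)) + s m + (-(u' - u m)) := by abel
  have k1 := h1 m
  have k2 := h4 m 0
  rw [add_zero] at k2
  have k3 := h6 m
  rw [e, map_add, map_add, map_neg]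
  refine (norm_add_le _ _).trans ?_
  rw [norm_neg]
  have k4 := norm_add_le (M m (v - (s m + u m))) (M m (s m))
  set P' := Real.exp (-(κ / 2 * m)) with hP
  have hP0 : 0 < P' := Real.exp_pos _
  have hEP : E m = P' * P' := by
    simp only [hE, hP]
    rw [← Real.exp_add]
    congr 1
    ring
  have hP1 : P' ≤ 1 := by
    rw [hP, Real.exp_le_one_iff]
    have : 0 ≤ κ / 2 * m := by positivity
    linarith
  have hmP : m * P' ≤ 2 / κ := by
    have q1 : κ / 2 * m ≤ Real.exp (κ / 2 * m) := by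
      have := Real.add_one_le_exp (κ / 2 * m)
      linarith
    have q2 : Real.exp (κ / 2 * m) * P' = 1 := by
      rw [hP, ← Real.exp_add, add_neg_cancel, Real.exp_zero]
    have q3 : κ / 2 * m * P' ≤ 1 := by
      rw [← q2]
      exact mul_le_mul_of_nonneg_right q1 hP0.le
    rw [le_div_iff₀ hκ]
    nlinarith
  have hEmP : E m ≤ P' := by
    rw [hEP]
    nlinarith
  have hmE : m * E m ≤ 2 / κ * P' := by
    rw [hEP, ← mul_assoc]
    exact mul_le_mul_of_nonneg_right hmP hP0.le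
  have k5 : C ^ 3 * E m * B + (L + C * D * Real.exp κ * m) * E m * B + C * D * G * E m * B ≤
      (C ^ 3 + L + C * D * G + C * D * Real.exp κ * (2 / κ)) * P' * B := by
    have a1 : C ^ 3 * E m ≤ C ^ 3 * P' := mul_le_mul_of_nonneg_left hEmP (by positivity)
    have a2 : L * E m ≤ L * P' := mul_le_mul_of_nonneg_left hEmP hL0.le
    have a3 : C * D * G * E m ≤ C * D * G * P' := mul_le_mul_of_nonneg_left hEmP (by positivity)
    have a4 : C * D * Real.exp κ * (m * E m) ≤ C * D * Real.exp κ * (2 / κ * P') :=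
      mul_le_mul_of_nonneg_left hmE (by positivity)
    have a5 : C ^ 3 * E m + (L + C * D * Real.exp κ * m) * E m + C * D * G * E m ≤
        (C ^ 3 + L + C * D * G + C * D * Real.exp κ * (2 / κ)) * P' := by
      linarith
    calc _ = (C ^ 3 * E m + (L + C * D * Real.exp κ * m) * E m + C * D * G * E m) * B := by ring
      _ ≤ _ := mul_le_mul_of_nonneg_right a5 hB0
  linarith


variable {X : Type*}

/-- A linear cocycle over `f` on `K` with a hyperbolic splitting `S ⊕ U` of the kernel of `G`. -/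
structure SideP (κ C : ℝ) (f : X → X) (K : Set X) (D : ℕ → X → W →L[ℝ] W) (L : X → W →L[ℝ] W')
    (G : X → W →L[ℝ] W'') (S U P : X → Submodule ℝ W) : Prop where
  map : ∀ x ∈ K, f x ∈ K
  zero : ∀ x ∈ K, ∀ v, D 0 x v = v
  add : ∀ (a b : ℕ), ∀ x ∈ K, ∀ v, D (a + b) x v = D a (f^[b] x) (D b x v)
  inj : ∀ x ∈ K, Function.Injective (L x)
  ker : ∀ x ∈ K, ∀ v ∈ P x, G x v = 0 → ∃ s ∈ S x, ∃ u ∈ U x, v = s + u
  memP : ∀ x ∈ K, ∀ m : ℕ, ∀ v ∈ P x, D m x v ∈ P (f^[m] x)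
  SP : ∀ x ∈ K, S x ≤ P x
  UP : ∀ x ∈ K, U x ≤ P x
  leS : ∀ x ∈ K, ∀ v ∈ S x, G x v = 0
  leU : ∀ x ∈ K, ∀ v ∈ U x, G x v = 0
  contr : ∀ x ∈ K, ∀ m : ℕ, ∀ v ∈ S x, ‖L (f^[m] x) (D m x v)‖ ≤ C * Real.exp (-(κ * m)) * ‖L x v‖
  expd : ∀ x ∈ K, ∀ m : ℕ, ∀ v ∈ U x, Real.exp (κ * m) * ‖L x v‖ ≤ C * ‖L (f^[m] x) (D m x v)‖
  memS : ∀ x ∈ K, ∀ m : ℕ, ∀ v ∈ S x, D m x v ∈ S (f^[m] x)
  memU : ∀ x ∈ K, ∀ m : ℕ, ∀ v ∈ U x, D m x v ∈ U (f^[m] x)
  surS : ∀ x ∈ K, ∀ m : ℕ, ∀ w ∈ S (f^[m] x), ∃ v ∈ S x, D m x v = w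
  surU : ∀ x ∈ K, ∀ m : ℕ, ∀ w ∈ U (f^[m] x), ∃ v ∈ U x, D m x v = w
  step : ∀ x ∈ K, ∀ v, ‖L (f x) (D 1 x v)‖ ≤ C * ‖L x v‖
  quot : ∀ x ∈ K, ∀ v, ‖G x v‖ ≤ C * ‖L x v‖
  lift : ∀ x ∈ K, ∀ v ∈ P x, ∃ e ∈ P x, G x e = 0 ∧ ‖L x (v - e)‖ ≤ C * ‖G x v‖

theorem SideP.iter {κ C : ℝ} {f : X → X} {K : Set X} {D : ℕ → X → W →L[ℝ] W} {L : X → W →L[ℝ] W'}
    {G : X → W →L[ℝ] W''} {S U P : X → Submodule ℝ W} (h : SideP κ C f K D L G S U P) (m : ℕ) {x : X}
    (hx : x ∈ K) : f^[m] x ∈ K := by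
  induction m with
  | zero => exact hx
  | succ m ih => rw [Function.iterate_succ_apply']; exact h.map _ ih

theorem SideP.seq {κ C : ℝ} {f : X → X} {K : Set X} {D : ℕ → X → W →L[ℝ] W} {L : X → W →L[ℝ] W'}
    {G : X → W →L[ℝ] W''} {S U P : X → Submodule ℝ W} (h : SideP κ C f K D L G S U P) {x : X}
    (hx : x ∈ K) : OSeqP κ C (fun m => (L (f^[m] x)).comp (D m x))
      (fun m => (G (f^[m] x)).comp (D m x)) (S x) (U x) (P x) := by
  have key : ∀ m k : ℕ, ∀ v, D (m + k) x v = D k (f^[m] x) (D m x v) ∧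
      f^[m + k] x = f^[k] (f^[m] x) := by
    intro m k v
    rw [add_comm m k]
    exact ⟨h.add k m x hx v, Function.iterate_add_apply f k m x⟩
  refine ⟨?_, ?_, ?_, ?_, ?_, ?_⟩
  · intro v w hvw
    simp only [ContinuousLinearMap.comp_apply, Function.iterate_zero, id_eq] at hvw
    rw [h.zero x hx, h.zero x hx] at hvw
    exact h.inj x hx hvw
  · intro m k v hv
    simp only [ContinuousLinearMap.comp_apply]
    rw [(key m k v).1, (key m k v).2]
    exact h.contr _ (h.iter m hx) k _ (h.memS x hx m v hv)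
  · intro m k v hv
    simp only [ContinuousLinearMap.comp_apply]
    rw [(key m k v).1, (key m k v).2]
    exact h.expd _ (h.iter m hx) k _ (h.memU x hx m v hv)
  · intro m v
    simp only [ContinuousLinearMap.comp_apply]
    rw [(key m 1 v).1, (key m 1 v).2]
    exact h.step _ (h.iter m hx) _
  · intro m v
    simp only [ContinuousLinearMap.comp_apply]
    exact h.quot _ (h.iter m hx) _
  · intro m v hv
    obtain ⟨e, heP, he, hle⟩ := h.lift _ (h.iter m hx) (D m x v) (h.memP x hx m v hv)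
    obtain ⟨s', hs', u', hu', rfl⟩ := h.ker _ (h.iter m hx) e heP he
    obtain ⟨s, hs, rfl⟩ := h.surS x hx m s' hs'
    obtain ⟨u, hu, rfl⟩ := h.surU x hx m u' hu'
    refine ⟨s, hs, u, hu, ?_⟩
    simp only [ContinuousLinearMap.comp_apply]
    rw [map_sub, map_add]
    exact hle

theorem SideP.kerm {κ C : ℝ} {f : X → X} {K : Set X} {D : ℕ → X → W →L[ℝ] W} {L : X → W →L[ℝ] W'}
    {G : X → W →L[ℝ] W''} {S U P : X → Submodule ℝ W} (h : SideP κ C f K D L G S U P) (m : ℕ) {x : X}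
    (hx : x ∈ K) {v : W} (hvP : v ∈ P x) (hv : G x v = 0) : G (f^[m] x) (D m x v) = 0 := by
  obtain ⟨s, hs, u, hu, rfl⟩ := h.ker x hx v hvP hv
  rw [map_add, map_add, h.leS _ (h.iter m hx) _ (h.memS x hx m s hs),
    h.leU _ (h.iter m hx) _ (h.memU x hx m u hu), add_zero]

/-- the one sided theorem -/
theorem side_mainP {κ C : ℝ} (hκ : 0 < κ) (hC : 1 ≤ C) : ∃ C' : ℝ, 0 < C' ∧
    ∀ (f : X → X) (K : Set X) (D : ℕ → X → W →L[ℝ] W) (L : X → W →L[ℝ] W')
      (G : X → W →L[ℝ] W'') (S U P : X → Submodule ℝ W), SideP κ C f K D L G S U P →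
      (∀ x ∈ K, ∀ v ∈ P x, Con κ C f D G x v → ∃ u ∈ U x, ∀ m : ℕ,
        ‖L (f^[m] x) (D m x (v - u))‖ ≤ C' * Real.exp (-(κ / 2 * m)) * ‖L x v‖) ∧
      ((∀ x ∈ K, ∀ v ∈ P x, ∃ v₁ ∈ P x, ∃ v₂ ∈ P x, v = v₁ + v₂ ∧ Con κ C f D G x v₁ ∧
          Exd κ C f D G x v₂) →
        ∀ x ∈ K, ∀ v ∈ P x, v ∈ Est (κ / 2) f D L x → ∀ m : ℕ,
          ‖L (f^[m] x) (D m x v)‖ ≤ C' * Real.exp (-(κ / 2 * m)) * ‖L x v‖) := by
  obtain ⟨C', hC', hadj⟩ := adjustP (W := W) (W' := W') (W'' := W'') hκ hC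
  have hC0 : 0 < C := by linarith
  refine ⟨C', hC', fun f K D L G S U P h => ?_⟩
  have part : ∀ x ∈ K, ∀ v ∈ P x, Con κ C f D G x v → ∃ u ∈ U x, ∀ m : ℕ,
        ‖L (f^[m] x) (D m x (v - u))‖ ≤ C' * Real.exp (-(κ / 2 * m)) * ‖L x v‖ := by
    intro x hx v hvP hv
    obtain ⟨u, hu, hb⟩ := hadj _ _ _ _ _ (h.seq hx) v hvP (by
      intro m
      simp only [ContinuousLinearMap.comp_apply, Function.iterate_zero, id_eq]
      rw [h.zero x hx]
      exact hv m)
    refine ⟨u, hu, fun m => ?_⟩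
    have := hb m
    simp only [ContinuousLinearMap.comp_apply, Function.iterate_zero, id_eq] at this
    rw [h.zero x hx] at this
    exact this
  refine ⟨part, fun hq x hx v hvP hv m => ?_⟩
  obtain ⟨c, hc⟩ := mem_Est.1 hv
  obtain ⟨v₁, hv₁P, v₂, hv₂P, rfl, h1, h2⟩ := hq x hx v hvP
  have hexp : ∀ m : ℕ, Real.exp (-(κ * m)) ≤ 1 ∧ Real.exp (-(κ / 2 * m)) ≤ 1 := by
    intro m
    rw [Real.exp_le_one_iff, Real.exp_le_one_iff]
    have : 0 ≤ κ * m := by positivity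
    constructor <;> linarith
  have hc0 : 0 ≤ c := by
    have := hc 0
    simp only [Nat.cast_zero, mul_zero, neg_zero, Real.exp_zero, mul_one] at this
    exact (norm_nonneg _).trans this
  have h3 : ‖G x v₂‖ = 0 := by
    apply bdd_exp hκ (norm_nonneg _) (c := C * (C * c + C * ‖G x v₁‖))
    intro k
    refine (h2 k).trans (mul_le_mul_of_nonneg_left ?_ hC0.le)
    have e : D k x v₂ = D k x (v₁ + v₂) - D k x v₁ := by rw [map_add, add_sub_cancel_left]
    rw [e, map_sub]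
    refine (norm_sub_le _ _).trans (add_le_add ?_ ?_)
    · refine (h.quot _ (h.iter k hx) _).trans (mul_le_mul_of_nonneg_left ?_ hC0.le)
      refine (hc k).trans ?_
      exact mul_le_of_le_one_right hc0 (hexp k).2
    · refine (h1 k).trans ?_
      apply mul_le_mul_of_nonneg_right _ (norm_nonneg _)
      exact mul_le_of_le_one_right hC0.le (hexp k).1
  have h4 : Con κ C f D G x (v₁ + v₂) := by
    intro k
    have e := h.kerm k hx hv₂P (norm_eq_zero.1 h3)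
    rw [map_add, map_add, e, add_zero, map_add, norm_eq_zero.1 h3, add_zero]
    exact h1 k
  obtain ⟨u, hu, hb⟩ := part x hx _ hvP h4
  have h5 : ‖L x u‖ = 0 := by
    apply bdd_exp hκ (norm_nonneg _) (c := C * (c + C' * ‖L x (v₁ + v₂)‖))
    intro k
    refine (h.expd x hx k u hu).trans (mul_le_mul_of_nonneg_left ?_ hC0.le)
    have e : D k x u = D k x (v₁ + v₂) - D k x (v₁ + v₂ - u) := by
      rw [← map_sub]
      congr 1
      abel
    rw [e, map_sub]
    refine (norm_sub_le _ _).trans (add_le_add ?_ ?_)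
    · refine (hc k).trans ?_
      exact mul_le_of_le_one_right hc0 (hexp k).2
    · refine (hb k).trans ?_
      apply mul_le_mul_of_nonneg_right _ (norm_nonneg _)
      exact mul_le_of_le_one_right hC'.le (hexp k).2
  have h6 : u = 0 := by
    apply h.inj x hx
    rw [norm_eq_zero.1 h5, map_zero]
  have h7 := hb m
  rw [h6, sub_zero] at h7
  exact h7

/-- Hyperbolicity of the whole cocycle from the hyperbolicity of the subbundle and the quotient. -/
theorem two_sidedP {κ C : ℝ} (hκ : 0 < κ) (hC : 1 ≤ C) {f g : X → X} {K : Set X}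
    {D D' : ℕ → X → W →L[ℝ] W} {L : X → W →L[ℝ] W'} {G : X → W →L[ℝ] W''}
    {S U P : X → Submodule ℝ W} (h : SideP κ C f K D L G S U P) (h' : SideP κ C g K D' L G U S P)
    (hgf : ∀ x ∈ K, g (f x) = x)
    (hD : ∀ x ∈ K, ∀ (m : ℕ) (v : W), D' m (f^[m] x) (D m x v) = v)
    (hgfm : ∀ x ∈ K, ∀ m : ℕ, g^[m] (f^[m] x) = x)
    (hPi : ∀ x ∈ K, ∀ v, v ∈ P x ↔ D 1 x v ∈ P (f x))
    (hq : ∀ x ∈ K, ∀ v ∈ P x, ∃ v₁ ∈ P x, ∃ v₂ ∈ P x, v = v₁ + v₂ ∧ Con κ C f D G x v₁ ∧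
      Exd κ C f D G x v₂ ∧
      Con κ C g D' G x v₂ ∧ Exd κ C g D' G x v₁) :
    ∃ (Es Eu : X → Submodule ℝ W) (κ' C' : ℝ), 0 < κ' ∧ 0 < C' ∧ ∀ x ∈ K,
      Es x ⊓ Eu x = ⊥ ∧ Es x ⊔ Eu x = P x ∧ (∀ v, v ∈ Es x ↔ D 1 x v ∈ Es (f x)) ∧
      (∀ v, v ∈ Eu x ↔ D 1 x v ∈ Eu (f x)) ∧
      (∀ m : ℕ, ∀ v ∈ Es x, ‖L (f^[m] x) (D m x v)‖ ≤ C' * Real.exp (-(κ' * m)) * ‖L x v‖) ∧
      ∀ m : ℕ, ∀ v ∈ Eu x, Real.exp (κ' * m) * ‖L x v‖ ≤ C' * ‖L (f^[m] x) (D m x v)‖ := by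
  obtain ⟨C', hC', hmain⟩ := side_mainP (X := X) (W := W) (W' := W') (W'' := W'') hκ hC
  obtain ⟨p1, p2⟩ := hmain f K D L G S U P h
  obtain ⟨q1, q2⟩ := hmain g K D' L G U S P h'
  have u1 := p2 (fun x hx v hv => by
    obtain ⟨v₁, b1, v₂, b2, a1, a2, a3, a4, a5⟩ := hq x hx v hv
    exact ⟨v₁, b1, v₂, b2, a1, a2, a3⟩)
  have u2 := q2 (fun x hx v hv => by
    obtain ⟨v₁, b1, v₂, b2, a1, a2, a3, a4, a5⟩ := hq x hx v hv
    exact ⟨v₂, b2, v₁, b1, by rw [a1, add_comm], a4, a5⟩)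
  have hκ2 : 0 < κ / 2 := by linarith
  set Es : X → Submodule ℝ W := fun x => Est (κ / 2) f D L x ⊓ P x with hEs
  set Eu : X → Submodule ℝ W := fun x => Est (κ / 2) g D' L x ⊓ P x with hEu
  have hstS : ∀ x ∈ K, ∀ v, v ∈ Es x ↔ D 1 x v ∈ Es (f x) := fun x hx v =>
    and_congr (est_step hκ2 (fun a v => h.add a 1 x hx v) v) (hPi x hx v)
  have hstU : ∀ x ∈ K, ∀ v, v ∈ Eu x ↔ D 1 x v ∈ Eu (f x) := by
    intro x hx v
    have h1 := est_step (f := g) (D := D') (x := f x) (L := L) hκ2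
      (fun a v => h'.add a 1 (f x) (h.map x hx) v) (D 1 x v)
    have h2 := hD x hx 1 v
    rw [Function.iterate_one] at h2
    rw [h2, hgf x hx] at h1
    exact and_congr h1.symm (hPi x hx v)
  have hitU : ∀ (m : ℕ), ∀ x ∈ K, ∀ v ∈ Eu x, D m x v ∈ Eu (f^[m] x) := by
    intro m
    induction m with
    | zero =>
      intro x hx v hv
      rw [h.zero x hx]
      exact hv
    | succ m ih =>
      intro x hx v hv
      rw [h.add m 1 x hx v, Function.iterate_succ_apply]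
      exact ih _ (h.map x hx) _ ((hstU x hx v).1 hv)
  have hexpU : ∀ x ∈ K, ∀ m : ℕ, ∀ v ∈ Eu x,
      Real.exp (κ / 2 * m) * ‖L x v‖ ≤ C' * ‖L (f^[m] x) (D m x v)‖ := by
    intro x hx m v hv
    have h1 := u2 _ (h.iter m hx) _ (hitU m x hx v hv).2 (hitU m x hx v hv).1 m
    rw [hgfm x hx m, hD x hx m v] at h1
    have h2 : Real.exp (κ / 2 * m) * Real.exp (-(κ / 2 * m)) = 1 := by
      rw [← Real.exp_add, add_neg_cancel, Real.exp_zero]
    calc Real.exp (κ / 2 * m) * ‖L x v‖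
        ≤ Real.exp (κ / 2 * m) * (C' * Real.exp (-(κ / 2 * m)) * ‖L (f^[m] x) (D m x v)‖) :=
          mul_le_mul_of_nonneg_left h1 (Real.exp_pos _).le
      _ = C' * ‖L (f^[m] x) (D m x v)‖ := by
          linear_combination (C' * ‖L (f^[m] x) (D m x v)‖) * h2
  refine ⟨Es, Eu, κ / 2, C', hκ2, hC', fun x hx => ⟨?_, ?_, hstS x hx, hstU x hx,
    fun m v hv => u1 x hx v hv.2 hv.1 m, fun m v hv => hexpU x hx m v hv⟩⟩
  · rw [Submodule.eq_bot_iff]
    intro v hv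
    have hvs : v ∈ Es x := hv.1
    have hvu : v ∈ Eu x := hv.2
    have h1 : ‖L x v‖ = 0 := by
      apply bdd_exp hκ2 (norm_nonneg _) (c := C' * (C' * ‖L x v‖))
      intro m
      refine (hexpU x hx m v hvu).trans (mul_le_mul_of_nonneg_left ?_ hC'.le)
      refine (u1 x hx v hvs.2 hvs.1 m).trans ?_
      apply mul_le_mul_of_nonneg_right _ (norm_nonneg _)
      apply mul_le_of_le_one_right hC'.le
      rw [Real.exp_le_one_iff]
      have : 0 ≤ κ / 2 * m := by positivity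
      linarith
    apply h.inj x hx
    rw [norm_eq_zero.1 h1, map_zero]
  · apply le_antisymm (sup_le inf_le_right inf_le_right)
    intro v hvP
    obtain ⟨v₁, b1, v₂, b2, rfl, a2, a3, a4, a5⟩ := hq x hx v hvP
    obtain ⟨w₁, hw₁, hb₁⟩ := p1 x hx v₁ b1 a2
    obtain ⟨w₂, hw₂, hb₂⟩ := q1 x hx v₂ b2 a4
    have c1 := h.UP x hx hw₁
    have c2 := h.SP x hx hw₂
    have e1 : v₁ - w₁ ∈ Es x := ⟨⟨C' * ‖L x v₁‖, fun m => by
      refine (hb₁ m).trans (le_of_eq ?_)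
      ring⟩, (P x).sub_mem b1 c1⟩
    have e2 : v₂ - w₂ ∈ Eu x := ⟨⟨C' * ‖L x v₂‖, fun m => by
      refine (hb₂ m).trans (le_of_eq ?_)
      ring⟩, (P x).sub_mem b2 c2⟩
    have hcmp : ∀ m : ℕ, Real.exp (-(κ * m)) ≤ Real.exp (-(κ / 2 * m)) := by
      intro m
      rw [Real.exp_le_exp]
      have : 0 ≤ κ * m := by positivity
      linarith
    have hC0 : 0 < C := by linarith
    have e3 : w₂ ∈ Es x := ⟨⟨C * ‖L x w₂‖, fun m => by
      refine (h.contr x hx m w₂ hw₂).trans ?_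
      have := mul_le_mul_of_nonneg_left (hcmp m) (mul_nonneg hC0.le (norm_nonneg (L x w₂)))
      linarith⟩, c2⟩
    have e4 : w₁ ∈ Eu x := ⟨⟨C * ‖L x w₁‖, fun m => by
      refine (h'.contr x hx m w₁ hw₁).trans ?_
      have := mul_le_mul_of_nonneg_left (hcmp m) (mul_nonneg hC0.le (norm_nonneg (L x w₁)))
      linarith⟩, c1⟩
    have e5 : v₁ + v₂ = ((v₁ - w₁) + w₂) + ((v₂ - w₂) + w₁) := by abel
    rw [e5]
    exact Submodule.add_mem_sup (Submodule.add_mem _ e1 e3) (Submodule.add_mem _ e2 e4)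

end Pool.Agent.Helper21S
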