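import Pool.Agent.Helper21S.Flg1
import Pool.Agent.Helper21S.Ext6

/-!
# Project ST: hyperbolic splittings along flags
-/

set_option autoImplicit false
set_option linter.unusedSectionVars false

open scoped Manifold ContDiff Topology
open Filter Set Metric

universe u v

namespace Pool.Agent.Helper21S

open Pool.Agent.H718R2.G Pool.Agent.Y504.CO Pool.Agent.TH80.OMS Pool.Agent.W564.SC
  Pool.Agent.W74.SC

section

variable {n : ℕ} {N : Type u} [TopologicalSpace N] [ChartedSpace (V n) N]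
  {E E' : Type*} [NormedAddCommGroup E] [NormedSpace ℝ E] [NormedAddCommGroup E'] [NormedSpace ℝ E']
  {F G : N → N} {K : Set N}

/-- a hyperbolic splitting of `P` over `K` -/
structure Spl (F : N → N) (K : Set N) (L : N → V n →L[ℝ] E') (P S U : N → Submodule ℝ (V n))
    (κ C : ℝ) : Prop where
  κ_pos : 0 < κ
  C_pos : 0 < C
  inf : ∀ x ∈ K, S x ⊓ U x = ⊥
  sup : ∀ x ∈ K, S x ⊔ U x = P x
  inv_s : ∀ x ∈ K, ∀ v : V n, v ∈ S x ↔ dm F x v ∈ S (F x)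
  inv_u : ∀ x ∈ K, ∀ v : V n, v ∈ U x ↔ dm F x v ∈ U (F x)
  contr : ∀ x ∈ K, ∀ m : ℕ, ∀ v ∈ S x,
    ‖L (F^[m] x) (dm F^[m] x v)‖ ≤ C * Real.exp (-(κ * m)) * ‖L x v‖
  expand : ∀ x ∈ K, ∀ m : ℕ, ∀ v ∈ U x,
    Real.exp (κ * m) * ‖L x v‖ ≤ C * ‖L (F^[m] x) (dm F^[m] x v)‖

theorem iff_iter (hF : MDifferentiable (𝓡 n) (𝓡 n) F) (hK : ∀ x ∈ K, F x ∈ K)
    {T : N → Submodule ℝ (V n)} (hT : ∀ x ∈ K, ∀ v, v ∈ T x ↔ dm F x v ∈ T (F x)) (m : ℕ) :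
    ∀ x ∈ K, ∀ v, v ∈ T x ↔ dm F^[m] x v ∈ T (F^[m] x) := by
  induction m with
  | zero =>
    intro x _ v
    rw [dm_zero]
    rfl
  | succ m ih =>
    intro x hx v
    rw [dm_iter_succ hF, Function.iterate_succ_apply]
    exact (hT x hx v).trans (ih _ (hK x hx) _)

theorem iff_flip (hF : MDifferentiable (𝓡 n) (𝓡 n) F) (hG : MDifferentiable (𝓡 n) (𝓡 n) G)
    (hFG : ∀ x, F (G x) = x) (hK' : ∀ x ∈ K, G x ∈ K) {T : N → Submodule ℝ (V n)}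
    (hT : ∀ x ∈ K, ∀ v, v ∈ T x ↔ dm F x v ∈ T (F x)) :
    ∀ x ∈ K, ∀ v, v ∈ T x ↔ dm G x v ∈ T (G x) := by
  intro x hx v
  have h2 := hT (G x) (hK' x hx) (dm G x v)
  have h3 := inv_dm hG hF hFG 1 x v
  rw [Function.iterate_one, Function.iterate_one] at h3
  rw [h3, hFG] at h2
  exact h2.symm

theorem mkSideP {κ C : ℝ} (hF : MDifferentiable (𝓡 n) (𝓡 n) F)
    (hG : MDifferentiable (𝓡 n) (𝓡 n) G) (hGF : ∀ x, G (F x) = x) (hFG : ∀ x, F (G x) = x)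
    (hK : ∀ x ∈ K, F x ∈ K) {L : N → V n →L[ℝ] E'} {Q : N → V n →L[ℝ] E}
    {S U P : N → Submodule ℝ (V n)} (hinj : ∀ x ∈ K, Function.Injective (L x))
    (hker : ∀ x ∈ K, ∀ v ∈ P x, Q x v = 0 ↔ v ∈ S x ⊔ U x) (hle : ∀ x ∈ K, S x ⊔ U x ≤ P x)
    (iP : ∀ x ∈ K, ∀ v, v ∈ P x ↔ dm F x v ∈ P (F x))
    (iS : ∀ x ∈ K, ∀ v, v ∈ S x ↔ dm F x v ∈ S (F x))
    (iU : ∀ x ∈ K, ∀ v, v ∈ U x ↔ dm F x v ∈ U (F x))
    (contr : ∀ x ∈ K, ∀ m : ℕ, ∀ v ∈ S x,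
      ‖L (F^[m] x) (dm F^[m] x v)‖ ≤ C * Real.exp (-(κ * m)) * ‖L x v‖)
    (expd : ∀ x ∈ K, ∀ m : ℕ, ∀ v ∈ U x,
      Real.exp (κ * m) * ‖L x v‖ ≤ C * ‖L (F^[m] x) (dm F^[m] x v)‖)
    (step : ∀ x ∈ K, ∀ v, ‖L (F x) (dm F x v)‖ ≤ C * ‖L x v‖)
    (quot : ∀ x ∈ K, ∀ v, ‖Q x v‖ ≤ C * ‖L x v‖)
    (lift : ∀ x ∈ K, ∀ v ∈ P x, ∃ e ∈ S x ⊔ U x, ‖L x (v - e)‖ ≤ C * ‖Q x v‖) :
    SideP κ C F K (fun m x => dm F^[m] x) L Q S U P := by
  have sur : ∀ T : N → Submodule ℝ (V n), (∀ x ∈ K, ∀ v, v ∈ T x ↔ dm F x v ∈ T (F x)) →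
      ∀ x ∈ K, ∀ m : ℕ, ∀ w ∈ T (F^[m] x), ∃ v ∈ T x, dm F^[m] x v = w := by
    intro T hT x hx m w hw
    have h1 := inv_dm hG hF hFG m (F^[m] x) w
    rw [(Function.LeftInverse.iterate hGF m) x] at h1
    refine ⟨dm G^[m] (F^[m] x) w, ?_, h1⟩
    rw [iff_iter hF hK hT m x hx, h1]
    exact hw
  refine ⟨hK, fun x _ v => dm_zero F x v, ?_, hinj, ?_, ?_, ?_, ?_, ?_, ?_, contr, expd, ?_, ?_,
    sur S iS, sur U iU, ?_, quot, ?_⟩
  · intro a b x _ v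
    have h1 := dm_iter_add hF a b x
    exact congrArg (fun L : V n →L[ℝ] V n => L v) h1
  · intro x hx v hvP hv
    obtain ⟨s, hs, u, hu, h⟩ := Submodule.mem_sup.1 ((hker x hx v hvP).1 hv)
    exact ⟨s, hs, u, hu, h.symm⟩
  · intro x hx m v hv
    exact (iff_iter hF hK iP m x hx v).1 hv
  · intro x hx
    exact le_sup_left.trans (hle x hx)
  · intro x hx
    exact le_sup_right.trans (hle x hx)
  · intro x hx v hv
    exact (hker x hx v (hle x hx (Submodule.mem_sup_left hv))).2 (Submodule.mem_sup_left hv)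
  · intro x hx v hv
    exact (hker x hx v (hle x hx (Submodule.mem_sup_right hv))).2 (Submodule.mem_sup_right hv)
  · intro x hx m v hv
    exact (iff_iter hF hK iS m x hx v).1 hv
  · intro x hx m v hv
    exact (iff_iter hF hK iU m x hx v).1 hv
  · intro x hx v
    simp only [Function.iterate_one]
    exact step x hx v
  · intro x hx v hv
    obtain ⟨e, he, hle'⟩ := lift x hx v hv
    exact ⟨e, hle x hx he, (hker x hx e (hle x hx he)).2 he, hle'⟩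

theorem zero_bd {κ C a : ℝ} (hC : 0 ≤ C) (m : ℕ) (ha : 0 ≤ a) :
    Real.exp (κ * m) * 0 ≤ C * a ∧ (0 : ℝ) ≤ C * Real.exp (-(κ * m)) * a := by
  constructor
  · rw [mul_zero]
    positivity
  · positivity

/-- One step: from `T` to `P ⊇ T`, if the quotient `P / T` is contracting or expanding. -/
theorem flag_step {κ C : ℝ} (hκ : 0 < κ) (hC : 1 ≤ C) (hF : MDifferentiable (𝓡 n) (𝓡 n) F)
    (hG : MDifferentiable (𝓡 n) (𝓡 n) G) (hGF : ∀ x, G (F x) = x) (hFG : ∀ x, F (G x) = x)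
    (hK : ∀ x ∈ K, F x ∈ K) (hK' : ∀ x ∈ K, G x ∈ K) {L : N → V n →L[ℝ] E'}
    {Q : N → V n →L[ℝ] E} {S U P : N → Submodule ℝ (V n)}
    (hinj : ∀ x ∈ K, Function.Injective (L x))
    (hker : ∀ x ∈ K, ∀ v ∈ P x, Q x v = 0 ↔ v ∈ S x ⊔ U x) (hle : ∀ x ∈ K, S x ⊔ U x ≤ P x)
    (iP : ∀ x ∈ K, ∀ v, v ∈ P x ↔ dm F x v ∈ P (F x))
    (iS : ∀ x ∈ K, ∀ v, v ∈ S x ↔ dm F x v ∈ S (F x))
    (iU : ∀ x ∈ K, ∀ v, v ∈ U x ↔ dm F x v ∈ U (F x))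
    (contr : ∀ x ∈ K, ∀ m : ℕ, ∀ v ∈ S x,
      ‖L (F^[m] x) (dm F^[m] x v)‖ ≤ C * Real.exp (-(κ * m)) * ‖L x v‖)
    (expd : ∀ x ∈ K, ∀ m : ℕ, ∀ v ∈ U x,
      Real.exp (κ * m) * ‖L x v‖ ≤ C * ‖L (F^[m] x) (dm F^[m] x v)‖)
    (step : ∀ x ∈ K, ∀ v, ‖L (F x) (dm F x v)‖ ≤ C * ‖L x v‖)
    (step' : ∀ x ∈ K, ∀ v, ‖L (G x) (dm G x v)‖ ≤ C * ‖L x v‖)
    (quot : ∀ x ∈ K, ∀ v, ‖Q x v‖ ≤ C * ‖L x v‖)
    (lift : ∀ x ∈ K, ∀ v ∈ P x, ∃ e ∈ S x ⊔ U x, ‖L x (v - e)‖ ≤ C * ‖Q x v‖)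
    (hce : (∀ x ∈ K, ∀ m : ℕ, ∀ v ∈ P x,
        ‖Q (F^[m] x) (dm F^[m] x v)‖ ≤ C * Real.exp (-(κ * m)) * ‖Q x v‖) ∨
      ∀ x ∈ K, ∀ m : ℕ, ∀ v ∈ P x,
        Real.exp (κ * m) * ‖Q x v‖ ≤ C * ‖Q (F^[m] x) (dm F^[m] x v)‖) :
    ∃ (Es Eu : N → Submodule ℝ (V n)) (κ' C' : ℝ), Spl F K L P Es Eu κ' C' := by
  have hC0 : 0 ≤ C := by linarith
  have h1 := mkSideP hF hG hGF hFG hK hinj hker hle iP iS iU contr expd step quot lift
  have h2 := mkSideP (S := U) (U := S) (κ := κ) (C := C) hG hF hFG hGF hK' hinj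
    (fun x hx v hv => by rw [hker x hx v hv, sup_comm]) (fun x hx => by rw [sup_comm]; exact hle x hx)
    (iff_flip hF hG hFG hK' iP) (iff_flip hF hG hFG hK' iU) (iff_flip hF hG hFG hK' iS)
    (flipE hG hF hFG hK' (P := fun x v => v ∈ U x) (fun y hy w hw => (iU y hy w).2 hw) expd)
    (flipC hG hF hFG hK' (P := fun x v => v ∈ S x) (fun y hy w hw => (iS y hy w).2 hw) contr)
    step' quot (fun x hx v hv => by rw [sup_comm]; exact lift x hx v hv)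
  have bP : ∀ y ∈ K, ∀ w, dm F y w ∈ P (F y) → w ∈ P y := fun y hy w hw => (iP y hy w).2 hw
  have h3 := two_sidedP hκ hC h1 h2 (fun x _ => hGF x)
    (fun x _ m v => inv_dm hF hG hGF m x v)
    (fun x _ m => (Function.LeftInverse.iterate hGF m) x)
    (fun x hx v => by
      simp only [Function.iterate_one]
      exact iP x hx v) (by
      intro x hx v hv
      rcases hce with hce | hce
      · refine ⟨v, hv, 0, (P x).zero_mem, (add_zero v).symm, fun m => hce x hx m v hv, ?_, ?_,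
          fun m => flipC hG hF hFG hK' (P := fun x v => v ∈ P x) bP hce x hx m v hv⟩
        · intro m
          rw [map_zero, norm_zero]
          exact (zero_bd hC0 m (norm_nonneg _)).1
        · intro m
          rw [map_zero, map_zero, norm_zero]
          exact (zero_bd hC0 m (norm_nonneg _)).2
      · refine ⟨0, (P x).zero_mem, v, hv, (zero_add v).symm, ?_, fun m => hce x hx m v hv,
          fun m => flipE hG hF hFG hK' (P := fun x v => v ∈ P x) bP hce x hx m v hv, ?_⟩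
        · intro m
          rw [map_zero, map_zero, norm_zero]
          exact (zero_bd hC0 m (norm_nonneg _)).2
        · intro m
          rw [map_zero, norm_zero]
          exact (zero_bd hC0 m (norm_nonneg _)).1)
  obtain ⟨Es, Eu, κ', C', a1, a2, a3⟩ := h3
  simp only [Function.iterate_one] at a3
  exact ⟨Es, Eu, κ', C', a1, a2, fun x hx => (a3 x hx).1, fun x hx => (a3 x hx).2.1,
    fun x hx => (a3 x hx).2.2.1, fun x hx => (a3 x hx).2.2.2.1,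
    fun x hx => (a3 x hx).2.2.2.2.1, fun x hx => (a3 x hx).2.2.2.2.2⟩

end

end Pool.Agent.Helper21S
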