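import Pool.Agent.Helper21S.Flg2

/-!
# Project ST: hyperbolic sets from conformal flags of the normal bundle
-/

set_option autoImplicit false
set_option linter.unusedSectionVars false

open scoped Manifold ContDiff Topology
open Filter Set Metric

universe u v

namespace Pool.Agent.Helper21S

open Pool.Agent.H718R2.G Pool.Agent.Y504.CO Pool.Agent.TH80.OMS Pool.Agent.W564.SC
  Pool.Agent.W74.SC

section

variable {W W' : Type*} [NormedAddCommGroup W] [NormedSpace ℝ W] [FiniteDimensional ℝ W]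
  [NormedAddCommGroup W'] [InnerProductSpace ℝ W'] [FiniteDimensional ℝ W']

/-- The component of `L v` orthogonal to `L T`. -/
noncomputable def qm (L : W →L[ℝ] W') (T : Submodule ℝ W) : W →L[ℝ] W' :=
  ((T.map (L : W →ₗ[ℝ] W'))ᗮ.starProjection).comp L

theorem qm_le (L : W →L[ℝ] W') (T : Submodule ℝ W) (v : W) : ‖qm L T v‖ ≤ ‖L v‖ :=
  Submodule.norm_starProjection_apply_le _ _

theorem qm_lift (L : W →L[ℝ] W') (T : Submodule ℝ W) (v : W) :
    ∃ e ∈ T, L (v - e) = qm L T v := by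
  have h1 : (T.map (L : W →ₗ[ℝ] W')).starProjection (L v) ∈ T.map (L : W →ₗ[ℝ] W') :=
    Submodule.starProjection_apply_mem _ _
  obtain ⟨e, he, hle⟩ := h1
  refine ⟨e, he, ?_⟩
  have h2 := Submodule.starProjection_add_starProjection_orthogonal
    (K := T.map (L : W →ₗ[ℝ] W')) (L v)
  have h3 : L e = (T.map (L : W →ₗ[ℝ] W')).starProjection (L v) := hle
  rw [map_sub, h3]
  exact (eq_sub_of_add_eq' h2).symm

theorem qm_zero {L : W →L[ℝ] W'} (hL : Function.Injective L) (T : Submodule ℝ W) (v : W) :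
    qm L T v = 0 ↔ v ∈ T := by
  constructor
  · intro h
    obtain ⟨e, he, hle⟩ := qm_lift L T v
    rw [h] at hle
    have : v - e = 0 := by
      apply hL
      rw [hle, map_zero]
    rw [sub_eq_zero.1 this]
    exact he
  · intro h
    exact Submodule.starProjection_orthogonal_apply_eq_zero
      (Submodule.mem_map_of_mem (f := (L : W →ₗ[ℝ] W')) h)

end

section

variable {n : ℕ} {N : Type u} [TopologicalSpace N] [ChartedSpace (V n) N] [IsManifold (𝓡 n) ∞ N]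
  [T2Space N] [CompactSpace N] {r : ℕ∞}

/-- Conformal subquotients of the normal bundle, over factors of chain transitive systems with
periodic shadowing; general form. -/
theorem subquotG (hr : 1 ≤ r) {F : DiffM n N r} (hF : OmegaStable n N r F) {Y : Type v}
    [MetricSpace Y] [CompactSpace Y] {h : Y → Y} (hh : Continuous h) (hsh : PerShadow h)
    (ht : ChainTrans h) {Θ : Y → N} (hΘ : Continuous Θ) (hconj : ∀ y, F (Θ y) = Θ (h y))
    {E₀ E P : N → Submodule ℝ (V n)} (hS : ∀ z ∈ range Θ, LocSub n (range Θ) E₀ z)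
    (hE₀ : ∀ x ∈ range Θ, ∀ v ∈ E₀ x, dm F x v ∈ E₀ (F x)) (hEE : ∀ x ∈ range Θ, E₀ x ≤ E x)
    (hE : ∀ x ∈ range Θ, ∀ v ∈ E x, dm F x v ∈ E (F x))
    (hP : ∀ x ∈ range Θ, ∀ v ∈ P x, dm F x v ∈ P (F x)) (hEP : ∀ x ∈ range Θ, E x < P x)
    {ν : N → Seminorm ℝ (V n)} (hν : ∀ x ∈ range Θ, ∀ v ∈ P x, ν x v = 0 ↔ v ∈ E x)
    {a : N → ℝ} (hac : ContinuousOn a (range Θ)) (ha : ∀ x ∈ range Θ, 0 < a x)
    (hconf : ∀ x ∈ range Θ, ∀ v ∈ P x, ν (F x) (dm F x v) = a x * ν x v) :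
    ∃ κ : ℝ, 0 < κ ∧ ∃ C : ℝ, 0 < C ∧
      ((∀ x ∈ range Θ, ∀ (m : ℕ), ∀ v ∈ P x, ν (F^[m] x) (dm F^[m] x v) ≤
        C * Real.exp (-(κ * m)) * ν x v) ∨
      ∀ x ∈ range Θ, ∀ (m : ℕ), ∀ v ∈ P x, Real.exp (κ * m) * ν x v ≤
        C * ν (F^[m] x) (dm F^[m] x v)) := by
  have hK : ∀ x ∈ range Θ, F x ∈ range Θ := by
    rintro _ ⟨y, rfl⟩
    exact ⟨h y, (hconj y).symm⟩
  have haΘ : Continuous fun y => Real.log (a (Θ y)) := by
    have h1 : Continuous fun y => a (Θ y) :=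
      hac.comp_continuous hΘ fun y => ⟨y, rfl⟩
    exact h1.log fun y => (ha (Θ y) ⟨y, rfl⟩).ne'
  have hit := fun m => iter_nu hr hconj (P := P) (ν := ν) (a := a)
    (fun y => hP (Θ y) ⟨y, rfl⟩) (fun y => ha (Θ y) ⟨y, rfl⟩) (fun y => hconf (Θ y) ⟨y, rfl⟩) m
  obtain ⟨U, hU, hFU, -, hH⟩ := stable_hyp Plug.hF2 hr hF
  obtain ⟨κ, hκ, hgap⟩ := gap_compact hr hU hFU hH (isCompact_range hΘ) (E := E₀) hK hE₀ hS
  have hiter : ∀ (m : ℕ) (y : Y), F^[m] (Θ y) = Θ (h^[m] y) := by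
    intro m
    induction m with
    | zero => intro y; rfl
    | succ m ih =>
      intro y
      rw [Function.iterate_succ_apply, hconj, ih, Function.iterate_succ_apply]
  have hper : ∀ (y : Y) (m : ℕ), 1 ≤ m → h^[m] y = y →
      κ * m ≤ |bs h (fun y => Real.log (a (Θ y))) m y| := by
    intro y m hm hy
    have hx : F^[m] (Θ y) = Θ y := by rw [hiter, hy]
    obtain ⟨l, μ, hl, hlE, hlμ, hμc⟩ := subquot_eig
      ((dm F^[m] (Θ y) : V n →L[ℝ] V n) : V n →ₗ[ℝ] V n) (E (Θ y))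
      (P (Θ y)) (hEP _ ⟨y, rfl⟩)
      (fun v hv => by
        have := iter_E hr hK hE m (x := Θ y) ⟨y, rfl⟩ v hv
        rwa [hx] at this)
      (fun v hv => by
        have := (hit m y v hv).1
        rwa [hx] at this)
      (ν (Θ y)) (hν _ ⟨y, rfl⟩) (Real.exp_pos (bs h (fun y => Real.log (a (Θ y))) m y))
      (fun v hv => by
        have := (hit m y v hv).2
        rwa [hx] at this)
    have h1 := hgap (Θ y) ⟨y, rfl⟩ m hm hx l hl
      (fun v hv => hlE v (hEE _ ⟨y, rfl⟩ hv)) μ hlμ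
    rw [hμc, Real.exp_le_exp, Real.exp_le_exp] at h1
    rcases h1 with h1 | h1
    · exact h1.trans (le_abs_self _)
    · rw [le_abs]
      right
      linarith
  obtain ⟨C, hC⟩ := td hh haΘ hsh ht hκ hper
  refine ⟨κ / 2, by positivity, Real.exp C, Real.exp_pos _, ?_⟩
  rcases hC with hC | hC
  · right
    rintro _ ⟨y, rfl⟩ m v hv
    rw [(hit m y v hv).2, ← mul_assoc, ← Real.exp_add]
    apply mul_le_mul_of_nonneg_right _ (apply_nonneg _ _)
    apply Real.exp_le_exp.2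
    have := hC y m
    linarith
  · left
    rintro _ ⟨y, rfl⟩ m v hv
    rw [(hit m y v hv).2, ← Real.exp_add]
    apply mul_le_mul_of_nonneg_right _ (apply_nonneg _ _)
    apply Real.exp_le_exp.2
    have := hC y m
    linarith

/-- the flag theorem, contraction or expansion of the quotients -/
theorem flag_ce (hr : 1 ≤ r) {F : DiffM n N r} (hF : OmegaStable n N r F) {Y : Type v}
    [MetricSpace Y] [CompactSpace Y] {h : Y → Y} (hh : Continuous h) (hsh : PerShadow h)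
    (ht : ChainTrans h) {Θ : Y → N} (hΘ : Continuous Θ) (hconj : ∀ y, F (Θ y) = Θ (h y))
    {p : ℕ} {ι : N → V p} (hinj : ∀ x ∈ range Θ, Function.Injective (dE (n := n) ι x))
    {E : ℕ → N → Submodule ℝ (V n)} {q : ℕ}
    (hS : ∀ z ∈ range Θ, LocSub n (range Θ) (E 0) z)
    (hinv : ∀ x ∈ range Θ, ∀ j ≤ q, ∀ v, v ∈ E j x ↔ dm F x v ∈ E j (F x))
    (hlt : ∀ x ∈ range Θ, ∀ j < q, E j x < E (j + 1) x)
    {a : ℕ → N → ℝ} (hac : ∀ j < q, ContinuousOn (a j) (range Θ))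
    (ha : ∀ x ∈ range Θ, ∀ j < q, 0 < a j x)
    (hconf : ∀ x ∈ range Θ, ∀ j < q, ∀ v ∈ E (j + 1) x,
      ‖qm (dE ι (F x)) (E j (F x)) (dm F x v)‖ = a j x * ‖qm (dE ι x) (E j x) v‖)
    {j : ℕ} (hj : j < q) :
    ∃ κ : ℝ, 0 < κ ∧ ∃ C : ℝ, 0 < C ∧
      ((∀ x ∈ range Θ, ∀ (m : ℕ), ∀ v ∈ E (j + 1) x,
        ‖qm (dE ι (F^[m] x)) (E j (F^[m] x)) (dm F^[m] x v)‖ ≤
          C * Real.exp (-(κ * m)) * ‖qm (dE ι x) (E j x) v‖) ∨
      ∀ x ∈ range Θ, ∀ (m : ℕ), ∀ v ∈ E (j + 1) x,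
        Real.exp (κ * m) * ‖qm (dE ι x) (E j x) v‖ ≤
          C * ‖qm (dE ι (F^[m] x)) (E j (F^[m] x)) (dm F^[m] x v)‖) := by
  have hmono : ∀ x ∈ range Θ, ∀ i ≤ q, E 0 x ≤ E i x := by
    intro x hx i
    induction i with
    | zero => intro _; exact le_rfl
    | succ i ih => intro hi; exact (ih (by omega)).trans (hlt x hx i (by omega)).le
  have h1 := subquotG hr hF hh hsh ht hΘ hconj (E₀ := E 0) (E := E j) (P := E (j + 1))
    (ν := fun x => (normSeminorm ℝ (V p)).comp (qm (dE (n := n) ι x) (E j x) : V n →ₗ[ℝ] V p))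
    (a := a j) hS (fun x hx v hv => (hinv x hx 0 (by omega) v).1 hv)
    (fun x hx => hmono x hx j hj.le) (fun x hx v hv => (hinv x hx j hj.le v).1 hv)
    (fun x hx v hv => (hinv x hx (j + 1) hj v).1 hv) (fun x hx => hlt x hx j hj)
    (fun x hx v _ => by
      change ‖qm (dE (n := n) ι x) (E j x) v‖ = 0 ↔ _
      rw [norm_eq_zero]
      exact qm_zero (hinj x hx) _ _)
    (hac j hj) (fun x hx => ha x hx j hj) (fun x hx v hv => hconf x hx j hj v hv)
  exact h1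

/-- the flag theorem, hyperbolicity -/
theorem flag_hyp (hr : 1 ≤ r) {F : DiffM n N r} (hF : OmegaStable n N r F) {Y : Type v}
    [MetricSpace Y] [CompactSpace Y] {h : Y → Y} (hh : Continuous h) (hsh : PerShadow h)
    (ht : ChainTrans h) {Θ : Y → N} (hΘ : Continuous Θ) (hconj : ∀ y, F (Θ y) = Θ (h y))
    {p : ℕ} {ι : N → V p} (hι : ContMDiff (𝓡 n) (𝓡 p) 1 ι)
    (hinj : ∀ x ∈ range Θ, Function.Injective (dE (n := n) ι x))
    {E : ℕ → N → Submodule ℝ (V n)} {q : ℕ}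
    (hS : ∀ z ∈ range Θ, LocSub n (range Θ) (E 0) z)
    (hinv : ∀ x ∈ range Θ, ∀ j ≤ q, ∀ v, v ∈ E j x ↔ dm F x v ∈ E j (F x))
    (hlt : ∀ x ∈ range Θ, ∀ j < q, E j x < E (j + 1) x)
    {a : ℕ → N → ℝ} (hac : ∀ j < q, ContinuousOn (a j) (range Θ))
    (ha : ∀ x ∈ range Θ, ∀ j < q, 0 < a j x)
    (hconf : ∀ x ∈ range Θ, ∀ j < q, ∀ v ∈ E (j + 1) x,
      ‖qm (dE ι (F x)) (E j (F x)) (dm F x v)‖ = a j x * ‖qm (dE ι x) (E j x) v‖)
    (h0 : ∃ (S U : N → Submodule ℝ (V n)) (κ C : ℝ),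
      Spl F (range Θ) (dE (n := n) ι) (E 0) S U κ C) :
    ∀ j ≤ q, ∃ (S U : N → Submodule ℝ (V n)) (κ C : ℝ),
      Spl F (range Θ) (dE (n := n) ι) (E j) S U κ C := by
  have hK : ∀ x ∈ range Θ, F x ∈ range Θ := by
    rintro _ ⟨y, rfl⟩
    exact ⟨h y, (hconj y).symm⟩
  have hK' : ∀ x ∈ range Θ, F.symm x ∈ range Θ := by
    rintro _ ⟨y, rfl⟩
    obtain ⟨y', rfl⟩ := mem_of_chain hh ht y
    refine ⟨y', ?_⟩
    rw [← hconj]
    exact (F.symm_apply_apply _).symm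
  have hKc : IsCompact (range Θ) := isCompact_range hΘ
  have hreg : ∀ {a : N → V p}, ContMDiff (𝓡 n) (𝓡 p) 1 a → ∀ z ∈ range Θ, Reg (n := n) a z :=
    fun ha z _ => ⟨univ, univ_mem, ha.contMDiffOn⟩
  have hF1 : ∀ F : DiffM n N r, ContMDiff (𝓡 n) (𝓡 n) 1 F := fun F =>
    F.contMDiff.of_le
      (show ((1 : ℕ∞) : WithTop ℕ∞) ≤ (r : WithTop ℕ∞) from WithTop.coe_le_coe.mpr hr)
  obtain ⟨Ca, hCa, hca⟩ := compare hKc (hreg (hι.comp (hF1 F))) (hreg hι) hinj
  obtain ⟨Cb, hCb, hcb⟩ := compare hKc (hreg (hι.comp (hF1 F.symm))) (hreg hι) hinj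
  intro j
  induction j with
  | zero => intro _; exact h0
  | succ j ih =>
    intro hj
    obtain ⟨S, U, κ₀, C₀, h1⟩ := ih (by omega)
    obtain ⟨κ₁, hκ₁, C₁, hC₁, h2⟩ := flag_ce hr hF hh hsh ht hΘ hconj hinj hS hinv hlt hac ha hconf
      (j := j) (by omega)
    have hC₀ := h1.C_pos
    set C : ℝ := 1 + C₀ + C₁ + Ca + Cb with hC
    refine flag_step (κ := min κ₀ κ₁) (C := C) (G := F.symm) (L := dE (n := n) ι)
      (Q := fun x => qm (dE (n := n) ι x) (E j x)) (S := S) (U := U) (P := E (j + 1))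
      (lt_min h1.κ_pos hκ₁) (by linarith) (diffM_mdiff hr F)
      (symm_mdiff hr F) (fun x => F.symm_apply_apply x) (fun x => F.apply_symm_apply x) hK hK'
      hinj ?_ ?_ (fun x hx v => hinv x hx (j + 1) hj v) h1.inv_s h1.inv_u ?_ ?_ ?_ ?_ ?_ ?_ ?_
    · intro x hx v _
      rw [h1.sup x hx]
      exact qm_zero (hinj x hx) _ _
    · intro x hx
      rw [h1.sup x hx]
      exact (hlt x hx j (by omega)).le
    · intro x hx m v hv
      exact contr_mono (min_le_left _ _) hC₀.le (by linarith) m (norm_nonneg _)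
        (h1.contr x hx m v hv)
    · intro x hx m v hv
      exact expd_mono (min_le_left _ _) (by linarith) m (norm_nonneg _) (norm_nonneg _)
        (h1.expand x hx m v hv)
    · intro x hx v
      rw [← dE_comp hr (hreg hι _ (hK x hx))]
      exact (hca x hx v).trans (mul_le_mul_of_nonneg_right (by linarith) (norm_nonneg _))
    · intro x hx v
      rw [← dE_comp (F := F.symm) hr (hreg hι _ (hK' x hx))]
      exact (hcb x hx v).trans (mul_le_mul_of_nonneg_right (by linarith) (norm_nonneg _))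
    · intro x hx v
      refine (qm_le _ _ _).trans ?_
      have : (1 : ℝ) ≤ C := by linarith
      nlinarith [norm_nonneg (dE (n := n) ι x v)]
    · intro x hx v _
      rw [h1.sup x hx]
      obtain ⟨e, he, hle⟩ := qm_lift (dE (n := n) ι x) (E j x) v
      refine ⟨e, he, ?_⟩
      rw [hle]
      have : (1 : ℝ) ≤ C := by linarith
      nlinarith [norm_nonneg (qm (dE (n := n) ι x) (E j x) v)]
    · rcases h2 with h2 | h2
      · left
        intro x hx m v hv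
        exact contr_mono (min_le_right _ _) hC₁.le (by linarith) m (norm_nonneg _) (h2 x hx m v hv)
      · right
        intro x hx m v hv
        exact expd_mono (min_le_right _ _) (by linarith) m (norm_nonneg _) (norm_nonneg _)
          (h2 x hx m v hv)

end

end Pool.Agent.Helper21S
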