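import Pool.Agent.Helper21S.Three
import Pool.Agent.Helper21S.TD

/-!
# Project ST: the section over the cocycle with an imaginary parameter
-/

set_option autoImplicit false

open Filter Set Complex

namespace Pool.Agent.Helper21S

section

variable {Y : Type*} {J : ℕ} {b : Fin J → Y → ℝ} {h : Y → Y} {α β : Y → ℂ}

theorem D_q (h0 : ∀ j y, 0 ≤ b j y) (hb1 : ∀ j y, b j y ≤ 1) (h1 : ∀ y, ∃ j, b j y = 1) {ε : ℝ}
    (hε : 0 < ε) (hε1 : ε ≤ 1 / 2) (y : Y) :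
    ‖Dp b (ε * I) y‖ ≤ (1 - ε) * ‖Dm b (ε * I) y‖ := by
  have h2 := D_one h0 (θ := ε * I) (by simp [hε.le]) y
  have h3 : ‖Dp b (ε * I) y‖ ≤ 1 - ε := by
    obtain ⟨j, hj⟩ := h1 y
    unfold Dp
    rw [norm_prod, ← Finset.mul_prod_erase _ _ (Finset.mem_univ j)]
    have h4 : ∀ i, ‖1 + I * (b i y : ℂ) * (ε * I)‖ = 1 - ε * b i y := by
      intro i
      have : 1 + I * (b i y : ℂ) * (ε * I) = ((1 - ε * b i y : ℝ) : ℂ) := by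
        push_cast
        linear_combination (b i y : ℂ) * ε * Complex.I_mul_I
      rw [this, Complex.norm_real, Real.norm_eq_abs, abs_of_nonneg]
      nlinarith [h0 i y, hb1 i y]
    rw [h4, hj, mul_one]
    have h5 : ∏ i ∈ Finset.univ.erase j, ‖1 + I * (b i y : ℂ) * (ε * I)‖ ≤ 1 := by
      apply Finset.prod_le_one
      · intro i _
        exact norm_nonneg _
      · intro i _
        rw [h4]
        nlinarith [h0 i y]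
    calc (1 - ε) * _ ≤ (1 - ε) * 1 := mul_le_mul_of_nonneg_left h5 (by linarith)
      _ = 1 - ε := mul_one _
  refine h3.trans ?_
  have : (1 - ε) * 1 ≤ (1 - ε) * ‖Dm b (ε * I) y‖ := mul_le_mul_of_nonneg_left h2 (by linarith)
  linarith

theorem det_q (h0 : ∀ j y, 0 ≤ b j y) (hb1 : ∀ j y, b j y ≤ 1) (h1 : ∀ y, ∃ j, b j y = 1)
    (hlt : ∀ y, ‖β y‖ < ‖α y‖) {ε : ℝ} (hε : 0 < ε) (hε1 : ε ≤ 1 / 2) (n : ℕ) (y : Y) :
    ‖(PP h α β b (ε * I) n y).det‖ ≤ (1 - ε) ^ n * QQ h α β b (ε * I) n y := by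
  induction n generalizing y with
  | zero =>
    change ‖(1 : Matrix (Fin 2) (Fin 2) ℂ).det‖ ≤ _ * 1
    simp
  | succ n ih =>
    rw [det_PP_succ]
    have h2 := D_q h0 hb1 h1 hε hε1 y
    have h3 := det_pos hlt y
    have h5 : QQ h α β b (ε * I) (n + 1) y = QQ h α β b (ε * I) n (h y) *
      (‖Dm b (ε * I) y‖ ^ 2 * (‖α y‖ ^ 2 - ‖β y‖ ^ 2)) := rfl
    rw [norm_mul, norm_mul, norm_mul, Complex.norm_real, Real.norm_eq_abs, abs_of_pos h3, h5]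
    have h6 : ‖Dp b (ε * I) y‖ * ‖Dm b (ε * I) y‖ * (‖α y‖ ^ 2 - ‖β y‖ ^ 2) ≤
        (1 - ε) * (‖Dm b (ε * I) y‖ ^ 2 * (‖α y‖ ^ 2 - ‖β y‖ ^ 2)) := by
      have := mul_le_mul_of_nonneg_right h2
        (show 0 ≤ ‖Dm b (ε * I) y‖ * (‖α y‖ ^ 2 - ‖β y‖ ^ 2) by positivity)
      linarith
    calc _ ≤ ((1 - ε) ^ n * QQ h α β b (ε * I) n (h y)) *
          ((1 - ε) * (‖Dm b (ε * I) y‖ ^ 2 * (‖α y‖ ^ 2 - ‖β y‖ ^ 2))) := by
          apply mul_le_mul (ih _) h6 (by positivity)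
          have := QQ_pos h h0 hlt (θ := ε * I) (by simp [hε.le]) n (h y)
          have h7 : 0 ≤ (1 - ε) ^ n := pow_nonneg (by linarith) _
          positivity
      _ = _ := by ring

/-- the ratios are uniformly smaller than one -/
theorem row_step (h0 : ∀ j y, 0 ≤ b j y) (hb1 : ∀ j y, b j y ≤ 1) (h1 : ∀ y, ∃ j, b j y = 1)
    (hlt : ∀ y, ‖β y‖ < ‖α y‖) {ε : ℝ} (hε : 0 < ε) (hε1 : ε ≤ 1 / 2) {δ A : ℝ} (hδ : 0 < δ)
    (hA : 0 < A)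
    (hδ' : ∀ y, δ ≤ ‖α y‖ ^ 2 - ‖β y‖ ^ 2) (hA' : ∀ y, ‖α y‖ + ‖β y‖ ≤ A) {x : ℂ × ℂ}
    (hx : ‖x.1‖ ≤ ‖x.2‖) (y : Y) :
    ε * δ / A ^ 2 * ‖(rm x (MM α β b (ε * I) y)).2‖ ^ 2 ≤ Jf (rm x (MM α β b (ε * I) y)) := by
  have hq := D_q h0 hb1 h1 hε hε1 y
  have hdet := det_pos hlt y
  have hDm := D_one h0 (θ := ε * I) (by simp [hε.le]) y
  set p := ‖Dp b (ε * I) y‖ with hp
  set m := ‖Dm b (ε * I) y‖ with hm
  have hp0 : 0 ≤ p := norm_nonneg _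
  have h3 : ‖(rm x (MM α β b (ε * I) y)).2‖ ≤ ‖x.2‖ * m * A := by
    unfold rm MM
    simp only [Matrix.of_apply, Matrix.cons_val', Matrix.cons_val_zero, Matrix.cons_val_one,
      Matrix.cons_val_fin_one]
    refine (norm_add_le _ _).trans ?_
    rw [norm_mul, norm_mul, norm_mul, norm_mul, RCLike.norm_conj]
    have hpm : p ≤ m := hq.trans (by nlinarith)
    have e1 : ‖x.1‖ * (p * ‖β y‖) ≤ ‖x.2‖ * (m * ‖β y‖) := by gcongr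
    have e2 := mul_le_mul_of_nonneg_left (hA' y) (show 0 ≤ ‖x.2‖ * m by positivity)
    linarith
  have h4 : ‖(rm x (MM α β b (ε * I) y)).2‖ ^ 2 ≤ (‖x.2‖ * m * A) ^ 2 := by gcongr
  rw [jf_MM]
  have h5 : ε * (m ^ 2 * ‖x.2‖ ^ 2) ≤ m ^ 2 * ‖x.2‖ ^ 2 - p ^ 2 * ‖x.1‖ ^ 2 := by
    have e1 : p ^ 2 ≤ ((1 - ε) * m) ^ 2 := by gcongr
    have e2 : ‖x.1‖ ^ 2 ≤ ‖x.2‖ ^ 2 := by gcongr
    have e3 : p ^ 2 * ‖x.1‖ ^ 2 ≤ ((1 - ε) * m) ^ 2 * ‖x.2‖ ^ 2 := by gcongr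
    have e4 : ((1 - ε) * m) ^ 2 * ‖x.2‖ ^ 2 ≤ (1 - ε) * (m ^ 2 * ‖x.2‖ ^ 2) := by
      have : (1 - ε) ^ 2 ≤ 1 - ε := by nlinarith
      have := mul_le_mul_of_nonneg_right this (show 0 ≤ m ^ 2 * ‖x.2‖ ^ 2 by positivity)
      linarith
    linarith
  have h6 : ε * (m ^ 2 * ‖x.2‖ ^ 2) * δ ≤
      (m ^ 2 * ‖x.2‖ ^ 2 - p ^ 2 * ‖x.1‖ ^ 2) * (‖α y‖ ^ 2 - ‖β y‖ ^ 2) :=
    mul_le_mul h5 (hδ' y) hδ.le ((by positivity : (0 : ℝ) ≤ ε * (m ^ 2 * ‖x.2‖ ^ 2)).trans h5)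
  refine le_trans ?_ h6
  calc ε * δ / A ^ 2 * ‖(rm x (MM α β b (ε * I) y)).2‖ ^ 2
      ≤ ε * δ / A ^ 2 * (‖x.2‖ * m * A) ^ 2 := mul_le_mul_of_nonneg_left h4 (by positivity)
    _ = ε * (m ^ 2 * ‖x.2‖ ^ 2) * δ := by field_simp

theorem rm_row (x : ℂ × ℂ) (k n : ℕ) (θ : ℂ) (y : Y) :
    rm x (PP h α β b θ (k + n) y) = rm (rm x (PP h α β b θ k (h^[n] y))) (PP h α β b θ n y) := by
  rw [PP_add, rm_mul]

theorem le_of_J {x : ℂ × ℂ} (hx : 0 ≤ Jf x) : ‖x.1‖ ≤ ‖x.2‖ := by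
  apply le_of_sq_le_sq _ (norm_nonneg _)
  unfold Jf at hx
  linarith

theorem row_all (h0 : ∀ j y, 0 ≤ b j y) (hb1 : ∀ j y, b j y ≤ 1) (h1 : ∀ y, ∃ j, b j y = 1)
    (hlt : ∀ y, ‖β y‖ < ‖α y‖) {ε : ℝ} (hε : 0 < ε) (hε1 : ε ≤ 1 / 2) {δ A : ℝ} (hδ : 0 < δ)
    (hA : 0 < A)
    (hδ' : ∀ y, δ ≤ ‖α y‖ ^ 2 - ‖β y‖ ^ 2) (hA' : ∀ y, ‖α y‖ + ‖β y‖ ≤ A) {x : ℂ × ℂ}
    (hx : ε * δ / A ^ 2 * ‖x.2‖ ^ 2 ≤ Jf x) (n : ℕ) (y : Y) :
    ε * δ / A ^ 2 * ‖(rm x (PP h α β b (ε * I) n y)).2‖ ^ 2 ≤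
      Jf (rm x (PP h α β b (ε * I) n y)) := by
  induction n generalizing y with
  | zero =>
    change ε * δ / A ^ 2 * ‖(rm x 1).2‖ ^ 2 ≤ Jf (rm x 1)
    rw [rm_one]
    exact hx
  | succ n ih =>
    change ε * δ / A ^ 2 * ‖(rm x (PP h α β b (ε * I) n (h y) * MM α β b (ε * I) y)).2‖ ^ 2 ≤
      Jf (rm x (PP h α β b (ε * I) n (h y) * MM α β b (ε * I) y))
    rw [rm_mul]
    apply row_step h0 hb1 h1 hlt hε hε1 hδ hA hδ' hA'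
    apply le_of_J
    exact le_trans (by positivity) (ih (h y))

theorem cauchy_aux (h0 : ∀ j y, 0 ≤ b j y) (hb1 : ∀ j y, b j y ≤ 1) (h1 : ∀ y, ∃ j, b j y = 1)
    (hlt : ∀ y, ‖β y‖ < ‖α y‖) {ε : ℝ} (hε : 0 < ε) (hε1 : ε ≤ 1 / 2) {κ : ℝ} (hκ : 0 < κ)
    (hκ1 : κ ≤ 1) {x : ℂ × ℂ} (hx : κ * ‖x.2‖ ^ 2 ≤ Jf x) (hx2 : x.2 ≠ 0) (n : ℕ) (y : Y) :
    (rm x (PP h α β b (ε * I) n y)).2 ≠ 0 ∧
    ‖(rm x (PP h α β b (ε * I) n y)).1 / (rm x (PP h α β b (ε * I) n y)).2 -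
      (rm (0, 1) (PP h α β b (ε * I) n y)).1 / (rm (0, 1) (PP h α β b (ε * I) n y)).2‖ ≤
      (1 - ε) ^ n / κ := by
  have hQ := QQ_pos h (α := α) (β := β) h0 hlt (θ := ε * I) (by simp [hε.le]) n y
  have g1 := J_grow h h0 hlt (θ := ε * I) (by simp [hε.le]) x n y
  have g2 := J_grow h h0 hlt (θ := ε * I) (by simp [hε.le]) (0, 1) n y
  have hdet := det_q (h := h) h0 hb1 h1 hlt hε hε1 n y
  have hx0 : 0 < ‖x.2‖ := norm_pos_iff.2 hx2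
  set P := PP h α β b (ε * I) n y with hP
  set Q := QQ h α β b (ε * I) n y with hQd
  have hJ1 : Jf ((0 : ℂ), (1 : ℂ)) = 1 := by unfold Jf; simp
  rw [hJ1, mul_one] at g2
  have e1 : Q * (κ * ‖x.2‖ ^ 2) ≤ ‖(rm x P).2‖ ^ 2 := by
    have := mul_le_mul_of_nonneg_left hx hQ.le
    have h3 : Jf (rm x P) ≤ ‖(rm x P).2‖ ^ 2 := by
      unfold Jf
      nlinarith [sq_nonneg ‖(rm x P).1‖]
    linarith
  have e2 : Q ≤ ‖(rm (0, 1) P).2‖ ^ 2 := by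
    have h3 : Jf (rm (0, 1) P) ≤ ‖(rm (0, 1) P).2‖ ^ 2 := by
      unfold Jf
      nlinarith [sq_nonneg ‖(rm (0, 1) P).1‖]
    linarith
  have n1 : (rm x P).2 ≠ 0 := by
    intro h3
    rw [h3, norm_zero] at e1
    have : 0 < Q * (κ * ‖x.2‖ ^ 2) := by positivity
    nlinarith
  have n2 : (rm (0, 1) P).2 ≠ 0 := by
    intro h3
    rw [h3, norm_zero] at e2
    nlinarith
  refine ⟨n1, ?_⟩
  rw [div_sub_div _ _ n1 n2]
  have h4 : (rm x P).1 * (rm (0, 1) P).2 - (rm x P).2 * (rm (0, 1) P).1 = x.1 * P.det := by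
    rw [Matrix.det_fin_two]
    unfold rm
    simp only [zero_mul, one_mul, zero_add]
    ring
  rw [h4, norm_div, norm_mul, norm_mul]
  have p1 : 0 < ‖(rm x P).2‖ := norm_pos_iff.2 n1
  have p2 : 0 < ‖(rm (0, 1) P).2‖ := norm_pos_iff.2 n2
  rw [div_le_div_iff₀ (by positivity) hκ]
  have h5 : Q * κ * ‖x.2‖ ≤ ‖(rm x P).2‖ * ‖(rm (0, 1) P).2‖ := by
    apply le_of_sq_le_sq _ (by positivity)
    have h6 : (Q * κ * ‖x.2‖) ^ 2 ≤ (Q * (κ * ‖x.2‖ ^ 2)) * Q := by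
      have : κ ^ 2 ≤ κ := by nlinarith
      calc (Q * κ * ‖x.2‖) ^ 2 = κ ^ 2 * (Q ^ 2 * ‖x.2‖ ^ 2) := by ring
        _ ≤ κ * (Q ^ 2 * ‖x.2‖ ^ 2) := by gcongr
        _ = _ := by ring
    refine h6.trans ?_
    rw [mul_pow]
    exact mul_le_mul e1 e2 hQ.le (by positivity)
  have h7 : ‖x.1‖ ≤ ‖x.2‖ := le_of_J (le_trans (by positivity) hx)
  have h8 : (0 : ℝ) ≤ (1 - ε) ^ n := pow_nonneg (by linarith) _
  calc ‖x.1‖ * ‖P.det‖ * κ ≤ ‖x.2‖ * ((1 - ε) ^ n * Q) * κ := by gcongr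
    _ = (1 - ε) ^ n * (Q * κ * ‖x.2‖) := by ring
    _ ≤ _ := mul_le_mul_of_nonneg_left h5 h8

variable [TopologicalSpace Y]

theorem cont_Dp (hc : ∀ j, Continuous (b j)) (θ : ℂ) : Continuous fun y => Dp b θ y := by
  unfold Dp
  apply continuous_finsetProd
  intro j _
  have := hc j
  fun_prop

theorem cont_Dm (hc : ∀ j, Continuous (b j)) (θ : ℂ) : Continuous fun y => Dm b θ y := by
  unfold Dm
  apply continuous_finsetProd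
  intro j _
  have := hc j
  fun_prop

theorem cont_MM (hd : CD h α β b) (θ : ℂ) (i j : Fin 2) :
    Continuous fun y => MM α β b θ y i j := by
  have h1 := cont_Dp hd.cb θ
  have h2 := cont_Dm hd.cb θ
  have h3 := hd.cα
  have h4 := hd.cβ
  fin_cases i <;> fin_cases j
  · exact h1.mul h3
  · exact h1.mul h4
  · exact h2.mul (Complex.continuous_conj.comp h4)
  · exact h2.mul (Complex.continuous_conj.comp h3)

theorem cont_PP (hd : CD h α β b) (θ : ℂ) (n : ℕ) (i j : Fin 2) :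
    Continuous fun y => PP h α β b θ n y i j := by
  induction n generalizing i j with
  | zero => exact continuous_const
  | succ n ih =>
    have : (fun y => PP h α β b θ (n + 1) y i j) = fun y =>
        PP h α β b θ n (h y) i 0 * MM α β b θ y 0 j + PP h α β b θ n (h y) i 1 * MM α β b θ y 1 j := by
      funext y
      change (PP h α β b θ n (h y) * MM α β b θ y) i j = _
      rw [Matrix.mul_apply, Fin.sum_univ_two]
    rw [this]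
    exact (((ih _ _).comp hd.hh).mul (cont_MM hd θ _ _)).add
      (((ih _ _).comp hd.hh).mul (cont_MM hd θ _ _))

theorem bounds [CompactSpace Y] (hd : CD h α β b) : ∃ δ A : ℝ, 0 < δ ∧ δ ≤ 1 ∧ 1 ≤ A ∧
    (∀ y, δ ≤ ‖α y‖ ^ 2 - ‖β y‖ ^ 2) ∧ ∀ y, ‖α y‖ + ‖β y‖ ≤ A := by
  rcases isEmpty_or_nonempty Y with he | hne
  · exact ⟨1, 1, one_pos, le_rfl, le_rfl, fun y => (he.false y).elim, fun y => (he.false y).elim⟩
  · have c1 : Continuous fun y => ‖α y‖ ^ 2 - ‖β y‖ ^ 2 := by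
      have h3 := hd.cα
      have h4 := hd.cβ
      fun_prop
    have c2 : Continuous fun y => ‖α y‖ + ‖β y‖ := by
      have h3 := hd.cα
      have h4 := hd.cβ
      fun_prop
    obtain ⟨y₁, -, hy₁⟩ := isCompact_univ.exists_isMinOn univ_nonempty c1.continuousOn
    obtain ⟨y₂, -, hy₂⟩ := isCompact_univ.exists_isMaxOn univ_nonempty c2.continuousOn
    refine ⟨min 1 (‖α y₁‖ ^ 2 - ‖β y₁‖ ^ 2), max 1 (‖α y₂‖ + ‖β y₂‖),
      lt_min one_pos (det_pos hd.lt y₁), min_le_left _ _, le_max_left _ _, fun y => ?_, fun y => ?_⟩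
    · exact (min_le_right _ _).trans (hy₁ (mem_univ y))
    · exact (hy₂ (mem_univ y)).trans (le_max_right _ _)

end

end Pool.Agent.Helper21S
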