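import Pool.Agent.Helper21S.Nine

/-!
# Project ST: the three cases
-/

set_option autoImplicit false

open Filter Set Complex Topology

namespace Pool.Agent.Helper21S

open Pool.Agent.W564.SC

section

variable {Y : Type*} {J : ℕ} {b : Fin J → Y → ℝ} {h : Y → Y} {α β : Y → ℂ}
  [MetricSpace Y] [CompactSpace Y]

theorem tri (hd : CD h α β b) (hsh : PerShadow h) (ht : ChainTrans h) {κ ρ : ℝ} (hκ : 0 < κ)
    (hρ : 0 < ρ) (hρ1 : ρ ≤ 1 / 2) (hg : GapR h α β b κ ρ) : ∃ ε₀ : ℝ, 0 < ε₀ ∧ ε₀ ≤ ρ / 2 ∧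
    ∀ ε : ℝ, 0 < ε → ε ≤ ε₀ → ∃ C : ℝ, 0 < C ∧
      ((∀ n y, ‖PP h α β b 0 n y 1 1‖ ≤ C * Real.exp (-(κ / 4 * n))) ∨
      (∀ n y, ‖PP h α β b 0 n y 1 1‖ ≤ C * Real.exp (-(κ / 4 * n)) *
        ‖(PP h α β b 0 n y).det‖) ∨
      ((∀ (n : ℕ) (y : Y), Real.exp (κ / 4 * n) ≤ C * ‖PP h α β b (ε * I) n y 1 1‖ ∧
        ‖(PP h α β b (ε * I) n y).det‖ ≤ C * Real.exp (-(κ / 4 * n)) *
          ‖PP h α β b (ε * I) n y 1 1‖) ∧
        ∃ M : ℕ, ∀ (y : Y) (m : ℕ), M ≤ m → h^[m] y = y →
          1 + dt h α β b m y 0 < |tr h α β b m y 0|)) := by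
  obtain ⟨ε₀, hε₀, hε₀ρ, hall⟩ := at_eps hd hκ hρ hρ1 hg
  refine ⟨ε₀, hε₀, hε₀ρ, fun ε hε hεε => ?_⟩
  obtain ⟨ψ, φ, C, hψ, hφ, hC, hgr, hper⟩ := hall ε hε hεε
  have hε1 : ε ≤ 1 := by linarith
  -- the three classes
  have htri : ∀ (y : Y) (m : ℕ), 1 ≤ m → h^[m] y = y →
      (|tr h α β b m y 0| < 1 + dt h α β b m y 0 ∧ dt h α β b m y 0 < 1) ∨
      (|tr h α β b m y 0| < 1 + dt h α β b m y 0 ∧ 1 < dt h α β b m y 0) ∨
      1 + dt h α β b m y 0 < |tr h α β b m y 0| := by
    intro y m hm hy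
    have h1 := hg.u_ne hκ hm hy (θ := 0) (by simp [hρ.le])
    rcases lt_or_gt_of_ne h1 with h2 | h2
    · have h3 := hg.d_ne hκ hm hy (θ := 0) (by simp [hρ.le]) h2
      rcases lt_or_gt_of_ne h3 with h4 | h4
      · exact Or.inl ⟨by linarith, by linarith⟩
      · exact Or.inr (Or.inl ⟨by linarith, by linarith⟩)
    · exact Or.inr (Or.inr (by linarith))
  have habsψ : ∀ (y : Y) (m : ℕ), 1 ≤ m → h^[m] y = y → κ / 2 * m ≤ |bs h ψ m y| := by
    apply abs_of_mul (C := C)
    intro y m hm hy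
    obtain ⟨h1, h2, h3⟩ := hper y m hm hy
    rcases htri y m hm hy with h4 | h4 | h4
    · have := (h1 h4.1 h4.2).1
      rw [le_abs]
      right
      linarith
    · exact (h2 h4.1 h4.2).1.trans (le_abs_self _)
    · exact (h3 h4).1.trans (le_abs_self _)
  have habsφ : ∀ (y : Y) (m : ℕ), 1 ≤ m → h^[m] y = y → κ / 2 * m ≤ |bs h φ m y| := by
    apply abs_of_mul (C := C)
    intro y m hm hy
    obtain ⟨h1, h2, h3⟩ := hper y m hm hy
    rcases htri y m hm hy with h4 | h4 | h4
    · have := (h1 h4.1 h4.2).2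
      rw [le_abs]
      right
      linarith
    · exact (h2 h4.1 h4.2).2.trans (le_abs_self _)
    · have := (h3 h4).2
      rw [le_abs]
      right
      linarith
  obtain ⟨C₁, hC₁⟩ := td hd.hh hψ hsh ht (by positivity : 0 < κ / 2) habsψ
  obtain ⟨C₂, hC₂⟩ := td hd.hh hφ hsh ht (by positivity : 0 < κ / 2) habsφ
  have hdle : ∀ n y, ‖PP h α β b 0 n y 1 1‖ ≤ ‖PP h α β b (ε * I) n y 1 1‖ := fun n y =>
    d_le h hd.b0 hd.lt hε.le n y
  rcases hC₁ with hC₁ | hC₁
  swap
  · -- contraction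
    refine ⟨C * Real.exp C₁, by positivity, Or.inl fun n y => ?_⟩
    refine (hdle n y).trans ((hgr n y).2.1.trans ?_)
    rw [mul_assoc, ← Real.exp_add]
    apply mul_le_mul_of_nonneg_left _ hC.le
    apply Real.exp_le_exp.2
    have := hC₁ y n
    linarith
  rcases hC₂ with hC₂ | hC₂
  · -- expansion
    refine ⟨C * Real.exp C₂, by positivity, Or.inr (Or.inl fun n y => ?_)⟩
    refine (hdle n y).trans ((hgr n y).2.1.trans ?_)
    have h1 : ‖(PP h α β b (ε * I) n y).det‖ ≤ ‖(PP h α β b 0 n y).det‖ :=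
      det_le hd.b0 hd.b1 hε.le hε1 n y
    rw [(hgr n y).2.2] at h1
    calc C * Real.exp (bs h ψ n y)
        ≤ C * Real.exp C₂ * Real.exp (-(κ / 4 * n)) * Real.exp (bs h ψ n y + bs h φ n y) := by
          rw [mul_assoc, mul_assoc, ← Real.exp_add, ← Real.exp_add]
          apply mul_le_mul_of_nonneg_left _ hC.le
          apply Real.exp_le_exp.2
          have := hC₂ y n
          linarith
      _ ≤ _ := mul_le_mul_of_nonneg_left h1 (by positivity)
  · -- saddles
    refine ⟨C * Real.exp C₁ + C * Real.exp C₂, by positivity, Or.inr (Or.inr ⟨fun n y => ?_, ?_⟩)⟩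
    · constructor
      · have h1 : Real.exp (κ / 4 * n) ≤ Real.exp C₁ * Real.exp (bs h ψ n y) := by
          rw [← Real.exp_add]
          apply Real.exp_le_exp.2
          have := hC₁ y n
          linarith
        refine h1.trans ?_
        have h2 := mul_le_mul_of_nonneg_left (hgr n y).1 (Real.exp_pos C₁).le
        refine h2.trans ?_
        have h3 : 0 ≤ C * Real.exp C₂ * ‖PP h α β b (ε * I) n y 1 1‖ := by positivity
        linarith
      · rw [(hgr n y).2.2]
        have h1 : Real.exp (bs h ψ n y + bs h φ n y) ≤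
            Real.exp C₂ * Real.exp (-(κ / 4 * n)) * Real.exp (bs h ψ n y) := by
          rw [← Real.exp_add, ← Real.exp_add]
          apply Real.exp_le_exp.2
          have := hC₂ y n
          linarith
        refine h1.trans ?_
        have h2 := mul_le_mul_of_nonneg_left (hgr n y).1
          (show 0 ≤ Real.exp C₂ * Real.exp (-(κ / 4 * n)) by positivity)
        refine h2.trans ?_
        have h3 : 0 ≤ C * Real.exp C₁ * Real.exp (-(κ / 4 * n)) *
          ‖PP h α β b (ε * I) n y 1 1‖ := by positivity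
        linarith
    · obtain ⟨M, hM⟩ := exists_nat_gt ((C + |C₁| + |C₂| + 1) / (κ / 4))
      rw [div_lt_iff₀ (by positivity)] at hM
      refine ⟨M, fun y m hMm hy => ?_⟩
      have hm0 : (M : ℝ) ≤ m := by exact_mod_cast hMm
      have hpos : 0 < (M : ℝ) := by
        have h1 := abs_nonneg C₁
        have h2 := abs_nonneg C₂
        by_contra hcon
        push Not at hcon
        nlinarith
      have hm : 1 ≤ m := by
        have h1 : 0 < M := by exact_mod_cast hpos
        omega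
      have h0 : C + |C₁| + |C₂| + 1 < κ / 4 * m := by nlinarith
      obtain ⟨h1, h2, h3⟩ := hper y m hm hy
      have k1 := hC₁ y m
      have k2 := hC₂ y m
      have a1 := le_abs_self C₁
      have a2 := le_abs_self C₂
      have a3 := abs_nonneg C₁
      have a4 := abs_nonneg C₂
      rcases htri y m hm hy with h4 | h4 | h4
      · exfalso
        have := (h1 h4.1 h4.2).1
        linarith
      · exfalso
        have := (h2 h4.1 h4.2).2
        linarith
      · exact h4

end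

end Pool.Agent.Helper21S
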