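import Pool.Agent.Helper21S.Fam
import Pool.Agent.Helper21S.Ten

/-!
# Project ST: the gap for rotated normal cocycles
-/

set_option autoImplicit false
set_option linter.unusedSectionVars false

open scoped Manifold ContDiff Topology
open Filter Set Metric Complex

universe u v

namespace Pool.Agent.Helper21S

open Pool.Agent.H718R2.G Pool.Agent.Y504.CO Pool.Agent.TH80.OMS Pool.Agent.W564.SC
  Pool.Agent.W74.SC

/-- If `M ∏ (1 + s b_i) ≠ 1` for all `|s| ≤ s₀` then `M` is far from `1`. -/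
theorem ivt_prodF {ι : Type*} (T : Finset ι) (b : ι → ℝ) (s₀ : ℝ) (h0 : 0 < s₀) (h1 : s₀ ≤ 1 / 2)
    (hb : ∀ i, 0 ≤ b i ∧ b i ≤ 1) (M : ℝ) (hM : 0 ≤ M)
    (h : ∀ s : ℝ, |s| ≤ s₀ → |∏ i ∈ T, (1 + s * b i)| * M ≠ 1) :
    Real.exp (s₀ / 2 * ∑ i ∈ T, b i) ≤ M ∨ M ≤ Real.exp (-(s₀ / 2 * ∑ i ∈ T, b i)) := by
  set P : ℝ → ℝ := fun s => ∏ i ∈ T, (1 + s * b i) with hP
  have hpos : ∀ s : ℝ, |s| ≤ s₀ → ∀ i, 0 < 1 + s * b i := by
    intro s hs i
    have h2 := abs_le.1 hs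
    have h3 := hb i
    nlinarith
  have hPpos : ∀ s : ℝ, |s| ≤ s₀ → 0 < P s := fun s hs =>
    Finset.prod_pos fun i _ => hpos s hs i
  have h' : ∀ s : ℝ, |s| ≤ s₀ → P s * M ≠ 1 := by
    intro s hs
    have := h s hs
    rwa [abs_of_pos (hPpos s hs)] at this
  have hc : Continuous fun s => P s * M := by
    apply Continuous.mul _ continuous_const
    apply continuous_finsetProd
    intro i _
    fun_prop
  have hsum : 0 ≤ ∑ i ∈ T, b i := Finset.sum_nonneg fun i _ => (hb i).1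
  rcases lt_or_ge 1 (P (-s₀) * M) with h2 | h2
  · left
    have h3 : P (-s₀) ≤ Real.exp (-(s₀ * ∑ i ∈ T, b i)) := by
      rw [Finset.mul_sum, ← Finset.sum_neg_distrib, Real.exp_sum]
      apply Finset.prod_le_prod
      · intro i _
        exact (hpos (-s₀) (by rw [abs_neg, abs_of_pos h0]) i).le
      · intro i _
        have := Real.add_one_le_exp (-(s₀ * b i))
        linarith
    have h4 : 1 ≤ Real.exp (-(s₀ * ∑ i ∈ T, b i)) * M :=
      h2.le.trans (mul_le_mul_of_nonneg_right h3 hM)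
    have h5 : Real.exp (s₀ * ∑ i ∈ T, b i) ≤ M := by
      have h6 : Real.exp (s₀ * ∑ i ∈ T, b i) * Real.exp (-(s₀ * ∑ i ∈ T, b i)) = 1 := by
        rw [← Real.exp_add]; simp
      have h7 := mul_le_mul_of_nonneg_left h4 (Real.exp_pos (s₀ * ∑ i ∈ T, b i)).le
      rw [← mul_assoc, h6] at h7
      linarith
    refine le_trans ?_ h5
    apply Real.exp_le_exp.2
    nlinarith
  rcases lt_or_ge (P s₀ * M) 1 with h3 | h3
  · right
    have h4 : Real.exp (s₀ / 2 * ∑ i ∈ T, b i) ≤ P s₀ := by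
      rw [Finset.mul_sum, Real.exp_sum]
      apply Finset.prod_le_prod
      · intro i _
        exact (Real.exp_pos _).le
      · intro i _
        have h5 := hb i
        have h6 := exp_half_le (x := s₀ * b i) (by nlinarith) (by nlinarith)
        rwa [show s₀ * b i / 2 = s₀ / 2 * b i by ring] at h6
    have h5 : Real.exp (s₀ / 2 * ∑ i ∈ T, b i) * M ≤ 1 :=
      (mul_le_mul_of_nonneg_right h4 hM).trans h3.le
    have h6 : Real.exp (-(s₀ / 2 * ∑ i ∈ T, b i)) * Real.exp (s₀ / 2 * ∑ i ∈ T, b i) = 1 := by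
      rw [← Real.exp_add]; simp
    have h7 := mul_le_mul_of_nonneg_left h5 (Real.exp_pos (-(s₀ / 2 * ∑ i ∈ T, b i))).le
    rw [← mul_assoc, h6] at h7
    linarith
  · exfalso
    have h4 : (1 : ℝ) ∈ (fun s => P s * M) '' Icc (-s₀) s₀ :=
      intermediate_value_Icc (by linarith) hc.continuousOn ⟨h2, h3⟩
    obtain ⟨s, hs, hs1⟩ := h4
    exact h' s (abs_le.2 hs) hs1

/-- the action on real vectors -/
noncomputable def act (M : Matrix (Fin 2) (Fin 2) ℂ) (z : ℂ) : ℂ :=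
  M 0 0 * z + M 0 1 * (starRingEnd ℂ) z

theorem act_mul {M M' : Matrix (Fin 2) (Fin 2) ℂ} (h1 : M' 1 1 = (starRingEnd ℂ) (M' 0 0))
    (h2 : M' 1 0 = (starRingEnd ℂ) (M' 0 1)) (z : ℂ) : act (M * M') z = act M (act M' z) := by
  unfold act
  simp only [Matrix.mul_apply, Fin.sum_univ_two, h1, h2, map_add, map_mul, Complex.conj_conj]
  ring

section

variable {n : ℕ} {N : Type u} [TopologicalSpace N] [ChartedSpace (V n) N] [IsManifold (𝓡 n) ∞ N]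
  [T2Space N] [CompactSpace N] {r : ℕ∞}

/-- The family of perturbations. -/
theorem fam_all (hr : 1 ≤ r) {F : DiffM n N r} {K : Set N} (hK : ∀ x ∈ K, F x ∈ K) {g : N → ℂ}
    (hW : ∀ z ∈ K, ∃ W ∈ 𝓝 z, ContMDiffOn (𝓡 n) 𝓘(ℝ, ℂ) ∞ g W) (hg0 : ∀ x ∈ K, g x = 0)
    (hsurj : ∀ x ∈ K, Function.Surjective (dgc (n := n) g x)) :
    ∃ b : N → N → ℝ, (∀ z, Continuous (b z)) ∧ (∀ z y, 0 ≤ b z y ∧ b z y ≤ 1) ∧
      (∀ z ∈ K, ∀ᶠ y in 𝓝 z, b z y = 1) ∧ ∀ T : Finset N, (∀ z ∈ T, z ∈ K) →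
        ∃ H : ℝ × ℝ → DiffM n N r, IsFam n N r H ∧ H 0 = F ∧ ∃ s₀ : ℝ, 0 < s₀ ∧ ∀ p, ‖p‖ < s₀ →
          ∀ x ∈ K, H p x = F x ∧ ∀ v : V n, dgc g (F x) (dm (H p) x v) =
            (∏ z ∈ T, (1 + (p.1 : ℂ) * b z (F x))) * (∏ z ∈ T, (1 + (p.2 : ℂ) * b z (F x) * I)) *
              dgc g (F x) (dm F x v) := by
  classical
  have hdata : ∀ z : N, ∃ (χ : OpenPartialHomeomorph N (V n)) (b : N → ℝ) (u : ℂ → V n → V n),
      Continuous b ∧ (∀ y, 0 ≤ b y ∧ b y ≤ 1) ∧ (z ∈ K → GoodChart n N χ z ∧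
      (∀ᶠ y in 𝓝 z, b y = 1) ∧
      ∀ w, ContDiff ℝ ∞ (u w) ∧ HasCompactSupport (u w) ∧ (∀ x, 1 / 2 ≤ ‖x‖ → u w x = 0) ∧
        ∀ (s : ℝ) (Θ : DiffM n N r), IsPush n N r χ (fun v => s • u w v) Θ → ∀ y ∈ K,
          Θ y = y ∧ ∀ v : V n, dgc g y (dm Θ y v) = (1 + s * b y * w) * dgc g y v) := by
    intro z
    by_cases hz : z ∈ K
    · obtain ⟨W, hW, hg⟩ := hW z hz
      obtain ⟨χ, hχ, b, u, h1, h2, h3, h4⟩ := chart_data hr hW hg (hsurj z hz)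
        (fun x hx _ => hg0 x hx) (K := K)
      exact ⟨χ, b, u, h1, h2, fun _ => ⟨hχ, h3, h4⟩⟩
    · exact ⟨chartAt (V n) z, fun _ => 0, fun _ _ => 0, continuous_const,
        fun _ => ⟨le_rfl, zero_le_one⟩, fun h => absurd h hz⟩
  choose χ b u hbc hb01 hz using hdata
  refine ⟨b, hbc, hb01, fun z hzK => (hz z hzK).2.1, ?_⟩
  intro T
  induction T using Finset.induction_on with
  | empty =>
    intro _
    refine ⟨fun _ => F, Pool.Agent.W923.SC.isFam_const F, rfl, 1, one_pos, ?_⟩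
    intro p _ x _
    simp
  | insert a T ha ih =>
    intro hT
    obtain ⟨H, hH, hH0, s₀, hs₀, hp⟩ := ih fun z hz => hT z (Finset.mem_insert_of_mem hz)
    have haK := hT a (Finset.mem_insert_self a T)
    obtain ⟨hχ, -, hu⟩ := hz a haK
    obtain ⟨c1, c2, c3, c4⟩ := hu 1
    obtain ⟨d1, d2, d3, d4⟩ := hu I
    obtain ⟨H₁, hH₁, hH₁0, s₁, hs₁, hp₁⟩ := fam_push hH hχ c1 c2 c3
      (ContinuousLinearMap.fst ℝ ℝ ℝ)
    obtain ⟨H₂, hH₂, hH₂0, s₂, hs₂, hp₂⟩ := fam_push hH₁ hχ d1 d2 d3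
      (ContinuousLinearMap.snd ℝ ℝ ℝ)
    refine ⟨H₂, hH₂, by rw [hH₂0, hH₁0, hH0], min s₀ (min s₁ s₂), by positivity, ?_⟩
    intro p hpp x hx
    obtain ⟨e1, e2⟩ := hp p (hpp.trans_le (min_le_left _ _)) x hx
    obtain ⟨Θ₁, hΘ₁, e3⟩ := hp₁ p (hpp.trans_le ((min_le_right _ _).trans (min_le_left _ _)))
    obtain ⟨Θ₂, hΘ₂, e4⟩ := hp₂ p (hpp.trans_le ((min_le_right _ _).trans (min_le_right _ _)))
    obtain ⟨f1, f2⟩ := c4 p.1 Θ₁ hΘ₁ (F x) (hK x hx)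
    obtain ⟨f3, f4⟩ := d4 p.2 Θ₂ hΘ₂ (F x) (hK x hx)
    have g1 : H₁ p x = F x := by
      rw [e3]
      show Θ₁ (H p x) = F x
      rw [e1, f1]
    refine ⟨?_, fun v => ?_⟩
    · rw [e4]
      show Θ₂ (H₁ p x) = F x
      rw [g1, f3]
    · have k1 : dm (n := n) (H₂ p) x = (dm Θ₂ (H₁ p x)).comp (dm (H₁ p) x) := by
        rw [e4]
        exact dm_comp (diffM_mdiff hr (H₁ p)) (diffM_mdiff hr Θ₂) x
      have k2 : dm (n := n) (H₁ p) x = (dm Θ₁ (H p x)).comp (dm (H p) x) := by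
        rw [e3]
        exact dm_comp (diffM_mdiff hr (H p)) (diffM_mdiff hr Θ₁) x
      rw [k1, g1, ContinuousLinearMap.comp_apply, f4, k2, e1, ContinuousLinearMap.comp_apply, f2,
        e2, Finset.prod_insert ha, Finset.prod_insert ha]
      ring

end

end Pool.Agent.Helper21S
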