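import Pool.Agent.Helper21S.Gap2

/-!
# Project ST: the gap for rotated normal cocycles, second part
-/

set_option autoImplicit false
set_option linter.unusedSectionVars false

open scoped Manifold ContDiff Topology
open Filter Set Metric Complex

universe u v

namespace Pool.Agent.Helper21S

open Pool.Agent.H718R2.G Pool.Agent.Y504.CO Pool.Agent.TH80.OMS Pool.Agent.W564.SC
  Pool.Agent.W74.SC

/-- left eigenvectors of two by two matrices -/
theorem left_eig {P : Matrix (Fin 2) (Fin 2) ℂ} {μ : ℂ}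
    (h : μ ^ 2 - (P 0 0 + P 1 1) * μ + P.det = 0) :
    ∃ x₁ x₂ : ℂ, (x₁ ≠ 0 ∨ x₂ ≠ 0) ∧ x₁ * P 0 0 + x₂ * P 1 0 = μ * x₁ ∧
      x₁ * P 0 1 + x₂ * P 1 1 = μ * x₂ := by
  have hdet : (P - Matrix.scalar (Fin 2) μ).det = 0 := by
    rw [Matrix.det_fin_two] at h ⊢
    simp only [Matrix.sub_apply, Matrix.scalar_apply, Matrix.diagonal_apply_eq]
    have e1 : (Matrix.diagonal fun _ : Fin 2 => μ) 0 1 = 0 :=
      Matrix.diagonal_apply_ne _ (by decide)
    have e2 : (Matrix.diagonal fun _ : Fin 2 => μ) 1 0 = 0 :=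
      Matrix.diagonal_apply_ne _ (by decide)
    rw [e1, e2]
    linear_combination h
  obtain ⟨w, hw, hw0⟩ := Matrix.exists_vecMul_eq_zero_iff.2 hdet
  refine ⟨w 0, w 1, ?_, ?_, ?_⟩
  · by_contra hcon
    push Not at hcon
    apply hw
    funext i
    fin_cases i
    · exact hcon.1
    · exact hcon.2
  · have h4 := congrFun hw0 0
    simp only [Matrix.vecMul, dotProduct, Fin.sum_univ_two, Matrix.sub_apply,
      Matrix.scalar_apply, Matrix.diagonal_apply_eq, Pi.zero_apply] at h4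
    rw [Matrix.diagonal_apply_ne _ (by decide)] at h4
    linear_combination h4
  · have h4 := congrFun hw0 1
    simp only [Matrix.vecMul, dotProduct, Fin.sum_univ_two, Matrix.sub_apply,
      Matrix.scalar_apply, Matrix.diagonal_apply_eq, Pi.zero_apply] at h4
    rw [Matrix.diagonal_apply_ne _ (by decide)] at h4
    linear_combination h4

section

variable {n : ℕ} {N : Type u} [TopologicalSpace N] [ChartedSpace (V n) N] [IsManifold (𝓡 n) ∞ N]
  [T2Space N] [CompactSpace N] {r : ℕ∞}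

theorem gapR (hr : 1 ≤ r) {F : DiffM n N r} (hF : OmegaStable n N r F) {Y : Type v}
    [MetricSpace Y] [CompactSpace Y] {h : Y → Y} (hh : Continuous h) {Θ : Y → N}
    (hΘ : Continuous Θ) (hconj : ∀ y, F (Θ y) = Θ (h y)) {g : N → ℂ}
    (hW : ∀ z ∈ range Θ, ∃ W ∈ 𝓝 z, ContMDiffOn (𝓡 n) 𝓘(ℝ, ℂ) ∞ g W)
    (hg0 : ∀ x ∈ range Θ, g x = 0)
    (hsurj : ∀ x ∈ range Θ, Function.Surjective (dgc (n := n) g x)) {α β : N → ℂ}
    (hα : ContinuousOn α (range Θ)) (hβ : ContinuousOn β (range Θ))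
    (hlt : ∀ x ∈ range Θ, ‖β x‖ < ‖α x‖)
    (hcoc : ∀ x ∈ range Θ, ∀ v : V n, dgc g (F x) (dm F x v) =
      α x * dgc g x v + β x * (starRingEnd ℂ) (dgc g x v)) :
    ∃ (J : ℕ) (b : Fin J → Y → ℝ) (κ ρ : ℝ), 0 < κ ∧ 0 < ρ ∧ ρ ≤ 1 / 2 ∧ ρ * J ≤ 1 / 2 ∧
      CD h (fun y => α (Θ y)) (fun y => β (Θ y)) b ∧
      GapR h (fun y => α (Θ y)) (fun y => β (Θ y)) b κ ρ := by
  classical
  have hcα : Continuous fun y => α (Θ y) := hα.comp_continuous hΘ fun y => ⟨y, rfl⟩
  have hcβ : Continuous fun y => β (Θ y) := hβ.comp_continuous hΘ fun y => ⟨y, rfl⟩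
  rcases isEmpty_or_nonempty Y with he | hne
  · refine ⟨0, fun _ _ => 0, 1, 1 / 2, one_pos, by norm_num, le_rfl, by norm_num,
      ⟨hh, hcα, hcβ, fun _ => continuous_const, fun y => (he.false y).elim, fun _ _ => le_rfl,
        fun _ _ => zero_le_one, fun y => (he.false y).elim⟩, fun y => (he.false y).elim⟩
  set K : Set N := range Θ with hKd
  have hK : ∀ x ∈ K, F x ∈ K := by
    rintro _ ⟨y, rfl⟩
    exact ⟨h y, (hconj y).symm⟩
  obtain ⟨U, hU, hFU, -, hH⟩ := stable_hyp Plug.hF2 hr hF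
  obtain ⟨b, hbc, hb01, hb1, hfam⟩ := fam_all hr hK hW hg0 hsurj
  obtain ⟨T, hTK, hTc⟩ := (isCompact_range hΘ).elim_nhds_subcover (fun z => {y | b z y = 1})
    (fun z hz => hb1 z hz)
  obtain ⟨H, hHf, hH0, s₀, hs₀, hp⟩ := hfam T hTK
  obtain ⟨s₁, hs₁, hpU⟩ := fam_nbhd hr hHf (Θ hne.some) hU (by rw [hH0]; exact hFU)
  set ρ : ℝ := min (1 / 2) (min (s₀ / 2) (min (s₁ / 2) (1 / (2 * (T.card + 1))))) with hρ
  have hρ0 : 0 < ρ := by positivity
  have hρ1 : ρ ≤ 1 / 2 := min_le_left _ _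
  have hρs₀ : ρ < s₀ := by
    have : ρ ≤ s₀ / 2 := (min_le_right _ _).trans (min_le_left _ _)
    linarith
  have hρs₁ : ρ < s₁ := by
    have : ρ ≤ s₁ / 2 := (min_le_right _ _).trans ((min_le_right _ _).trans (min_le_left _ _))
    linarith
  have hρJ : ρ * T.card ≤ 1 / 2 := by
    have h1 : ρ ≤ 1 / (2 * (T.card + 1)) :=
      (min_le_right _ _).trans ((min_le_right _ _).trans (min_le_right _ _))
    rw [le_div_iff₀ (by positivity)] at h1
    nlinarith
  let e : Fin T.card ≃ T := T.equivFin.symm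
  set bY : Fin T.card → Y → ℝ := fun j y => b (e j) (Θ (h y)) with hbY
  have hprod : ∀ (f : N → ℂ), ∏ j : Fin T.card, f (e j) = ∏ z ∈ T, f z := by
    intro f
    rw [← Finset.prod_coe_sort T f]
    exact Equiv.prod_comp e (fun z : T => f z)
  have hDp : ∀ (θ : ℝ) (y : Y), ∏ z ∈ T, (1 + (θ : ℂ) * b z (F (Θ y)) * I) = Dp bY θ y := by
    intro θ y
    unfold Dp
    rw [hconj, ← hprod]
    refine Finset.prod_congr rfl fun j _ => ?_
    simp only [hbY]
    ring
  refine ⟨T.card, bY, ρ / 2, ρ, by positivity, hρ0, hρ1, hρJ, ⟨hh, hcα, hcβ, ?_, ?_, ?_, ?_, ?_⟩, ?_⟩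
  · intro j
    exact (hbc _).comp (hΘ.comp hh)
  · exact fun y => hlt _ ⟨y, rfl⟩
  · exact fun j y => (hb01 _ _).1
  · exact fun j y => (hb01 _ _).2
  · intro y
    obtain ⟨z, hz, hzy⟩ := mem_iUnion₂.1 (hTc (⟨h y, rfl⟩ : Θ (h y) ∈ K))
    refine ⟨T.equivFin ⟨z, hz⟩, ?_⟩
    simp only [hbY, e, Equiv.symm_apply_apply]
    exact hzy
  -- iterates
  have hiter : ∀ (m : ℕ) (y : Y), F^[m] (Θ y) = Θ (h^[m] y) := by
    intro m
    induction m with
    | zero => intro y; rfl
    | succ m ih =>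
      intro y
      rw [Function.iterate_succ_apply, hconj, ih, Function.iterate_succ_apply]
  set αY : Y → ℂ := fun y => α (Θ y) with hαY
  set βY : Y → ℂ := fun y => β (Θ y) with hβY
  have hform : ∀ p : ℝ × ℝ, ‖p‖ < s₀ → ∀ (m : ℕ) (y : Y) (v : V n),
      dgc g (F^[m] (Θ y)) (dm (H p)^[m] (Θ y) v) =
        ((∏ i ∈ Finset.range m, ∏ z ∈ T, (1 + p.1 * b z (F^[i + 1] (Θ y))) : ℝ) : ℂ) *
          act (PP h αY βY bY p.2 m y) (dgc g (Θ y) v) := by
    intro p hps m
    induction m with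
    | zero =>
      intro y v
      have h3 : dm (n := n) (id : N → N) (Θ y) = ContinuousLinearMap.id ℝ (V n) := mfderiv_id
      have h4 : (H p : N → N)^[0] = id := rfl
      rw [h4, h3]
      change dgc g (Θ y) v = _ * act 1 (dgc g (Θ y) v)
      unfold act
      simp
    | succ m ih =>
      intro y v
      obtain ⟨e1, e2⟩ := hp p hps (Θ y) ⟨y, rfl⟩
      rw [dm_iter_succ (diffM_mdiff hr (H p)), ContinuousLinearMap.comp_apply, e1, hconj,
        Function.iterate_succ_apply, hconj, ih (h y), ← hconj, e2, hDp, hcoc _ ⟨y, rfl⟩]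
      have h5 : PP h αY βY bY (p.2 : ℂ) (m + 1) y =
        PP h αY βY bY (p.2 : ℂ) m (h y) * MM αY βY bY (p.2 : ℂ) y := rfl
      have hone : PP h αY βY bY (p.2 : ℂ) 1 y = MM αY βY bY (p.2 : ℂ) y := by
        change 1 * MM αY βY bY (p.2 : ℂ) y = _
        rw [one_mul]
      obtain ⟨q1, q2⟩ := real_form h (α := αY) (β := βY) (b := bY) p.2 1 y
      rw [hone] at q1 q2
      rw [h5, act_mul q1 q2]
      have h6 : act (MM αY βY bY (p.2 : ℂ) y) (dgc g (Θ y) v) = Dp bY p.2 y *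
          (α (Θ y) * dgc g (Θ y) v + β (Θ y) * (starRingEnd ℂ) (dgc g (Θ y) v)) := by
        unfold act MM
        simp only [Matrix.of_apply, Matrix.cons_val', Matrix.cons_val_zero, Matrix.cons_val_one,
          Matrix.cons_val_fin_one, hαY, hβY]
        ring
      rw [h6]
      set S : ℝ := ∏ z ∈ T, (1 + p.1 * b z (F (Θ y))) with hS
      have h7 : (∏ z ∈ T, (1 + (p.1 : ℂ) * b z (F (Θ y)))) = (S : ℂ) := by
        rw [hS]
        push_cast
        rfl
      rw [h7]
      set X := Dp bY (p.2 : ℂ) y *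
          (α (Θ y) * dgc g (Θ y) v + β (Θ y) * (starRingEnd ℂ) (dgc g (Θ y) v)) with hX
      have h8 : ∀ (M : Matrix (Fin 2) (Fin 2) ℂ), act M ((S : ℂ) * X) = (S : ℂ) * act M X := by
        intro M
        unfold act
        rw [map_mul, Complex.conj_ofReal]
        ring
      have h9 : (S : ℂ) * Dp bY (p.2 : ℂ) y *
          (α (Θ y) * dgc g (Θ y) v + β (Θ y) * (starRingEnd ℂ) (dgc g (Θ y) v)) = (S : ℂ) * X := by
        rw [hX]
        ring
      rw [h9, h8, Finset.prod_range_succ']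
      simp only [Function.iterate_succ_apply, Function.iterate_zero, id_eq]
      rw [← hS]
      push_cast
      ring
  intro y m hm hy θ hθ μ hμ
  have hxm : F^[m] (Θ y) = Θ y := by rw [hiter, hy]
  obtain ⟨x₁, x₂, hx, hx1, hx2⟩ := left_eig hμ
  obtain ⟨q1, q2⟩ := real_form h (α := αY) (β := βY) (b := bY) θ m y
  set P := PP h αY βY bY (θ : ℂ) m y with hP
  -- the functional
  have hadd : ∀ a c : V n, dgc g (Θ y) (a + c) = dgc g (Θ y) a + dgc g (Θ y) c := fun a c =>
    map_add _ _ _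
  let l : V n →ₗ[ℝ] ℂ :=
    { toFun := fun v => x₁ * dgc g (Θ y) v + x₂ * (starRingEnd ℂ) (dgc g (Θ y) v)
      map_add' := fun a c => by
        simp only [map_add]
        ring
      map_smul' := fun a c => by
        simp only [map_smul, Complex.real_smul, map_mul, Complex.conj_ofReal, RingHom.id_apply]
        ring }
  have hl : ∀ v, l v = x₁ * dgc g (Θ y) v + x₂ * (starRingEnd ℂ) (dgc g (Θ y) v) := fun v => rfl
  have hl0 : l ≠ 0 := by
    intro h0
    obtain ⟨v₁, hv₁⟩ := hsurj (Θ y) ⟨y, rfl⟩ 1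
    obtain ⟨v₂, hv₂⟩ := hsurj (Θ y) ⟨y, rfl⟩ I
    have k1 := congrArg (fun L : V n →ₗ[ℝ] ℂ => L v₁) h0
    have k2 := congrArg (fun L : V n →ₗ[ℝ] ℂ => L v₂) h0
    simp only [LinearMap.zero_apply] at k1 k2
    rw [hl, hv₁, map_one] at k1
    rw [hl, hv₂, Complex.conj_I] at k2
    have k3 : x₁ = 0 := by
      have : 2 * x₁ * I = 0 := by linear_combination I * k1 + k2
      simpa using this
    have k4 : x₂ = 0 := by
      rw [k3] at k1
      linear_combination k1
    rcases hx with h9 | h9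
    · exact h9 k3
    · exact h9 k4
  have hivt := ivt_prodF (Finset.range m ×ˢ T) (fun q => b q.2 (F^[q.1 + 1] (Θ y))) ρ hρ0 hρ1
    (fun q => hb01 _ _) ‖μ‖ (norm_nonneg _) (by
      intro s hs
      have hps : ‖((s, θ) : ℝ × ℝ)‖ ≤ ρ := by
        rw [Prod.norm_def]
        exact max_le (by simpa using hs) (by simpa using hθ)
      have hGU := hpU (s, θ) (hps.trans_lt hρs₁)
      have hGm : (H (s, θ))^[m] (Θ y) = Θ y := by
        have : ∀ k : ℕ, (H (s, θ))^[k] (Θ y) = F^[k] (Θ y) := by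
          intro k
          induction k with
          | zero => rfl
          | succ k ih =>
            rw [Function.iterate_succ_apply', ih, Function.iterate_succ_apply', hiter,
              (hp (s, θ) (hps.trans_lt hρs₀) _ ⟨_, rfl⟩).1]
        rw [this, hxm]
      set S : ℝ := ∏ i ∈ Finset.range m, ∏ z ∈ T, (1 + s * b z (F^[i + 1] (Θ y))) with hS
      have hfin := hyp_left (G := H (s, θ)) (diffM_mdiff hr (H (s, θ))) hm hGm
        (hH _ hGU (Θ y) ⟨m, hm, hGm⟩) l hl0 ((S : ℂ) * μ) (fun v => by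
          have h1 := hform (s, θ) (hps.trans_lt hρs₀) m y v
          rw [hxm] at h1
          simp only at h1
          rw [← hS, ← hP] at h1
          rw [hl, h1, hl]
          unfold act
          rw [map_mul, Complex.conj_ofReal, map_add, map_mul, map_mul, Complex.conj_conj,
            ← q1, ← q2]
          linear_combination (S : ℂ) * dgc g (Θ y) v * hx1 +
            (S : ℂ) * (starRingEnd ℂ) (dgc g (Θ y) v) * hx2)
      rw [norm_mul, Complex.norm_real, Real.norm_eq_abs] at hfin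
      rw [Finset.prod_product]
      exact hfin)
  have hsum : (m : ℝ) ≤ ∑ q ∈ Finset.range m ×ˢ T, b q.2 (F^[q.1 + 1] (Θ y)) := by
    rw [Finset.sum_product]
    calc (m : ℝ) = ∑ _i ∈ Finset.range m, (1 : ℝ) := by simp
      _ ≤ _ := by
        apply Finset.sum_le_sum
        intro i _
        have h1 : F^[i + 1] (Θ y) ∈ K := by
          rw [hiter]
          exact ⟨_, rfl⟩
        obtain ⟨z, hz, hzy⟩ := mem_iUnion₂.1 (hTc h1)
        have h2 : b z (F^[i + 1] (Θ y)) = 1 := hzy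
        rw [← h2]
        exact Finset.single_le_sum (f := fun z => b z (F^[i + 1] (Θ y)))
          (fun z _ => (hb01 _ _).1) hz
  have hle : ρ / 2 * m ≤ ρ / 2 * ∑ q ∈ Finset.range m ×ˢ T, b q.2 (F^[q.1 + 1] (Θ y)) :=
    mul_le_mul_of_nonneg_left hsum (by positivity)
  rcases hivt with h1 | h1
  · exact Or.inl ((Real.exp_le_exp.2 hle).trans h1)
  · exact Or.inr (h1.trans (Real.exp_le_exp.2 (neg_le_neg hle)))

end

end Pool.Agent.Helper21S
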