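import Pool.Agent.Helper21S.Normal

/-!
# Project ST: codimension two, the perturbations
-/

set_option autoImplicit false
set_option linter.unusedSectionVars false

open scoped Manifold ContDiff Topology
open Filter Set Metric

universe u

namespace Pool.Agent.Helper21S

open Pool.Agent.H718R2.G Pool.Agent.Y504.CO Pool.Agent.TH80.OMS Pool.Agent.W564.SC
  Pool.Agent.W74.SC

/-- Fields `u w` with support in a small ball which vanish on `{f = 0}` near `0`, and multiply the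
normal vectors of this set by `β w`. -/
theorem fieldC {n : ℕ} (f : V n → ℂ) (hf : ∀ᶠ v in 𝓝 (0 : V n), ContDiffAt ℝ ∞ f v)
    (hs : Function.Surjective (fderiv ℝ f 0)) (ε : ℝ) (hε : 0 < ε) :
    ∃ ρ : ℝ, 0 < ρ ∧ ρ ≤ ε ∧ ∃ (u : ℂ → V n → V n) (β : V n → ℝ), ContDiff ℝ ∞ β ∧ (∀ w, ContDiff ℝ ∞ (u w)) ∧
      (∀ w, HasCompactSupport (u w)) ∧ (∀ v, 0 ≤ β v ∧ β v ≤ 1) ∧ (∀ v, ‖v‖ ≤ ρ / 4 → β v = 1) ∧
      (∀ v, ‖v‖ < ρ → DifferentiableAt ℝ f v) ∧
      (∀ w v, ‖v‖ < ρ → f v = 0 → u w v = 0 ∧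
        ∀ h, fderiv ℝ f v (fderiv ℝ (u w) v h) = β v * w * fderiv ℝ f v h) ∧
      ∀ w v, ρ ≤ ‖v‖ → (u w =ᶠ[𝓝 v] fun _ => 0) ∧ β v = 0 := by
  obtain ⟨B₀, hB₀⟩ := LinearMap.exists_rightInverse_of_surjective
    (fderiv ℝ f 0 : V n →ₗ[ℝ] ℂ) (LinearMap.range_eq_top.2 hs)
  set B : ℂ →L[ℝ] V n := LinearMap.toContinuousLinearMap B₀ with hB
  set M : V n → ℂ →L[ℝ] ℂ := fun v => (fderiv ℝ f v).comp B with hM
  have hM0 : M 0 = ((ContinuousLinearEquiv.refl ℝ (ℂ) : ℂ ≃L[ℝ] ℂ) : ℂ →L[ℝ] ℂ) := by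
    ext1 y
    exact congrArg (fun L : ℂ →ₗ[ℝ] ℂ => L y) hB₀
  have hMs : ∀ v, ContDiffAt ℝ ∞ f v → ContDiffAt ℝ ∞ M v := by
    intro v hv
    have h1 : ContDiffAt ℝ ∞ (fderiv ℝ f) v := hv.fderiv_right (by simp)
    exact h1.clm_comp contDiffAt_const
  have hinv : ∀ᶠ v in 𝓝 (0 : V n), ∃ e : ℂ ≃L[ℝ] ℂ, (e : ℂ →L[ℝ] ℂ) = M v := by
    have hc : ContinuousAt M 0 := (hMs 0 hf.self_of_nhds).continuousAt
    have ho : IsOpen (range ((↑) : (ℂ ≃L[ℝ] ℂ) → ℂ →L[ℝ] ℂ)) :=
      ContinuousLinearEquiv.isOpen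
    have := hc.preimage_mem_nhds (ho.mem_nhds ⟨_, hM0.symm⟩)
    filter_upwards [this] with v hv
    exact hv
  obtain ⟨ρ₀, hρ₀, hball⟩ := Metric.eventually_nhds_iff_ball.1 (hf.and hinv)
  set ρ : ℝ := min ρ₀ ε with hρ
  have hρ0 : 0 < ρ := lt_min hρ₀ hε
  have hgood : ∀ v : V n, ‖v‖ < ρ → ContDiffAt ℝ ∞ f v ∧
      ∃ e : ℂ ≃L[ℝ] ℂ, (e : ℂ →L[ℝ] ℂ) = M v := by
    intro v hv
    apply hball
    rw [mem_ball, dist_zero_right]
    exact hv.trans_le (min_le_left _ _)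
  set c : V n → ℂ →L[ℝ] V n := fun v => B.comp (ContinuousLinearMap.inverse (M v)) with hc
  have hcs : ∀ v : V n, ‖v‖ < ρ → ContDiffAt ℝ ∞ c v := by
    intro v hv
    obtain ⟨h1, e, he⟩ := hgood v hv
    have h2 : ContDiffAt ℝ ∞ ContinuousLinearMap.inverse (M v) := by
      rw [← he]
      exact contDiffAt_map_inverse e
    exact contDiffAt_const.clm_comp (h2.comp v (hMs v h1))
  have hcr : ∀ v : V n, ‖v‖ < ρ → ∀ y, fderiv ℝ f v (c v y) = y := by
    intro v hv y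
    obtain ⟨h1, e, he⟩ := hgood v hv
    have h2 : fderiv ℝ f v (c v y) = M v (ContinuousLinearMap.inverse (M v) y) := rfl
    rw [h2, ← he, ContinuousLinearMap.inverse_equiv]
    exact e.apply_symm_apply y
  set w : ℂ → V n → V n := fun a v => c v (a * f v) with hw
  have hws : ∀ a, ∀ v : V n, ‖v‖ < ρ → ContDiffAt ℝ ∞ (w a) v := fun a v hv =>
    (hcs v hv).clm_apply (contDiffAt_const.mul (hgood v hv).1)
  let β : ContDiffBump (0 : V n) := ⟨ρ / 4, ρ / 2, by positivity, by linarith⟩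
  have hβs : ContDiff ℝ ∞ (β : V n → ℝ) := β.contDiff
  have hβ0 : ∀ v : V n, ρ ≤ ‖v‖ → (β : V n → ℝ) =ᶠ[𝓝 v] fun _ => 0 := by
    intro v hv
    have h1 : {x : V n | ρ / 2 < ‖x‖} ∈ 𝓝 v :=
      (isOpen_lt continuous_const continuous_norm).mem_nhds (by
        show ρ / 2 < ‖v‖
        linarith)
    filter_upwards [h1] with x hx
    apply β.zero_of_le_dist
    rw [dist_zero_right]
    exact hx.le
  set u : ℂ → V n → V n := fun a v => β v • w a v with hu
  have hu0 : ∀ a, ∀ v : V n, ρ ≤ ‖v‖ → u a =ᶠ[𝓝 v] fun _ => 0 := by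
    intro a v hv
    filter_upwards [hβ0 v hv] with x hx
    simp only [hu]
    rw [hx, zero_smul]
  refine ⟨ρ, hρ0, min_le_right _ _, u, β, hβs, ?_, ?_, ?_, ?_, ?_, ?_, ?_⟩
  · intro a
    rw [contDiff_iff_contDiffAt]
    intro v
    by_cases hv : ‖v‖ < ρ
    · exact hβs.contDiffAt.smul (hws a v hv)
    · exact contDiffAt_const.congr_of_eventuallyEq (hu0 a v (not_lt.1 hv))
  · intro a
    exact β.hasCompactSupport.smul_right
  · exact fun v => ⟨β.nonneg, β.le_one⟩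
  · intro v hv
    apply β.one_of_mem_closedBall
    rw [mem_closedBall, dist_zero_right]
    exact hv
  · intro v hv
    exact (hgood v hv).1.differentiableAt (by simp)
  · intro a v hv hfv
    have hwv : w a v = 0 := by
      simp only [hw]
      rw [hfv, mul_zero, map_zero]
    refine ⟨by simp only [hu]; rw [hwv, smul_zero], fun h => ?_⟩
    have hf1 : HasFDerivAt f (fderiv ℝ f v) v :=
      ((hgood v hv).1.differentiableAt (by simp)).hasFDerivAt
    have hmul : HasFDerivAt (fun v => a * f v) (a • fderiv ℝ f v) v := hf1.const_mul a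
    have h1 : HasFDerivAt (w a) ((c v).comp (a • fderiv ℝ f v)) v := by
      have h2 := ((hcs v hv).differentiableAt (by simp)).hasFDerivAt.clm_apply hmul
      rw [hfv] at h2
      refine h2.congr_fderiv ?_
      ext1 x
      simp
    have h3 : HasFDerivAt (u a) (β v • (c v).comp (a • fderiv ℝ f v)) v := by
      have h4 := (hβs.differentiable (by simp) v).hasFDerivAt.smul h1
      rw [hwv] at h4
      refine h4.congr_fderiv ?_
      ext1 x
      simp
    rw [h3.fderiv]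
    simp only [smul_apply, ContinuousLinearMap.comp_apply, map_smul]
    rw [hcr v hv, smul_eq_mul, Complex.real_smul]
    ring
  · intro a v hv
    exact ⟨hu0 a v hv, (hβ0 v hv).self_of_nhds⟩

section

variable {n : ℕ} {N : Type u} [TopologicalSpace N] [ChartedSpace (V n) N] [IsManifold (𝓡 n) ∞ N]

/-- The derivative of the complex valued function `g` on `N` at `x`, on the tangent space `T_x N` (which
Mathlib identifies with `ℝⁿ`). -/
noncomputable def dgc (g : N → ℂ) (x : N) : V n →L[ℝ] ℂ := mfderiv (𝓡 n) 𝓘(ℝ, ℂ) g x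

theorem dgc_chart {g : N → ℂ} {χ : OpenPartialHomeomorph N (V n)}
    (hχ : χ ∈ IsManifold.maximalAtlas (𝓡 n) ∞ N) {y : N} (hy : y ∈ χ.source)
    (hd : DifferentiableAt ℝ (fun v => g (χ.symm v)) (χ y)) (v : V n) :
    fderiv ℝ (fun v => g (χ.symm v)) (χ y) (dc χ y v) = dgc g y v := by
  have h2 : HasMFDerivAt (𝓡 n) 𝓘(ℝ, ℂ) ((fun v => g (χ.symm v)) ∘ χ) y
      ((fderiv ℝ (fun v => g (χ.symm v)) (χ y)).comp (mfderiv (𝓡 n) (𝓡 n) χ y)) :=
    HasMFDerivAt.comp y hd.hasFDerivAt.hasMFDerivAt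
      ((chart_mdiff hχ).mdifferentiableAt hy).hasMFDerivAt
  have h3 : mfderiv (𝓡 n) 𝓘(ℝ, ℂ) ((fun v => g (χ.symm v)) ∘ χ) y =
      mfderiv (𝓡 n) 𝓘(ℝ, ℂ) g y := by
    apply Filter.EventuallyEq.mfderiv_eq
    filter_upwards [χ.open_source.mem_nhds hy] with y' hy'
    simp only [Function.comp_apply]
    rw [χ.left_inv hy']
  rw [h2.mfderiv] at h3
  exact congrArg (fun L : V n →L[ℝ] ℂ => L v) h3

variable [T2Space N] [CompactSpace N] {r : ℕ∞}

/-- The perturbations in one chart. -/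
theorem chart_data (hr : 1 ≤ r) {K : Set N} {g : N → ℂ} {W : Set N} {z : N} (hW : W ∈ 𝓝 z)
    (hg : ContMDiffOn (𝓡 n) 𝓘(ℝ, ℂ) ∞ g W) (hsurj : Function.Surjective (dgc (n := n) g z))
    (hKW : ∀ x ∈ K, x ∈ W → g x = 0) :
    ∃ χ : OpenPartialHomeomorph N (V n), GoodChart n N χ z ∧ ∃ (b : N → ℝ) (u : ℂ → V n → V n),
      Continuous b ∧ (∀ y, 0 ≤ b y ∧ b y ≤ 1) ∧ (∀ᶠ y in 𝓝 z, b y = 1) ∧
      ∀ w, ContDiff ℝ ∞ (u w) ∧ HasCompactSupport (u w) ∧ (∀ x, 1 / 2 ≤ ‖x‖ → u w x = 0) ∧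
        ∀ (s : ℝ) (Θ : DiffM n N r), IsPush n N r χ (fun v => s • u w v) Θ → ∀ y ∈ K,
          Θ y = y ∧ ∀ v : V n, dgc g y (dm Θ y v) = (1 + s * b y * w) * dgc g y v := by
  obtain ⟨χ, hχ⟩ := Pool.Agent.W699.SC.gc n N z
  set f : V n → ℂ := fun v => g (χ.symm v) with hf
  have h0t : (0 : V n) ∈ χ.target := hχ.ball (mem_closedBall_self zero_le_one)
  have h0s : χ.symm 0 = z := by rw [← hχ.zero, χ.left_inv hχ.src]
  have hreg : ∀ᶠ v in 𝓝 (0 : V n), v ∈ χ.target ∧ χ.symm v ∈ interior W := by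
    refine (show ∀ᶠ v in 𝓝 (0 : V n), v ∈ χ.target from χ.open_target.mem_nhds h0t).and ?_
    have hc : ContinuousAt χ.symm 0 := χ.continuousAt_symm h0t
    apply hc.eventually
    rw [h0s]
    exact isOpen_interior.mem_nhds (mem_interior_iff_mem_nhds.2 hW)
  have hfs : ∀ v, v ∈ χ.target → χ.symm v ∈ interior W → ContDiffAt ℝ ∞ f v := by
    intro v hv hvW
    rw [← contMDiffAt_iff_contDiffAt]
    have m1 : ContMDiffAt (𝓡 n) (𝓡 n) ∞ χ.symm v :=
      (contMDiffOn_symm_of_mem_maximalAtlas hχ.mem).contMDiffAt (χ.open_target.mem_nhds hv)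
    have m2 : ContMDiffAt (𝓡 n) 𝓘(ℝ, ℂ) ∞ g (χ.symm v) :=
      hg.contMDiffAt (mem_interior_iff_mem_nhds.1 hvW)
    exact m2.comp v m1
  have hfe : ∀ᶠ v in 𝓝 (0 : V n), ContDiffAt ℝ ∞ f v := hreg.mono fun v hv => hfs v hv.1 hv.2
  have hdc0 : ∀ v, fderiv ℝ f 0 (dc χ z v) = dgc g z v := by
    intro v
    have h1 : DifferentiableAt ℝ f (χ z) := by
      rw [hχ.zero]
      exact hfe.self_of_nhds.differentiableAt (by simp)
    have := dgc_chart hχ.mem hχ.src h1 v
    rwa [hχ.zero] at this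
  have hfsurj : Function.Surjective (fderiv ℝ f 0) := by
    intro y
    obtain ⟨v, hv⟩ := hsurj y
    exact ⟨dc χ z v, by rw [hdc0, hv]⟩
  obtain ⟨ε, hε, hεball⟩ := Metric.eventually_nhds_iff_ball.1 hreg
  obtain ⟨ρ, hρ0, hρε, u, β, hβs, hu, huc, hβ, hβ1, hfd, hin, hout⟩ :=
    fieldC f hfe hfsurj (min ε (1 / 2)) (by positivity)
  have hρ1 : ρ ≤ ε := hρε.trans (min_le_left _ _)
  have hρ2 : ρ ≤ 1 / 2 := hρε.trans (min_le_right _ _)
  have husupp : ∀ w, ∀ x : V n, 1 / 2 ≤ ‖x‖ → u w x = 0 := fun w x hx =>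
    (hout w x (hρ2.trans hx)).1.self_of_nhds
  classical
  set b : N → ℝ := fun y => if y ∈ χ.source then β (χ y) else 0 with hb
  have hb01 : ∀ y, 0 ≤ b y ∧ b y ≤ 1 := by
    intro y
    simp only [hb]
    split_ifs
    · exact hβ _
    · exact ⟨le_rfl, zero_le_one⟩
  have hA : closedBall (0 : V n) (1 / 2) ⊆ χ.target :=
    (closedBall_subset_closedBall (by norm_num)).trans hχ.ball
  have hcomp : IsCompact (χ.symm '' closedBall (0 : V n) (1 / 2)) :=
    (isCompact_closedBall _ _).image_of_continuousOn (χ.continuousOn_symm.mono hA)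
  have hbc : Continuous b := by
    rw [continuous_iff_continuousAt]
    intro y
    by_cases hy : y ∈ χ.source
    · have h1 : ContinuousAt (fun y => β (χ y)) y :=
        hβs.continuous.continuousAt.comp (χ.continuousAt hy)
      refine h1.congr ?_
      filter_upwards [χ.open_source.mem_nhds hy] with y' hy'
      simp only [hb]
      rw [if_pos hy']
    · have hy' : y ∉ χ.symm '' closedBall (0 : V n) (1 / 2) := by
        rintro ⟨v, hv, rfl⟩
        exact hy (χ.map_target (hA hv))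
      have h1 : ContinuousAt (fun _ : N => (0 : ℝ)) y := continuousAt_const
      refine h1.congr ?_
      filter_upwards [hcomp.isClosed.isOpen_compl.mem_nhds hy'] with y' hy''
      simp only [hb]
      split_ifs with h2
      · rw [(hout 0 _ _).2]
        by_contra h3
        push Not at h3
        apply hy''
        refine ⟨χ y', ?_, χ.left_inv h2⟩
        rw [mem_closedBall, dist_zero_right]
        linarith
      · rfl
  refine ⟨χ, hχ, b, u, hbc, hb01, ?_, fun w => ⟨hu w, huc w, husupp w, ?_⟩⟩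
  · have h1 : χ.source ∩ χ ⁻¹' ball 0 (ρ / 4) ∈ 𝓝 z := by
      apply (χ.isOpen_inter_preimage isOpen_ball).mem_nhds
      refine ⟨hχ.src, ?_⟩
      rw [mem_preimage, hχ.zero]
      exact mem_ball_self (by positivity)
    filter_upwards [h1] with y hy
    simp only [hb]
    rw [if_pos hy.1, hβ1 _ (by
      have := hy.2
      rw [mem_preimage, mem_ball, dist_zero_right] at this
      exact this.le)]
  have hyW : ∀ y ∈ K, y ∈ χ.source → ‖χ y‖ < ρ → f (χ y) = 0 := by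
    intro y hy hys hyρ
    have h1 := hεball (χ y) (by rw [mem_ball, dist_zero_right]; exact hyρ.trans_le hρ1)
    rw [χ.left_inv hys] at h1
    simp only [hf]
    rw [χ.left_inv hys]
    exact hKW y hy (interior_subset h1.2)
  have hu0 : ∀ y ∈ K, y ∈ χ.source → u w (χ y) = 0 := by
    intro y hy hys
    by_cases hyρ : ‖χ y‖ < ρ
    · exact (hin w _ hyρ (hyW y hy hys hyρ)).1
    · exact (hout w _ (not_lt.1 hyρ)).1.self_of_nhds
  intro s Θ hΘ y hy
  refine ⟨push_fix hΘ fun hys => by simp only [hu0 y hy hys, smul_zero], fun v => ?_⟩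
  by_cases hys : y ∈ χ.source
  · have hD : HasFDerivAt (fun v => s • u w v) (s • fderiv ℝ (u w) (χ y)) (χ y) :=
      (((hu w).differentiable (by simp)) (χ y)).hasFDerivAt.const_smul s
    have h1 := push_dm hr hχ.mem hΘ hys (by simp only [hu0 y hy hys, smul_zero]) hD v
    have hby : b y = β (χ y) := by simp only [hb]; rw [if_pos hys]
    by_cases hyρ : ‖χ y‖ < ρ
    · have h2 := hyW y hy hys hyρ
      have h4 := dgc_chart hχ.mem hys (hfd _ hyρ)
      rw [← h4, ← h4, h1, map_add, smul_apply, map_smul]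
      rw [(hin w _ hyρ h2).2, hby, Complex.real_smul]
      ring
    · have h2 : fderiv ℝ (u w) (χ y) = 0 := by
        rw [((hout w _ (not_lt.1 hyρ)).1).fderiv_eq]
        simp
      rw [h2] at h1
      have h1' : dc χ y (dm Θ y v) = dc χ y v := by
        rw [h1]
        simp
      have h3 := (dc_bij hχ.mem hys).injective h1'
      rw [h3, hby, (hout w _ (not_lt.1 hyρ)).2]
      simp
  · have h1 := push_out hχ (u := fun v => s • u w v)
      (fun x hx => by simp only [husupp w x hx, smul_zero]) hΘ (y := y) (by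
        rintro ⟨v, hv, rfl⟩
        exact hys (χ.map_target (hA hv))) v
    have hby : b y = 0 := by simp only [hb]; rw [if_neg hys]
    rw [h1, hby]
    simp

end

end Pool.Agent.Helper21S
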