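import Pool.Agent.Helper21S.Coc
import Pool.Agent.Y504.CO.Final

/-!
# Project ST: hyperbolic periodic points have no eigenfunctionals of modulus one
-/

set_option autoImplicit false
set_option linter.unusedSectionVars false

open scoped Manifold ContDiff Topology
open Filter Set Metric

universe u

namespace Pool.Agent.Helper21S

open Pool.Agent.H718R2.G Pool.Agent.Y504.CO Pool.Agent.TH80.OMS

variable {n : ℕ} {N : Type u} [TopologicalSpace N] [ChartedSpace (V n) N]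

/-- the derivative of a chart -/
noncomputable def dc (χ : OpenPartialHomeomorph N (V n)) (x : N) : V n →L[ℝ] V n :=
  mfderiv (𝓡 n) (𝓡 n) χ x

variable [IsManifold (𝓡 n) ∞ N]

theorem chart_mdiff {χ : OpenPartialHomeomorph N (V n)}
    (hχ : χ ∈ IsManifold.maximalAtlas (𝓡 n) ∞ N) : χ.MDifferentiable (𝓡 n) (𝓡 n) := by
  refine ⟨?_, ?_⟩
  · exact (contMDiffOn_of_mem_maximalAtlas hχ).mdifferentiableOn (by simp)
  · exact (contMDiffOn_symm_of_mem_maximalAtlas hχ).mdifferentiableOn (by simp)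

theorem dc_bij {χ : OpenPartialHomeomorph N (V n)}
    (hχ : χ ∈ IsManifold.maximalAtlas (𝓡 n) ∞ N) {x : N} (hx : x ∈ χ.source) :
    Function.Bijective (dc χ x) := (chart_mdiff hχ).mfderiv_bijective hx

/-- A map and its expression in a chart. -/
theorem dc_comp {χ : OpenPartialHomeomorph N (V n)}
    (hχ : χ ∈ IsManifold.maximalAtlas (𝓡 n) ∞ N) {x : N} (hx : x ∈ χ.source) {G : N → N}
    (hG : MDifferentiableAt (𝓡 n) (𝓡 n) G x) (hGx : G x ∈ χ.source) {f : V n → V n}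
    {D : V n →L[ℝ] V n} (hf : HasFDerivAt f D (χ x)) (he : ∀ᶠ y in 𝓝 x, χ (G y) = f (χ y))
    (v : V n) : dc χ (G x) (dm G x v) = D (dc χ x v) := by
  have h1 : mfderiv (𝓡 n) (𝓡 n) (χ ∘ G) x = (mfderiv (𝓡 n) (𝓡 n) χ (G x)).comp
      (mfderiv (𝓡 n) (𝓡 n) G x) :=
    mfderiv_comp x ((chart_mdiff hχ).mdifferentiableAt hGx) hG
  have h2 : HasMFDerivAt (𝓡 n) (𝓡 n) (f ∘ χ) x (D.comp (mfderiv (𝓡 n) (𝓡 n) χ x)) :=
    HasMFDerivAt.comp x hf.hasMFDerivAt
      ((chart_mdiff hχ).mdifferentiableAt hx).hasMFDerivAt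
  have h3 : mfderiv (𝓡 n) (𝓡 n) (χ ∘ G) x = mfderiv (𝓡 n) (𝓡 n) (f ∘ χ) x :=
    Filter.EventuallyEq.mfderiv_eq he
  rw [h2.mfderiv, h1] at h3
  exact congrArg (fun L : V n →L[ℝ] V n => L v) h3

/-- The derivative of a map with a fixed point, in an arbitrary chart. -/
theorem chart_fix {χ : OpenPartialHomeomorph N (V n)}
    (hχ : χ ∈ IsManifold.maximalAtlas (𝓡 n) ∞ N) {x : N} (hx : x ∈ χ.source) {G : N → N}
    (hG : MDifferentiableAt (𝓡 n) (𝓡 n) G x) (hGx : G x = x) {D : V n →L[ℝ] V n}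
    (hD : HasFDerivAt (fun v => χ (G (χ.symm v))) D (χ x)) (v : V n) :
    dc χ x (dm G x v) = D (dc χ x v) := by
  have h := dc_comp hχ hx hG (by rw [hGx]; exact hx) hD (by
    filter_upwards [χ.open_source.mem_nhds hx] with y hy
    rw [χ.left_inv hy]) v
  rwa [hGx] at h

theorem hasFDerivAt_chart {χ : OpenPartialHomeomorph N (V n)}
    (hχ : χ ∈ IsManifold.maximalAtlas (𝓡 n) ∞ N) {x : N} (hx : x ∈ χ.source) {G : N → N}
    (hG : MDifferentiableAt (𝓡 n) (𝓡 n) G x) (hGx : G x ∈ χ.source) :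
    DifferentiableAt ℝ (fun v => χ (G (χ.symm v))) (χ x) := by
  rw [← mdifferentiableAt_iff_differentiableAt]
  have h1 : MDifferentiableAt (𝓡 n) (𝓡 n) χ.symm (χ x) :=
    (chart_mdiff hχ).mdifferentiableAt_symm (χ.map_source hx)
  have h2 : χ.symm (χ x) = x := χ.left_inv hx
  have h3 : MDifferentiableAt (𝓡 n) (𝓡 n) (G ∘ χ.symm) (χ x) := by
    apply MDifferentiableAt.comp _ _ h1
    rw [h2]; exact hG
  have h4 : MDifferentiableAt (𝓡 n) (𝓡 n) (χ ∘ (G ∘ χ.symm)) (χ x) := by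
    apply MDifferentiableAt.comp _ _ h3
    apply (chart_mdiff hχ).mdifferentiableAt
    simp only [Function.comp_apply]
    rw [h2]
    exact hGx
  exact h4

/-- At a hyperbolic periodic point there is no eigenfunctional for an eigenvalue of modulus one. -/
theorem hyp_left {G : N → N} (hG : MDifferentiable (𝓡 n) (𝓡 n) G) {p : N} {m : ℕ} (hm : 1 ≤ m)
    (hp : G^[m] p = p) (hH : HypAt n G p) (l : V n →ₗ[ℝ] ℂ) (hl : l ≠ 0) (μ : ℂ)
    (h : ∀ v, l (dm G^[m] p v) = μ * l v) : ‖μ‖ ≠ 1 := by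
  intro hμ
  set χ := chartAt (V n) p with hχd
  have hχ : χ ∈ IsManifold.maximalAtlas (𝓡 n) ∞ N := IsManifold.chart_mem_maximalAtlas p
  have hs : p ∈ χ.source := mem_chart_source _ p
  have hd := hasFDerivAt_chart hχ hs (mdiff_iter hG m p) (by rw [hp]; exact hs)
  have h1 := chart_fix hχ hs (mdiff_iter hG m p) hp hd.hasFDerivAt
  have h2 := hH m hm hp χ hχ hs
  refine (Plug.hEIG n _).2 ?_ h2
  refine ⟨μ, hμ, ?_⟩
  have hbij := dc_bij hχ hs
  let e : V n ≃ₗ[ℝ] V n := LinearEquiv.ofBijective (dc χ p : V n →ₗ[ℝ] V n) hbij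
  have he : ∀ v, e v = dc χ p v := fun v => rfl
  refine isRoot_of_left _ (l.comp (e.symm : V n →ₗ[ℝ] V n)) ?_ μ ?_
  · intro h0
    apply hl
    ext1 v
    have h3 := congrArg (fun L : V n →ₗ[ℝ] ℂ => L (e v)) h0
    simpa using h3
  · intro v
    obtain ⟨w, rfl⟩ := e.surjective v
    rw [he, ← h1, ← he]
    simp only [LinearMap.comp_apply, LinearEquiv.coe_coe]
    rw [e.symm_apply_apply, ← he, e.symm_apply_apply]
    exact h w

/-- Roots of the characteristic polynomial in a chart give eigenfunctionals. -/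
theorem left_of_root {G : N → N} {p : N} {ψ : OpenPartialHomeomorph N (V n)}
    (hψ : ψ ∈ IsManifold.maximalAtlas (𝓡 n) ∞ N) (hx : p ∈ ψ.source)
    (hG : MDifferentiableAt (𝓡 n) (𝓡 n) G p) (hGx : G p = p) {D : V n →L[ℝ] V n}
    (hD : HasFDerivAt (fun v => ψ (G (ψ.symm v))) D (ψ p)) (μ : ℂ)
    (hμ : ((LinearMap.charpoly (D : V n →ₗ[ℝ] V n)).map (algebraMap ℝ ℂ)).IsRoot μ) :
    ∃ l : V n →ₗ[ℝ] ℂ, l ≠ 0 ∧ ∀ v, l (dm G p v) = μ * l v := by
  obtain ⟨l, hl, h⟩ := exists_left D μ hμ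
  refine ⟨l.comp (dc ψ p : V n →ₗ[ℝ] V n), ?_, ?_⟩
  · intro h0
    apply hl
    ext1 v
    obtain ⟨w, rfl⟩ := (dc_bij hψ hx).surjective v
    exact congrArg (fun L : V n →ₗ[ℝ] ℂ => L w) h0
  · intro v
    change l (dc ψ p (dm G p v)) = μ * l (dc ψ p v)
    rw [chart_fix hψ hx hG hGx hD, h]

end Pool.Agent.Helper21S
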