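import Pool.Agent.H718R2.G0

/-!
# Project ST: eigenfunctionals and the characteristic polynomial
-/

set_option autoImplicit false

open scoped Manifold ContDiff Topology

namespace Pool.Agent.Helper21S

open Pool.Agent.H718R2.G

theorem aeval_left {n : ℕ} (A : V n →ₗ[ℝ] V n) (l : V n →ₗ[ℝ] ℂ) (μ : ℂ)
    (h : ∀ v, l (A v) = μ * l v) (p : Polynomial ℝ) (v : V n) :
    l (Polynomial.aeval A p v) = Polynomial.aeval μ p * l v := by
  induction p using Polynomial.induction_on' generalizing v with
  | add p q hp hq =>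
    rw [map_add, LinearMap.add_apply, map_add, hp, hq, map_add, add_mul]
  | monomial k a =>
    rw [Polynomial.aeval_monomial, Polynomial.aeval_monomial]
    have hk : ∀ (k : ℕ) (v : V n), l ((A ^ k) v) = μ ^ k * l v := by
      intro k
      induction k with
      | zero => intro v; simp
      | succ k ih =>
        intro v
        rw [pow_succ, Module.End.mul_apply, ih, h, pow_succ]
        ring
    rw [Module.End.mul_apply, Module.algebraMap_end_apply, map_smul, hk]
    rw [Complex.coe_algebraMap, mul_assoc, Complex.real_smul]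

/-- The eigenvalue of an eigenfunctional is a root of the characteristic polynomial. -/
theorem isRoot_of_left {n : ℕ} (A : V n →L[ℝ] V n) (l : V n →ₗ[ℝ] ℂ) (hl : l ≠ 0) (μ : ℂ)
    (h : ∀ v, l (A v) = μ * l v) :
    ((LinearMap.charpoly (A : V n →ₗ[ℝ] V n)).map (algebraMap ℝ ℂ)).IsRoot μ := by
  obtain ⟨v, hv⟩ : ∃ v, l v ≠ 0 := by
    by_contra hcon
    push Not at hcon
    exact hl (LinearMap.ext hcon)
  have h1 := aeval_left (A : V n →ₗ[ℝ] V n) l μ h (LinearMap.charpoly (A : V n →ₗ[ℝ] V n)) v
  rw [LinearMap.aeval_self_charpoly, LinearMap.zero_apply, map_zero] at h1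
  have h2 : Polynomial.aeval μ (LinearMap.charpoly (A : V n →ₗ[ℝ] V n)) = 0 := by
    rcases mul_eq_zero.1 h1.symm with h3 | h3
    · exact h3
    · exact absurd h3 hv
  rw [Polynomial.IsRoot.def, Polynomial.eval_map_algebraMap]
  exact h2

/-- Roots of the characteristic polynomial have eigenfunctionals. -/
theorem exists_left {n : ℕ} (A : V n →L[ℝ] V n) (μ : ℂ)
    (h : ((LinearMap.charpoly (A : V n →ₗ[ℝ] V n)).map (algebraMap ℝ ℂ)).IsRoot μ) :
    ∃ l : V n →ₗ[ℝ] ℂ, l ≠ 0 ∧ ∀ v, l (A v) = μ * l v := by
  classical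
  set b := (EuclideanSpace.basisFun (Fin n) ℝ).toBasis with hb
  set M : Matrix (Fin n) (Fin n) ℝ := LinearMap.toMatrix b b (A : V n →ₗ[ℝ] V n) with hM
  have hc : (LinearMap.charpoly (A : V n →ₗ[ℝ] V n)) = M.charpoly := by
    rw [hM, LinearMap.charpoly_toMatrix]
  rw [hc, ← Matrix.charpoly_map, Polynomial.IsRoot.def, Matrix.eval_charpoly] at h
  obtain ⟨w, hw, hw0⟩ := Matrix.exists_vecMul_eq_zero_iff.2 h
  refine ⟨∑ i, w i • (Complex.ofRealCLM.toLinearMap.comp (b.coord i)), ?_, ?_⟩
  · intro h0
    apply hw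
    funext i
    have h1 := congrArg (fun l : V n →ₗ[ℝ] ℂ => l (b i)) h0
    simp only [LinearMap.sum_apply, LinearMap.smul_apply, LinearMap.comp_apply,
      LinearMap.zero_apply, Module.Basis.coord_apply, Module.Basis.repr_self] at h1
    rw [Finset.sum_eq_single i] at h1
    · simpa using h1
    · intro j _ hj
      simp [Finsupp.single_apply, hj.symm]
    · simp
  · intro v
    have h1 : ∀ i, b.repr (A v) i = ∑ j, M i j * b.repr v j := by
      intro i
      have := LinearMap.toMatrix_mulVec_repr b b (A : V n →ₗ[ℝ] V n) v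
      have h2 := congrFun this i
      rw [← hM] at h2
      simpa [Matrix.mulVec, dotProduct] using h2.symm
    have h3 : ∀ j, ∑ i, w i * (M i j : ℂ) = μ * w j := by
      intro j
      have h4 := congrFun hw0 j
      simp only [Matrix.vecMul, dotProduct, Matrix.sub_apply, Matrix.scalar_apply,
        Matrix.map_apply, Pi.zero_apply, mul_sub, Finset.sum_sub_distrib] at h4
      rw [sub_eq_zero] at h4
      rw [Complex.coe_algebraMap] at h4
      rw [← h4, Finset.sum_eq_single j]
      · simp [mul_comm]
      · intro i _ hij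
        simp [Matrix.diagonal_apply, hij]
      · simp
    simp only [LinearMap.sum_apply, LinearMap.smul_apply, LinearMap.comp_apply,
      Module.Basis.coord_apply, smul_eq_mul]
    have h5 : ∀ i, Complex.ofRealCLM.toLinearMap (b.repr (A v) i) =
        ∑ j, (M i j : ℂ) * (b.repr v j : ℂ) := by
      intro i
      rw [h1]
      simp
    simp only [h5, Finset.mul_sum]
    rw [Finset.sum_comm]
    refine Finset.sum_congr rfl fun j _ => ?_
    have h6 : Complex.ofRealCLM.toLinearMap (b.repr v j) = (b.repr v j : ℂ) := rfl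
    rw [h6, ← mul_assoc, ← h3, Finset.sum_mul]
    refine Finset.sum_congr rfl fun i _ => ?_
    ring

end Pool.Agent.Helper21S
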