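import Pool.Agent.Helper21S.Eight

/-!
# Project ST: the classes of the periodic products
-/

set_option autoImplicit false

open Filter Set Complex Topology

namespace Pool.Agent.Helper21S

section

variable {Y : Type*} {J : ℕ} {b : Fin J → Y → ℝ} {h : Y → Y} {α β : Y → ℂ}

/-- the eigenvalue given by the section -/
theorem eig_rel (h0 : ∀ j y, 0 ≤ b j y) (hb1 : ∀ j y, b j y ≤ 1) (h1 : ∀ y, ∃ j, b j y = 1)
    (hlt : ∀ y, ‖β y‖ < ‖α y‖) {ε : ℝ} (hε : 0 < ε) (hε1 : ε ≤ 1 / 2) {m : ℕ} (hm : 1 ≤ m) (y : Y)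
    {η E : ℂ} (hη : ‖η‖ < 1) (hE : E ≠ 0)
    (hrm : rm (η, 1) (PP h α β b (ε * I) m y) = (E * η, E)) :
    TT h α β b (ε * I) m y = E + (PP h α β b (ε * I) m y).det / E ∧
      ‖(PP h α β b (ε * I) m y).det‖ ≤ (1 - ε) * ‖E‖ ^ 2 := by
  have hQ := QQ_pos h (α := α) (β := β) h0 hlt (θ := ε * I) (by simp [hε.le]) m y
  have g1 := J_grow h (α := α) (β := β) h0 hlt (θ := ε * I) (by simp [hε.le]) (η, 1) m y
  have hdet := det_q (h := h) h0 hb1 h1 hlt hε hε1 m y
  set P := PP h α β b (ε * I) m y with hP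
  constructor
  · have e1 := congrArg Prod.fst hrm
    have e2 := congrArg Prod.snd hrm
    simp only [rm, one_mul] at e1 e2
    unfold TT
    rw [← hP, Matrix.det_fin_two]
    have e3 : P 1 1 = E - η * P 0 1 := by linear_combination e2
    have e4 : P 1 0 = E * η - η * P 0 0 := by linear_combination e1
    apply mul_right_cancel₀ hE
    rw [add_mul E _ E, div_mul_cancel₀ _ hE, e4, e3]
    ring
  · rw [hrm] at g1
    have h3 : Jf (E * η, E) = ‖E‖ ^ 2 * Jf (η, 1) := by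
      unfold Jf
      simp only [norm_mul, mul_pow, norm_one, one_pow]
      ring
    rw [h3] at g1
    have h4 : 0 < Jf (η, 1) := by
      unfold Jf
      simp only [norm_one, one_pow]
      nlinarith [norm_nonneg η]
    have h5 : QQ h α β b (ε * I) m y ≤ ‖E‖ ^ 2 := le_of_mul_le_mul_right g1 h4
    have h6 : (1 - ε) ^ m ≤ 1 - ε := by
      calc (1 - ε) ^ m ≤ (1 - ε) ^ 1 :=
            pow_le_pow_of_le_one (by linarith) (by linarith) hm
        _ = 1 - ε := pow_one _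
    refine hdet.trans ?_
    exact mul_le_mul h6 h5 hQ.le (by linarith)

/-- `k`-fold periods -/
theorem bs_mul (φ : Y → ℝ) {m : ℕ} {y : Y} (hy : h^[m] y = y) (k : ℕ) :
    h^[k * m] y = y ∧ bs h φ (k * m) y = k * bs h φ m y := by
  induction k with
  | zero => simp [bs]
  | succ k ih =>
    obtain ⟨h1, h2⟩ := ih
    constructor
    · rw [Nat.add_mul, one_mul, Function.iterate_add_apply, hy, h1]
    · have h3 : bs h φ ((k + 1) * m) y = bs h φ (k * m) y + bs h φ m (h^[k * m] y) := by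
        unfold bs
        rw [Nat.add_mul, one_mul, Finset.sum_range_add]
        congr 1
        refine Finset.sum_congr rfl fun i _ => ?_
        rw [← Function.iterate_add_apply, add_comm]
      rw [h3, h1, h2]
      push_cast
      ring

theorem abs_of_mul {φ : Y → ℝ} {c C : ℝ}
    (hφ : ∀ (y : Y) (m : ℕ), 1 ≤ m → h^[m] y = y → c * m - C ≤ |bs h φ m y|) (y : Y) (m : ℕ)
    (hm : 1 ≤ m) (hy : h^[m] y = y) : c * m ≤ |bs h φ m y| := by
  by_contra hcon
  push Not at hcon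
  obtain ⟨k, hk⟩ := exists_nat_gt (C / (c * m - |bs h φ m y|))
  have hpos : 0 < c * m - |bs h φ m y| := by linarith
  rw [div_lt_iff₀ hpos] at hk
  obtain ⟨h1, h2⟩ := bs_mul φ hy (k + 1)
  have h3 := hφ y ((k + 1) * m) (Nat.mul_pos (Nat.succ_pos k) hm) h1
  rw [h2, abs_mul] at h3
  push_cast at h3
  have h4 : |(k : ℝ) + 1| = k + 1 := abs_of_nonneg (by positivity)
  rw [h4] at h3
  nlinarith

theorem b_le_d (h0 : ∀ j y, 0 ≤ b j y) (hlt : ∀ y, ‖β y‖ < ‖α y‖) {θ : ℂ} (hθ : 0 ≤ θ.im)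
    (n : ℕ) (y : Y) : ‖PP h α β b θ n y 0 1‖ ≤ ‖PP h α β b θ n y 1 1‖ := by
  by_contra hcon
  push Not at hcon
  set P := PP h α β b θ n y with hP
  have hb0 : 0 < ‖P 0 1‖ := (norm_nonneg _).trans_lt hcon
  have g1 := J_grow h (α := α) (β := β) h0 hlt hθ (-(P 1 1) / P 0 1, 1) n y
  have hQ := QQ_pos h (α := α) (β := β) h0 hlt hθ n y
  have h2 : (rm (-(P 1 1) / P 0 1, 1) (PP h α β b θ n y)).2 = 0 := by
    unfold rm
    simp only [one_mul]
    rw [← hP, div_mul_cancel₀ _ (norm_pos_iff.1 hb0)]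
    ring
  have h3 : Jf (rm (-(P 1 1) / P 0 1, 1) (PP h α β b θ n y)) ≤ 0 := by
    unfold Jf
    rw [h2, norm_zero]
    nlinarith [sq_nonneg ‖(rm (-(P 1 1) / P 0 1, 1) (PP h α β b θ n y)).1‖]
  have h4 : 0 < Jf (-(P 1 1) / P 0 1, 1) := by
    unfold Jf
    simp only [norm_one, one_pow, norm_div, norm_neg, div_pow]
    rw [sub_pos, div_lt_one (by positivity)]
    have := norm_nonneg (P 1 1)
    gcongr
  nlinarith [mul_pos hQ h4]

theorem bs_det (φ : Y → ℝ) (θ : ℂ) (hφ : ∀ y, Real.exp (φ y) = ‖(MM α β b θ y).det‖) (n : ℕ)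
    (y : Y) : Real.exp (bs h φ n y) = ‖(PP h α β b θ n y).det‖ := by
  induction n generalizing y with
  | zero =>
    change Real.exp (bs h φ 0 y) = ‖(1 : Matrix (Fin 2) (Fin 2) ℂ).det‖
    simp [bs]
  | succ n ih =>
    have h2 : bs h φ (n + 1) y = bs h φ n (h y) + φ y := by
      rw [bs, Finset.sum_range_succ']
      rfl
    change _ = ‖(PP h α β b θ n (h y) * MM α β b θ y).det‖
    rw [h2, Real.exp_add, Matrix.det_mul, norm_mul, ih, hφ]

/-- class one -/
theorem class1_bd {κ : ℝ} (hκ : 0 < κ) {t D : ℝ} (hD : 0 < D) (hu : 1 + D < |t|) {m : ℕ}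
    (hm : 1 ≤ m)
    (hg : ∀ μ : ℂ, μ ^ 2 - (t : ℂ) * μ + (D : ℂ) = 0 →
      Real.exp (κ * m) ≤ ‖μ‖ ∨ ‖μ‖ ≤ Real.exp (-(κ * m))) :
    ∃ a c : ℝ, Real.exp (κ * m) ≤ a ∧ 0 ≤ c ∧ c ≤ Real.exp (-(κ * m)) ∧ a * c = D ∧
      (1 - Real.exp (-κ)) * a ≤ |t| := by
  obtain ⟨μ, ν, e1, e2, e3, e4⟩ := roots2 (t : ℂ) (D : ℂ)
  have hm' : (1 : ℝ) ≤ m := by exact_mod_cast hm
  have h1 : |t| ≤ ‖μ‖ + ‖ν‖ := by
    have := norm_add_le μ ν
    rwa [e1, Complex.norm_real, Real.norm_eq_abs] at this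
  have h2 : ‖μ‖ * ‖ν‖ = D := by
    rw [← norm_mul, e2, Complex.norm_real, Real.norm_eq_abs, abs_of_pos hD]
  have hE1 : 1 < Real.exp (κ * m) := Real.one_lt_exp_iff.2 (by positivity)
  have hE2 : Real.exp (-(κ * m)) < 1 := by
    have := Real.exp_lt_exp.2 (show -(κ * m) < 0 by
      have : 0 < κ * m := by positivity
      linarith)
    rwa [Real.exp_zero] at this
  have hE3 : Real.exp (-(κ * m)) ≤ Real.exp (-κ) := Real.exp_le_exp.2 (by nlinarith)
  have n1 := norm_nonneg μ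
  have n2 := norm_nonneg ν
  have key : ∀ μ ν : ℂ, μ + ν = t → Real.exp (κ * m) ≤ ‖μ‖ → ‖ν‖ ≤ Real.exp (-(κ * m)) →
      (1 - Real.exp (-κ)) * ‖μ‖ ≤ |t| := by
    intro μ ν e1 h3 h4
    have h5 : ‖μ‖ - ‖ν‖ ≤ |t| := by
      have := norm_sub_norm_le μ (-ν)
      rwa [norm_neg, sub_neg_eq_add, e1, Complex.norm_real, Real.norm_eq_abs] at this
    have h6 : ‖ν‖ ≤ Real.exp (-κ) * ‖μ‖ := by
      refine h4.trans (hE3.trans ?_)
      have := Real.exp_pos (-κ)
      nlinarith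
    linarith
  rcases hg μ e3 with h3 | h3 <;> rcases hg ν e4 with h4 | h4
  · exfalso
    nlinarith [mul_nonneg (sub_nonneg.2 (hE1.le.trans h3)) (sub_nonneg.2 (hE1.le.trans h4))]
  · exact ⟨‖μ‖, ‖ν‖, h3, n2, h4, h2, key μ ν e1 h3 h4⟩
  · exact ⟨‖ν‖, ‖μ‖, h4, n1, h3, by rw [mul_comm]; exact h2,
      key ν μ (by rw [add_comm]; exact e1) h4 h3⟩
  · exfalso
    nlinarith [mul_nonneg (sub_nonneg.2 (h3.trans hE2.le)) (sub_nonneg.2 (h4.trans hE2.le))]

variable [MetricSpace Y] [CompactSpace Y]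

/-- the data at `iε` -/
theorem at_eps (hd : CD h α β b) {κ ρ : ℝ} (hκ : 0 < κ) (hρ : 0 < ρ)
    (hρ1 : ρ ≤ 1 / 2) (hg : GapR h α β b κ ρ) : ∃ ε₀ : ℝ, 0 < ε₀ ∧ ε₀ ≤ ρ / 2 ∧
    ∀ ε : ℝ, 0 < ε → ε ≤ ε₀ → ∃ (ψ φ : Y → ℝ) (C : ℝ), Continuous ψ ∧ Continuous φ ∧ 0 < C ∧
      (∀ n y, Real.exp (bs h ψ n y) ≤ C * ‖PP h α β b (ε * I) n y 1 1‖ ∧
        ‖PP h α β b (ε * I) n y 1 1‖ ≤ C * Real.exp (bs h ψ n y) ∧
        ‖(PP h α β b (ε * I) n y).det‖ = Real.exp (bs h ψ n y + bs h φ n y)) ∧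
      ∀ (y : Y) (m : ℕ), 1 ≤ m → h^[m] y = y →
        (|tr h α β b m y 0| < 1 + dt h α β b m y 0 → dt h α β b m y 0 < 1 →
          bs h ψ m y ≤ -(κ / 2 * m - C) ∧ bs h φ m y ≤ -(κ / 2 * m - C)) ∧
        (|tr h α β b m y 0| < 1 + dt h α β b m y 0 → 1 < dt h α β b m y 0 →
          κ / 2 * m - C ≤ bs h ψ m y ∧ κ / 2 * m - C ≤ bs h φ m y) ∧
        (1 + dt h α β b m y 0 < |tr h α β b m y 0| →
          κ / 2 * m - C ≤ bs h ψ m y ∧ bs h φ m y ≤ -(κ / 2 * m - C)) := by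
  obtain ⟨ε₀, hε₀, hε₀ρ, hT⟩ := small_T hd hκ hρ hρ1 hg
  refine ⟨ε₀, hε₀, hε₀ρ, fun ε hε hεε => ?_⟩
  have hε1 : ε ≤ 1 / 2 := by linarith
  obtain ⟨η, ψ, r, hψ, hr0, hr1, hηr, hE⟩ := section_exists hd hε hε1
  obtain ⟨δ, A, hδ, hδ1, hA, hδ', hA'⟩ := bounds hd
  have hdetne : ∀ y, (MM α β b (ε * I) y).det ≠ 0 := by
    intro y h3
    have h4 := det_low (h := h) (α := α) (β := β) hd.b0 hd.b1 hδ hδ' (θ := ε * I) (by
      rw [norm_mul, Complex.norm_I, Complex.norm_real, Real.norm_eq_abs, abs_of_pos hε]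
      linarith) 1 y
    have h5 : (PP h α β b (ε * I) 1 y) = MM α β b (ε * I) y := by
      change PP h α β b (ε * I) 0 (h y) * MM α β b (ε * I) y = _
      change 1 * MM α β b (ε * I) y = _
      rw [one_mul]
    rw [h5, h3, norm_zero] at h4
    have : 0 < ((7 / 16) ^ J * δ) ^ 1 := by positivity
    linarith
  have hcdet : Continuous fun y => Real.log ‖(MM α β b (ε * I) y).det‖ := by
    have c1 : Continuous fun y => (MM α β b (ε * I) y).det := by
      have e1 : (fun y => (MM α β b (ε * I) y).det) = fun y =>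
          MM α β b (ε * I) y 0 0 * MM α β b (ε * I) y 1 1 -
            MM α β b (ε * I) y 0 1 * MM α β b (ε * I) y 1 0 := by
        funext y
        rw [Matrix.det_fin_two]
      rw [e1]
      exact ((cont_MM hd _ 0 0).mul (cont_MM hd _ 1 1)).sub
        ((cont_MM hd _ 0 1).mul (cont_MM hd _ 1 0))
    exact c1.norm.log fun y => (norm_pos_iff.2 (hdetne y)).ne'
  set φ : Y → ℝ := fun y => Real.log ‖(MM α β b (ε * I) y).det‖ - ψ y with hφ
  have hsum : ∀ n y, ‖(PP h α β b (ε * I) n y).det‖ = Real.exp (bs h ψ n y + bs h φ n y) := by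
    intro n y
    rw [← bs_det (h := h) (fun y => Real.log ‖(MM α β b (ε * I) y).det‖) (ε * I) (fun y => by
      rw [Real.exp_log (norm_pos_iff.2 (hdetne y))])]
    congr 1
    unfold bs
    rw [← Finset.sum_add_distrib]
    refine Finset.sum_congr rfl fun i _ => ?_
    simp only [hφ]
    ring
  set c₀ : ℝ := 1 - Real.exp (-κ) with hc₀
  have hc0 : 0 < c₀ := by
    have := Real.exp_lt_exp.2 (show -κ < 0 by linarith)
    rw [Real.exp_zero] at this
    linarith
  have hc1 : c₀ ≤ 1 := by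
    have := Real.exp_pos (-κ)
    linarith
  have hl1 : 0 ≤ Real.log (2 / ε) := Real.log_nonneg (by
    rw [le_div_iff₀ hε]
    linarith)
  have hl2 : 0 ≤ Real.log (2 / c₀) := Real.log_nonneg (by
    rw [le_div_iff₀ hc0]
    linarith)
  have hr2 : 0 < 1 / (1 - r) := by
    have : 0 < 1 - r := by linarith
    positivity
  set C : ℝ := 2 + 1 / (1 - r) + Real.log (2 / ε) + Real.log (2 / c₀) with hC
  have hC2 : 2 ≤ C := by linarith
  refine ⟨ψ, φ, C, hψ, hcdet.sub hψ, by linarith, ?_, ?_⟩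
  · intro n y
    obtain ⟨E, hE1, hE2⟩ := hE n y
    have e2 := congrArg Prod.snd hE2
    simp only [rm, one_mul] at e2
    have hbd := b_le_d (h := h) (α := α) (β := β) hd.b0 hd.lt (θ := ε * I) (by simp [hε.le]) n y
    set P := PP h α β b (ε * I) n y with hP
    have hη1 := hηr (h^[n] y)
    refine ⟨?_, ?_, hsum n y⟩
    · rw [← hE1, ← e2]
      refine (norm_add_le _ _).trans ?_
      rw [norm_mul]
      have : ‖η (h^[n] y)‖ * ‖P 0 1‖ ≤ 1 * ‖P 1 1‖ :=
        mul_le_mul (by linarith) hbd (norm_nonneg _) zero_le_one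
      nlinarith [norm_nonneg (P 1 1)]
    · rw [← hE1]
      have h3 : ‖P 1 1‖ ≤ ‖E‖ + r * ‖P 1 1‖ := by
        have h4 : P 1 1 = E - η (h^[n] y) * P 0 1 := by linear_combination e2
        have h5 : ‖P 1 1‖ ≤ ‖E‖ + ‖η (h^[n] y)‖ * ‖P 0 1‖ := by
          conv_lhs => rw [h4]
          refine (norm_sub_le _ _).trans ?_
          rw [norm_mul]
        have h6 : ‖η (h^[n] y)‖ * ‖P 0 1‖ ≤ r * ‖P 1 1‖ :=
          mul_le_mul hη1 hbd (norm_nonneg _) hr0
        linarith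
      have h7 : 0 < 1 - r := by linarith
      have h8 : ‖P 1 1‖ ≤ 1 / (1 - r) * ‖E‖ := by
        rw [div_mul_eq_mul_div, le_div_iff₀ h7]
        linarith
      refine h8.trans ?_
      apply mul_le_mul_of_nonneg_right _ (norm_nonneg _)
      linarith
  · intro y m hm hy
    obtain ⟨E, hE1, hE2⟩ := hE m y
    rw [hy] at hE2
    have hEp : 0 < ‖E‖ := by rw [hE1]; exact Real.exp_pos _
    have hE0 : E ≠ 0 := norm_pos_iff.1 hEp
    obtain ⟨r1, r2⟩ := eig_rel hd.b0 hd.b1 hd.one hd.lt hε hε1 hm y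
      ((hηr y).trans_lt hr1) hE0 hE2
    set Δ := (PP h α β b (ε * I) m y).det with hΔ
    have hm' : (1 : ℝ) ≤ m := by exact_mod_cast hm
    have hΔE : ‖Δ / E‖ = Real.exp (bs h φ m y) := by
      rw [norm_div, hsum, hE1, ← Real.exp_sub]
      congr 1
      ring
    have hle : Real.exp (bs h φ m y) ≤ (1 - ε) * Real.exp (bs h ψ m y) := by
      rw [← hΔE, ← hE1, norm_div, div_le_iff₀ hEp]
      nlinarith
    have hle' : bs h φ m y ≤ bs h ψ m y := by
      apply Real.exp_le_exp.1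
      have := Real.exp_pos (bs h ψ m y)
      nlinarith
    have hTlow : ε * Real.exp (bs h ψ m y) ≤ ‖TT h α β b (ε * I) m y‖ := by
      rw [r1]
      have := norm_sub_norm_le E (-(Δ / E))
      rw [norm_neg, sub_neg_eq_add, hΔE, hE1] at this
      linarith
    have hTup : ‖TT h α β b (ε * I) m y‖ ≤ 2 * Real.exp (bs h ψ m y) := by
      rw [r1]
      refine (norm_add_le _ _).trans ?_
      rw [hΔE, hE1]
      have := Real.exp_pos (bs h ψ m y)
      nlinarith
    have hlog : ∀ {s u : ℝ} {c : ℝ}, 0 < c → c * Real.exp s ≤ 2 * Real.exp u →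
        s ≤ u + Real.log (2 / c) := by
      intro s u c hc h3
      apply Real.exp_le_exp.1
      rw [Real.exp_add, Real.exp_log (by positivity), mul_div_assoc', le_div_iff₀ hc]
      linarith
    have hkm : 0 ≤ κ * m := by positivity
    refine ⟨fun h2 h3 => ?_, fun h2 h3 => ?_, fun h2 => ?_⟩
    · have h4 := (hT ε hε.le hεε y m hm hy h2).1 h3
      have h5 := hlog hε (hTlow.trans h4)
      constructor <;> linarith
    · have h4 := (hT ε hε.le hεε y m hm hy h2).2 h3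
      rw [norm_div, ← hΔ] at h4
      have hΔp : 0 < ‖Δ‖ := by rw [hΔ, hsum]; exact Real.exp_pos _
      rw [div_le_iff₀ hΔp, hΔ, hsum, mul_assoc, ← Real.exp_add] at h4
      have h5 := hlog hε (hTlow.trans h4)
      constructor <;> linarith
    · obtain ⟨a, c, f1, f2, f3, f4, f5⟩ := class1_bd hκ (dt_pos hd.b0 hd.lt m y 0) h2 hm
        (fun μ hμ => hg.root hm hy (by simp [hρ.le]) hμ)
      have hT0 : |tr h α β b m y 0| = ‖TT h α β b 0 m y‖ := by
        have := TT_real (h := h) (α := α) (β := β) (b := b) m y 0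
        rw [Complex.ofReal_zero] at this
        rw [this, Complex.norm_real, Real.norm_eq_abs]
      have h6 : ‖TT h α β b 0 m y‖ ≤ ‖TT h α β b (ε * I) m y‖ :=
        T_le h hd.b0 hd.one hd.lt hε.le hm y
      have ha : 0 < a := (Real.exp_pos _).trans_le f1
      have h7 : c₀ * a ≤ 2 * Real.exp (bs h ψ m y) := by
        rw [← hT0] at h6
        linarith
      constructor
      · have h8 : c₀ * Real.exp (κ * m) ≤ 2 * Real.exp (bs h ψ m y) :=
          (mul_le_mul_of_nonneg_left f1 hc0.le).trans h7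
        have h9 := hlog hc0 h8
        linarith
      · have hd0 : ‖Δ‖ ≤ a * c := by
          rw [f4, hΔ]
          refine (det_le hd.b0 hd.b1 hε.le (by linarith) m y).trans ?_
          have := det_real (h := h) (α := α) (β := β) (b := b) m y 0
          rw [Complex.ofReal_zero] at this
          rw [this, Complex.norm_real, Real.norm_eq_abs, abs_of_pos (dt_pos hd.b0 hd.lt m y 0)]
        have h8 : c₀ * Real.exp (bs h φ m y) ≤ 2 * Real.exp (-(κ * m)) := by
          rw [← hΔE, norm_div, hE1, ← mul_div_assoc, div_le_iff₀ (Real.exp_pos _)]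
          calc c₀ * ‖Δ‖ ≤ c₀ * (a * c) := mul_le_mul_of_nonneg_left hd0 hc0.le
            _ = (c₀ * a) * c := by ring
            _ ≤ (2 * Real.exp (bs h ψ m y)) * Real.exp (-(κ * m)) :=
                mul_le_mul h7 f3 f2 (by positivity)
            _ = _ := by ring
        have h9 := hlog hc0 h8
        linarith

end

end Pool.Agent.Helper21S
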