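import Pool.Agent.Helper21S.Field
import Pool.Agent.Helper21S.Num

/-!
# Project ST: normal eigenvalues of periodic points in a submanifold
-/

set_option autoImplicit false
set_option linter.unusedSectionVars false

open scoped Manifold ContDiff Topology
open Filter Set Metric

universe u

namespace Pool.Agent.Helper21S

open Pool.Agent.H718R2.G Pool.Agent.Y504.CO Pool.Agent.TH80.OMS Pool.Agent.W564.SC
  Pool.Agent.W74.SC

section

variable {n : ℕ} {N : Type u} [TopologicalSpace N] [ChartedSpace (V n) N] [IsManifold (𝓡 n) ∞ N]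

/-- The derivative of the map `g` of `N` into `ℝ^q` at `x`, on the tangent space `T_x N` (which Mathlib
identifies with `ℝⁿ`). -/
noncomputable def dg {q : ℕ} (g : N → V q) (x : N) : V n →L[ℝ] V q := mfderiv (𝓡 n) (𝓡 q) g x

/-- Near the point `z` the set `K` lies in a smooth submanifold whose tangent space at the points `x`
of `K` is `E x`: there is a smooth map `g` from a neighbourhood `W` of `z` to some `ℝ^q`, a submersion
at `z`, which vanishes on `K ∩ W`, and `E x` is the kernel of its derivative for `x ∈ K ∩ W`. -/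
def LocSub (n : ℕ) {N : Type u} [TopologicalSpace N] [ChartedSpace (V n) N] (K : Set N)
    (E : N → Submodule ℝ (V n)) (z : N) : Prop :=
  ∃ (q : ℕ) (g : N → V q) (W : Set N), W ∈ 𝓝 z ∧ ContMDiffOn (𝓡 n) (𝓡 q) ∞ g W ∧
    Function.Surjective (dg (n := n) g z) ∧ ∀ x ∈ K, x ∈ W → g x = 0 ∧
      ∀ v : V n, dg (n := n) g x v = 0 ↔ v ∈ E x

theorem dg_chart {q : ℕ} {g : N → V q} {χ : OpenPartialHomeomorph N (V n)}
    (hχ : χ ∈ IsManifold.maximalAtlas (𝓡 n) ∞ N) {y : N} (hy : y ∈ χ.source)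
    (hd : DifferentiableAt ℝ (fun v => g (χ.symm v)) (χ y)) (v : V n) :
    fderiv ℝ (fun v => g (χ.symm v)) (χ y) (dc χ y v) = dg g y v := by
  have h2 : HasMFDerivAt (𝓡 n) (𝓡 q) ((fun v => g (χ.symm v)) ∘ χ) y
      ((fderiv ℝ (fun v => g (χ.symm v)) (χ y)).comp (mfderiv (𝓡 n) (𝓡 n) χ y)) :=
    HasMFDerivAt.comp y hd.hasFDerivAt.hasMFDerivAt
      ((chart_mdiff hχ).mdifferentiableAt hy).hasMFDerivAt
  have h3 : mfderiv (𝓡 n) (𝓡 q) ((fun v => g (χ.symm v)) ∘ χ) y = mfderiv (𝓡 n) (𝓡 q) g y := by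
    apply Filter.EventuallyEq.mfderiv_eq
    filter_upwards [χ.open_source.mem_nhds hy] with y' hy'
    simp only [Function.comp_apply]
    rw [χ.left_inv hy']
  rw [h2.mfderiv] at h3
  exact congrArg (fun L : V n →L[ℝ] V q => L v) h3

variable [T2Space N] [CompactSpace N] {r : ℕ∞}

/-- the number of the points of the orbit in `S` -/
noncomputable def cnt (F : N → N) (S : Set N) (m : ℕ) (x : N) : ℝ :=
  ∑ i ∈ Finset.range m, S.indicator (fun _ => (1 : ℝ)) (F^[i + 1] x)

/-- The normal eigenvalues are far from the unit circle, as measured by the visits to `S`. -/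
def Gap (F : N → N) (K : Set N) (E : N → Submodule ℝ (V n)) (S : Set N) (κ : ℝ) : Prop :=
  ∀ x ∈ K, ∀ m : ℕ, 1 ≤ m → F^[m] x = x → ∀ l : V n →ₗ[ℝ] ℂ, l ≠ 0 → (∀ v ∈ E x, l v = 0) →
    ∀ μ : ℂ, (∀ v, l (dm F^[m] x v) = μ * l v) →
      Real.exp (κ * cnt F S m x) ≤ ‖μ‖ ∨ ‖μ‖ ≤ Real.exp (-(κ * cnt F S m x))

theorem iter_mem {F : N → N} {K : Set N} (hK : ∀ x ∈ K, F x ∈ K) (i : ℕ) {x : N} (hx : x ∈ K) :
    F^[i] x ∈ K := by
  induction i with
  | zero => exact hx
  | succ i ih => rw [Function.iterate_succ_apply']; exact hK _ ih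

theorem iter_E (hr : 1 ≤ r) {F : DiffM n N r} {K : Set N} {E : N → Submodule ℝ (V n)}
    (hK : ∀ x ∈ K, F x ∈ K) (hE : ∀ x ∈ K, ∀ v ∈ E x, dm F x v ∈ E (F x)) (i : ℕ) :
    ∀ {x : N}, x ∈ K → ∀ v ∈ E x, dm F^[i] x v ∈ E (F^[i] x) := by
  induction i with
  | zero =>
    intro x hx v hv
    have h3 : dm (n := n) (id : N → N) x = ContinuousLinearMap.id ℝ (V n) := mfderiv_id
    have h4 : (F : N → N)^[0] = id := rfl
    rw [h4, h3]
    exact hv
  | succ i ih =>
    intro x hx v hv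
    rw [dm_iter_succ (diffM_mdiff hr F)]
    exact ih (hK x hx) _ (hE x hx v hv)

/-- Near one point. -/
theorem gap_local (hr : 1 ≤ r) {F : DiffM n N r} {U : Set (DiffM n N r)}
    (hU : IsOpen[strongTop n N r] U) (hFU : F ∈ U) (hH : ∀ g ∈ U, ∀ p ∈ Per g, HypAt n g p)
    {K : Set N} {E : N → Submodule ℝ (V n)} (hK : ∀ x ∈ K, F x ∈ K)
    (hE : ∀ x ∈ K, ∀ v ∈ E x, dm F x v ∈ E (F x)) {z : N} (hz : LocSub n K E z) :
    ∃ S ∈ 𝓝 z, ∃ κ : ℝ, 0 < κ ∧ Gap F K E S κ := by
  obtain ⟨q, g, W, hW, hg, hsurj, hKW⟩ := hz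
  obtain ⟨χ, hχ⟩ := Pool.Agent.W699.SC.gc n N z
  set f : V n → V q := fun v => g (χ.symm v) with hf
  have h0t : (0 : V n) ∈ χ.target := hχ.ball (mem_closedBall_self zero_le_one)
  have h0s : χ.symm 0 = z := by rw [← hχ.zero, χ.left_inv hχ.src]
  -- the region in which everything is smooth
  have hreg : ∀ᶠ v in 𝓝 (0 : V n), v ∈ χ.target ∧ χ.symm v ∈ interior W := by
    refine (show ∀ᶠ v in 𝓝 (0 : V n), v ∈ χ.target from χ.open_target.mem_nhds h0t).and ?_
    have hc : ContinuousAt χ.symm 0 := χ.continuousAt_symm h0t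
    apply hc.eventually
    rw [h0s]
    exact isOpen_interior.mem_nhds (mem_interior_iff_mem_nhds.2 hW)
  have hfs : ∀ v, v ∈ χ.target → χ.symm v ∈ interior W → ContDiffAt ℝ ∞ f v := by
    intro v hv hvW
    rw [← contMDiffAt_iff_contDiffAt]
    have m1 : ContMDiffAt (𝓡 n) (𝓡 n) ∞ χ.symm v :=
      (contMDiffOn_symm_of_mem_maximalAtlas hχ.mem).contMDiffAt (χ.open_target.mem_nhds hv)
    have m2 : ContMDiffAt (𝓡 n) (𝓡 q) ∞ g (χ.symm v) :=
      hg.contMDiffAt (mem_interior_iff_mem_nhds.1 hvW)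
    exact m2.comp v m1
  have hfe : ∀ᶠ v in 𝓝 (0 : V n), ContDiffAt ℝ ∞ f v := hreg.mono fun v hv => hfs v hv.1 hv.2
  have hdc0 : ∀ v, fderiv ℝ f 0 (dc χ z v) = dg g z v := by
    intro v
    have h1 : DifferentiableAt ℝ f (χ z) := by
      rw [hχ.zero]
      exact hfe.self_of_nhds.differentiableAt (by simp)
    have := dg_chart hχ.mem hχ.src h1 v
    rwa [hχ.zero] at this
  have hfsurj : Function.Surjective (fderiv ℝ f 0) := by
    intro y
    obtain ⟨v, hv⟩ := hsurj y
    exact ⟨dc χ z v, by rw [hdc0, hv]⟩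
  obtain ⟨ε, hε, hεball⟩ := Metric.eventually_nhds_iff_ball.1 hreg
  obtain ⟨ρ, hρ0, hρε, u, β, hu, huc, hβ, hβ1, hfd, hin, hout⟩ :=
    field0 f hfe hfsurj (min ε (1 / 2)) (by positivity)
  have hρ1 : ρ ≤ ε := hρε.trans (min_le_left _ _)
  have hρ2 : ρ ≤ 1 / 2 := hρε.trans (min_le_right _ _)
  have husupp : ∀ x : V n, 1 / 2 ≤ ‖x‖ → u x = 0 := fun x hx =>
    (hout x (hρ2.trans hx)).1.self_of_nhds
  classical
  set b : N → ℝ := fun y => if y ∈ χ.source then β (χ y) else 0 with hb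
  have hb01 : ∀ y, 0 ≤ b y ∧ b y ≤ 1 := by
    intro y
    simp only [hb]
    split_ifs
    · exact hβ _
    · exact ⟨le_rfl, zero_le_one⟩
  -- points of `K` near `z`
  have hyW : ∀ y ∈ K, y ∈ χ.source → ‖χ y‖ < ρ → f (χ y) = 0 ∧ ∀ v, dg g y v = 0 ↔ v ∈ E y := by
    intro y hy hys hyρ
    have h1 := hεball (χ y) (by rw [mem_ball, dist_zero_right]; exact hyρ.trans_le hρ1)
    rw [χ.left_inv hys] at h1
    have h2 := hKW y hy (interior_subset h1.2)
    refine ⟨?_, h2.2⟩
    simp only [hf]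
    rw [χ.left_inv hys]
    exact h2.1
  have hu0 : ∀ y ∈ K, y ∈ χ.source → u (χ y) = 0 := by
    intro y hy hys
    by_cases hyρ : ‖χ y‖ < ρ
    · exact (hin _ hyρ (hyW y hy hys hyρ).1).1
    · exact (hout _ (not_lt.1 hyρ)).1.self_of_nhds
  have hder : ∀ (s : ℝ) (Θ : DiffM n N r), IsPush n N r χ (fun v => s • u v) Θ → ∀ y ∈ K,
      Θ y = y ∧ ∀ v, dm Θ y v - (1 + s * b y) • v ∈ E y := by
    intro s Θ hΘ y hy
    refine ⟨push_fix hΘ fun hys => by simp only [hu0 y hy hys, smul_zero], fun v => ?_⟩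
    by_cases hys : y ∈ χ.source
    · have hD : HasFDerivAt (fun v => s • u v) (s • fderiv ℝ u (χ y)) (χ y) :=
        ((hu.differentiable (by simp)) (χ y)).hasFDerivAt.const_smul s
      have h1 := push_dm hr hχ.mem hΘ hys (by simp only [hu0 y hy hys, smul_zero]) hD v
      have hby : b y = β (χ y) := by simp only [hb]; rw [if_pos hys]
      by_cases hyρ : ‖χ y‖ < ρ
      · obtain ⟨h2, h3⟩ := hyW y hy hys hyρ
        rw [← h3]
        have h4 := dg_chart hχ.mem hys (hfd _ hyρ)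
        rw [← h4, map_sub, map_sub, h1, map_add, map_smul, smul_apply, map_smul]
        rw [(hin _ hyρ h2).2, hby, map_smul]
        module
      · have h2 : fderiv ℝ u (χ y) = 0 := by
          rw [((hout _ (not_lt.1 hyρ)).1).fderiv_eq]
          simp
        rw [h2] at h1
        have h1' : dc χ y (dm Θ y v) = dc χ y v := by
          rw [h1]
          simp
        have h3 := (dc_bij hχ.mem hys).injective h1'
        rw [h3, hby, (hout _ (not_lt.1 hyρ)).2]
        simp
    · have h1 := push_out hχ (u := fun v => s • u v)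
        (fun x hx => by simp only [husupp x hx, smul_zero]) hΘ (y := y) (by
          rintro ⟨v, hv, rfl⟩
          exact hys (χ.map_target (hχ.ball (closedBall_subset_closedBall (by norm_num) hv)))) v
      have hby : b y = 0 := by simp only [hb]; rw [if_neg hys]
      rw [h1, hby]
      simp
  obtain ⟨k, hk1, hkr, κ₀, hκ₀, hpush⟩ := pushU hr hU hFU hχ
  obtain ⟨s₀, hs₀, hs₀1, hsmall⟩ := small_smul u hu huc husupp k κ₀ hκ₀
  refine ⟨χ.source ∩ χ ⁻¹' ball 0 (ρ / 4), ?_, s₀ / 2, by positivity, ?_⟩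
  · apply (χ.isOpen_inter_preimage isOpen_ball).mem_nhds
    refine ⟨hχ.src, ?_⟩
    rw [mem_preimage, hχ.zero]
    exact mem_ball_self (by positivity)
  intro x hx m hm hxm l hl hlE μ hμ
  have hmain := ivt_prod m (fun i => b (F^[i] x)) s₀ hs₀ hs₀1 (fun i => hb01 _) ‖μ‖
    (norm_nonneg _) (by
      intro s hs
      obtain ⟨Θ, hΘ, hΘU⟩ := hpush _ (hsmall s hs)
      refine key hr hH hΘU hm hxm (fun i _ _ => (hder s Θ hΘ _ (iter_mem hK i hx)).1) l hl μ hμ
        (fun i => s * b (F^[i] x)) ?_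
      intro i hi1 him v
      have h1 := (hder s Θ hΘ _ (iter_mem hK i hx)).2 v
      have h2 := iter_E hr hK hE (m - i) (iter_mem hK i hx) _ h1
      rw [← Function.iterate_add_apply, Nat.sub_add_cancel him, hxm] at h2
      have h3 := hlE _ h2
      rw [map_sub, map_sub, sub_eq_zero] at h3
      rw [h3, map_smul, map_smul, Complex.real_smul])
  have hcnt : cnt F (χ.source ∩ χ ⁻¹' ball 0 (ρ / 4)) m x ≤
      ∑ i ∈ Finset.range m, b (F^[i + 1] x) := by
    apply Finset.sum_le_sum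
    intro i _
    by_cases h : F^[i + 1] x ∈ χ.source ∩ χ ⁻¹' ball 0 (ρ / 4)
    · rw [indicator_of_mem h]
      simp only [hb]
      rw [if_pos h.1, hβ1 _ (by
        have := h.2
        rw [mem_preimage, mem_ball, dist_zero_right] at this
        exact this.le)]
    · rw [indicator_of_notMem h]
      exact (hb01 _).1
  have hle : s₀ / 2 * cnt F (χ.source ∩ χ ⁻¹' ball 0 (ρ / 4)) m x ≤
      s₀ / 2 * ∑ i ∈ Finset.range m, b (F^[i + 1] x) :=
    mul_le_mul_of_nonneg_left hcnt (by positivity)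
  rcases hmain with h | h
  · left
    exact (Real.exp_le_exp.2 hle).trans h
  · right
    exact h.trans (Real.exp_le_exp.2 (neg_le_neg hle))

theorem Gap.mono {F : N → N} {K : Set N} {E : N → Submodule ℝ (V n)} {S S' : Set N} {κ : ℝ}
    (hκ : 0 ≤ κ) (h : Gap F K E S κ) (hS : S' ⊆ S) : Gap F K E S' κ := by
  intro x hx m hm hxm l hl hlE μ hμ
  have hle : κ * cnt F S' m x ≤ κ * cnt F S m x := by
    apply mul_le_mul_of_nonneg_left _ hκ
    apply Finset.sum_le_sum
    intro i _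
    exact indicator_le_indicator_of_subset hS (fun _ => zero_le_one) _
  rcases h x hx m hm hxm l hl hlE μ hμ with h1 | h1
  · exact Or.inl ((Real.exp_le_exp.2 hle).trans h1)
  · exact Or.inr (h1.trans (Real.exp_le_exp.2 (neg_le_neg hle)))

theorem cnt_nonneg (F : N → N) (S : Set N) (m : ℕ) (x : N) : 0 ≤ cnt F S m x := by
  apply Finset.sum_nonneg
  intro i _
  apply indicator_nonneg
  intro _ _
  exact zero_le_one

/-- On a compact set. -/
theorem gap_compact (hr : 1 ≤ r) {F : DiffM n N r} {U : Set (DiffM n N r)}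
    (hU : IsOpen[strongTop n N r] U) (hFU : F ∈ U) (hH : ∀ g ∈ U, ∀ p ∈ Per g, HypAt n g p)
    {K : Set N} (hKc : IsCompact K) {E : N → Submodule ℝ (V n)} (hK : ∀ x ∈ K, F x ∈ K)
    (hE : ∀ x ∈ K, ∀ v ∈ E x, dm F x v ∈ E (F x)) (hz : ∀ z ∈ K, LocSub n K E z) :
    ∃ κ : ℝ, 0 < κ ∧ ∀ x ∈ K, ∀ m : ℕ, 1 ≤ m → F^[m] x = x → ∀ l : V n →ₗ[ℝ] ℂ, l ≠ 0 →
      (∀ v ∈ E x, l v = 0) → ∀ μ : ℂ, (∀ v, l (dm F^[m] x v) = μ * l v) →
      Real.exp (κ * m) ≤ ‖μ‖ ∨ ‖μ‖ ≤ Real.exp (-(κ * m)) := by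
  have hmain : ∃ κ : ℝ, 0 < κ ∧ Gap F K E K κ := by
    refine hKc.induction_on (p := fun S => ∃ κ : ℝ, 0 < κ ∧ Gap F K E S κ) ?_ ?_ ?_ ?_
    · refine ⟨1, one_pos, ?_⟩
      intro x hx m hm hxm l hl hlE μ hμ
      have h0 : cnt F ∅ m x = 0 := by simp [cnt]
      rw [h0]
      simp only [mul_zero, Real.exp_zero, neg_zero]
      exact le_total _ _
    · rintro S T hST ⟨κ, hκ, h⟩
      exact ⟨κ, hκ, h.mono hκ.le hST⟩
    · rintro S T ⟨κ, hκ, h⟩ ⟨κ', hκ', h'⟩
      refine ⟨min κ κ' / 2, by positivity, ?_⟩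
      intro x hx m hm hxm l hl hlE μ hμ
      have h1 : cnt F (S ∪ T) m x ≤ cnt F S m x + cnt F T m x := by
        rw [cnt, cnt, cnt, ← Finset.sum_add_distrib]
        apply Finset.sum_le_sum
        intro i _
        by_cases hS : F^[i + 1] x ∈ S
        · rw [indicator_of_mem (mem_union_left T hS), indicator_of_mem hS]
          have : (0 : ℝ) ≤ T.indicator (fun _ => (1 : ℝ)) (F^[i + 1] x) :=
            indicator_nonneg (fun _ _ => zero_le_one) _
          linarith
        · by_cases hT : F^[i + 1] x ∈ T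
          · rw [indicator_of_mem (mem_union_right S hT), indicator_of_mem hT, indicator_of_notMem hS]
            simp
          · rw [indicator_of_notMem hS, indicator_of_notMem hT, indicator_of_notMem]
            · simp
            · rintro (h | h)
              · exact hS h
              · exact hT h
      have h2 := cnt_nonneg F S m x
      have h3 := cnt_nonneg F T m x
      have hm1 : min κ κ' ≤ κ := min_le_left _ _
      have hm2 : min κ κ' ≤ κ' := min_le_right _ _
      have hm3 : 0 < min κ κ' := lt_min hκ hκ'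
      rcases le_total (cnt F S m x) (cnt F T m x) with h4 | h4
      · have hle : min κ κ' / 2 * cnt F (S ∪ T) m x ≤ κ' * cnt F T m x := by
          calc min κ κ' / 2 * cnt F (S ∪ T) m x ≤ min κ κ' / 2 * (2 * cnt F T m x) := by
                apply mul_le_mul_of_nonneg_left _ (by positivity)
                linarith
            _ = min κ κ' * cnt F T m x := by ring
            _ ≤ κ' * cnt F T m x := mul_le_mul_of_nonneg_right hm2 h3
        rcases h' x hx m hm hxm l hl hlE μ hμ with h1 | h1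
        · exact Or.inl ((Real.exp_le_exp.2 hle).trans h1)
        · exact Or.inr (h1.trans (Real.exp_le_exp.2 (neg_le_neg hle)))
      · have hle : min κ κ' / 2 * cnt F (S ∪ T) m x ≤ κ * cnt F S m x := by
          calc min κ κ' / 2 * cnt F (S ∪ T) m x ≤ min κ κ' / 2 * (2 * cnt F S m x) := by
                apply mul_le_mul_of_nonneg_left _ (by positivity)
                linarith
            _ = min κ κ' * cnt F S m x := by ring
            _ ≤ κ * cnt F S m x := mul_le_mul_of_nonneg_right hm1 h2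
        rcases h x hx m hm hxm l hl hlE μ hμ with h1 | h1
        · exact Or.inl ((Real.exp_le_exp.2 hle).trans h1)
        · exact Or.inr (h1.trans (Real.exp_le_exp.2 (neg_le_neg hle)))
    · intro z hzK
      obtain ⟨S, hS, κ, hκ, h⟩ := gap_local hr hU hFU hH hK hE (hz z hzK)
      exact ⟨S, mem_nhdsWithin_of_mem_nhds hS, κ, hκ, h⟩
  obtain ⟨κ, hκ, h⟩ := hmain
  refine ⟨κ, hκ, ?_⟩
  intro x hx m hm hxm l hl hlE μ hμ
  have h1 : cnt F K m x = m := by
    rw [cnt]
    have : ∀ i ∈ Finset.range m, K.indicator (fun _ => (1 : ℝ)) (F^[i + 1] x) = 1 := by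
      intro i _
      exact indicator_of_mem (iter_mem hK (i + 1) hx) _
    rw [Finset.sum_congr rfl this]
    simp
  have h2 := h x hx m hm hxm l hl hlE μ hμ
  rwa [h1] at h2

end

end Pool.Agent.Helper21S
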