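import Pool.Agent.Helper21S.Hyp
import Pool.Agent.W564.SC.Lib

/-!
# Project ST: pushes which fix a periodic orbit
-/

set_option autoImplicit false
set_option linter.unusedSectionVars false

open scoped Manifold ContDiff Topology
open Filter Set Metric

universe u

namespace Pool.Agent.Helper21S

open Pool.Agent.H718R2.G Pool.Agent.Y504.CO Pool.Agent.TH80.OMS Pool.Agent.W564.SC
  Pool.Agent.W74.SC

section

variable {n : ℕ} {N : Type u} [TopologicalSpace N] [T2Space N] [CompactSpace N]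
  [ChartedSpace (V n) N] [IsManifold (𝓡 n) ∞ N] {r : ℕ∞}

theorem diffM_mdiff (hr : 1 ≤ r) (F : DiffM n N r) : MDifferentiable (𝓡 n) (𝓡 n) F := by
  apply F.mdifferentiable
  intro h
  have : (r : WithTop ℕ∞) = ((0 : ℕ∞) : WithTop ℕ∞) := h
  rw [WithTop.coe_inj] at this
  rw [this] at hr
  exact absurd hr (by simp)

/-- Small pushes after `F` stay in the neighbourhood. -/
theorem pushU (hr : 1 ≤ r) {F : DiffM n N r} {U : Set (DiffM n N r)}
    (hU : IsOpen[strongTop n N r] U) (hFU : F ∈ U) {χ : OpenPartialHomeomorph N (V n)} {z : N}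
    (hχ : GoodChart n N χ z) : ∃ k : ℕ, 1 ≤ k ∧ (k : ℕ∞) ≤ r ∧ ∃ κ : ℝ, 0 < κ ∧
      ∀ u : V n → V n, Small n k κ u → ∃ Θ : DiffM n N r, IsPush n N r χ u Θ ∧ F.trans Θ ∈ U := by
  obtain ⟨k, hk, hkr, κ, hκ, h⟩ := t_NBHD n N r hr ℝ (fun _ => F)
    (Pool.Agent.W923.SC.isFam_const F) χ z hχ U hU hFU
  refine ⟨k, hk, hkr, min κ (1 / 2), by positivity, fun u hu => ?_⟩
  obtain ⟨Θ, hΘ⟩ := Pool.Agent.W428.SC.push n N r χ z hχ u (small_mono hu hk (min_le_right _ _))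
  exact ⟨Θ, hΘ, h 0 u Θ (by simpa using hκ) (small_mono hu le_rfl (min_le_left _ _)) hΘ⟩

/-- The same for finitely many charts. -/
theorem pushFin (hr : 1 ≤ r) {F : DiffM n N r} {U : Set (DiffM n N r)}
    (hU : IsOpen[strongTop n N r] U) (hFU : F ∈ U) {ι : Type*} (T : Finset ι)
    (χ : ι → OpenPartialHomeomorph N (V n)) (z : ι → N) (hχ : ∀ i, GoodChart n N (χ i) (z i)) :
    ∃ k : ℕ, 1 ≤ k ∧ (k : ℕ∞) ≤ r ∧ ∃ κ : ℝ, 0 < κ ∧ ∀ i ∈ T,
      ∀ u : V n → V n, Small n k κ u →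
        ∃ Θ : DiffM n N r, IsPush n N r (χ i) u Θ ∧ F.trans Θ ∈ U := by
  classical
  induction T using Finset.induction_on with
  | empty => exact ⟨1, le_rfl, hr, 1, one_pos, by simp⟩
  | insert a T ha ih =>
    obtain ⟨k, hk, hkr, κ, hκ, h⟩ := ih
    obtain ⟨k', hk', hkr', κ', hκ', h'⟩ := pushU hr hU hFU (hχ a)
    refine ⟨max k k', le_max_of_le_left hk, ?_, min κ κ', lt_min hκ hκ', ?_⟩
    · rcases max_choice k k' with hm | hm <;> rw [hm] <;> assumption
    · intro i hi u hu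
      rcases Finset.mem_insert.1 hi with rfl | hi
      · exact h' u (small_mono hu (le_max_right _ _) (min_le_right _ _))
      · exact h i hi u (small_mono hu (le_max_left _ _) (min_le_left _ _))

/-- Fixed points of a push. -/
theorem push_fix {χ : OpenPartialHomeomorph N (V n)} {u : V n → V n} {Θ : DiffM n N r}
    (hΘ : IsPush n N r χ u Θ) {y : N} (hy : y ∈ χ.source → u (χ y) = 0) : Θ y = y := by
  by_cases h : y ∈ χ.source
  · obtain ⟨a, b⟩ := hΘ.1 y h
    rw [hy h, add_zero] at b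
    exact χ.injOn a h b
  · exact hΘ.2 y h

/-- The derivative of a push at a fixed point in the chart. -/
theorem push_dm (hr : 1 ≤ r) {χ : OpenPartialHomeomorph N (V n)}
    (hχ : χ ∈ IsManifold.maximalAtlas (𝓡 n) ∞ N) {u : V n → V n} {Θ : DiffM n N r}
    (hΘ : IsPush n N r χ u Θ) {y : N} (hy : y ∈ χ.source) (huy : u (χ y) = 0) {D : V n →L[ℝ] V n}
    (hD : HasFDerivAt u D (χ y)) (v : V n) :
    dc χ y (dm Θ y v) = dc χ y v + D (dc χ y v) := by
  have hfix : Θ y = y := push_fix hΘ fun _ => huy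
  have h := dc_comp hχ hy (diffM_mdiff hr Θ y) (by rw [hfix]; exact hy)
    ((hasFDerivAt_id (𝕜 := ℝ) (χ y)).add hD) (by
      filter_upwards [χ.open_source.mem_nhds hy] with y' hy'
      exact (hΘ.1 y' hy').2) v
  rw [hfix] at h
  simpa using h

/-- Outside of the compact ball a push is the identity. -/
theorem push_out {χ : OpenPartialHomeomorph N (V n)} {z : N} (hχ : GoodChart n N χ z)
    {u : V n → V n} (hu : ∀ x, 1 / 2 ≤ ‖x‖ → u x = 0) {Θ : DiffM n N r}
    (hΘ : IsPush n N r χ u Θ) {y : N} (hy : y ∉ χ.symm '' closedBall (0 : V n) (1 / 2)) (v : V n) :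
    dm Θ y v = v := by
  have hA : closedBall (0 : V n) (1 / 2) ⊆ χ.target :=
    (closedBall_subset_closedBall (by norm_num)).trans hχ.ball
  have hcomp : IsCompact (χ.symm '' closedBall (0 : V n) (1 / 2)) :=
    (isCompact_closedBall _ _).image_of_continuousOn (χ.continuousOn_symm.mono hA)
  have h1 : (Θ : N → N) =ᶠ[𝓝 y] id := by
    filter_upwards [hcomp.isClosed.isOpen_compl.mem_nhds hy] with y' hy'
    apply push_fix hΘ
    intro h2
    apply hu
    by_contra h3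
    push Not at h3
    apply hy'
    refine ⟨χ y', ?_, χ.left_inv h2⟩
    rw [mem_closedBall, dist_zero_right]
    exact h3.le
  have h2 : dm (n := n) Θ y = dm id y := h1.mfderiv_eq
  rw [h2]
  have h3 : dm (n := n) (id : N → N) y = ContinuousLinearMap.id ℝ (V n) := mfderiv_id
  rw [h3]
  rfl

/-- The eigenvalues of the perturbed periodic orbit do not have modulus one. -/
theorem key (hr : 1 ≤ r) {F : DiffM n N r} {U : Set (DiffM n N r)}
    (hH : ∀ g ∈ U, ∀ p ∈ Per g, HypAt n g p) {Θ : DiffM n N r} (hΘ : F.trans Θ ∈ U) {p : N} {m : ℕ}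
    (hm : 1 ≤ m) (hp : F^[m] p = p) (hfix : ∀ i, 1 ≤ i → i ≤ m → Θ (F^[i] p) = F^[i] p)
    (l : V n →ₗ[ℝ] ℂ) (hl : l ≠ 0) (μ : ℂ) (h : ∀ v, l (dm F^[m] p v) = μ * l v) (c : ℕ → ℝ)
    (hc : ∀ i, 1 ≤ i → i ≤ m → ∀ v : V n, l (dm F^[m - i] (F^[i] p) (dm Θ (F^[i] p) v)) =
      ((1 + c i : ℝ) : ℂ) * l (dm F^[m - i] (F^[i] p) v)) :
    |∏ i ∈ Finset.range m, (1 + c (i + 1))| * ‖μ‖ ≠ 1 := by
  have hG : (⇑(F.trans Θ) : N → N) = Θ ∘ F := rfl
  have hiter : (Θ ∘ F)^[m] p = p := by rw [iter_push m hfix, hp]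
  have h1 := dm_push (diffM_mdiff hr F) (diffM_mdiff hr Θ) l m p c hfix hc
  have h2 := hyp_left (G := Θ ∘ F) ((diffM_mdiff hr Θ).comp (diffM_mdiff hr F)) hm hiter
    (hH _ hΘ p ⟨m, hm, hiter⟩) l hl
    (((∏ i ∈ Finset.range m, (1 + c (i + 1)) : ℝ) : ℂ) * μ) (fun v => by
      rw [h1, h, mul_assoc])
  rw [norm_mul, Complex.norm_real, Real.norm_eq_abs] at h2
  exact h2

end

end Pool.Agent.Helper21S
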