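import Pool.Agent.Helper21S.Gap2

/-!
# Project ST: rotation of real vectors
-/

set_option autoImplicit false

open Filter Set Complex Topology

namespace Pool.Agent.Helper21S

/-- the area form -/
noncomputable def om (u v : ℂ) : ℝ := ((starRingEnd ℂ) u * v).im

theorem om_eq (u v : ℂ) : om u v = u.re * v.im - u.im * v.re := by
  unfold om
  simp only [mul_im, conj_re, conj_im]
  ring

theorem om_self (u : ℂ) : om u u = 0 := by rw [om_eq]; ring

theorem om_comm (u v : ℂ) : om v u = -om u v := by rw [om_eq, om_eq]; ring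

theorem om_add_right (u v w : ℂ) : om u (v + w) = om u v + om u w := by
  simp only [om_eq, add_re, add_im]; ring

theorem om_add_left (u v w : ℂ) : om (u + v) w = om u w + om v w := by
  simp only [om_eq, add_re, add_im]; ring

theorem om_smul_right (c : ℝ) (u v : ℂ) : om u (c * v) = c * om u v := by
  simp only [om_eq, mul_re, mul_im, ofReal_re, ofReal_im]; ring

theorem om_smul_left (c : ℝ) (u v : ℂ) : om (c * u) v = c * om u v := by
  simp only [om_eq, mul_re, mul_im, ofReal_re, ofReal_im]; ring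

theorem om_I (u : ℂ) : om u (I * u) = ‖u‖ ^ 2 := by
  rw [← Complex.normSq_eq_norm_sq, Complex.normSq_apply]
  simp only [om_eq, mul_re, mul_im, I_re, I_im]; ring

/-- Cauchy-Schwarz -/
theorem om_sq (u v : ℂ) : om u v ^ 2 + ((starRingEnd ℂ) u * v).re ^ 2 = ‖u‖ ^ 2 * ‖v‖ ^ 2 := by
  rw [← Complex.normSq_eq_norm_sq, ← Complex.normSq_eq_norm_sq, Complex.normSq_apply,
    Complex.normSq_apply]
  simp only [om_eq, mul_re, conj_re, conj_im]; ring

theorem om_cycle (a b c : ℂ) : (om a b : ℂ) * c + om b c * a + om c a * b = 0 := by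
  apply Complex.ext
  · simp only [om_eq, add_re, mul_re, ofReal_re, ofReal_im, zero_re]; ring
  · simp only [om_eq, add_im, mul_im, ofReal_re, ofReal_im, zero_im]; ring

theorem om_lin (p q : ℂ) (u v : ℂ) : om (p * u + q * (starRingEnd ℂ) u)
    (p * v + q * (starRingEnd ℂ) v) = (‖p‖ ^ 2 - ‖q‖ ^ 2) * om u v := by
  rw [← Complex.normSq_eq_norm_sq, ← Complex.normSq_eq_norm_sq, Complex.normSq_apply,
    Complex.normSq_apply]
  simp only [om_eq, mul_re, mul_im, add_re, add_im, conj_re, conj_im]; ring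

theorem om_act (M : Matrix (Fin 2) (Fin 2) ℂ) (u v : ℂ) :
    om (act M u) (act M v) = (‖M 0 0‖ ^ 2 - ‖M 0 1‖ ^ 2) * om u v := om_lin _ _ _ _

theorem act_add (M : Matrix (Fin 2) (Fin 2) ℂ) (u v : ℂ) : act M (u + v) = act M u + act M v := by
  unfold act
  rw [map_add]
  ring

theorem act_smul (M : Matrix (Fin 2) (Fin 2) ℂ) (c : ℝ) (u : ℂ) :
    act M (c * u) = c * act M u := by
  unfold act
  rw [map_mul, Complex.conj_ofReal]
  ring

/-- real eigenvalues -/
theorem act_eig {M : Matrix (Fin 2) (Fin 2) ℂ} {c : ℝ} {w : ℂ} (hw : w ≠ 0)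
    (h : act M w = c * w) :
    c ^ 2 - 2 * (M 0 0).re * c + (‖M 0 0‖ ^ 2 - ‖M 0 1‖ ^ 2) = 0 := by
  have h1 : (M 0 0 - c) * w = -(M 0 1 * (starRingEnd ℂ) w) := by
    unfold act at h
    linear_combination h
  have h2 : ‖M 0 0 - c‖ * ‖w‖ = ‖M 0 1‖ * ‖w‖ := by
    have := congrArg norm h1
    rwa [norm_mul, norm_neg, norm_mul, RCLike.norm_conj] at this
  have h3 : ‖M 0 0 - c‖ = ‖M 0 1‖ := mul_right_cancel₀ (norm_pos_iff.2 hw).ne' h2
  have h4 : ‖M 0 0 - c‖ ^ 2 = ‖M 0 0‖ ^ 2 - 2 * (M 0 0).re * c + c ^ 2 := by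
    rw [← Complex.normSq_eq_norm_sq, ← Complex.normSq_eq_norm_sq, Complex.normSq_apply,
      Complex.normSq_apply]
    simp only [sub_re, ofReal_re, sub_im, ofReal_im]
    ring
  rw [h3] at h4
  linarith

/-- real eigenvectors exist -/
theorem exists_eig {M : Matrix (Fin 2) (Fin 2) ℂ} {c : ℝ}
    (h : c ^ 2 - 2 * (M 0 0).re * c + (‖M 0 0‖ ^ 2 - ‖M 0 1‖ ^ 2) = 0) :
    ∃ w : ℂ, w ≠ 0 ∧ act M w = c * w := by
  set p : ℂ := M 0 0 - c with hp
  set q : ℂ := M 0 1 with hq
  have h4 : ‖p‖ ^ 2 = ‖M 0 0‖ ^ 2 - 2 * (M 0 0).re * c + c ^ 2 := by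
    rw [← Complex.normSq_eq_norm_sq, ← Complex.normSq_eq_norm_sq, Complex.normSq_apply,
      Complex.normSq_apply]
    simp only [hp, sub_re, ofReal_re, sub_im, ofReal_im]
    ring
  have h5 : ‖p‖ ^ 2 = ‖q‖ ^ 2 := by rw [h4]; linarith
  have h6 : p * (starRingEnd ℂ) p = q * (starRingEnd ℂ) q := by
    rw [Complex.mul_conj, Complex.mul_conj, Complex.normSq_eq_norm_sq,
      Complex.normSq_eq_norm_sq, h5]
  -- solutions of `p w + q conj w = 0`
  have key : ∃ w : ℂ, w ≠ 0 ∧ p * w + q * (starRingEnd ℂ) w = 0 := by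
    by_cases hp0 : p = 0
    · have hq0 : q = 0 := by
        rw [hp0, norm_zero] at h5
        have : ‖q‖ = 0 := by nlinarith [norm_nonneg q]
        exact norm_eq_zero.1 this
      exact ⟨1, one_ne_zero, by rw [hp0, hq0]; simp⟩
    by_cases h7 : -q + (starRingEnd ℂ) p = 0
    · refine ⟨I * (starRingEnd ℂ) p, ?_, ?_⟩
      · simp [hp0]
      · have h8 : q = (starRingEnd ℂ) p := by linear_combination -h7
        rw [h8, map_mul, Complex.conj_I, Complex.conj_conj]
        ring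
    · refine ⟨-q + (starRingEnd ℂ) p, h7, ?_⟩
      rw [map_add, map_neg, Complex.conj_conj]
      linear_combination h6
  obtain ⟨w, hw, hw0⟩ := key
  refine ⟨w, hw, ?_⟩
  unfold act
  rw [← hq]
  have h8 : M 0 0 = p + c := by rw [hp]; ring
  rw [h8]
  linear_combination hw0

theorem parallel {w x : ℂ} (hw : w ≠ 0) (h : om w x = 0) : ∃ c : ℝ, x = c * w := by
  refine ⟨((starRingEnd ℂ) w * x).re / ‖w‖ ^ 2, ?_⟩
  have hn : (‖w‖ : ℂ) ^ 2 ≠ 0 := by
    have := norm_pos_iff.2 hw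
    exact_mod_cast (by positivity : (‖w‖ ^ 2 : ℝ) ≠ 0)
  have h1 : (starRingEnd ℂ) w * x = ((((starRingEnd ℂ) w * x).re : ℝ) : ℂ) :=
    Complex.ext (by simp) (by simpa [om] using h)
  have h2 : w * (starRingEnd ℂ) w = (‖w‖ : ℂ) ^ 2 := by
    rw [Complex.mul_conj, Complex.normSq_eq_norm_sq]
    push_cast
    rfl
  push_cast
  rw [← h1, div_mul_eq_mul_div, eq_div_iff hn]
  linear_combination (-x) * h2

/-- functions with positive derivative at their zeros -/
theorem stay_pos {f f' : ℝ → ℝ} {ρ : ℝ} (hf : ∀ x, 0 ≤ x → x ≤ ρ → HasDerivAt f (f' x) x)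
    (hz : ∀ x, 0 ≤ x → x ≤ ρ → f x = 0 → 0 < f' x) (h0 : f 0 = 0) {x : ℝ} (hx : 0 < x)
    (hxρ : x < ρ) : 0 < f x := by
  have h1 : ∀ x, x ∈ Icc 0 ρ → -f x ≤ 0 := by
    have := image_le_of_deriv_right_lt_deriv_boundary (f := fun x => -f x) (f' := fun x => -f' x)
      (a := 0) (b := ρ) (B := fun _ => 0) (B' := fun _ => 0)
      (fun x hx => (hf x hx.1 hx.2).continuousAt.continuousWithinAt.neg)
      (fun x hx => (hf x hx.1 hx.2.le).neg.hasDerivWithinAt) (by simp [h0])
      (fun x => hasDerivAt_const x 0)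
      (fun x hx h2 => by
        have := hz x hx.1 hx.2.le (by linarith)
        linarith)
    exact fun x hx => this hx
  have h2 : 0 ≤ f x := by
    have := h1 x ⟨hx.le, hxρ.le⟩
    linarith
  rcases h2.lt_or_eq with h3 | h3
  · exact h3
  · exfalso
    have h4 : IsLocalMin f x := by
      have h5 : Ioo 0 ρ ∈ 𝓝 x := isOpen_Ioo.mem_nhds ⟨hx, hxρ⟩
      filter_upwards [h5] with z hz
      rw [← h3]
      have := h1 z ⟨hz.1.le, hz.2.le⟩
      linarith
    have h6 := h4.hasDerivAt_eq_zero (hf x hx.le hxρ.le)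
    have h7 := hz x hx.le hxρ.le h3.symm
    linarith

section

variable {Y : Type*} {J : ℕ} {b : Fin J → Y → ℝ} {h : Y → Y} {α β : Y → ℂ}

theorem Dp_deriv (h0 : ∀ j y, 0 ≤ b j y) (y : Y) (s : Finset (Fin J)) (θ : ℝ) : ∃ D' : ℂ,
    HasDerivAt (fun t : ℝ => ∏ j ∈ s, (1 + I * (b j y : ℂ) * t)) D' θ ∧
      0 ≤ om (∏ j ∈ s, (1 + I * (b j y : ℂ) * θ)) D' ∧
      ((∃ j ∈ s, b j y = 1) → 0 < om (∏ j ∈ s, (1 + I * (b j y : ℂ) * θ)) D') := by
  classical
  induction s using Finset.induction_on with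
  | empty =>
    refine ⟨0, by simpa using hasDerivAt_const θ (1 : ℂ), ?_, ?_⟩
    · simp [om]
    · rintro ⟨j, hj, -⟩
      simp at hj
  | insert a s ha ih =>
    obtain ⟨D', h1, h2, h3⟩ := ih
    have hfa : HasDerivAt (fun t : ℝ => (1 : ℂ) + I * (b a y : ℂ) * t) (I * (b a y : ℂ)) θ := by
      have := (Complex.ofRealCLM.hasDerivAt (x := θ)).const_mul (I * (b a y : ℂ))
      simpa using this.const_add 1
    have hmul := hfa.mul h1
    set fa : ℂ := 1 + I * (b a y : ℂ) * θ with hfad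
    set D : ℂ := ∏ j ∈ s, (1 + I * (b j y : ℂ) * θ) with hD
    have hform : om (fa * D) (I * (b a y : ℂ) * D + fa * D') =
        ‖D‖ ^ 2 * b a y + ‖fa‖ ^ 2 * om D D' := by
      rw [← Complex.normSq_eq_norm_sq, ← Complex.normSq_eq_norm_sq, Complex.normSq_apply,
        Complex.normSq_apply]
      simp only [om_eq, mul_re, mul_im, add_re, add_im, I_re, I_im, ofReal_re, ofReal_im, hfad,
        one_re, one_im]
      ring
    have hne : ∀ j, (1 : ℂ) + I * (b j y : ℂ) * θ ≠ 0 := by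
      intro j h4
      have := congrArg Complex.re h4
      simp at this
    have hDpos : 0 < ‖D‖ := by
      rw [hD, norm_prod]
      exact Finset.prod_pos fun j _ => norm_pos_iff.2 (hne j)
    have hfapos : 0 < ‖fa‖ := norm_pos_iff.2 (hne a)
    refine ⟨I * (b a y : ℂ) * D + fa * D', ?_, ?_, ?_⟩
    · have e1 : (fun t : ℝ => ∏ j ∈ insert a s, (1 + I * (b j y : ℂ) * t)) =
          fun t : ℝ => (1 + I * (b a y : ℂ) * t) * ∏ j ∈ s, (1 + I * (b j y : ℂ) * t) := by
        funext t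
        rw [Finset.prod_insert ha]
      rw [e1]
      exact hmul
    · rw [Finset.prod_insert ha, hform]
      have := h0 a y
      positivity
    · rintro ⟨j, hj, hj1⟩
      rw [Finset.prod_insert ha, hform]
      rcases Finset.mem_insert.1 hj with rfl | hj
      · rw [hj1]
        have : 0 ≤ ‖fa‖ ^ 2 * om D D' := by positivity
        have : 0 < ‖D‖ ^ 2 * 1 := by positivity
        linarith
      · have h5 := h3 ⟨j, hj, hj1⟩
        have : 0 < ‖fa‖ ^ 2 * om D D' := by positivity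
        have : 0 ≤ ‖D‖ ^ 2 * b a y := by
          have := h0 a y
          positivity
        linarith

theorem PP_one (θ : ℂ) (y : Y) : PP h α β b θ 1 y = MM α β b θ y := by
  change 1 * MM α β b θ y = _
  rw [one_mul]

theorem PP_succ' (θ : ℂ) (n : ℕ) (y : Y) :
    PP h α β b θ (n + 1) y = MM α β b θ (h^[n] y) * PP h α β b θ n y := by
  rw [Nat.add_comm, PP_add, PP_one]

theorem act_MM (θ : ℂ) (y : Y) (z : ℂ) : act (MM α β b θ y) z =
    Dp b θ y * (α y * z + β y * (starRingEnd ℂ) z) := by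
  unfold act MM
  simp only [Matrix.of_apply, Matrix.cons_val', Matrix.cons_val_zero, Matrix.cons_val_one,
    Matrix.cons_val_fin_one]
  ring

theorem act_PP_succ (θ : ℝ) (n : ℕ) (y : Y) (v : ℂ) : act (PP h α β b θ (n + 1) y) v =
    Dp b θ (h^[n] y) * (α (h^[n] y) * act (PP h α β b θ n y) v +
      β (h^[n] y) * (starRingEnd ℂ) (act (PP h α β b θ n y) v)) := by
  obtain ⟨q1, q2⟩ := real_form h (α := α) (β := β) (b := b) θ n y
  rw [PP_succ', act_mul q1 q2, act_MM]

theorem act_ne (h0 : ∀ j y, 0 ≤ b j y) (hlt : ∀ y, ‖β y‖ < ‖α y‖) (θ : ℝ) (n : ℕ) (y : Y) {v : ℂ}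
    (hv : v ≠ 0) : act (PP h α β b θ n y) v ≠ 0 := by
  intro h1
  have h2 := om_act (PP h α β b θ n y) v (I * v)
  rw [h1, om_I] at h2
  have h3 := dt_pos (h := h) (α := α) (β := β) h0 hlt n y θ
  unfold dt at h3
  have h4 := norm_pos_iff.2 hv
  have h5 : om 0 (act (PP h α β b θ n y) (I * v)) = 0 := by rw [om_eq]; simp
  rw [h5] at h2
  have : 0 < (‖PP h α β b θ n y 0 0‖ ^ 2 - ‖PP h α β b θ n y 0 1‖ ^ 2) * ‖v‖ ^ 2 := by positivity
  linarith

/-- Real vectors rotate when the parameter grows. -/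
theorem rot (h0 : ∀ j y, 0 ≤ b j y) (h1 : ∀ y, ∃ j, b j y = 1) (hlt : ∀ y, ‖β y‖ < ‖α y‖)
    (n : ℕ) (y : Y) (v : ℂ) (θ : ℝ) : ∃ g' : ℂ,
      HasDerivAt (fun t : ℝ => act (PP h α β b t n y) v) g' θ ∧
      0 ≤ om (act (PP h α β b θ n y) v) g' ∧
      (1 ≤ n → v ≠ 0 → 0 < om (act (PP h α β b θ n y) v) g') := by
  induction n with
  | zero =>
    refine ⟨0, ?_, ?_, fun h2 => by omega⟩
    · have : (fun t : ℝ => act (PP h α β b t 0 y) v) = fun _ => v := by
        funext t
        change act 1 v = v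
        unfold act
        simp
      rw [this]
      exact hasDerivAt_const _ _
    · simp [om]
  | succ n ih =>
    obtain ⟨g', h2, h3, -⟩ := ih
    set z := h^[n] y with hz
    obtain ⟨D', h4, h5, h6⟩ := Dp_deriv (b := b) h0 z Finset.univ θ
    have h7 : HasDerivAt (fun t : ℝ => (starRingEnd ℂ) (act (PP h α β b t n y) v))
        ((starRingEnd ℂ) g') θ :=
      (Complex.conjCLE : ℂ →L[ℝ] ℂ).hasFDerivAt.comp_hasDerivAt θ h2
    have h8 : HasDerivAt (fun t : ℝ => α z * act (PP h α β b t n y) v +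
        β z * (starRingEnd ℂ) (act (PP h α β b t n y) v))
        (α z * g' + β z * (starRingEnd ℂ) g') θ := (h2.const_mul _).add (h7.const_mul _)
    have h9 := h4.mul h8
    set G : ℂ := act (PP h α β b θ n y) v with hG
    set L : ℂ := α z * G + β z * (starRingEnd ℂ) G with hL
    set L' : ℂ := α z * g' + β z * (starRingEnd ℂ) g' with hL'
    set D : ℂ := ∏ j, (1 + I * (b j z : ℂ) * θ) with hD
    have hLL : om L L' = (‖α z‖ ^ 2 - ‖β z‖ ^ 2) * om G g' := om_lin _ _ _ _
    have hform : om (D * L) (D' * L + D * L') = ‖L‖ ^ 2 * om D D' + ‖D‖ ^ 2 * om L L' := by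
      rw [← Complex.normSq_eq_norm_sq, ← Complex.normSq_eq_norm_sq, Complex.normSq_apply,
        Complex.normSq_apply]
      simp only [om_eq, mul_re, mul_im, add_re, add_im]
      ring
    have hval : act (PP h α β b θ (n + 1) y) v = D * L := act_PP_succ _ _ _ _
    have hdet := det_pos hlt z
    refine ⟨D' * L + D * L', ?_, ?_, ?_⟩
    · have e1 : (fun t : ℝ => act (PP h α β b t (n + 1) y) v) = fun t : ℝ =>
          (∏ j, (1 + I * (b j z : ℂ) * t)) * (α z * act (PP h α β b t n y) v +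
            β z * (starRingEnd ℂ) (act (PP h α β b t n y) v)) := by
        funext t
        exact act_PP_succ _ _ _ _
      rw [e1]
      exact h9
    · rw [hval, hform, hLL]
      positivity
    · intro _ hv
      rw [hval, hform, hLL]
      have k1 : 0 < om D D' := by
        obtain ⟨j, hj⟩ := h1 z
        exact h6 ⟨j, Finset.mem_univ j, hj⟩
      have k2 : G ≠ 0 := act_ne h0 hlt θ n y hv
      have k3 : L ≠ 0 := by
        intro k4
        have k5 := om_lin (α z) (β z) G (I * G)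
        have k6 : om L (α z * (I * G) + β z * (starRingEnd ℂ) (I * G)) = 0 := by
          rw [k4, om_eq]
          simp
        rw [← hL, k6, om_I] at k5
        have := norm_pos_iff.2 k2
        have : 0 < (‖α z‖ ^ 2 - ‖β z‖ ^ 2) * ‖G‖ ^ 2 := by positivity
        linarith
      have k4 : 0 < ‖L‖ := norm_pos_iff.2 k3
      have k5 : 0 ≤ ‖D‖ ^ 2 * ((‖α z‖ ^ 2 - ‖β z‖ ^ 2) * om G g') := by positivity
      have k6 : 0 < ‖L‖ ^ 2 * om D D' := by positivity
      linarith

end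

end Pool.Agent.Helper21S
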