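import Pool.Agent.Helper21S.Sad8

/-!
# Project ST: the three cases, with pairs of directions at the periodic points
-/

set_option autoImplicit false
set_option linter.unusedSectionVars false

open Filter Set Complex Topology

namespace Pool.Agent.Helper21S

open Pool.Agent.W564.SC

theorem nm_smul {c : ℝ} (hc : 0 < c) (z : ℂ) : nm (c * z) = nm z := by
  unfold nm
  rw [norm_mul, Complex.norm_real, Real.norm_eq_abs, abs_of_pos hc, ← mul_assoc,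
    ← Complex.ofReal_mul, mul_inv_rev, mul_assoc, inv_mul_cancel₀ hc.ne', mul_one]

theorem nm_unit {z : ℂ} (hz : ‖z‖ = 1) : nm z = z := by
  unfold nm
  rw [hz]
  simp

section

variable {X : Type*} {f : X → X} {α β : X → ℂ}

theorem an_add' (m k : ℕ) (x : X) (z : ℂ) :
    an f α β (m + k) x z = an f α β m (f^[k] x) (an f α β k x z) := by
  induction k generalizing x z with
  | zero => rfl
  | succ k ih =>
    rw [← Nat.add_assoc]
    change an f α β (m + k) (f x) (st α β x z) = _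
    rw [ih, Function.iterate_succ_apply]
    rfl

theorem an_one (x : X) (z : ℂ) : an f α β 1 x z = st α β x z := rfl

theorem an_succ' (n : ℕ) (x : X) (z : ℂ) :
    an f α β (n + 1) x z = st α β (f^[n] x) (an f α β n x z) := by
  rw [Nat.add_comm, an_add', an_one]

theorem an_ne (hlt : ∀ x, ‖β x‖ < ‖α x‖) (n : ℕ) (x : X) {z : ℂ} (hz : z ≠ 0) :
    an f α β n x z ≠ 0 := by
  induction n generalizing x z with
  | zero => exact hz
  | succ n ih => exact ih (f x) (st_ne hlt x hz)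

theorem nm_st {x : X} {z : ℂ} (hz : z ≠ 0) : nm (st α β x (nm z)) = nm (st α β x z) := by
  have h1 : st α β x (nm z) = ((‖z‖⁻¹ : ℝ) : ℂ) * st α β x z := by
    rw [← st_smul]
    rfl
  rw [h1, nm_smul (inv_pos.2 (norm_pos_iff.2 hz))]

theorem Ph_iter (hlt : ∀ x, ‖β x‖ < ‖α x‖) (k : ℕ) {x : X} {u s : ℂ} (hu : ‖u‖ = 1)
    (hs : ‖s‖ = 1) : (Ph f α β)^[k] (x, u, s) =
      (f^[k] x, nm (an f α β k x u), nm (an f α β k x s)) := by
  have hu0 : u ≠ 0 := by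
    rintro rfl
    rw [norm_zero] at hu
    exact zero_ne_one hu
  have hs0 : s ≠ 0 := by
    rintro rfl
    rw [norm_zero] at hs
    exact zero_ne_one hs
  induction k with
  | zero =>
    change (x, u, s) = (x, nm u, nm s)
    rw [nm_unit hu, nm_unit hs]
  | succ k ih =>
    rw [Function.iterate_succ_apply', ih, an_succ', an_succ', Function.iterate_succ_apply']
    unfold Ph
    simp only
    rw [nm_st (an_ne hlt k x hu0), nm_st (an_ne hlt k x hs0)]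

end

section

variable {Y : Type*} [TopologicalSpace Y] {J : ℕ} {b : Fin J → Y → ℝ} {h : Y → Y} {α β : Y → ℂ}
  {σ : ℝ} {m : ℕ} {ρ g θ : ℝ}

theorem act_st (y : Y) (z : ℂ) : act (MM α β b (0 : ℝ) y) z = st α β y z := by
  rw [act_MM, Dp_zero, one_mul]
  rfl

theorem act_an (n : ℕ) (y : Y) (z : ℂ) : act (PP h α β b (0 : ℝ) n y) z = an h α β n y z := by
  induction n generalizing y z with
  | zero =>
    change act 1 z = z
    unfold act
    simp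
  | succ n ih =>
    rw [← act_PP_MM, ih, act_st]
    rfl

/-- all good pairs -/
def DD (h : Y → Y) (α β : Y → ℂ) (b : Fin J → Y → ℝ) (ρ g θ : ℝ) : Set (Y × ℂ × ℂ) :=
  {q | ∃ (σ : ℝ) (m : ℕ), Pm b σ m ρ g θ ∧ Gd h α β b σ m ρ g θ q.1 q.2.1 q.2.2}

theorem DD_next (hd : CD h α β b) {q : Y × ℂ × ℂ} (hq : q ∈ DD h α β b ρ g θ) :
    Ph h α β q ∈ DD h α β b ρ g θ := by
  obtain ⟨σ, m, hp, hG⟩ := hq
  refine ⟨σ, m, hp, ?_⟩
  have := (hG.ep.good hd hp hG.per hG.cls).2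
  rw [act_st, act_st] at this
  exact this

theorem DD_prev (hd : CD h α β b) {q : Y × ℂ × ℂ} (hq : q ∈ DD h α β b ρ g θ) :
    ∃ q' ∈ DD h α β b ρ g θ, Ph h α β q' = q := by
  have hq0 := hq
  obtain ⟨y, u, s⟩ := q
  obtain ⟨σ, m, hp, hG⟩ := hq
  simp only at hG
  have hiter : ∀ k : ℕ, (Ph h α β)^[k] (y, u, s) ∈ DD h α β b ρ g θ := by
    intro k
    induction k with
    | zero => exact hq0
    | succ k ih =>
      rw [Function.iterate_succ_apply']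
      exact DD_next hd ih
  have hm := hp.hm
  obtain ⟨k, hk⟩ : ∃ k, m + m = k + 1 := ⟨m + m - 1, by omega⟩
  refine ⟨(Ph h α β)^[k] (y, u, s), hiter k, ?_⟩
  have hk' : Ph h α β ((Ph h α β)^[k] (y, u, s)) = (Ph h α β)^[m + m] (y, u, s) := by
    rw [hk]
    exact (Function.iterate_succ_apply' (Ph h α β) k (y, u, s)).symm
  rw [hk', Ph_iter hd.lt _ hG.ep.nu hG.ep.ns, an_add', an_add', Function.iterate_add_apply, hG.per, hG.per, ← act_an (b := b),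
    ← act_an (b := b), ← act_an (b := b), ← act_an (b := b), hG.ep.eu, hG.ep.es, act_smul,
    act_smul, hG.ep.eu, hG.ep.es, ← mul_assoc, ← mul_assoc, ← Complex.ofReal_mul,
    ← Complex.ofReal_mul]
  have hρ : 0 < ρ := hp.hθ.trans hp.hθρ
  have h1 := lo_mul_hi hd hp.hσ hG.cls (θ := 0) (by simp [hρ.le])
  have h2 := dt_pos (h := h) (α := α) (β := β) hd.b0 hd.lt m y 0
  rw [← h1] at h2
  have h3 : lo h α β b σ m y 0 ≠ 0 := by
    intro h0
    rw [h0, zero_mul] at h2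
    exact lt_irrefl _ h2
  have h4 : hi h α β b σ m y 0 ≠ 0 := by
    intro h0
    rw [h0, mul_zero] at h2
    exact lt_irrefl _ h2
  have h5 : σ ≠ 0 := by
    intro h0
    have := hp.hσ
    rw [h0, mul_zero] at this
    exact zero_ne_one this
  have h6 : 0 < σ * hi h α β b σ m y 0 * (σ * hi h α β b σ m y 0) :=
    mul_self_pos.2 (mul_ne_zero h5 h4)
  have h7 : 0 < σ * lo h α β b σ m y 0 * (σ * lo h α β b σ m y 0) :=
    mul_self_pos.2 (mul_ne_zero h5 h3)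
  rw [nm_smul h6, nm_smul h7, nm_unit hG.ep.nu, nm_unit hG.ep.ns]

end

section

variable {Y : Type*} [MetricSpace Y] [CompactSpace Y] {J : ℕ} {b : Fin J → Y → ℝ} {h : Y → Y}
  {α β : Y → ℂ}

/-- periodic points are dense -/
theorem per_dense (hsh : PerShadow h) (ht : ChainTrans h) (y : Y) :
    y ∈ closure {p : Y | ∃ m : ℕ, 1 ≤ m ∧ h^[m] p = p} := by
  rw [Metric.mem_closure_iff]
  intro η hη
  obtain ⟨δ, hδ, hsh1⟩ := hsh η hη
  obtain ⟨m, hm, w, hw0, hwm, hw⟩ := ht δ hδ y y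
  obtain ⟨p, hp, hp1⟩ := hsh1 m w hm (by rw [hw0, hwm]) hw
  refine ⟨p, ⟨m, hm, hp⟩, ?_⟩
  have := hp1 0 (by omega)
  rw [hw0] at this
  rw [dist_comm]
  exact this

/-- the three cases, with pairs of directions in the third -/
theorem tri_D (hd : CD h α β b) (hsh : PerShadow h) (ht : ChainTrans h) {κ ρ : ℝ} (hκ : 0 < κ)
    (hρ : 0 < ρ) (hρ1 : ρ ≤ 1 / 2) (hρJ : ρ * J ≤ 1 / 2) (hg : GapR h α β b κ ρ) :
    ∃ C : ℝ, 0 < C ∧
      ((∀ n y, ‖PP h α β b 0 n y 1 1‖ ≤ C * Real.exp (-(κ / 4 * n))) ∨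
      (∀ n y, ‖PP h α β b 0 n y 1 1‖ ≤ C * Real.exp (-(κ / 4 * n)) *
        ‖(PP h α β b 0 n y).det‖) ∨
      ∃ (g : ℝ) (D : Set (Y × ℂ × ℂ)), 0 < g ∧
        (∀ q ∈ D, ‖q.2.1‖ = 1 ∧ ‖q.2.2‖ = 1 ∧ g ≤ om q.2.1 q.2.2) ∧
        (∀ q ∈ D, ∀ n : ℕ, ‖an h α β n q.1 q.2.2‖ ≤ C * Real.exp (-(κ / 8 * n)) ∧
          Real.exp (κ / 8 * n) ≤ C * ‖an h α β n q.1 q.2.1‖) ∧
        (∀ q ∈ D, Ph h α β q ∈ D) ∧ (∀ q ∈ D, ∃ q' ∈ D, Ph h α β q' = q) ∧
        ∀ (y : Y) (m : ℕ), 1 ≤ m → h^[m] y = y → y ∈ Prod.fst '' D) := by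
  obtain ⟨ε₀, hε₀, hε₀ρ, htri⟩ := tri hd hsh ht hκ hρ hρ1 hg
  obtain ⟨δ, A, hδ, hδ1, hA, hδ', hA'⟩ := bounds hd
  have hJ : (0 : ℝ) ≤ J := Nat.cast_nonneg J
  have hθJ : ρ / 2 * J ≤ 1 / 2 := by nlinarith
  obtain ⟨g, hg0, hg1, hgN⟩ := exists_g hd (half_pos hρ) hθJ
  set X := A ^ 2 / (g * δ) with hX
  set K := (1 + (1 + 1 / g ^ 3) * (1 + X) / g) with hK
  -- choice of `ε`
  have hev1 : ∀ᶠ ε : ℝ in 𝓝[>] 0, 1 + K * (2 ^ J * ε) ≤ Real.exp (κ / 16) := by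
    have h1 : Tendsto (fun ε : ℝ => 1 + K * (2 ^ J * ε)) (𝓝 0) (𝓝 (1 + K * (2 ^ J * 0))) := by
      apply Continuous.tendsto
      fun_prop
    rw [mul_zero, mul_zero, add_zero] at h1
    have h2 : (1 : ℝ) < Real.exp (κ / 16) := Real.one_lt_exp_iff.2 (by positivity)
    exact ((h1.eventually_lt_const h2).filter_mono nhdsWithin_le_nhds).mono fun _ h => h.le
  have hev2 : ∀ᶠ ε : ℝ in 𝓝[>] 0, Real.exp (-(κ / 16)) ≤ (1 - ε ^ 2) ^ J := by
    have h1 : Tendsto (fun ε : ℝ => (1 - ε ^ 2) ^ J) (𝓝 0) (𝓝 ((1 - 0 ^ 2) ^ J)) := by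
      apply Continuous.tendsto
      fun_prop
    have h3 : ((1 : ℝ) - 0 ^ 2) ^ J = 1 := by simp
    rw [h3] at h1
    have h2 : Real.exp (-(κ / 16)) < 1 := by
      rw [Real.exp_lt_one_iff]
      linarith
    exact ((h1.eventually_const_lt h2).filter_mono nhdsWithin_le_nhds).mono fun _ h => h.le
  have hev3 : ∀ᶠ ε : ℝ in 𝓝[>] 0, 0 < ε ∧ ε ≤ min ε₀ 1 := by
    have h1 : Ioc (0 : ℝ) (min ε₀ 1) ∈ 𝓝[>] (0 : ℝ) := Ioc_mem_nhdsGT (by positivity)
    exact h1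
  obtain ⟨ε, hε1, hε2, hε3, hε4⟩ := (hev1.and (hev2.and hev3)).exists
  obtain ⟨C, hC, hcase⟩ := htri ε hε3 (hε4.trans (min_le_left _ _))
  have hεle : ε ≤ 1 := hε4.trans (min_le_right _ _)
  have hX0 : 0 < X := by positivity
  rcases hcase with h1 | h1 | ⟨h1, M, hM⟩
  · exact ⟨C, hC, Or.inl h1⟩
  · exact ⟨C, hC, Or.inr (Or.inl h1)⟩
  refine ⟨C * ((1 + X) * ((1 + 1 / g ^ 3) / g)) / g, by positivity, Or.inr (Or.inr
    ⟨g, DD h α β b ρ g (ρ / 2), hg0, ?_, ?_, fun q hq => DD_next hd hq,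
      fun q hq => DD_prev hd hq, ?_⟩)⟩
  · rintro q ⟨σ, m, hp, hG⟩
    exact ⟨hG.ep.nu, hG.ep.ns, hG.om_ge⟩
  · rintro q ⟨σ, m, hp, hG⟩ n
    have := hG.sd hd hp hδ hA hδ' hA' hX hε3.le hεle hκ hC hε1 hε2 h1 n
    rw [act_an, act_an] at this
    exact this
  intro y m hm hy
  -- a large multiple of the period
  set m' := m * (M + 1) with hm'
  have hm'1 : 1 ≤ m' := Nat.mul_pos hm (Nat.succ_pos M)
  have hm'M : M ≤ m' := by
    have : M + 1 ≤ m * (M + 1) := Nat.le_mul_of_pos_left _ hm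
    omega
  have hym' : h^[m'] y = y := by
    have h2 : Function.IsFixedPt h^[m] y := hy
    have h3 : h^[m * (M + 1)] y = (h^[m])^[M + 1] y := by rw [Function.iterate_mul]
    rw [hm', h3]
    exact h2.iterate (M + 1)
  obtain ⟨k, hk⟩ : ∃ k, m' = k + 1 := ⟨m' - 1, by omega⟩
  set y₀ := h^[k] y with hy₀
  have hy₀y : h y₀ = y := by
    have h9 : h^[k + 1] y = y := by rw [← hk]; exact hym'
    exact (Function.iterate_succ_apply' h k y).symm.trans h9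
  have hy₀per : h^[m'] y₀ = y₀ := by
    rw [hy₀, ← Function.iterate_add_apply, Nat.add_comm, Function.iterate_add_apply, hym']
  have h3 := hM y₀ m' hm'M hy₀per
  have h4 : ∀ θ : ℝ, |θ| ≤ ρ → 1 + dt h α β b m' y₀ θ < |tr h α β b m' y₀ θ| := fun θ hθ =>
    hg.class1 hκ hm'1 hy₀per h3 hθ
  obtain ⟨σ, hσ, hcls⟩ := exists_cls hd.b0 hd.lt hρ h4
  have hp : Pm b σ m' ρ g (ρ / 2) := ⟨hσ, hm'1, half_pos hρ, by linarith, hg0, hgN,
    fun y => Dp_im hd (half_pos hρ) hθJ y⟩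
  obtain ⟨u, s, hE⟩ := exists_EP hd hp hcls
  have hG := (hE.good hd hp hy₀per hcls).2
  rw [hy₀y] at hG
  exact ⟨(y, _, _), ⟨σ, m', hp, hG⟩, rfl⟩

end

end Pool.Agent.Helper21S
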