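import Pool.Agent.Helper21S.Gap3
import Pool.Agent.Helper21S.Sad9

/-!
# Project ST: normal planes, the theorem
-/

set_option autoImplicit false
set_option linter.unusedSectionVars false

open scoped Manifold ContDiff Topology
open Filter Set Metric Complex

universe u v

namespace Pool.Agent.Helper21S

open Pool.Agent.H718R2.G Pool.Agent.Y504.CO Pool.Agent.TH80.OMS Pool.Agent.W564.SC
  Pool.Agent.W74.SC

section

variable {Y : Type*} [TopologicalSpace Y] {J : ℕ} {b : Fin J → Y → ℝ} {h : Y → Y} {α β : Y → ℂ}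

theorem an_le (hd : CD h α β b) (n : ℕ) (y : Y) (z : ℂ) :
    ‖an h α β n y z‖ ≤ 2 * ‖PP h α β b 0 n y 1 1‖ * ‖z‖ ∧
      ‖(PP h α β b 0 n y).det‖ * ‖z‖ ≤ 2 * ‖PP h α β b 0 n y 1 1‖ * ‖an h α β n y z‖ := by
  rw [← act_an (b := b), ← Complex.ofReal_zero]
  obtain ⟨q1, q2⟩ := real_form h (α := α) (β := β) (b := b) 0 n y
  have h2 := dt_pos (h := h) (α := α) (β := β) hd.b0 hd.lt n y 0
  rw [det_real, Complex.norm_real, Real.norm_eq_abs, abs_of_pos h2, q1, RCLike.norm_conj]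
  unfold dt at h2 ⊢
  set p := PP h α β b ((0 : ℝ) : ℂ) n y 0 0 with hp
  set q := PP h α β b ((0 : ℝ) : ℂ) n y 0 1 with hq
  have h3 : ‖q‖ ≤ ‖p‖ := by
    apply le_of_sq_le_sq _ (norm_nonneg _)
    linarith
  have h4 : act (PP h α β b ((0 : ℝ) : ℂ) n y) z = p * z + q * (starRingEnd ℂ) z := rfl
  rw [h4]
  constructor
  · refine (norm_add_le _ _).trans ?_
    rw [norm_mul, norm_mul, RCLike.norm_conj]
    have := mul_le_mul_of_nonneg_right h3 (norm_nonneg z)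
    linarith
  · have h5 : (‖p‖ - ‖q‖) * ‖z‖ ≤ ‖p * z + q * (starRingEnd ℂ) z‖ := by
      have := norm_sub_le (p * z + q * (starRingEnd ℂ) z) (q * (starRingEnd ℂ) z)
      rw [add_sub_cancel_right, norm_mul, norm_mul, RCLike.norm_conj] at this
      linarith
    have h6 : 0 ≤ ‖p * z + q * (starRingEnd ℂ) z‖ := norm_nonneg _
    calc (‖p‖ ^ 2 - ‖q‖ ^ 2) * ‖z‖ = (‖p‖ + ‖q‖) * ((‖p‖ - ‖q‖) * ‖z‖) := by ring
      _ ≤ (‖p‖ + ‖q‖) * ‖p * z + q * (starRingEnd ℂ) z‖ := by gcongr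
      _ ≤ 2 * ‖p‖ * ‖p * z + q * (starRingEnd ℂ) z‖ := by
          apply mul_le_mul_of_nonneg_right _ h6
          linarith

end

/-- `z` lies on the real line through `0` and `w`. -/
def Along (w z : ℂ) : Prop := ∃ t : ℝ, z = t * w

section

variable {n : ℕ} {N : Type u} [TopologicalSpace N] [ChartedSpace (V n) N] [IsManifold (𝓡 n) ∞ N]
  [T2Space N] [CompactSpace N] {r : ℕ∞}

/-- the normal cocycle -/
theorem an_form {F : N → N} (hF : MDifferentiable (𝓡 n) (𝓡 n) F) {K : Set N}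
    (hK : ∀ x ∈ K, F x ∈ K) {g : N → ℂ} {α β : N → ℂ}
    (hcoc : ∀ x ∈ K, ∀ v : V n, dgc g (F x) (dm F x v) =
      α x * dgc g x v + β x * (starRingEnd ℂ) (dgc g x v)) (m : ℕ) :
    ∀ x ∈ K, ∀ v : V n, dgc g (F^[m] x) (dm F^[m] x v) = an F α β m x (dgc g x v) := by
  induction m with
  | zero =>
    intro x _ v
    have h3 : dm (n := n) (id : N → N) x = ContinuousLinearMap.id ℝ (V n) := mfderiv_id
    have h4 : (F : N → N)^[0] = id := rfl
    rw [h4, h3]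
    rfl
  | succ m ih =>
    intro x hx v
    rw [dm_iter_succ hF, ContinuousLinearMap.comp_apply, Function.iterate_succ_apply,
      ih (F x) (hK x hx), hcoc x hx]
    rfl

theorem normal_plane (hr : 1 ≤ r) {F : DiffM n N r} (hF : OmegaStable n N r F) {Y : Type v}
    [MetricSpace Y] [CompactSpace Y] {h : Y → Y} (hh : Continuous h) (hsh : PerShadow h)
    (ht : ChainTrans h) {Θ : Y → N}
    (hΘ : Continuous Θ) (hconj : ∀ y, F (Θ y) = Θ (h y)) {g : N → ℂ}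
    (hW : ∀ z ∈ range Θ, ∃ W ∈ 𝓝 z, ContMDiffOn (𝓡 n) 𝓘(ℝ, ℂ) ∞ g W)
    (hg0 : ∀ x ∈ range Θ, g x = 0)
    (hsurj : ∀ x ∈ range Θ, Function.Surjective (dgc (n := n) g x)) {α β : N → ℂ}
    (hα : ContinuousOn α (range Θ)) (hβ : ContinuousOn β (range Θ))
    (hlt : ∀ x ∈ range Θ, ‖β x‖ < ‖α x‖)
    (hcoc : ∀ x ∈ range Θ, ∀ v : V n, dgc g (F x) (dm F x v) =
      α x * dgc g x v + β x * (starRingEnd ℂ) (dgc g x v)) :
    ∃ κ C : ℝ, 0 < κ ∧ 0 < C ∧
      ((∀ x ∈ range Θ, ∀ (m : ℕ) (v : V n), ‖dgc g (F^[m] x) (dm F^[m] x v)‖ ≤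
        C * Real.exp (-(κ * m)) * ‖dgc g x v‖) ∨
      (∀ x ∈ range Θ, ∀ (m : ℕ) (v : V n), Real.exp (κ * m) * ‖dgc g x v‖ ≤
        C * ‖dgc g (F^[m] x) (dm F^[m] x v)‖) ∨
      ∃ s u : N → ℂ, ContinuousOn (fun x => s x ^ 2) (range Θ) ∧
        ContinuousOn (fun x => u x ^ 2) (range Θ) ∧
        (∀ x ∈ range Θ, ‖s x‖ = 1 ∧ ‖u x‖ = 1 ∧ ¬ Along (s x) (u x)) ∧
        (∀ x ∈ range Θ, ∀ v : V n, Along (s x) (dgc g x v) →
          Along (s (F x)) (dgc g (F x) (dm F x v))) ∧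
        (∀ x ∈ range Θ, ∀ v : V n, Along (u x) (dgc g x v) →
          Along (u (F x)) (dgc g (F x) (dm F x v))) ∧
        (∀ x ∈ range Θ, ∀ (m : ℕ) (v : V n), Along (s x) (dgc g x v) →
          ‖dgc g (F^[m] x) (dm F^[m] x v)‖ ≤ C * Real.exp (-(κ * m)) * ‖dgc g x v‖) ∧
        ∀ x ∈ range Θ, ∀ (m : ℕ) (v : V n), Along (u x) (dgc g x v) →
          Real.exp (κ * m) * ‖dgc g x v‖ ≤ C * ‖dgc g (F^[m] x) (dm F^[m] x v)‖) := by
  classical
  obtain ⟨J, b, κ, ρ, hκ, hρ, hρ1, hρJ, hd, hgap⟩ := gapR hr hF hh hΘ hconj hW hg0 hsurj hα hβ hlt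
    hcoc
  obtain ⟨C, hC, hcase⟩ := tri_D hd hsh ht hκ hρ hρ1 hρJ hgap
  have hK : ∀ x ∈ range Θ, F x ∈ range Θ := by
    rintro _ ⟨y, rfl⟩
    exact ⟨h y, (hconj y).symm⟩
  have hform := an_form (diffM_mdiff hr F) hK hcoc
  have hanY : ∀ (m : ℕ) (y : Y) (z : ℂ), an F α β m (Θ y) z =
      an h (fun y => α (Θ y)) (fun y => β (Θ y)) m y z := by
    intro m
    induction m with
    | zero => intro y z; rfl
    | succ m ih =>
      intro y z
      change an F α β m (F (Θ y)) (st α β (Θ y) z) = an h _ _ m (h y) (st _ _ y z)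
      rw [hconj, ih]
      rfl
  rcases hcase with h1 | h1 | ⟨g₀, D, hg₀, hD1, hD2, hD3, hD4, hD5⟩
  · refine ⟨κ / 4, 2 * C, by positivity, by positivity, Or.inl ?_⟩
    rintro _ ⟨y, rfl⟩ m v
    rw [hform m (Θ y) ⟨y, rfl⟩, hanY]
    refine (an_le hd m y _).1.trans ?_
    have := mul_le_mul_of_nonneg_right (h1 m y) (norm_nonneg (dgc (n := n) g (Θ y) v))
    linarith
  · refine ⟨κ / 4, 2 * C, by positivity, by positivity, Or.inr (Or.inl ?_)⟩
    rintro _ ⟨y, rfl⟩ m v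
    rw [hform m (Θ y) ⟨y, rfl⟩, hanY]
    have h2 := (an_le hd m y (dgc (n := n) g (Θ y) v)).2
    have h3 := h1 m y
    set d := ‖(PP h (fun y => α (Θ y)) (fun y => β (Θ y)) b 0 m y).det‖ with hdd
    have hdpos : 0 < d := by
      rw [hdd, ← Complex.ofReal_zero, det_real, Complex.norm_real, Real.norm_eq_abs]
      have := dt_pos (h := h) (α := fun y => α (Θ y)) (β := fun y => β (Θ y)) hd.b0 hd.lt m y 0
      rw [abs_of_pos this]
      exact this
    have h4 : d * ‖dgc (n := n) g (Θ y) v‖ ≤ 2 * (C * Real.exp (-(κ / 4 * m)) * d) *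
        ‖an h (fun y => α (Θ y)) (fun y => β (Θ y)) m y (dgc (n := n) g (Θ y) v)‖ :=
      h2.trans (by gcongr)
    have h5 : d * ‖dgc (n := n) g (Θ y) v‖ ≤ d * (2 * C * Real.exp (-(κ / 4 * m)) *
        ‖an h (fun y => α (Θ y)) (fun y => β (Θ y)) m y (dgc (n := n) g (Θ y) v)‖) :=
      h4.trans (le_of_eq (by ring))
    have h6 := mul_le_mul_of_nonneg_left (le_of_mul_le_mul_left h5 hdpos)
      (Real.exp_pos (κ / 4 * m)).le
    refine h6.trans (le_of_eq ?_)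
    have h7 : Real.exp (κ / 4 * m) * Real.exp (-(κ / 4 * m)) = 1 := by
      rw [← Real.exp_add]; simp
    calc _ = (Real.exp (κ / 4 * m) * Real.exp (-(κ / 4 * m))) * (2 * C *
        ‖an h (fun y => α (Θ y)) (fun y => β (Θ y)) m y (dgc (n := n) g (Θ y) v)‖) := by ring
      _ = _ := by rw [h7, one_mul]
  -- the saddle case
  let X := ↥(range Θ)
  let f : X → X := fun x => ⟨F x, hK x x.2⟩
  have hf : Continuous f := (F.continuous.comp continuous_subtype_val).subtype_mk _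
  have hinj : Function.Injective f := by
    intro x x' hxx
    have := congrArg Subtype.val hxx
    exact Subtype.ext (F.injective this)
  have : CompactSpace X := isCompact_iff_compactSpace.1 (isCompact_range hΘ)
  let αX : X → ℂ := fun x => α x
  let βX : X → ℂ := fun x => β x
  have hαX : Continuous αX := continuousOn_iff_continuous_domRestrict.1 hα
  have hβX : Continuous βX := continuousOn_iff_continuous_domRestrict.1 hβ
  have hltX : ∀ x, ‖βX x‖ < ‖αX x‖ := fun x => hlt x x.2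
  let p : Y → X := fun y => ⟨Θ y, y, rfl⟩
  have hpc : Continuous p := hΘ.subtype_mk _
  have hps : ∀ x : X, ∃ y, p y = x := by
    rintro ⟨_, y, rfl⟩
    exact ⟨y, rfl⟩
  have hpf : ∀ y, f (p y) = p (h y) := fun y => Subtype.ext (hconj y)
  have hanX : ∀ (m : ℕ) (x : X) (z : ℂ), an f αX βX m x z = an F α β m x z := by
    intro m
    induction m with
    | zero => intro y z; rfl
    | succ m ih =>
      intro x z
      change an f αX βX m (f x) (st αX βX x z) = an F α β m (F x) (st α β x z)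
      rw [ih]
      rfl
  set e : Y × ℂ × ℂ → X × ℂ × ℂ := fun q => (p q.1, q.2) with he
  have hPhe : ∀ q, Ph f αX βX (e q) = e (Ph h (fun y => α (Θ y)) (fun y => β (Θ y)) q) := by
    intro q
    unfold Ph
    simp only [he]
    rw [hpf]
    rfl
  obtain ⟨u, s, hu1, hu2, hu3, hu4, hu5⟩ := splitting hf hinj hαX hβX hltX
    (by positivity : 0 < κ / 8) hC hg₀ (e '' D) (by
      rintro _ ⟨q, hq, rfl⟩
      exact hD1 q hq) (by
      rintro _ ⟨q, hq, rfl⟩ m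
      have := hD2 q hq m
      rw [hanX, hanX]
      change ‖an F α β m (Θ q.1) q.2.2‖ ≤ _ ∧ _ ≤ C * ‖an F α β m (Θ q.1) q.2.1‖
      rw [hanY, hanY]
      exact this) (by
      rintro _ ⟨q, hq, rfl⟩
      rw [hPhe]
      exact ⟨_, hD3 q hq, rfl⟩) (by
      rintro _ ⟨q, hq, rfl⟩
      obtain ⟨q', hq', h2⟩ := hD4 q hq
      refine ⟨e q', ⟨q', hq', rfl⟩, ?_⟩
      rw [hPhe, h2]) (by
      intro x
      obtain ⟨y, rfl⟩ := hps x
      have h2 := per_dense hsh ht y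
      have h3 : p y ∈ closure (p '' {p : Y | ∃ m : ℕ, 1 ≤ m ∧ h^[m] p = p}) :=
        image_closure_subset_closure_image hpc ⟨y, h2, rfl⟩
      refine closure_mono ?_ h3
      rintro _ ⟨y', ⟨m, hm, hy'⟩, rfl⟩
      obtain ⟨q, hq, hq1⟩ := hD5 y' m hm hy'
      exact ⟨e q, ⟨q, hq, rfl⟩, by simp only [he]; rw [hq1]⟩)
  -- extension to `N`
  let ext : (X → ℂ) → N → ℂ := fun w x => if hx : x ∈ range Θ then w ⟨x, hx⟩ else 0
  have hext : ∀ (w : X → ℂ) (x : N) (hx : x ∈ range Θ), ext w x = w ⟨x, hx⟩ := by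
    intro w x hx
    simp only [ext]
    rw [dif_pos hx]
  have hcext : ∀ w : X → ℂ, (Continuous fun x => w x ^ 2) →
      ContinuousOn (fun x => ext w x ^ 2) (range Θ) := by
    intro w hw
    rw [continuousOn_iff_continuous_domRestrict]
    have : (range Θ).domRestrict (fun x => ext w x ^ 2) = fun x : X => w x ^ 2 := by
      funext x
      change ext w x ^ 2 = w x ^ 2
      rw [hext w x x.2]
    rw [this]
    exact hw
  have hne0 : ∀ w : ℂ, ‖w‖ = 1 → w ≠ 0 := by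
    rintro w hw rfl
    rw [norm_zero] at hw
    exact zero_ne_one hw
  refine ⟨κ / 8, C, by positivity, hC, Or.inr (Or.inr ⟨ext s, ext u, hcext s hu5, hcext u hu4, ?_,
    ?_, ?_, ?_, ?_⟩)⟩
  · intro x hx
    rw [hext s x hx, hext u x hx]
    obtain ⟨a1, a2, a3⟩ := hu1 ⟨x, hx⟩
    refine ⟨a2, a1, ?_⟩
    rintro ⟨t, ht1⟩
    rw [ht1, om_smul_left, om_self, mul_zero] at a3
    linarith
  · rintro x hx v ⟨t, ht1⟩
    rw [hext s x hx] at ht1
    rw [hext s (F x) (hK x hx), hcoc x hx, ht1]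
    obtain ⟨-, a2⟩ := hu2 ⟨x, hx⟩
    obtain ⟨c, hc⟩ := parallel (hne0 _ (hu1 (f ⟨x, hx⟩)).2.1) a2
    refine ⟨t * c, ?_⟩
    have h2 : α x * (t * s ⟨x, hx⟩) + β x * (starRingEnd ℂ) (t * s ⟨x, hx⟩) =
        t * st αX βX ⟨x, hx⟩ (s ⟨x, hx⟩) := (st_smul (α := αX) (β := βX) ⟨x, hx⟩ t _)
    rw [h2, hc]
    push_cast
    rw [mul_assoc]
  · rintro x hx v ⟨t, ht1⟩
    rw [hext u x hx] at ht1
    rw [hext u (F x) (hK x hx), hcoc x hx, ht1]
    obtain ⟨a1, -⟩ := hu2 ⟨x, hx⟩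
    obtain ⟨c, hc⟩ := parallel (hne0 _ (hu1 (f ⟨x, hx⟩)).1) a1
    refine ⟨t * c, ?_⟩
    have h2 : α x * (t * u ⟨x, hx⟩) + β x * (starRingEnd ℂ) (t * u ⟨x, hx⟩) =
        t * st αX βX ⟨x, hx⟩ (u ⟨x, hx⟩) := (st_smul (α := αX) (β := βX) ⟨x, hx⟩ t _)
    rw [h2, hc]
    push_cast
    rw [mul_assoc]
  · rintro x hx m v ⟨t, ht1⟩
    rw [hext s x hx] at ht1
    rw [hform m x hx, ht1, an_smul, norm_mul, norm_mul, (hu1 ⟨x, hx⟩).2.1, mul_one]
    have h2 := (hu3 ⟨x, hx⟩ m).1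
    rw [hanX] at h2
    have := mul_le_mul_of_nonneg_left h2 (norm_nonneg (t : ℂ))
    linarith
  · rintro x hx m v ⟨t, ht1⟩
    rw [hext u x hx] at ht1
    rw [hform m x hx, ht1, an_smul, norm_mul, norm_mul, (hu1 ⟨x, hx⟩).1, mul_one]
    have h2 := (hu3 ⟨x, hx⟩ m).2
    rw [hanX] at h2
    have := mul_le_mul_of_nonneg_left h2 (norm_nonneg (t : ℂ))
    linarith

end

end Pool.Agent.Helper21S
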