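import Pool.Agent.Helper21S.Sad10

/-!
# Project ST: the coefficients of the normal derivative
-/

set_option autoImplicit false
set_option linter.unusedSectionVars false

open scoped Manifold ContDiff Topology
open Filter Set Metric Complex

universe u v

namespace Pool.Agent.Helper21S

open Pool.Agent.H718R2.G Pool.Agent.Y504.CO Pool.Agent.TH80.OMS Pool.Agent.W564.SC
  Pool.Agent.W74.SC

section

variable {n : ℕ} {N : Type u} [TopologicalSpace N] [ChartedSpace (V n) N] [IsManifold (𝓡 n) ∞ N]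
  [T2Space N] [CompactSpace N] {r : ℕ∞} {F : DiffM n N r} {g : N → ℂ} {K : Set N}

theorem exists_coef (hs : ∀ x ∈ K, Function.Surjective (dgc (n := n) g x))
    (hinv : ∀ x ∈ K, ∀ v : V n, dgc g x v = 0 → dgc g (F x) (dm F x v) = 0) :
    ∃ α β : N → ℂ, ∀ x ∈ K, ∀ v : V n, dgc g (F x) (dm F x v) =
      α x * dgc g x v + β x * (starRingEnd ℂ) (dgc g x v) := by
  have hpt : ∀ x : N, ∃ a b : ℂ, x ∈ K → ∀ v : V n, dgc g (F x) (dm F x v) =
      a * dgc g x v + b * (starRingEnd ℂ) (dgc g x v) := by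
    intro x
    by_cases hx : x ∈ K
    · obtain ⟨v₁, hv₁⟩ := hs x hx 1
      obtain ⟨v₂, hv₂⟩ := hs x hx I
      set b₁ := dgc g (F x) (dm F x v₁) with hb₁
      set b₂ := dgc g (F x) (dm F x v₂) with hb₂
      refine ⟨(b₁ - I * b₂) / 2, (b₁ + I * b₂) / 2, fun _ v => ?_⟩
      set z := dgc g x v with hz
      have h0 : dgc g x (v - z.re • v₁ - z.im • v₂) = 0 := by
        rw [map_sub, map_sub, map_smul, map_smul, hv₁, hv₂, ← hz, Complex.real_smul,
          Complex.real_smul, mul_one, sub_sub, re_add_im, sub_self]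
      have h1 := hinv x hx _ h0
      rw [map_sub, map_sub, map_smul, map_smul, map_sub, map_sub, map_smul, map_smul, ← hb₁, ← hb₂,
        Complex.real_smul, Complex.real_smul] at h1
      have h2 : dgc g (F x) (dm F x v) = z.re * b₁ + z.im * b₂ := by linear_combination h1
      rw [h2]
      have h3 : z = z.re + z.im * I := (re_add_im z).symm
      have h4 : (starRingEnd ℂ) z = z.re - z.im * I := by
        apply Complex.ext <;> simp
      rw [h4]
      conv_rhs => rw [h3]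
      simp only [add_re, ofReal_re, mul_re, I_re, mul_zero, ofReal_im, I_im, mul_one, sub_self,
        add_zero, add_im, mul_im, zero_add]
      linear_combination ((z.im : ℂ) * b₂) * Complex.I_mul_I
    · exact ⟨0, 0, fun h => absurd h hx⟩
  choose α β hαβ using hpt
  exact ⟨α, β, hαβ⟩

theorem coef_cont (hr : 1 ≤ r) (hK : ∀ x ∈ K, F x ∈ K)
    (hW : ∀ z ∈ K, ∃ W ∈ 𝓝 z, ContMDiffOn (𝓡 n) 𝓘(ℝ, ℂ) ∞ g W)
    (hs : ∀ x ∈ K, Function.Surjective (dgc (n := n) g x)) {α β : N → ℂ}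
    (hαβ : ∀ x ∈ K, ∀ v : V n, dgc g (F x) (dm F x v) =
      α x * dgc g x v + β x * (starRingEnd ℂ) (dgc g x v)) :
    ContinuousOn α K ∧ ContinuousOn β K := by
  have key : ∀ z ∈ K, ContinuousWithinAt α K z ∧ ContinuousWithinAt β K z := by
    intro z hz
    obtain ⟨χ, hχ⟩ := Pool.Agent.W699.SC.gc n N z
    obtain ⟨W, hW1, hgW⟩ := hW z hz
    obtain ⟨W', hW2, hgW'⟩ := hW (F z) (hK z hz)
    set f : V n → ℂ := fun v => g (χ.symm v) with hf
    set f' : V n → ℂ := fun v => g (F (χ.symm v)) with hf'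
    -- the good points
    set O : Set N := χ.source ∩ interior W ∩ F ⁻¹' interior W' with hO
    have hOo : IsOpen O := (χ.open_source.inter isOpen_interior).inter
      (isOpen_interior.preimage F.continuous)
    have hzO : z ∈ O := ⟨⟨hχ.src, mem_interior_iff_mem_nhds.2 hW1⟩,
      mem_interior_iff_mem_nhds.2 hW2⟩
    have hsm : ∀ x ∈ O, ContDiffAt ℝ 1 f (χ x) ∧ ContDiffAt ℝ 1 f' (χ x) := by
      intro x hx
      have hxs : x ∈ χ.source := hx.1.1
      have m1 : ContMDiffAt (𝓡 n) (𝓡 n) 1 χ.symm (χ x) :=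
        ((contMDiffOn_symm_of_mem_maximalAtlas hχ.mem).contMDiffAt
          (χ.open_target.mem_nhds (χ.map_source hxs))).of_le (by norm_cast)
      have m2 : ContMDiff (𝓡 n) (𝓡 n) 1 F :=
        F.contMDiff.of_le
          (show ((1 : ℕ∞) : WithTop ℕ∞) ≤ (r : WithTop ℕ∞) from WithTop.coe_le_coe.mpr hr)
      have hxx : χ.symm (χ x) = x := χ.left_inv hxs
      have m3 : ContMDiffAt (𝓡 n) 𝓘(ℝ, ℂ) 1 g (χ.symm (χ x)) := by
        rw [hxx]
        exact (hgW.contMDiffAt (mem_interior_iff_mem_nhds.1 hx.1.2)).of_le (by norm_cast)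
      have m4 : ContMDiffAt (𝓡 n) 𝓘(ℝ, ℂ) 1 g (F (χ.symm (χ x))) := by
        rw [hxx]
        exact (hgW'.contMDiffAt (mem_interior_iff_mem_nhds.1 hx.2)).of_le (by norm_cast)
      rw [← contMDiffAt_iff_contDiffAt, ← contMDiffAt_iff_contDiffAt]
      refine ⟨m3.comp _ m1, ?_⟩
      have m5 : ContMDiffAt (𝓡 n) (𝓡 n) 1 (fun v => F (χ.symm v)) (χ x) :=
        ContMDiffAt.comp (χ x) (g := F) (f := χ.symm) m2.contMDiffAt m1
      exact ContMDiffAt.comp (χ x) (g := g) (f := fun v => F (χ.symm v)) m4 m5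
    have hd1 : ∀ x ∈ O, ∀ v, fderiv ℝ f (χ x) (dc χ x v) = dgc g x v := by
      intro x hx v
      exact dgc_chart hχ.mem hx.1.1 ((hsm x hx).1.differentiableAt (by norm_num)) v
    have hd2 : ∀ x ∈ O, ∀ v, fderiv ℝ f' (χ x) (dc χ x v) = dgc g (F x) (dm F x v) := by
      intro x hx v
      have h1 := dgc_chart (g := g ∘ F) hχ.mem hx.1.1
        ((hsm x hx).2.differentiableAt (by norm_num)) v
      have hmg : MDifferentiableAt (𝓡 n) 𝓘(ℝ, ℂ) g (F x) :=
        (hgW'.contMDiffAt (mem_interior_iff_mem_nhds.1 hx.2)).mdifferentiableAt (by simp)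
      have h2 : mfderiv (𝓡 n) 𝓘(ℝ, ℂ) (g ∘ F) x = (mfderiv (𝓡 n) 𝓘(ℝ, ℂ) g (F x)).comp
          (mfderiv (𝓡 n) (𝓡 n) F x) := mfderiv_comp x hmg (diffM_mdiff hr F x)
      have h3 : dgc (g ∘ F) x v = dgc g (F x) (dm F x v) :=
        congrArg (fun L : V n →L[ℝ] ℂ => L v) h2
      rw [← h3]
      exact h1
    obtain ⟨v₁, hv₁⟩ := hs z hz 1
    obtain ⟨v₂, hv₂⟩ := hs z hz I
    set w₁ := dc χ z v₁ with hw₁
    set w₂ := dc χ z v₂ with hw₂
    have hcont : ∀ w : V n, ContinuousAt (fun x => fderiv ℝ f (χ x) w) z ∧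
        ContinuousAt (fun x => fderiv ℝ f' (χ x) w) z := by
      intro w
      have h1 : ContinuousAt (fderiv ℝ f) (χ z) :=
        (((hsm z hzO).1).fderiv_right (m := 0) (by norm_num)).continuousAt
      have h2 : ContinuousAt (fderiv ℝ f') (χ z) :=
        (((hsm z hzO).2).fderiv_right (m := 0) (by norm_num)).continuousAt
      have h3 : ContinuousAt (fun x => fderiv ℝ f (χ x)) z :=
        ContinuousAt.comp (f := χ) h1 (χ.continuousAt hχ.src)
      have h4 : ContinuousAt (fun x => fderiv ℝ f' (χ x)) z :=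
        ContinuousAt.comp (f := χ) h2 (χ.continuousAt hχ.src)
      exact ⟨h3.clm_apply continuousAt_const, h4.clm_apply continuousAt_const⟩
    obtain ⟨ca1, cc1⟩ := hcont w₁
    obtain ⟨ca2, cc2⟩ := hcont w₂
    set a₁ : N → ℂ := fun x => fderiv ℝ f (χ x) w₁ with ha₁
    set a₂ : N → ℂ := fun x => fderiv ℝ f (χ x) w₂ with ha₂
    set c₁ : N → ℂ := fun x => fderiv ℝ f' (χ x) w₁ with hc₁
    set c₂ : N → ℂ := fun x => fderiv ℝ f' (χ x) w₂ with hc₂
    have cj : ∀ {a : N → ℂ}, ContinuousAt a z → ContinuousAt (fun x => (starRingEnd ℂ) (a x)) z :=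
      fun h => Complex.continuous_conj.continuousAt.comp h
    have hrel : ∀ x ∈ K, x ∈ O → c₁ x = α x * a₁ x + β x * (starRingEnd ℂ) (a₁ x) ∧
        c₂ x = α x * a₂ x + β x * (starRingEnd ℂ) (a₂ x) := by
      intro x hx hxO
      have hw : ∀ w : V n, fderiv ℝ f' (χ x) w = α x * fderiv ℝ f (χ x) w +
          β x * (starRingEnd ℂ) (fderiv ℝ f (χ x) w) := by
        intro w
        obtain ⟨v, rfl⟩ := (dc_bij hχ.mem hxO.1.1).surjective w
        rw [hd1 x hxO, hd2 x hxO]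
        exact hαβ x hx v
      exact ⟨hw w₁, hw w₂⟩
    set Δ : N → ℂ := fun x => a₁ x * (starRingEnd ℂ) (a₂ x) - a₂ x * (starRingEnd ℂ) (a₁ x) with hΔ
    have cΔ : ContinuousAt Δ z := (ca1.mul (cj ca2)).sub (ca2.mul (cj ca1))
    have hΔz : Δ z ≠ 0 := by
      have h1 : a₁ z = 1 := by
        simp only [ha₁, hw₁]
        rw [hd1 z hzO, hv₁]
      have h2 : a₂ z = I := by
        simp only [ha₂, hw₂]
        rw [hd1 z hzO, hv₂]
      simp only [hΔ]
      rw [h1, h2, map_one, Complex.conj_I]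
      intro h3
      have := congrArg Complex.im h3
      norm_num at this
    have hev0 : ∀ᶠ x in 𝓝[K] z, x ∈ K ∧ x ∈ O ∧ Δ x ≠ 0 := by
      filter_upwards [self_mem_nhdsWithin, mem_nhdsWithin_of_mem_nhds (hOo.mem_nhds hzO),
        mem_nhdsWithin_of_mem_nhds (cΔ.eventually_ne hΔz)] with x h1 h2 h3
      exact ⟨h1, h2, h3⟩
    have hα : ∀ x, x ∈ K → x ∈ O → Δ x ≠ 0 → α x =
        (c₁ x * (starRingEnd ℂ) (a₂ x) - c₂ x * (starRingEnd ℂ) (a₁ x)) / Δ x := by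
      intro x hx hxO hΔx
      obtain ⟨e1, e2⟩ := hrel x hx hxO
      rw [eq_div_iff hΔx, e1, e2]
      simp only [hΔ]
      ring
    have hβ : ∀ x, x ∈ K → x ∈ O → Δ x ≠ 0 → β x =
        (a₁ x * c₂ x - a₂ x * c₁ x) / Δ x := by
      intro x hx hxO hΔx
      obtain ⟨e1, e2⟩ := hrel x hx hxO
      rw [eq_div_iff hΔx, e1, e2]
      simp only [hΔ]
      ring
    constructor
    · have h1 : ContinuousAt (fun x => (c₁ x * (starRingEnd ℂ) (a₂ x) -
          c₂ x * (starRingEnd ℂ) (a₁ x)) / Δ x) z :=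
        ((cc1.mul (cj ca2)).sub (cc2.mul (cj ca1))).div cΔ hΔz
      exact h1.continuousWithinAt.congr_of_eventuallyEq
        (hev0.mono fun x hx => hα x hx.1 hx.2.1 hx.2.2) (hα z hz hzO hΔz)
    · have h1 : ContinuousAt (fun x => (a₁ x * c₂ x - a₂ x * c₁ x) / Δ x) z :=
        ((ca1.mul cc2).sub (ca2.mul cc1)).div cΔ hΔz
      exact h1.continuousWithinAt.congr_of_eventuallyEq
        (hev0.mono fun x hx => hβ x hx.1 hx.2.1 hx.2.2) (hβ z hz hzO hΔz)
  exact ⟨fun z hz => (key z hz).1, fun z hz => (key z hz).2⟩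

/-- Normal planes with invariant tangent planes and preserved orientation. -/
theorem normal_plane' (hr : 1 ≤ r) (hF : OmegaStable n N r F) {Y : Type v}
    [MetricSpace Y] [CompactSpace Y] {h : Y → Y} (hh : Continuous h) (hsh : PerShadow h)
    (ht : ChainTrans h) {Θ : Y → N}
    (hΘ : Continuous Θ) (hconj : ∀ y, F (Θ y) = Θ (h y))
    (hW : ∀ z ∈ range Θ, ∃ W ∈ 𝓝 z, ContMDiffOn (𝓡 n) 𝓘(ℝ, ℂ) ∞ g W)
    (hg0 : ∀ x ∈ range Θ, g x = 0)
    (hsurj : ∀ x ∈ range Θ, Function.Surjective (dgc (n := n) g x))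
    (hinv : ∀ x ∈ range Θ, ∀ v : V n, dgc g x v = 0 → dgc g (F x) (dm F x v) = 0)
    (hor : ∀ x ∈ range Θ, ∀ v w : V n, 0 < om (dgc g x v) (dgc g x w) →
      0 < om (dgc g (F x) (dm F x v)) (dgc g (F x) (dm F x w))) :
    ∃ κ C : ℝ, 0 < κ ∧ 0 < C ∧
      ((∀ x ∈ range Θ, ∀ (m : ℕ) (v : V n), ‖dgc g (F^[m] x) (dm F^[m] x v)‖ ≤
        C * Real.exp (-(κ * m)) * ‖dgc g x v‖) ∨
      (∀ x ∈ range Θ, ∀ (m : ℕ) (v : V n), Real.exp (κ * m) * ‖dgc g x v‖ ≤
        C * ‖dgc g (F^[m] x) (dm F^[m] x v)‖) ∨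
      ∃ s u : N → ℂ, ContinuousOn (fun x => s x ^ 2) (range Θ) ∧
        ContinuousOn (fun x => u x ^ 2) (range Θ) ∧
        (∀ x ∈ range Θ, ‖s x‖ = 1 ∧ ‖u x‖ = 1 ∧ ¬ Along (s x) (u x)) ∧
        (∀ x ∈ range Θ, ∀ v : V n, Along (s x) (dgc g x v) →
          Along (s (F x)) (dgc g (F x) (dm F x v))) ∧
        (∀ x ∈ range Θ, ∀ v : V n, Along (u x) (dgc g x v) →
          Along (u (F x)) (dgc g (F x) (dm F x v))) ∧
        (∀ x ∈ range Θ, ∀ (m : ℕ) (v : V n), Along (s x) (dgc g x v) →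
          ‖dgc g (F^[m] x) (dm F^[m] x v)‖ ≤ C * Real.exp (-(κ * m)) * ‖dgc g x v‖) ∧
        ∀ x ∈ range Θ, ∀ (m : ℕ) (v : V n), Along (u x) (dgc g x v) →
          Real.exp (κ * m) * ‖dgc g x v‖ ≤ C * ‖dgc g (F^[m] x) (dm F^[m] x v)‖) := by
  obtain ⟨α, β, hαβ⟩ := exists_coef (F := F) hsurj hinv
  have hK : ∀ x ∈ range Θ, F x ∈ range Θ := by
    rintro _ ⟨y, rfl⟩
    exact ⟨h y, (hconj y).symm⟩
  obtain ⟨hα, hβ⟩ := coef_cont hr hK hW hsurj hαβ
  refine normal_plane hr hF hh hsh ht hΘ hconj hW hg0 hsurj hα hβ ?_ hαβ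
  intro x hx
  obtain ⟨v, hv⟩ := hsurj x hx 1
  obtain ⟨w, hw⟩ := hsurj x hx I
  have h1 := hor x hx v w (by rw [hv, hw, om_eq]; simp)
  rw [hαβ x hx, hαβ x hx, om_lin, hv, hw] at h1
  have h2 : om 1 I = 1 := by rw [om_eq]; simp
  rw [h2, mul_one] at h1
  apply lt_of_pow_lt_pow_left₀ 2 (norm_nonneg _)
  linarith

end

end Pool.Agent.Helper21S
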