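import Pool.Agent.Helper21S.Sad1

/-!
# Project ST: slopes of the eigenvectors
-/

set_option autoImplicit false

open Filter Set Complex Topology

namespace Pool.Agent.Helper21S

theorem om_plucker (a b c d : ℂ) : om a b * om c d = om a c * om b d - om a d * om b c := by
  simp only [om_eq]; ring

theorem act_cayley (M : Matrix (Fin 2) (Fin 2) ℂ) (v : ℂ) : act M (act M v) =
    ((2 * (M 0 0).re : ℝ) : ℂ) * act M v - ((‖M 0 0‖ ^ 2 - ‖M 0 1‖ ^ 2 : ℝ) : ℂ) * v := by
  have h1 : ((2 * (M 0 0).re : ℝ) : ℂ) = M 0 0 + (starRingEnd ℂ) (M 0 0) := by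
    rw [Complex.add_conj]
  have h2 : ((‖M 0 0‖ ^ 2 - ‖M 0 1‖ ^ 2 : ℝ) : ℂ) =
      M 0 0 * (starRingEnd ℂ) (M 0 0) - M 0 1 * (starRingEnd ℂ) (M 0 1) := by
    rw [Complex.mul_conj, Complex.mul_conj, Complex.normSq_eq_norm_sq, Complex.normSq_eq_norm_sq]
    push_cast
    rfl
  rw [h1, h2]
  unfold act
  simp only [map_add, map_mul, Complex.conj_conj]
  ring

theorem om_trace (M : Matrix (Fin 2) (Fin 2) ℂ) (u v : ℂ) :
    om (act M u) v + om u (act M v) = 2 * (M 0 0).re * om u v := by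
  unfold act
  simp only [om_eq, mul_re, mul_im, add_re, add_im, conj_re, conj_im]
  ring

theorem act_zero (M : Matrix (Fin 2) (Fin 2) ℂ) : act M 0 = 0 := by
  unfold act
  simp

theorem act_sub (M : Matrix (Fin 2) (Fin 2) ℂ) (u v : ℂ) : act M (u - v) = act M u - act M v := by
  unfold act
  rw [map_sub]
  ring

theorem om_sub_right (u v w : ℂ) : om u (v - w) = om u v - om u w := by
  simp only [om_eq, sub_re, sub_im]; ring

theorem om_sub_left (u v w : ℂ) : om (u - v) w = om u w - om v w := by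
  simp only [om_eq, sub_re, sub_im]; ring

theorem om_zero_left (v : ℂ) : om 0 v = 0 := by simp [om_eq]

theorem om_zero_right (v : ℂ) : om v 0 = 0 := by simp [om_eq]

/-- expansion in a basis -/
theorem om_expand (e u s : ℂ) : (om u s : ℂ) * e = om e s * u + om u e * s := by
  apply Complex.ext
  · simp only [om_eq, add_re, mul_re, ofReal_re, ofReal_im]; ring
  · simp only [om_eq, add_im, mul_im, ofReal_re, ofReal_im]; ring

section

variable {Y : Type*} {J : ℕ} {b : Fin J → Y → ℝ} {h : Y → Y} {α β : Y → ℂ}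

theorem PP_cyc (θ : ℂ) (n : ℕ) (y : Y) : PP h α β b θ n (h y) * MM α β b θ y =
    MM α β b θ (h^[n] y) * PP h α β b θ n y := by
  rw [← PP_succ']
  rfl

theorem tr_h {m : ℕ} {y : Y} (hy : h^[m] y = y) (θ : ℝ) :
    tr h α β b m (h y) θ = tr h α β b m y θ ∧ dt h α β b m (h y) θ = dt h α β b m y θ := by
  have key : TT h α β b θ m (h y) = TT h α β b θ m y ∧
      (PP h α β b θ m (h y)).det = (PP h α β b θ m y).det := by
    rcases m with _ | k
    · exact ⟨rfl, rfl⟩
    · have h1 : h^[k] (h y) = y := by rw [← Function.iterate_succ_apply]; exact hy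
      have h2 : PP h α β b θ (k + 1) (h y) = MM α β b θ y * PP h α β b θ k (h y) := by
        rw [PP_succ', h1]
      have h3 : PP h α β b θ (k + 1) y = PP h α β b θ k (h y) * MM α β b θ y := rfl
      constructor
      · have h4 : ∀ y, TT h α β b θ (k + 1) y = (PP h α β b θ (k + 1) y).trace := by
          intro y
          rw [Matrix.trace_fin_two]
          rfl
        rw [h4, h4, h2, h3, Matrix.trace_mul_comm]
      · rw [h2, h3, Matrix.det_mul, Matrix.det_mul, mul_comm]
  constructor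
  · have := key.1
    rw [TT_real, TT_real] at this
    exact_mod_cast this
  · have := key.2
    rw [det_real, det_real] at this
    exact_mod_cast this

/-- the hyperbolic saddle case -/
def Cls (h : Y → Y) (α β : Y → ℂ) (b : Fin J → Y → ℝ) (ρ σ : ℝ) (m : ℕ) (y : Y) : Prop :=
  ∀ θ : ℝ, |θ| ≤ ρ → 1 + dt h α β b m y θ < σ * tr h α β b m y θ

theorem Cls.next {ρ σ : ℝ} {m : ℕ} {y : Y} (hc : Cls h α β b ρ σ m y) (hy : h^[m] y = y) :
    Cls h α β b ρ σ m (h y) := by
  intro θ hθ
  rw [(tr_h hy θ).1, (tr_h hy θ).2]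
  exact hc θ hθ

theorem exists_cls (h0 : ∀ j y, 0 ≤ b j y) (hlt : ∀ y, ‖β y‖ < ‖α y‖) {ρ : ℝ} {m : ℕ} {y : Y}
    (hρ : 0 < ρ)
    (hc : ∀ θ : ℝ, |θ| ≤ ρ → 1 + dt h α β b m y θ < |tr h α β b m y θ|) :
    ∃ σ : ℝ, σ * σ = 1 ∧ Cls h α β b ρ σ m y := by
  have hpos : ∀ θ : ℝ, |θ| ≤ ρ → 0 < |tr h α β b m y θ| := by
    intro θ hθ
    have h1 := hc θ hθ
    have h2 := dt_pos (h := h) (α := α) (β := β) h0 hlt m y θ
    linarith
  have hcase : ∀ σ : ℝ, σ * σ = 1 → 0 < σ * tr h α β b m y 0 → Cls h α β b ρ σ m y := by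
    intro σ hσ h2 θ hθ
    have h3 := sign_const (f := fun θ => -(σ * tr h α β b m y θ))
      ((continuous_const.mul (tr_cont m y)).neg) (ρ := ρ) (fun x hx h4 => by
        have h5 := hpos x hx
        have h6 : σ * tr h α β b m y x = 0 := by linarith
        have h7 : tr h α β b m y x = σ * (σ * tr h α β b m y x) := by
          rw [← mul_assoc, hσ, one_mul]
        rw [h7, h6, mul_zero, abs_zero] at h5
        exact lt_irrefl _ h5) (by linarith) hθ
    have h4 : |tr h α β b m y θ| = σ * tr h α β b m y θ := by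
      have h5 : |σ| = 1 := by
        have : |σ| * |σ| = 1 := by rw [← abs_mul, hσ, abs_one]
        nlinarith [abs_nonneg σ]
      have h6 : |σ * tr h α β b m y θ| = |tr h α β b m y θ| := by rw [abs_mul, h5, one_mul]
      rw [← h6]
      apply abs_of_pos
      linarith
    rw [← h4]
    exact hc θ hθ
  rcases lt_or_ge 0 (tr h α β b m y 0) with h1 | h1
  · exact ⟨1, by norm_num, hcase 1 (by norm_num) (by linarith)⟩
  · refine ⟨-1, by norm_num, hcase (-1) (by norm_num) ?_⟩
    have h2 := hpos 0 (by simp [hρ.le])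
    rw [abs_of_nonpos h1] at h2
    linarith

/-- signs -/
theorem sgn (h0 : ∀ j y, 0 ≤ b j y) (h1 : ∀ y, ∃ j, b j y = 1) (hlt : ∀ y, ‖β y‖ < ‖α y‖)
    {ρ σ : ℝ} (hσ : σ * σ = 1) {m : ℕ} (hm : 1 ≤ m) {y : Y} (hc : Cls h α β b ρ σ m y) {w : ℂ}
    (hw : w ≠ 0) (hw0 : om w (act (PP h α β b (0 : ℝ) m y) w) = 0) {θ : ℝ} (hθ : 0 < θ)
    (hθρ : θ < ρ) : 0 < σ * om w (act (PP h α β b θ m y) w) ∧
      σ * om w (act (PP h α β b (-θ : ℝ) m y) w) < 0 := by
  choose g' hg1 hg2 hg3 using fun θ : ℝ => rot (h := h) (α := α) (β := β) h0 h1 hlt m y w θ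
  set F : ℝ → ℝ := fun t => σ * om w (act (PP h α β b t m y) w) with hF
  have hd : ∀ t : ℝ, HasDerivAt F (σ * om w (g' t)) t := by
    intro t
    have h2 : HasDerivAt (fun t : ℝ => (starRingEnd ℂ) w * act (PP h α β b t m y) w)
        ((starRingEnd ℂ) w * g' t) t := (hg1 t).const_mul _
    have h3 : HasDerivAt (fun t : ℝ => ((starRingEnd ℂ) w * act (PP h α β b t m y) w).im)
        (((starRingEnd ℂ) w * g' t).im) t := Complex.imCLM.hasFDerivAt.comp_hasDerivAt t h2
    exact h3.const_mul σ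
  have hz : ∀ t : ℝ, |t| ≤ ρ → F t = 0 → 0 < σ * om w (g' t) := by
    intro t ht hFt
    have h2 : om w (act (PP h α β b t m y) w) = 0 := by
      have h3 : om w (act (PP h α β b t m y) w) = σ * F t := by
        rw [hF]
        simp only
        rw [← mul_assoc, hσ, one_mul]
      rw [h3, hFt, mul_zero]
    obtain ⟨c, hc0⟩ := parallel hw h2
    have h3 := act_eig hw hc0
    have h4 : dt h α β b m y t = ‖PP h α β b t m y 0 0‖ ^ 2 - ‖PP h α β b t m y 0 1‖ ^ 2 := rfl
    have h5 : tr h α β b m y t = 2 * (PP h α β b t m y 0 0).re := rfl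
    rw [← h4, ← h5] at h3
    have h6 := dt_pos (h := h) (α := α) (β := β) h0 hlt m y t
    have h7 := hc t ht
    have h8 := hg3 t hm hw
    rw [hc0, om_smul_left] at h8
    have h9 : 0 < σ * c := by
      have k1 : 0 < tr h α β b m y t * c := by nlinarith [sq_nonneg c]
      have k2 : (σ * tr h α β b m y t) * (σ * c) = tr h α β b m y t * c := by
        calc _ = (σ * σ) * (tr h α β b m y t * c) := by ring
          _ = _ := by rw [hσ, one_mul]
      rw [← k2] at k1
      exact (pos_iff_pos_of_mul_pos k1).1 (by linarith)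
    have k3 : (σ * c) * (σ * om w (g' t)) = c * om w (g' t) := by
      calc _ = (σ * σ) * (c * om w (g' t)) := by ring
        _ = _ := by rw [hσ, one_mul]
    rw [← k3] at h8
    exact (pos_iff_pos_of_mul_pos h8).1 h9
  have hF0 : F 0 = 0 := by
    rw [hF]
    simp only
    rw [hw0, mul_zero]
  constructor
  · exact stay_pos (f := F) (f' := fun t => σ * om w (g' t)) (ρ := ρ)
      (fun x _ _ => hd x) (fun x hx hxρ hx0 => hz x (by rw [abs_of_nonneg hx]; exact hxρ) hx0)
      hF0 hθ hθρ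
  · have h2 := stay_pos (f := fun t => -F (-t)) (f' := fun t => σ * om w (g' (-t))) (ρ := ρ)
      (fun x _ _ => by
        have h5 : HasDerivAt (fun t => -F (-t)) (-(σ * om w (g' (-x)) * -1)) x :=
          ((hd (-x)).comp x (hasDerivAt_neg x)).neg
        have h6 : -(σ * om w (g' (-x)) * -1) = σ * om w (g' (-x)) := by ring
        rw [h6] at h5
        exact h5)
      (fun x hx hxρ hx0 => hz (-x) (by rw [abs_neg, abs_of_nonneg hx]; exact hxρ)
        (by linarith))
      (by simp [hF0]) hθ hθρ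
    simp only [hF] at h2
    linarith

end

end Pool.Agent.Helper21S
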