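import Pool.Agent.Helper21S.Sad2

/-!
# Project ST: eigenvectors along a periodic orbit
-/

set_option autoImplicit false
set_option linter.unusedSectionVars false

open Filter Set Complex Topology

namespace Pool.Agent.Helper21S

/-- the unit vector in the direction of `z` -/
noncomputable def nm (z : ℂ) : ℂ := ((‖z‖⁻¹ : ℝ) : ℂ) * z

theorem nm_norm {z : ℂ} (hz : z ≠ 0) : ‖nm z‖ = 1 := by
  unfold nm
  rw [norm_mul, Complex.norm_real, norm_inv, norm_norm]
  exact inv_mul_cancel₀ (norm_pos_iff.2 hz).ne'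

theorem nm_mul {z : ℂ} (hz : z ≠ 0) : ((‖z‖ : ℝ) : ℂ) * nm z = z := by
  unfold nm
  rw [← mul_assoc, ← Complex.ofReal_mul, mul_inv_cancel₀ (norm_pos_iff.2 hz).ne',
    Complex.ofReal_one, one_mul]

theorem cont_om {f g : ℝ → ℂ} (hf : Continuous f) (hg : Continuous g) :
    Continuous fun t => om (f t) (g t) := by
  unfold om
  exact Complex.continuous_im.comp ((Complex.continuous_conj.comp hf).mul hg)

section

variable {Y : Type*} [TopologicalSpace Y] {J : ℕ} {b : Fin J → Y → ℝ} {h : Y → Y} {α β : Y → ℂ}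

/-- root of the discriminant -/
noncomputable def dsc (h : Y → Y) (α β : Y → ℂ) (b : Fin J → Y → ℝ) (m : ℕ) (y : Y) (θ : ℝ) : ℝ :=
  Real.sqrt (tr h α β b m y θ ^ 2 - 4 * dt h α β b m y θ)

/-- the small eigenvalue, up to sign -/
noncomputable def lo (h : Y → Y) (α β : Y → ℂ) (b : Fin J → Y → ℝ) (σ : ℝ) (m : ℕ) (y : Y)
    (θ : ℝ) : ℝ := (σ * tr h α β b m y θ - dsc h α β b m y θ) / 2

/-- the large eigenvalue, up to sign -/
noncomputable def hi (h : Y → Y) (α β : Y → ℂ) (b : Fin J → Y → ℝ) (σ : ℝ) (m : ℕ) (y : Y)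
    (θ : ℝ) : ℝ := (σ * tr h α β b m y θ + dsc h α β b m y θ) / 2

theorem disc_pos (hd : CD h α β b) {ρ σ : ℝ} (hσ : σ * σ = 1) {m : ℕ} {y : Y}
    (hc : Cls h α β b ρ σ m y) {θ : ℝ} (hθ : |θ| ≤ ρ) :
    0 < tr h α β b m y θ ^ 2 - 4 * dt h α β b m y θ := by
  have h1 := hc θ hθ
  have h2 := dt_pos (h := h) (α := α) (β := β) hd.b0 hd.lt m y θ
  have h3 : (σ * tr h α β b m y θ) ^ 2 = tr h α β b m y θ ^ 2 := by
    calc _ = (σ * σ) * tr h α β b m y θ ^ 2 := by ring
      _ = _ := by rw [hσ, one_mul]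
  rw [← h3]
  nlinarith [sq_nonneg (dt h α β b m y θ - 1)]

theorem dsc_pos (hd : CD h α β b) {ρ σ : ℝ} (hσ : σ * σ = 1) {m : ℕ} {y : Y}
    (hc : Cls h α β b ρ σ m y) {θ : ℝ} (hθ : |θ| ≤ ρ) : 0 < dsc h α β b m y θ :=
  Real.sqrt_pos.2 (disc_pos hd hσ hc hθ)

theorem lo_add_hi (σ : ℝ) (m : ℕ) (y : Y) (θ : ℝ) :
    lo h α β b σ m y θ + hi h α β b σ m y θ = σ * tr h α β b m y θ := by
  unfold lo hi
  ring

theorem hi_sub_lo (σ : ℝ) (m : ℕ) (y : Y) (θ : ℝ) :
    hi h α β b σ m y θ - lo h α β b σ m y θ = dsc h α β b m y θ := by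
  unfold lo hi
  ring

theorem lo_mul_hi (hd : CD h α β b) {ρ σ : ℝ} (hσ : σ * σ = 1) {m : ℕ} {y : Y}
    (hc : Cls h α β b ρ σ m y) {θ : ℝ} (hθ : |θ| ≤ ρ) :
    lo h α β b σ m y θ * hi h α β b σ m y θ = dt h α β b m y θ := by
  have h1 : dsc h α β b m y θ ^ 2 = tr h α β b m y θ ^ 2 - 4 * dt h α β b m y θ :=
    Real.sq_sqrt (disc_pos hd hσ hc hθ).le
  have h2 : lo h α β b σ m y θ * hi h α β b σ m y θ =
      ((σ * σ) * tr h α β b m y θ ^ 2 - dsc h α β b m y θ ^ 2) / 4 := by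
    unfold lo hi
    ring
  rw [h2, h1, hσ]
  ring

/-- a pair of eigenvectors of a periodic product -/
structure EP (h : Y → Y) (α β : Y → ℂ) (b : Fin J → Y → ℝ) (σ : ℝ) (m : ℕ) (y : Y)
    (u s : ℂ) : Prop where
  nu : ‖u‖ = 1
  ns : ‖s‖ = 1
  om_pos : 0 < om u s
  eu : act (PP h α β b (0 : ℝ) m y) u = ((σ * hi h α β b σ m y 0 : ℝ) : ℂ) * u
  es : act (PP h α β b (0 : ℝ) m y) s = ((σ * lo h α β b σ m y 0 : ℝ) : ℂ) * s

theorem EP.une {σ : ℝ} {m : ℕ} {y : Y} {u s : ℂ} (hE : EP h α β b σ m y u s) : u ≠ 0 := by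
  intro h0
  have := hE.nu
  rw [h0, norm_zero] at this
  linarith

theorem EP.sne {σ : ℝ} {m : ℕ} {y : Y} {u s : ℂ} (hE : EP h α β b σ m y u s) : s ≠ 0 := by
  intro h0
  have := hE.ns
  rw [h0, norm_zero] at this
  linarith

theorem act_cont (hd : CD h α β b) (n : ℕ) (y : Y) (v : ℂ) :
    Continuous fun t : ℝ => act (PP h α β b t n y) v := by
  rw [continuous_iff_continuousAt]
  intro t
  obtain ⟨g', h1, -, -⟩ := rot (h := h) (α := α) (β := β) hd.b0 hd.one hd.lt n y v t
  exact h1.continuousAt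

/-- the eigenvector of the large eigenvalue with parameter `θ` -/
noncomputable def EE (h : Y → Y) (α β : Y → ℂ) (b : Fin J → Y → ℝ) (σ : ℝ) (m : ℕ) (y : Y)
    (u : ℂ) (θ : ℝ) : ℂ :=
  (σ : ℂ) * act (PP h α β b θ m y) u - (lo h α β b σ m y θ : ℂ) * u

theorem EE_cont (hd : CD h α β b) (σ : ℝ) (m : ℕ) (y : Y) (u : ℂ) :
    Continuous (EE h α β b σ m y u) := by
  unfold EE
  have h1 := act_cont (h := h) (α := α) (β := β) hd m y u
  have h2 : Continuous (lo h α β b σ m y) := by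
    unfold lo dsc
    have h3 := tr_cont (h := h) (α := α) (β := β) (b := b) m y
    have h4 := dt_cont (h := h) (α := α) (β := β) (b := b) m y
    exact ((continuous_const.mul h3).sub
      (Real.continuous_sqrt.comp ((h3.pow 2).sub (continuous_const.mul h4)))).div_const 2
  exact (continuous_const.mul h1).sub ((Complex.continuous_ofReal.comp h2).mul continuous_const)

theorem EE_eig (hd : CD h α β b) {ρ σ : ℝ} (hσ : σ * σ = 1) {m : ℕ} {y : Y}
    (hc : Cls h α β b ρ σ m y) {θ : ℝ} (hθ : |θ| ≤ ρ) (u : ℂ) :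
    act (PP h α β b θ m y) (EE h α β b σ m y u θ) =
      ((σ * hi h α β b σ m y θ : ℝ) : ℂ) * EE h α β b σ m y u θ := by
  unfold EE
  rw [act_sub, act_smul, act_smul, act_cayley]
  have h4 : ‖PP h α β b θ m y 0 0‖ ^ 2 - ‖PP h α β b θ m y 0 1‖ ^ 2 = dt h α β b m y θ := rfl
  have h5 : 2 * (PP h α β b θ m y 0 0).re = tr h α β b m y θ := rfl
  rw [h4, h5]
  have h1 : (σ : ℂ) * σ = 1 := by exact_mod_cast hσ
  have h2 : (lo h α β b σ m y θ : ℂ) + hi h α β b σ m y θ = σ * tr h α β b m y θ := by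
    exact_mod_cast lo_add_hi σ m y θ
  have h3 : (lo h α β b σ m y θ : ℂ) * hi h α β b σ m y θ = dt h α β b m y θ := by
    exact_mod_cast lo_mul_hi hd hσ hc hθ
  rw [Complex.ofReal_mul]
  linear_combination (-act (PP h α β b θ m y) u) * h2 -
    (hi h α β b σ m y θ : ℂ) * act (PP h α β b θ m y) u * h1 + σ * u * h3

theorem EE_pos (hd : CD h α β b) {ρ σ : ℝ} (hσ : σ * σ = 1) {m : ℕ} (hm : 1 ≤ m) {y : Y}
    (hc : Cls h α β b ρ σ m y) {u s : ℂ} (hE : EP h α β b σ m y u s) {θ : ℝ} (hθ : |θ| < ρ) :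
    0 < om (EE h α β b σ m y u θ) s ∧ (0 < θ → 0 < om u (EE h α β b σ m y u θ)) ∧
      (θ < 0 → om u (EE h α β b σ m y u θ) < 0) := by
  set W := om u s with hW
  have hWpos : 0 < W := hE.om_pos
  have hu0 : om u (act (PP h α β b (0 : ℝ) m y) u) = 0 := by
    rw [hE.eu, om_smul_right, om_self, mul_zero]
  have hs0 : om s (act (PP h α β b (0 : ℝ) m y) s) = 0 := by
    rw [hE.es, om_smul_right, om_self, mul_zero]
  set f : ℝ → ℝ := fun t => σ * (om (act (PP h α β b t m y) u) s -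
    om u (act (PP h α β b t m y) s)) with hf
  -- signs
  have hsg : ∀ w : ℂ, w ≠ 0 → om w (act (PP h α β b (0 : ℝ) m y) w) = 0 → ∀ t : ℝ, |t| < ρ →
      (0 < t → 0 < σ * om w (act (PP h α β b t m y) w)) ∧
      (t < 0 → σ * om w (act (PP h α β b t m y) w) < 0) := by
    intro w hw hw0 t ht
    constructor
    · intro ht0
      exact (sgn hd.b0 hd.one hd.lt hσ hm hc hw hw0 ht0 (lt_of_le_of_lt (le_abs_self t) ht)).1
    · intro ht0
      have := (sgn hd.b0 hd.one hd.lt hσ hm hc hw hw0 (θ := -t) (by linarith)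
        (lt_of_le_of_lt (neg_le_abs t) ht)).2
      rwa [neg_neg] at this
  have hcb : ∀ t : ℝ, |t| < ρ → 0 ≤ om u (act (PP h α β b t m y) u) *
      om s (act (PP h α β b t m y) s) := by
    intro t ht
    obtain ⟨a1, a2⟩ := hsg u hE.une hu0 t ht
    obtain ⟨a3, a4⟩ := hsg s hE.sne hs0 t ht
    have h1 : om u (act (PP h α β b t m y) u) * om s (act (PP h α β b t m y) s) =
        (σ * om u (act (PP h α β b t m y) u)) * (σ * om s (act (PP h α β b t m y) s)) := by
      calc _ = (σ * σ) * (om u (act (PP h α β b t m y) u) *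
          om s (act (PP h α β b t m y) s)) := by rw [hσ, one_mul]
        _ = _ := by ring
    rw [h1]
    rcases lt_trichotomy t 0 with h2 | h2 | h2
    · exact mul_nonneg_of_nonpos_of_nonpos (a2 h2).le (a4 h2).le
    · rw [h2, hu0, mul_zero, zero_mul]
    · exact mul_nonneg (a1 h2).le (a3 h2).le
  have hT : ∀ t : ℝ, om (act (PP h α β b t m y) u) s + om u (act (PP h α β b t m y) s) =
      tr h α β b m y t * W := fun t => om_trace _ _ _
  have hsq : ∀ t : ℝ, |t| < ρ →
      (tr h α β b m y t ^ 2 - 4 * dt h α β b m y t) * W ^ 2 ≤ f t ^ 2 := by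
    intro t ht
    have h1 := hT t
    have h2 := om_plucker (act (PP h α β b t m y) u) (act (PP h α β b t m y) s) u s
    rw [om_act] at h2
    have h4 : ‖PP h α β b t m y 0 0‖ ^ 2 - ‖PP h α β b t m y 0 1‖ ^ 2 = dt h α β b m y t := rfl
    rw [h4, ← hW, om_comm u (act (PP h α β b t m y) u), om_comm s (act (PP h α β b t m y) s),
      om_comm u (act (PP h α β b t m y) s)] at h2
    have h3 := hcb t ht
    have h5 : f t ^ 2 = (σ * σ) * (om (act (PP h α β b t m y) u) s -
      om u (act (PP h α β b t m y) s)) ^ 2 := by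
      simp only [hf]
      ring
    rw [h5, hσ, one_mul]
    set A := om (act (PP h α β b t m y) u) s
    set D := om u (act (PP h α β b t m y) s)
    set c := om u (act (PP h α β b t m y) u)
    set e := om s (act (PP h α β b t m y) s)
    have h6 : (tr h α β b m y t ^ 2 - 4 * dt h α β b m y t) * W ^ 2 =
        (tr h α β b m y t * W) ^ 2 - 4 * (dt h α β b m y t * W * W) := by ring
    rw [h6, ← h1, h2]
    nlinarith
  have hfne : ∀ t : ℝ, |t| < ρ → f t ≠ 0 := by
    intro t ht h1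
    have h2 := hsq t ht
    rw [h1] at h2
    have h3 := disc_pos hd hσ hc ht.le
    have h4 : 0 < (tr h α β b m y t ^ 2 - 4 * dt h α β b m y t) * W ^ 2 := by positivity
    linarith
  have hρ : 0 < ρ := lt_of_le_of_lt (abs_nonneg θ) hθ
  have hf0 : 0 < f 0 := by
    have h1 : f 0 = (σ * σ) * ((hi h α β b σ m y 0 - lo h α β b σ m y 0) * W) := by
      simp only [hf]
      rw [hE.eu, hE.es, om_smul_left, om_smul_right]
      ring
    rw [h1, hσ, one_mul, hi_sub_lo]
    have := dsc_pos hd hσ hc (θ := 0) (by simp [hρ.le])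
    positivity
  have hfc : Continuous f := by
    have h1 := act_cont (h := h) (α := α) (β := β) hd m y u
    have h2 := act_cont (h := h) (α := α) (β := β) hd m y s
    exact continuous_const.mul ((cont_om h1 continuous_const).sub (cont_om continuous_const h2))
  have hfpos : 0 < f θ := by
    have := sign_const (f := fun t => -f t) hfc.neg (ρ := |θ|)
      (fun x hx h1 => hfne x (lt_of_le_of_lt hx hθ) (by linarith)) (by linarith) le_rfl
    linarith
  have hds := dsc_pos hd hσ hc hθ.le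
  refine ⟨?_, ?_, ?_⟩
  · unfold EE
    rw [om_sub_left, om_smul_left, om_smul_left, ← hW]
    have h1 := hT θ
    have h2 : σ * om (act (PP h α β b θ m y) u) s - lo h α β b σ m y θ * W =
        (f θ + dsc h α β b m y θ * W) / 2 := by
      simp only [hf]
      unfold lo
      linear_combination (σ / 2) * h1
    rw [h2]
    positivity
  · intro ht
    unfold EE
    rw [om_sub_right, om_smul_right, om_smul_right, om_self, mul_zero, sub_zero]
    exact (hsg u hE.une hu0 θ hθ).1 ht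
  · intro ht
    unfold EE
    rw [om_sub_right, om_smul_right, om_smul_right, om_self, mul_zero, sub_zero]
    exact (hsg u hE.une hu0 θ hθ).2 ht

end

end Pool.Agent.Helper21S
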