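import Pool.Agent.Helper21S.Sad3

/-!
# Project ST: one step of the slopes
-/

set_option autoImplicit false
set_option linter.unusedSectionVars false

open Filter Set Complex Topology

namespace Pool.Agent.Helper21S

/-- scalar product -/
noncomputable def sp (u v : ℂ) : ℝ := ((starRingEnd ℂ) u * v).re

theorem om_mul_left (D w s : ℂ) : om (D * w) s = D.re * om w s - D.im * sp w s := by
  unfold om sp
  simp only [map_mul, mul_re, mul_im, conj_re, conj_im]
  ring

theorem om_mul_right (D u w : ℂ) : om u (D * w) = D.re * om u w + D.im * sp u w := by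
  unfold om sp
  simp only [mul_re, mul_im, conj_re, conj_im]
  ring

theorem sp_self {u : ℂ} (hu : ‖u‖ = 1) : sp u u = 1 := by
  unfold sp
  rw [mul_comm, Complex.mul_conj, Complex.normSq_eq_norm_sq, hu]
  simp

theorem sp_comb_left (x z : ℝ) (u s v : ℂ) : sp ((x : ℂ) * u + z * s) v = x * sp u v + z * sp s v := by
  unfold sp
  simp only [map_mul, map_add, mul_re, mul_im, add_re, add_im, conj_re, conj_im, ofReal_re,
    ofReal_im]
  ring

theorem sp_comb_right (x z : ℝ) (u s v : ℂ) : sp v ((x : ℂ) * u + z * s) = x * sp v u + z * sp v s := by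
  unfold sp
  simp only [mul_re, mul_im, add_re, add_im, conj_re, conj_im, ofReal_re,
    ofReal_im]
  ring

/-- the real inequalities -/
theorem slope_real {p q p' q' pm qm pm' a a' W W' c cm D1 D2 N cs g : ℝ} (hp : 0 < p) (hq : 0 < q)
    (hp' : 0 < p') (hpm : 0 < pm) (hqm : qm < 0) (hpm' : 0 < pm') (ha : 0 < a) (ha' : 0 < a')
    (hW : 0 < W) (hW' : 0 < W') (hc : 0 < c) (hcm : 0 < cm) (hD2 : 0 < D2) (hN : 0 < N)
    (hN2 : N ^ 2 = D1 ^ 2 + D2 ^ 2) (hg : 0 < g) (hgN : g * N ≤ D2) (hcs : W' ^ 2 + cs ^ 2 = 1)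
    (h1 : W * (c * p') = D1 * (p * a * W') - D2 * (p * a * cs + q * a'))
    (h2 : W * (c * q') = D1 * (q * a' * W') + D2 * (p * a + q * a' * cs))
    (h3 : W * (cm * pm') = D1 * (pm * a * W') + D2 * (pm * a * cs + qm * a')) :
    g ≤ W' ∧ g * (q * a') ≤ p * a ∧ (q * a' / (p * a) + g ^ 3) * p' ≤ q' := by
  set x := q * a' / (p * a) with hx
  have hpa : 0 < p * a := by positivity
  have hxpos : 0 < x := by positivity
  have hqa : q * a' = x * (p * a) := by
    rw [hx]
    field_simp
  set k := W * c / (p * a) with hk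
  have hkpos : 0 < k := by positivity
  have hWc : W * c = k * (p * a) := by
    rw [hk]
    field_simp
  have e1 : k * p' = D1 * W' - D2 * (cs + x) := by
    have : (p * a) * (k * p') = (p * a) * (D1 * W' - D2 * (cs + x)) := by
      calc (p * a) * (k * p') = W * (c * p') := by
            rw [← mul_assoc W, hWc]
            ring
        _ = _ := by
            rw [h1, hqa]
            ring
    exact mul_left_cancel₀ hpa.ne' this
  have e2 : k * q' = D1 * x * W' + D2 * (1 + x * cs) := by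
    have : (p * a) * (k * q') = (p * a) * (D1 * x * W' + D2 * (1 + x * cs)) := by
      calc (p * a) * (k * q') = W * (c * q') := by
            rw [← mul_assoc W, hWc]
            ring
        _ = _ := by
            rw [h2, hqa]
            ring
    exact mul_left_cancel₀ hpa.ne' this
  have e3 : 0 < D1 * W' + D2 * cs := by
    have h4 : 0 < W * (cm * pm') := by positivity
    rw [h3] at h4
    have h5 : 0 < D2 * (-(qm * a')) := mul_pos hD2 (by nlinarith)
    have h6 : 0 < (pm * a) * (D1 * W' + D2 * cs) := by nlinarith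
    exact (pos_iff_pos_of_mul_pos h6).1 (by positivity)
  have e4 : 0 < D1 * W' - D2 * cs := by
    have h4 : 0 < k * p' := by positivity
    rw [e1] at h4
    have h5 : 0 < D2 * x := by positivity
    linarith
  have e5 : (D1 * W' - D2 * cs) ^ 2 ≤ N ^ 2 := by
    have : N ^ 2 = N ^ 2 * (W' ^ 2 + cs ^ 2) := by rw [hcs, mul_one]
    rw [this, hN2]
    nlinarith [sq_nonneg (D1 * cs + D2 * W')]
  have e6 : D1 * W' - D2 * cs ≤ N := abs_le_of_sq_le_sq' e5 hN.le |>.2
  have f1 : g ≤ W' := by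
    have h4 : 0 < (D1 * W' - D2 * cs) * (D1 * W' + D2 * cs) := mul_pos e4 e3
    have h5 : D2 ^ 2 < W' ^ 2 * N ^ 2 := by
      have h6 : cs ^ 2 = 1 - W' ^ 2 := by linarith
      have h7 : (D1 * W' - D2 * cs) * (D1 * W' + D2 * cs) = D1 ^ 2 * W' ^ 2 - D2 ^ 2 * cs ^ 2 := by
        ring
      rw [h7, h6] at h4
      rw [hN2]
      nlinarith
    have h6 : (g * N) ^ 2 ≤ D2 ^ 2 := by
      have : 0 ≤ g * N := by positivity
      gcongr
    have h7 : g * N ≤ W' * N := by
      apply le_of_sq_le_sq _ (by positivity)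
      rw [mul_pow W']
      linarith
    exact le_of_mul_le_mul_right h7 hN
  refine ⟨f1, ?_, ?_⟩
  · have h4 : 0 < k * p' := by positivity
    rw [e1] at h4
    have h5 : D2 * x ≤ N := by linarith
    have h6 : g * N * x ≤ N := by nlinarith
    have h7 : g * x ≤ 1 := by
      have : (g * x) * N ≤ 1 * N := by linarith
      exact le_of_mul_le_mul_right this hN
    rw [hqa]
    nlinarith
  · have h4 : k * (q' - x * p') = D2 * ((x + cs) ^ 2 + W' ^ 2) := by
      have : k * (q' - x * p') = k * q' - x * (k * p') := by ring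
      rw [this, e1, e2]
      have h5 : (1 : ℝ) = W' ^ 2 + cs ^ 2 := hcs.symm
      linear_combination (D2) * h5
    have h5 : k * p' ≤ N := by
      rw [e1]
      have : 0 < D2 * x := by positivity
      linarith
    have h6 : g ^ 3 * N ≤ D2 * W' ^ 2 := by
      have h7 : g ^ 2 ≤ W' ^ 2 := by gcongr
      calc g ^ 3 * N = (g * N) * g ^ 2 := by ring
        _ ≤ D2 * W' ^ 2 := mul_le_mul hgN h7 (by positivity) hD2.le
    have h7 : g ^ 3 * (k * p') ≤ g ^ 3 * N := mul_le_mul_of_nonneg_left h5 (by positivity)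
    have h8 : D2 * W' ^ 2 ≤ D2 * ((x + cs) ^ 2 + W' ^ 2) := by
      apply mul_le_mul_of_nonneg_left _ hD2.le
      nlinarith [sq_nonneg (x + cs)]
    have h9 : k * (g ^ 3 * p') ≤ k * (q' - x * p') := by
      rw [h4]
      calc k * (g ^ 3 * p') = g ^ 3 * (k * p') := by ring
        _ ≤ _ := h7.trans (h6.trans h8)
    have := le_of_mul_le_mul_left h9 hkpos
    linarith

section

variable {Y : Type*} [TopologicalSpace Y] {J : ℕ} {b : Fin J → Y → ℝ} {h : Y → Y} {α β : Y → ℂ}

theorem MM_real (θ : ℝ) (y : Y) : MM α β b θ y 1 1 = (starRingEnd ℂ) (MM α β b θ y 0 0) ∧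
    MM α β b θ y 1 0 = (starRingEnd ℂ) (MM α β b θ y 0 1) := by
  have := real_form (h := id) (α := α) (β := β) (b := b) θ 1 y
  rwa [PP_one] at this

theorem act_PP_MM (θ : ℝ) (n : ℕ) (y : Y) (v : ℂ) :
    act (PP h α β b θ n (h y)) (act (MM α β b θ y) v) = act (PP h α β b θ (n + 1) y) v := by
  rw [← act_mul (MM_real θ y).1 (MM_real θ y).2]
  rfl

theorem act_MM_PP (θ : ℝ) (n : ℕ) (y : Y) (v : ℂ) :
    act (MM α β b θ (h^[n] y)) (act (PP h α β b θ n y) v) = act (PP h α β b θ (n + 1) y) v := by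
  obtain ⟨q1, q2⟩ := real_form h (α := α) (β := β) (b := b) θ n y
  rw [PP_succ', act_mul q1 q2]

theorem act_MM_ne (hd : CD h α β b) (θ : ℝ) (y : Y) {v : ℂ} (hv : v ≠ 0) :
    act (MM α β b θ y) v ≠ 0 := by
  have := act_ne (h := h) (α := α) (β := β) hd.b0 hd.lt θ 1 y hv
  rwa [PP_one] at this

theorem Dp_zero (y : Y) : Dp b ((0 : ℝ) : ℂ) y = 1 := by
  unfold Dp
  simp

/-- one step of real vectors -/
theorem act_MM' (θ : ℝ) (y : Y) (v : ℂ) :
    act (MM α β b θ y) v = Dp b θ y * act (MM α β b (0 : ℝ) y) v := by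
  rw [act_MM, act_MM, Dp_zero, one_mul]

theorem om_MM (hd : CD h α β b) (y : Y) {u s : ℂ} (hus : 0 < om u s) :
    0 < om (act (MM α β b (0 : ℝ) y) u) (act (MM α β b (0 : ℝ) y) s) := by
  rw [act_MM, act_MM, Dp_zero, one_mul, one_mul, om_lin]
  exact mul_pos (det_pos hd.lt y) hus

theorem hi_h {σ : ℝ} {m : ℕ} {y : Y} (hy : h^[m] y = y) (θ : ℝ) :
    hi h α β b σ m (h y) θ = hi h α β b σ m y θ ∧ lo h α β b σ m (h y) θ = lo h α β b σ m y θ := by
  unfold hi lo dsc
  rw [(tr_h hy θ).1, (tr_h hy θ).2]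
  exact ⟨rfl, rfl⟩

theorem EP.next (hd : CD h α β b) {σ : ℝ} {m : ℕ} {y : Y} (hy : h^[m] y = y) {u s : ℂ}
    (hE : EP h α β b σ m y u s) : EP h α β b σ m (h y) (nm (act (MM α β b (0 : ℝ) y) u))
      (nm (act (MM α β b (0 : ℝ) y) s)) := by
  have hu := act_MM_ne hd 0 y hE.une
  have hs := act_MM_ne hd 0 y hE.sne
  refine ⟨nm_norm hu, nm_norm hs, ?_, ?_, ?_⟩
  · unfold nm
    rw [om_smul_left, om_smul_right]
    have h1 := om_MM hd y hE.om_pos
    have h2 := norm_pos_iff.2 hu
    have h3 := norm_pos_iff.2 hs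
    positivity
  · unfold nm
    have h1 : act (PP h α β b (0 : ℝ) m (h y)) (act (MM α β b (0 : ℝ) y) u) =
        ((σ * hi h α β b σ m y 0 : ℝ) : ℂ) * act (MM α β b (0 : ℝ) y) u := by
      rw [act_PP_MM, ← act_MM_PP, hy, hE.eu, act_smul]
    rw [act_smul, h1, (hi_h hy 0).1]
    ring
  · unfold nm
    have h1 : act (PP h α β b (0 : ℝ) m (h y)) (act (MM α β b (0 : ℝ) y) s) =
        ((σ * lo h α β b σ m y 0 : ℝ) : ℂ) * act (MM α β b (0 : ℝ) y) s := by
      rw [act_PP_MM, ← act_MM_PP, hy, hE.es, act_smul]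
    rw [act_smul, h1, (hi_h hy 0).2]
    ring

/-- the eigenvectors with parameter `θ` correspond to each other -/
theorem EE_next (hd : CD h α β b) {ρ σ : ℝ} (hσ : σ * σ = 1) {m : ℕ} (hm : 1 ≤ m) {y : Y}
    (hy : h^[m] y = y) (hc : Cls h α β b ρ σ m y) {u s : ℂ} (hE : EP h α β b σ m y u s) {θ : ℝ}
    (hθ : |θ| < ρ) : ∃ c : ℝ, 0 < c ∧ act (MM α β b θ y) (EE h α β b σ m y u θ) =
      c * EE h α β b σ m (h y) (nm (act (MM α β b (0 : ℝ) y) u)) θ := by
  set u' := nm (act (MM α β b (0 : ℝ) y) u) with hu'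
  set s' := nm (act (MM α β b (0 : ℝ) y) s) with hs'
  have hE' : EP h α β b σ m (h y) u' s' := hE.next hd hy
  have hc' := hc.next hy
  have hex : ∀ t : ℝ, |t| < ρ → ∃ c : ℝ, c ≠ 0 ∧ act (MM α β b t y) (EE h α β b σ m y u t) =
      c * EE h α β b σ m (h y) u' t := by
    intro t ht
    have h1 := EE_eig hd hσ hc ht.le u
    have h2 := EE_eig hd hσ hc' ht.le u'
    have h3 := (EE_pos hd hσ hm hc' hE' ht).1
    have h4 := (EE_pos hd hσ hm hc hE ht).1
    have hEne : EE h α β b σ m y u t ≠ 0 := by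
      intro h0
      rw [h0, om_zero_left] at h4
      exact lt_irrefl _ h4
    have hE'ne : EE h α β b σ m (h y) u' t ≠ 0 := by
      intro h0
      rw [h0, om_zero_left] at h3
      exact lt_irrefl _ h3
    set Z := act (MM α β b t y) (EE h α β b σ m y u t) with hZ
    have hZne : Z ≠ 0 := act_MM_ne hd t y hEne
    have h5 : act (PP h α β b t m (h y)) Z = ((σ * hi h α β b σ m y t : ℝ) : ℂ) * Z := by
      rw [hZ, act_PP_MM, ← act_MM_PP, hy, h1, act_smul]
    rw [(hi_h hy t).1] at h2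
    have h6 := om_trace (PP h α β b t m (h y)) (EE h α β b σ m (h y) u' t) Z
    rw [h5, h2, om_smul_left, om_smul_right] at h6
    have h7 : 2 * (PP h α β b t m (h y) 0 0).re = tr h α β b m y t := (tr_h hy t).1
    rw [h7] at h6
    have h8 : (hi h α β b σ m y t - lo h α β b σ m y t) *
        om (EE h α β b σ m (h y) u' t) Z = 0 := by
      have h9 := lo_add_hi (h := h) (α := α) (β := β) (b := b) σ m y t
      have h10 : (hi h α β b σ m y t - lo h α β b σ m y t) = 2 * hi h α β b σ m y t -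
        σ * tr h α β b m y t := by linarith
      rw [h10]
      have h11 : tr h α β b m y t * om (EE h α β b σ m (h y) u' t) Z =
        2 * σ * hi h α β b σ m y t * om (EE h α β b σ m (h y) u' t) Z := by linarith
      have h12 : σ * tr h α β b m y t * om (EE h α β b σ m (h y) u' t) Z =
          2 * (σ * σ) * hi h α β b σ m y t * om (EE h α β b σ m (h y) u' t) Z := by
        rw [mul_assoc, h11]
        ring
      rw [hσ] at h12
      rw [sub_mul, h12]
      ring
    rw [hi_sub_lo] at h8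
    have h9 := dsc_pos hd hσ hc ht.le
    have h10 : om (EE h α β b σ m (h y) u' t) Z = 0 := by
      rcases mul_eq_zero.1 h8 with h | h
      · exact absurd h h9.ne'
      · exact h
    obtain ⟨c, hc1⟩ := parallel hE'ne h10
    refine ⟨c, ?_, hc1⟩
    rintro rfl
    rw [Complex.ofReal_zero, zero_mul] at hc1
    exact hZne hc1
  obtain ⟨c, hc0, hc1⟩ := hex θ hθ
  refine ⟨c, ?_, hc1⟩
  -- sign of `c`
  set G : ℝ → ℝ := fun t => om (act (MM α β b t y) (EE h α β b σ m y u t)) s' with hG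
  have hGc : Continuous G := by
    apply cont_om _ continuous_const
    have h1 := EE_cont hd σ m y u
    have h2 : (fun t : ℝ => act (MM α β b t y) (EE h α β b σ m y u t)) = fun t : ℝ =>
        Dp b t y * (α y * EE h α β b σ m y u t + β y *
          (starRingEnd ℂ) (EE h α β b σ m y u t)) := by
      funext t
      exact act_MM _ _ _
    rw [h2]
    have h3 : Continuous fun t : ℝ => Dp b (t : ℂ) y :=
      (isPoly_Dp b y).differentiable.continuous.comp Complex.continuous_ofReal
    exact h3.mul ((continuous_const.mul h1).add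
      (continuous_const.mul (Complex.continuous_conj.comp h1)))
  have hρ : 0 < ρ := lt_of_le_of_lt (abs_nonneg θ) hθ
  have hG0 : 0 < G 0 := by
    have h1 : EE h α β b σ m y u 0 = ((dsc h α β b m y 0 : ℝ) : ℂ) * u := by
      unfold EE
      rw [hE.eu, ← hi_sub_lo σ]
      have h1 : (σ : ℂ) * σ = 1 := by exact_mod_cast hσ
      push_cast
      linear_combination (hi h α β b σ m y 0 : ℂ) * u * h1
    have h2 : act (MM α β b (0 : ℝ) y) u = ((‖act (MM α β b (0 : ℝ) y) u‖ : ℝ) : ℂ) * u' :=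
      (nm_mul (act_MM_ne hd 0 y hE.une)).symm
    simp only [hG]
    rw [h1, act_smul, h2, om_smul_left, om_smul_left]
    have h3 := dsc_pos hd hσ hc (θ := 0) (by simp [hρ.le])
    have h4 := hE'.om_pos
    have h5 := norm_pos_iff.2 (act_MM_ne hd 0 y hE.une)
    positivity
  have hGne : ∀ t : ℝ, |t| ≤ |θ| → G t ≠ 0 := by
    intro t ht h1
    obtain ⟨c', hc0', hc1'⟩ := hex t (lt_of_le_of_lt ht hθ)
    have h3 := (EE_pos hd hσ hm hc' hE' (lt_of_le_of_lt ht hθ)).1
    simp only [hG] at h1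
    rw [hc1', om_smul_left] at h1
    rcases mul_eq_zero.1 h1 with h | h
    · exact hc0' h
    · rw [h] at h3
      exact lt_irrefl _ h3
  have h1 := sign_const (f := fun t => -G t) hGc.neg (ρ := |θ|)
    (fun x hx h1 => hGne x hx (by linarith)) (by linarith) le_rfl
  have h2 : 0 < G θ := by linarith
  simp only [hG] at h2
  rw [hc1, om_smul_left] at h2
  exact (pos_iff_pos_of_mul_pos h2).2 (EE_pos hd hσ hm hc' hE' hθ).1

end

end Pool.Agent.Helper21S
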