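import Pool.Agent.Helper21S.Sad4

/-!
# Project ST: bounds of the slopes and growth with an imaginary parameter
-/

set_option autoImplicit false
set_option linter.unusedSectionVars false

open Filter Set Complex Topology

namespace Pool.Agent.Helper21S

section

variable {Y : Type*} [TopologicalSpace Y] {J : ℕ} {b : Fin J → Y → ℝ} {h : Y → Y} {α β : Y → ℂ}

theorem Dp_im_aux (h0 : ∀ j y, 0 ≤ b j y) (hb1 : ∀ j y, b j y ≤ 1) {θ : ℝ} (hθ : 0 < θ) (y : Y)
    (s : Finset (Fin J)) : θ * s.card ≤ 1 / 2 →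
      0 < (∏ j ∈ s, (1 + I * (b j y : ℂ) * θ)).re ∧
      0 ≤ (∏ j ∈ s, (1 + I * (b j y : ℂ) * θ)).im ∧
      (∏ j ∈ s, (1 + I * (b j y : ℂ) * θ)).im ≤
        2 * (s.card * θ) * (∏ j ∈ s, (1 + I * (b j y : ℂ) * θ)).re ∧
      ((∃ j ∈ s, b j y = 1) → 0 < (∏ j ∈ s, (1 + I * (b j y : ℂ) * θ)).im) := by
  classical
  induction s using Finset.induction_on with
  | empty =>
    intro _
    refine ⟨by simp, by simp, by simp, ?_⟩
    rintro ⟨j, hj, -⟩
    simp at hj
  | insert a s ha ih =>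
    intro hs
    rw [Finset.card_insert_of_notMem ha] at hs ⊢
    push_cast at hs ⊢
    have hk : (0 : ℝ) ≤ s.card := by positivity
    obtain ⟨i1, i2, i3, i4⟩ := ih (by nlinarith)
    rw [Finset.prod_insert ha]
    set z := ∏ j ∈ s, (1 + I * (b j y : ℂ) * θ) with hz
    set k : ℝ := (s.card : ℝ) with hkd
    set τ : ℝ := b a y * θ with hτ
    have hτ0 : 0 ≤ τ := mul_nonneg (h0 a y) hθ.le
    have hτ1 : τ ≤ θ := by
      have := hb1 a y
      nlinarith
    have e1 : ((1 + I * (b a y : ℂ) * θ) * z).re = z.re - τ * z.im := by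
      simp only [mul_re, add_re, one_re, I_re, ofReal_re, I_im, ofReal_im, mul_im, add_im, one_im,
        hτ]
      ring
    have e2 : ((1 + I * (b a y : ℂ) * θ) * z).im = z.im + τ * z.re := by
      simp only [mul_re, add_re, one_re, I_re, ofReal_re, I_im, ofReal_im, mul_im, add_im, one_im,
        hτ]
      ring
    rw [e1, e2]
    have f1 : τ * z.im ≤ θ * (2 * (k * θ) * z.re) := mul_le_mul hτ1 i3 i2 hθ.le
    have f2 : (k + 1) * θ ≤ 1 / 2 := by linarith
    have f3 : 2 * (k * θ) * θ * ((k + 1)) ≤ 1 / 2 := by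
      have h1 : (k * θ) * ((k + 1) * θ) ≤ (1 / 2) * (1 / 2) := by
        apply mul_le_mul _ f2 (by positivity) (by norm_num)
        nlinarith
      nlinarith
    have f4 : 2 * (k * θ) * θ ≤ 1 / 2 := by
      have : 0 ≤ 2 * (k * θ) * θ * k := by positivity
      nlinarith
    refine ⟨?_, ?_, ?_, ?_⟩
    · have h1 : θ * (2 * (k * θ) * z.re) = (2 * (k * θ) * θ) * z.re := by ring
      rw [h1] at f1
      nlinarith
    · have := mul_nonneg hτ0 i1.le
      linarith
    · have h1 : τ * z.re ≤ θ * z.re := mul_le_mul_of_nonneg_right hτ1 i1.le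
      have h2 : 2 * ((k + 1) * θ) * (τ * z.im) ≤ 2 * ((k + 1) * θ) * (θ * (2 * (k * θ) * z.re)) :=
        mul_le_mul_of_nonneg_left f1 (by positivity)
      have h3 : 2 * ((k + 1) * θ) * (θ * (2 * (k * θ) * z.re)) =
          2 * (2 * (k * θ) * θ * (k + 1)) * (θ * z.re) := by ring
      have h4 : 2 * (2 * (k * θ) * θ * (k + 1)) * (θ * z.re) ≤ 1 * (θ * z.re) :=
        mul_le_mul_of_nonneg_right (by linarith) (by positivity)
      nlinarith
    · rintro ⟨j, hj, hj1⟩
      rcases Finset.mem_insert.1 hj with rfl | hj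
      · have : 0 < τ * z.re := by
          rw [hτ, hj1, one_mul]
          positivity
        linarith
      · have := i4 ⟨j, hj, hj1⟩
        have := mul_nonneg hτ0 i1.le
        linarith

theorem Dp_im (hd : CD h α β b) {θ : ℝ} (hθ : 0 < θ) (hθJ : θ * J ≤ 1 / 2) (y : Y) :
    0 < (Dp b θ y).im := by
  obtain ⟨j, hj⟩ := hd.one y
  exact (Dp_im_aux hd.b0 hd.b1 hθ y Finset.univ (by simpa using hθJ)).2.2.2
    ⟨j, Finset.mem_univ j, hj⟩

theorem Dp_conj (θ : ℝ) (y : Y) : Dp b ((-θ : ℝ) : ℂ) y = (starRingEnd ℂ) (Dp b θ y) := by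
  unfold Dp
  rw [map_prod]
  refine Finset.prod_congr rfl fun j _ => ?_
  simp

theorem exists_g [CompactSpace Y] (hd : CD h α β b) {θ : ℝ} (hθ : 0 < θ) (hθJ : θ * J ≤ 1 / 2) :
    ∃ g : ℝ, 0 < g ∧ g ≤ 1 ∧ ∀ y, g * ‖Dp b θ y‖ ≤ (Dp b θ y).im := by
  rcases isEmpty_or_nonempty Y with he | hne
  · exact ⟨1, one_pos, le_rfl, fun y => (he.false y).elim⟩
  have hc : Continuous fun y => Dp b (θ : ℂ) y := by
    unfold Dp
    apply continuous_finsetProd
    intro j _
    have := hd.cb j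
    fun_prop
  have hpos : ∀ y, 0 < ‖Dp b (θ : ℂ) y‖ := fun y => by
    rw [norm_pos_iff]
    intro h0
    have := Dp_im hd hθ hθJ y
    rw [h0] at this
    simp at this
  have hc2 : Continuous fun y => (Dp b (θ : ℂ) y).im / ‖Dp b (θ : ℂ) y‖ :=
    (Complex.continuous_im.comp hc).div hc.norm fun y => (hpos y).ne'
  obtain ⟨y₁, -, hy₁⟩ := isCompact_univ.exists_isMinOn univ_nonempty hc2.continuousOn
  refine ⟨min 1 ((Dp b (θ : ℂ) y₁).im / ‖Dp b (θ : ℂ) y₁‖),
    lt_min one_pos (div_pos (Dp_im hd hθ hθJ y₁) (hpos y₁)), min_le_left _ _, fun y => ?_⟩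
  have h1 := (min_le_right 1 ((Dp b (θ : ℂ) y₁).im / ‖Dp b (θ : ℂ) y₁‖)).trans
    (hy₁ (mem_univ y))
  exact (le_div_iff₀ (hpos y)).1 h1

/-- the slope -/
noncomputable def slp (h : Y → Y) (α β : Y → ℂ) (b : Fin J → Y → ℝ) (σ : ℝ) (m : ℕ) (y : Y)
    (u s : ℂ) (θ : ℝ) : ℝ :=
  om u (EE h α β b σ m y u θ) / om (EE h α β b σ m y u θ) s

theorem slope_step (hd : CD h α β b) {ρ σ : ℝ} (hσ : σ * σ = 1) {m : ℕ} (hm : 1 ≤ m) {y : Y}
    (hy : h^[m] y = y) (hc : Cls h α β b ρ σ m y) {u s : ℂ} (hE : EP h α β b σ m y u s) {θ : ℝ}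
    (hθ : 0 < θ) (hθρ : θ < ρ) {g : ℝ} (hg : 0 < g) (hgN : g * ‖Dp b θ y‖ ≤ (Dp b θ y).im)
    (hD : 0 < (Dp b θ y).im) :
    g ≤ om (nm (act (MM α β b (0 : ℝ) y) u)) (nm (act (MM α β b (0 : ℝ) y) s)) ∧
    g * (‖act (MM α β b (0 : ℝ) y) s‖ * slp h α β b σ m y u s θ) ≤
      ‖act (MM α β b (0 : ℝ) y) u‖ ∧
    ‖act (MM α β b (0 : ℝ) y) s‖ / ‖act (MM α β b (0 : ℝ) y) u‖ * slp h α β b σ m y u s θ + g ^ 3 ≤
      slp h α β b σ m (h y) (nm (act (MM α β b (0 : ℝ) y) u))
        (nm (act (MM α β b (0 : ℝ) y) s)) θ := by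
  obtain ⟨c, hc0, hZ⟩ := EE_next hd hσ hm hy hc hE (θ := θ) (by rwa [abs_of_pos hθ])
  obtain ⟨cm, hcm0, hZm⟩ := EE_next hd hσ hm hy hc hE (θ := -θ)
    (by rwa [abs_neg, abs_of_pos hθ])
  have hE' := hE.next hd hy
  have hc' := hc.next hy
  have hau := act_MM_ne hd 0 y hE.une
  have has := act_MM_ne hd 0 y hE.sne
  have hu1 := nm_mul hau
  have hs1 := nm_mul has
  set a := ‖act (MM α β b (0 : ℝ) y) u‖ with ha
  set a' := ‖act (MM α β b (0 : ℝ) y) s‖ with ha'
  set u' := nm (act (MM α β b (0 : ℝ) y) u) with hu'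
  set s' := nm (act (MM α β b (0 : ℝ) y) s) with hs'
  have hapos : 0 < a := norm_pos_iff.2 hau
  have hapos' : 0 < a' := norm_pos_iff.2 has
  obtain ⟨p1, p2, -⟩ := EE_pos hd hσ hm hc hE (θ := θ) (by rwa [abs_of_pos hθ])
  obtain ⟨m1, -, m2⟩ := EE_pos hd hσ hm hc hE (θ := -θ) (by rwa [abs_neg, abs_of_pos hθ])
  obtain ⟨p1', -, -⟩ := EE_pos hd hσ hm hc' hE' (θ := θ) (by rwa [abs_of_pos hθ])
  obtain ⟨m1', -, -⟩ := EE_pos hd hσ hm hc' hE' (θ := -θ) (by rwa [abs_neg, abs_of_pos hθ])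
  -- general identity
  have key : ∀ (t c : ℝ), act (MM α β b t y) (EE h α β b σ m y u t) =
      c * EE h α β b σ m (h y) u' t →
      ((om u s : ℝ) : ℂ) * ((c : ℂ) * EE h α β b σ m (h y) u' t) = Dp b t y *
        (((om (EE h α β b σ m y u t) s * a : ℝ) : ℂ) * u' +
          ((om u (EE h α β b σ m y u t) * a' : ℝ) : ℂ) * s') := by
    intro t c hct
    rw [← hct, ← act_smul, om_expand, act_add, act_smul, act_smul, act_MM' t y u, act_MM' t y s,
      ← hu1, ← hs1]
    push_cast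
    ring
  have k1 := key θ c hZ
  have k2 := key (-θ) cm hZm
  rw [Dp_conj] at k2
  have hN2 : ‖Dp b (θ : ℂ) y‖ ^ 2 = (Dp b (θ : ℂ) y).re ^ 2 + (Dp b (θ : ℂ) y).im ^ 2 := by
    rw [← Complex.normSq_eq_norm_sq, Complex.normSq_apply]
    ring
  have hNpos : 0 < ‖Dp b (θ : ℂ) y‖ := by
    rw [norm_pos_iff]
    intro h0
    rw [h0] at hD
    simp at hD
  have hcs : om u' s' ^ 2 + sp u' s' ^ 2 = 1 := by
    have := om_sq u' s'
    rw [hE'.nu, hE'.ns] at this
    unfold sp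
    linarith
  have j1 := congrArg (fun z => om z s') k1
  rw [om_smul_left, om_smul_left, om_mul_left, om_add_left, om_smul_left, om_smul_left, om_self,
    sp_comb_left, sp_self hE'.ns] at j1
  have j2 := congrArg (fun z => om u' z) k1
  rw [om_smul_right, om_smul_right, om_mul_right, om_add_right, om_smul_right, om_smul_right,
    om_self, sp_comb_right, sp_self hE'.nu] at j2
  have j3 := congrArg (fun z => om z s') k2
  rw [om_smul_left, om_smul_left, om_mul_left, om_add_left, om_smul_left, om_smul_left, om_self,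
    sp_comb_left, sp_self hE'.ns, Complex.conj_re, Complex.conj_im] at j3
  obtain ⟨f1, f2, f3⟩ := slope_real (q' := om u' (EE h α β b σ m (h y) u' θ)) p1 (p2 hθ) p1' m1
    (m2 (by linarith)) m1' hapos hapos' hE.om_pos
    hE'.om_pos hc0 hcm0 hD hNpos hN2 hg hgN hcs (by rw [j1]; ring) (by rw [j2]; ring)
    (by rw [j3]; ring)
  refine ⟨f1, ?_, ?_⟩
  · unfold slp
    rw [← mul_div_assoc, ← mul_div_assoc, div_le_iff₀ p1]
    linarith
  · unfold slp
    rw [le_div_iff₀ p1']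
    refine le_trans (le_of_eq ?_) f3
    congr 2
    field_simp

end

/-- one step with parameter near zero -/
theorem one_step {u s : ℂ} (hu : ‖u‖ = 1) (hs : ‖s‖ = 1) {g μ X : ℝ} (hg : 0 < g)
    (hW : g ≤ om u s) (hμ : g ^ 3 ≤ μ) (hμX : μ ≤ X) (P Q D E : ℂ) {η : ℝ} (hη : 0 ≤ η)
    (hD : ‖D - 1‖ ≤ η) (hE : ‖E - 1‖ ≤ η) : ∃ P' Q' : ℂ,
      D * (P * u + Q * s) = P' * u + Q' * s ∧
      E * (P * (starRingEnd ℂ) u + Q * (starRingEnd ℂ) s) =
        P' * (starRingEnd ℂ) u + Q' * (starRingEnd ℂ) s ∧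
      ‖P'‖ + ‖Q'‖ / μ ≤ (1 + (1 + (1 + 1 / g ^ 3) * (1 + X) / g) * η) * (‖P‖ + ‖Q‖ / μ) := by
  set W := om u s with hWd
  set cs := sp u s with hcs
  have hWpos : 0 < W := lt_of_lt_of_le hg hW
  have hμpos : 0 < μ := lt_of_lt_of_le (by positivity) hμ
  have hWC : (W : ℂ) ≠ 0 := by exact_mod_cast hWpos.ne'
  have hz : (starRingEnd ℂ) u * s = cs + W * I := by
    apply Complex.ext
    · simp [hcs, sp]
    · simp [hWd, om]
  have huu : u * (starRingEnd ℂ) u = 1 := by
    rw [Complex.mul_conj, Complex.normSq_eq_norm_sq, hu]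
    simp
  have hss : s * (starRingEnd ℂ) s = 1 := by
    rw [Complex.mul_conj, Complex.normSq_eq_norm_sq, hs]
    simp
  have hz2 : u * (starRingEnd ℂ) s = cs - W * I := by
    have := congrArg (starRingEnd ℂ) hz
    simp only [map_mul, Complex.conj_conj, map_add, Complex.conj_ofReal, Complex.conj_I] at this
    rw [this]
    ring
  -- `s = (cs + i W) u`, `u = (cs - i W) s`
  have e1 : s = (cs + W * I) * u := by
    rw [← hz]
    linear_combination (-s) * huu
  have e2 : u = (cs - W * I) * s := by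
    rw [← hz2]
    linear_combination (-u) * hss
  have e3 : (starRingEnd ℂ) s = (cs - W * I) * (starRingEnd ℂ) u := by
    rw [← hz2]
    linear_combination (-(starRingEnd ℂ) s) * huu
  have e4 : (starRingEnd ℂ) u = (cs + W * I) * (starRingEnd ℂ) s := by
    rw [← hz]
    linear_combination (-(starRingEnd ℂ) u) * hss
  set c0 : ℂ := (D + E) / 2 with hc0
  set c1 : ℂ := (E - D) / 2 with hc1
  have hDc : D = c0 - c1 := by rw [hc0, hc1]; ring
  have hEc : E = c0 + c1 := by rw [hc0, hc1]; ring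
  have n0 : ‖c0‖ ≤ 1 + η := by
    have : c0 = 1 + ((D - 1) + (E - 1)) / 2 := by rw [hc0]; ring
    rw [this]
    refine (norm_add_le _ _).trans ?_
    rw [norm_one, norm_div, Complex.norm_ofNat]
    have := norm_add_le (D - 1) (E - 1)
    linarith
  have n1 : ‖c1‖ ≤ η := by
    have : c1 = ((E - 1) - (D - 1)) / 2 := by rw [hc1]; ring
    rw [this, norm_div, Complex.norm_ofNat]
    have := norm_sub_le (E - 1) (D - 1)
    linarith
  refine ⟨c0 * P - I * c1 * (cs * P + Q) / W, c0 * Q + I * c1 * (P + cs * Q) / W, ?_, ?_, ?_⟩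
  · rw [hDc]
    have : (c0 * P - I * c1 * (cs * P + Q) / W) * u + (c0 * Q + I * c1 * (P + cs * Q) / W) * s =
        c0 * (P * u + Q * s) + I * c1 / W * (P * (s - cs * u) + Q * (cs * s - u)) := by
      field_simp
      ring
    rw [this]
    have e5 : s - cs * u = W * I * u := by
      linear_combination e1
    have e6 : cs * s - u = W * I * s := by
      linear_combination -e2
    rw [e5, e6]
    have e7 : I * c1 / W * (P * (W * I * u) + Q * (W * I * s)) = (I * I) * c1 * (P * u + Q * s) := by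
      field_simp
    rw [e7, I_mul_I]
    ring
  · rw [hEc]
    have : (c0 * P - I * c1 * (cs * P + Q) / W) * (starRingEnd ℂ) u +
        (c0 * Q + I * c1 * (P + cs * Q) / W) * (starRingEnd ℂ) s =
        c0 * (P * (starRingEnd ℂ) u + Q * (starRingEnd ℂ) s) + I * c1 / W *
          (P * ((starRingEnd ℂ) s - cs * (starRingEnd ℂ) u) +
            Q * (cs * (starRingEnd ℂ) s - (starRingEnd ℂ) u)) := by
      field_simp
      ring
    rw [this]
    have e5 : (starRingEnd ℂ) s - cs * (starRingEnd ℂ) u = -(W * I * (starRingEnd ℂ) u) := by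
      linear_combination e3
    have e6 : cs * (starRingEnd ℂ) s - (starRingEnd ℂ) u = -(W * I * (starRingEnd ℂ) s) := by
      linear_combination -e4
    rw [e5, e6]
    have e7 : I * c1 / W * (P * -(W * I * (starRingEnd ℂ) u) + Q * -(W * I * (starRingEnd ℂ) s)) =
        -(I * I) * c1 * (P * (starRingEnd ℂ) u + Q * (starRingEnd ℂ) s) := by
      field_simp
      ring
    rw [e7, I_mul_I]
    ring
  · have hcs1 : ‖(cs : ℂ)‖ ≤ 1 := by
      rw [Complex.norm_real, Real.norm_eq_abs]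
      have h1 : W ^ 2 + cs ^ 2 = 1 := by
        have := om_sq u s
        rw [hu, hs] at this
        rw [hWd, hcs]
        unfold sp
        linarith
      rw [abs_le]
      constructor <;> nlinarith [sq_nonneg W]
    have b1 : ‖I * c1 * (cs * P + Q) / W‖ ≤ η * (‖P‖ + ‖Q‖) / g := by
      rw [norm_div, norm_mul, norm_mul, Complex.norm_I, one_mul, Complex.norm_real,
        Real.norm_eq_abs, abs_of_pos hWpos]
      apply div_le_div₀ (by positivity) _ hg hW
      apply mul_le_mul n1 _ (norm_nonneg _) hη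
      refine (norm_add_le _ _).trans ?_
      rw [norm_mul]
      have := mul_le_mul_of_nonneg_right hcs1 (norm_nonneg P)
      linarith
    have b2 : ‖I * c1 * (P + cs * Q) / W‖ ≤ η * (‖P‖ + ‖Q‖) / g := by
      rw [norm_div, norm_mul, norm_mul, Complex.norm_I, one_mul, Complex.norm_real,
        Real.norm_eq_abs, abs_of_pos hWpos]
      apply div_le_div₀ (by positivity) _ hg hW
      apply mul_le_mul n1 _ (norm_nonneg _) hη
      refine (norm_add_le _ _).trans ?_
      rw [norm_mul]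
      have := mul_le_mul_of_nonneg_right hcs1 (norm_nonneg Q)
      linarith
    have b3 : ‖c0 * P - I * c1 * (cs * P + Q) / W‖ ≤ (1 + η) * ‖P‖ + η * (‖P‖ + ‖Q‖) / g := by
      refine (norm_sub_le _ _).trans ?_
      rw [norm_mul]
      have := mul_le_mul_of_nonneg_right n0 (norm_nonneg P)
      linarith
    have b4 : ‖c0 * Q + I * c1 * (P + cs * Q) / W‖ ≤ (1 + η) * ‖Q‖ + η * (‖P‖ + ‖Q‖) / g := by
      refine (norm_add_le _ _).trans ?_
      rw [norm_mul]
      have := mul_le_mul_of_nonneg_right n0 (norm_nonneg Q)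
      linarith
    have hN0 : 0 ≤ ‖P‖ + ‖Q‖ / μ := by positivity
    have b5 : ‖P‖ + ‖Q‖ ≤ (1 + X) * (‖P‖ + ‖Q‖ / μ) := by
      have h1 : ‖Q‖ = μ * (‖Q‖ / μ) := by field_simp
      have h2 : μ * (‖Q‖ / μ) ≤ X * (‖Q‖ / μ) := mul_le_mul_of_nonneg_right hμX (by positivity)
      have h3 : 0 ≤ X * ‖P‖ := mul_nonneg (hμpos.le.trans hμX) (norm_nonneg _)
      have h4 : 0 ≤ ‖Q‖ / μ := by positivity
      nlinarith
    have b6 : 1 / μ ≤ 1 / g ^ 3 := one_div_le_one_div_of_le (by positivity) hμ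
    set T := η * (‖P‖ + ‖Q‖) / g with hT
    have hT0 : 0 ≤ T := by positivity
    have b7 : T ≤ η * ((1 + X) * (‖P‖ + ‖Q‖ / μ)) / g := by
      rw [hT]
      gcongr
    calc ‖c0 * P - I * c1 * (cs * P + Q) / W‖ + ‖c0 * Q + I * c1 * (P + cs * Q) / W‖ / μ
        ≤ ((1 + η) * ‖P‖ + T) + ((1 + η) * ‖Q‖ + T) / μ := by
          gcongr
      _ = (1 + η) * (‖P‖ + ‖Q‖ / μ) + T * (1 + 1 / μ) := by ring
      _ ≤ (1 + η) * (‖P‖ + ‖Q‖ / μ) +
          (η * ((1 + X) * (‖P‖ + ‖Q‖ / μ)) / g) * (1 + 1 / g ^ 3) := by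
          have : 0 ≤ 1 + 1 / μ := by positivity
          have := mul_le_mul b7 (show 1 + 1 / μ ≤ 1 + 1 / g ^ 3 by linarith) this
            (hT0.trans b7)
          linarith
      _ = _ := by ring

end Pool.Agent.Helper21S
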