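import Pool.Agent.Helper21S.Sad5

/-!
# Project ST: growth along periodic orbits
-/

set_option autoImplicit false
set_option linter.unusedSectionVars false

open Filter Set Complex Topology

namespace Pool.Agent.Helper21S

open Pool.Agent.W564.SC

/-- the action on complex vectors -/
noncomputable def cm (M : Matrix (Fin 2) (Fin 2) ℂ) (z : ℂ × ℂ) : ℂ × ℂ :=
  (M 0 0 * z.1 + M 0 1 * z.2, M 1 0 * z.1 + M 1 1 * z.2)

theorem cm_mul (M M' : Matrix (Fin 2) (Fin 2) ℂ) (z : ℂ × ℂ) : cm (M * M') z = cm M (cm M' z) := by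
  unfold cm
  simp only [Matrix.mul_apply, Fin.sum_univ_two]
  ext <;> simp <;> ring

theorem cm_one (z : ℂ × ℂ) : cm 1 z = z := by
  unfold cm
  simp

theorem prod_sub_one {ι : Type*} (s : Finset ι) (z : ι → ℂ) {ε : ℝ} (hε : 0 ≤ ε) (hε1 : ε ≤ 1)
    (hz : ∀ j, ‖z j‖ ≤ ε) : ‖∏ j ∈ s, (1 + z j) - 1‖ ≤ (2 ^ s.card - 1) * ε := by
  classical
  induction s using Finset.induction_on with
  | empty => simp
  | insert a s ha ih =>
    rw [Finset.prod_insert ha, Finset.card_insert_of_notMem ha, pow_succ]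
    set p := ∏ j ∈ s, (1 + z j) with hp
    have h1 : (1 + z a) * p - 1 = (p - 1) + z a * p := by ring
    have h2 : (1 : ℝ) ≤ 2 ^ s.card := one_le_pow₀ (by norm_num)
    have h3 : ‖p‖ ≤ 2 ^ s.card := by
      have : p = 1 + (p - 1) := by ring
      rw [this]
      refine (norm_add_le _ _).trans ?_
      rw [norm_one]
      nlinarith
    rw [h1]
    refine (norm_add_le _ _).trans ?_
    rw [norm_mul]
    have h4 : ‖z a‖ * ‖p‖ ≤ ε * 2 ^ s.card := mul_le_mul (hz a) h3 (norm_nonneg _) hε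
    linarith

section

variable {Y : Type*} [TopologicalSpace Y] {J : ℕ} {b : Fin J → Y → ℝ} {h : Y → Y} {α β : Y → ℂ}

theorem D_near (hd : CD h α β b) {ε : ℝ} (hε : 0 ≤ ε) (hε1 : ε ≤ 1) (y : Y) :
    ‖Dp b (ε * I) y - 1‖ ≤ 2 ^ J * ε ∧ ‖Dm b (ε * I) y - 1‖ ≤ 2 ^ J * ε := by
  have h1 : ∀ j, ‖I * (b j y : ℂ) * (ε * I)‖ ≤ ε := by
    intro j
    rw [norm_mul, norm_mul, norm_mul, Complex.norm_I, Complex.norm_real, Real.norm_eq_abs,
      abs_of_nonneg (hd.b0 j y), one_mul, mul_one, Complex.norm_real, Real.norm_eq_abs,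
      abs_of_nonneg hε]
    have := hd.b1 j y
    nlinarith
  have hc : (Finset.univ : Finset (Fin J)).card = J := by simp
  constructor
  · have := prod_sub_one Finset.univ (fun j => I * (b j y : ℂ) * (ε * I)) hε hε1 h1
    rw [hc] at this
    unfold Dp
    linarith
  · have := prod_sub_one Finset.univ (fun j => -(I * (b j y : ℂ) * (ε * I))) hε hε1
      (fun j => by rw [norm_neg]; exact h1 j)
    rw [hc] at this
    unfold Dm
    simp only [← sub_eq_add_neg] at this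
    linarith

/-- good pairs of eigenvectors -/
structure Gd (h : Y → Y) (α β : Y → ℂ) (b : Fin J → Y → ℝ) (σ : ℝ) (m : ℕ) (ρ g θ : ℝ) (y : Y)
    (u s : ℂ) : Prop where
  ep : EP h α β b σ m y u s
  per : h^[m] y = y
  cls : Cls h α β b ρ σ m y
  om_ge : g ≤ om u s
  slp_ge : g ^ 3 ≤ slp h α β b σ m y u s θ

/-- the fixed parameters -/
structure Pm (b : Fin J → Y → ℝ) (σ : ℝ) (m : ℕ) (ρ g θ : ℝ) : Prop where
  hσ : σ * σ = 1
  hm : 1 ≤ m
  hθ : 0 < θ
  hθρ : θ < ρ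
  hg : 0 < g
  hgN : ∀ y, g * ‖Dp b θ y‖ ≤ (Dp b θ y).im
  hD : ∀ y, 0 < (Dp b θ y).im

variable {σ : ℝ} {m : ℕ} {ρ g θ : ℝ}

theorem EP.good (hd : CD h α β b) (hp : Pm b σ m ρ g θ) {y : Y} (hy : h^[m] y = y)
    (hc : Cls h α β b ρ σ m y) {u s : ℂ} (hE : EP h α β b σ m y u s) :
    (0 < slp h α β b σ m y u s θ) ∧ Gd h α β b σ m ρ g θ (h y)
      (nm (act (MM α β b (0 : ℝ) y) u)) (nm (act (MM α β b (0 : ℝ) y) s)) := by
  obtain ⟨f1, -, f3⟩ := slope_step hd hp.hσ hp.hm hy hc hE hp.hθ hp.hθρ hp.hg (hp.hgN y) (hp.hD y)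
  have h1 : 0 < slp h α β b σ m y u s θ := by
    obtain ⟨p1, p2, -⟩ := EE_pos hd hp.hσ hp.hm hc hE (θ := θ)
      (by rw [abs_of_pos hp.hθ]; exact hp.hθρ)
    exact div_pos (p2 hp.hθ) p1
  refine ⟨h1, hE.next hd hy, ?_, hc.next hy, f1, ?_⟩
  · rw [← Function.iterate_succ_apply, Function.iterate_succ_apply', hy]
  · refine le_trans ?_ f3
    have h2 := norm_pos_iff.2 (act_MM_ne hd 0 y hE.une)
    have h3 := norm_pos_iff.2 (act_MM_ne hd 0 y hE.sne)
    have : 0 ≤ ‖act (MM α β b (0 : ℝ) y) s‖ / ‖act (MM α β b (0 : ℝ) y) u‖ *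
      slp h α β b σ m y u s θ := by positivity
    linarith

/-- bounds of one step -/
theorem step_norm {δ A : ℝ} (hδ' : ∀ y, δ ≤ ‖α y‖ ^ 2 - ‖β y‖ ^ 2)
    (hA' : ∀ y, ‖α y‖ + ‖β y‖ ≤ A) (hlt : ∀ y, ‖β y‖ < ‖α y‖) (y : Y) (v : ℂ) :
    ‖act (MM α β b (0 : ℝ) y) v‖ ≤ A * ‖v‖ ∧
      δ * ‖v‖ ≤ A * ‖act (MM α β b (0 : ℝ) y) v‖ := by
  rw [act_MM, Dp_zero, one_mul]
  constructor
  · refine (norm_add_le _ _).trans ?_
    rw [norm_mul, norm_mul, RCLike.norm_conj, ← add_mul]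
    exact mul_le_mul_of_nonneg_right (hA' y) (norm_nonneg _)
  · have h1 : (‖α y‖ - ‖β y‖) * ‖v‖ ≤ ‖α y * v + β y * (starRingEnd ℂ) v‖ := by
      have := norm_sub_le (α y * v + β y * (starRingEnd ℂ) v) (β y * (starRingEnd ℂ) v)
      rw [add_sub_cancel_right, norm_mul, norm_mul, RCLike.norm_conj] at this
      linarith
    have h2 := hlt y
    have h3 : 0 ≤ ‖α y * v + β y * (starRingEnd ℂ) v‖ := norm_nonneg _
    have h4 : δ * ‖v‖ ≤ (‖α y‖ + ‖β y‖) * ((‖α y‖ - ‖β y‖) * ‖v‖) := by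
      have := mul_le_mul_of_nonneg_right (hδ' y) (norm_nonneg v)
      linarith
    refine h4.trans ?_
    have h5 : 0 ≤ ‖α y‖ + ‖β y‖ := by positivity
    calc _ ≤ (‖α y‖ + ‖β y‖) * ‖α y * v + β y * (starRingEnd ℂ) v‖ :=
          mul_le_mul_of_nonneg_left h1 h5
      _ ≤ _ := mul_le_mul_of_nonneg_right (hA' y) h3

theorem Gd.slp_le (hd : CD h α β b) (hp : Pm b σ m ρ g θ) {δ A : ℝ} (hδ : 0 < δ) (hA : 1 ≤ A)
    (hδ' : ∀ y, δ ≤ ‖α y‖ ^ 2 - ‖β y‖ ^ 2) (hA' : ∀ y, ‖α y‖ + ‖β y‖ ≤ A) {y : Y} {u s : ℂ}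
    (hG : Gd h α β b σ m ρ g θ y u s) : slp h α β b σ m y u s θ ≤ A ^ 2 / (g * δ) := by
  obtain ⟨-, f2, -⟩ := slope_step hd hp.hσ hp.hm hG.per hG.cls hG.ep hp.hθ hp.hθρ hp.hg (hp.hgN y)
    (hp.hD y)
  have h1 := (step_norm (b := b) hδ' hA' hd.lt y u).1
  have h2 := (step_norm (b := b) hδ' hA' hd.lt y s).2
  rw [hG.ep.nu, mul_one] at h1
  rw [hG.ep.ns, mul_one] at h2
  have hg := hp.hg
  have h3 : 0 < slp h α β b σ m y u s θ := lt_of_lt_of_le (by positivity) hG.slp_ge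
  rw [le_div_iff₀ (by positivity)]
  calc slp h α β b σ m y u s θ * (g * δ) ≤
        slp h α β b σ m y u s θ * (g * (A * ‖act (MM α β b (0 : ℝ) y) s‖)) := by gcongr
    _ = A * (g * (‖act (MM α β b (0 : ℝ) y) s‖ * slp h α β b σ m y u s θ)) := by ring
    _ ≤ A * A := by
        apply mul_le_mul_of_nonneg_left (f2.trans h1) (by linarith)
    _ = A ^ 2 := by ring

/-- growth with an imaginary parameter -/
theorem growth (hd : CD h α β b) (hp : Pm b σ m ρ g θ) {δ A : ℝ} (hδ : 0 < δ) (hA : 1 ≤ A)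
    (hδ' : ∀ y, δ ≤ ‖α y‖ ^ 2 - ‖β y‖ ^ 2) (hA' : ∀ y, ‖α y‖ + ‖β y‖ ≤ A) {X : ℝ}
    (hX : X = A ^ 2 / (g * δ)) {ε : ℝ} (hε : 0 ≤ ε) (hε1 : ε ≤ 1) (n : ℕ) :
    ∀ (y : Y) (u s : ℂ), Gd h α β b σ m ρ g θ y u s → ∀ P Q : ℂ,
      ‖cm (PP h α β b (ε * I) n y) (P * u + Q * s,
        P * (starRingEnd ℂ) u + Q * (starRingEnd ℂ) s)‖ ≤
      (1 + X) * ‖act (PP h α β b (0 : ℝ) n y) u‖ *
        (1 + (1 + (1 + 1 / g ^ 3) * (1 + X) / g) * (2 ^ J * ε)) ^ n *
        (‖P‖ + ‖Q‖ / slp h α β b σ m y u s θ) := by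
  have hg := hp.hg
  have hXpos : 0 < X := by rw [hX]; positivity
  induction n with
  | zero =>
    intro y u s hG P Q
    have h3 : 0 < slp h α β b σ m y u s θ := lt_of_lt_of_le (by positivity) hG.slp_ge
    have h4 := hG.slp_le hd hp hδ hA hδ' hA'
    rw [← hX] at h4
    change ‖cm 1 _‖ ≤ (1 + X) * ‖act 1 u‖ * _ ^ 0 * _
    have h5 : act 1 u = u := by unfold act; simp
    rw [cm_one, h5, hG.ep.nu, mul_one, pow_zero, mul_one]
    set μ := slp h α β b σ m y u s θ with hμ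
    have b5 : ‖P‖ + ‖Q‖ ≤ (1 + X) * (‖P‖ + ‖Q‖ / μ) := by
      have h1 : ‖Q‖ = μ * (‖Q‖ / μ) := by field_simp
      have h2 : μ * (‖Q‖ / μ) ≤ X * (‖Q‖ / μ) := mul_le_mul_of_nonneg_right h4 (by positivity)
      have h3 : 0 ≤ X * ‖P‖ := by positivity
      have h4 : 0 ≤ ‖Q‖ / μ := by positivity
      nlinarith
    refine le_trans ?_ b5
    rw [norm_prod_le_iff]
    constructor
    · refine (norm_add_le _ _).trans ?_
      rw [norm_mul, norm_mul, hG.ep.nu, hG.ep.ns, mul_one, mul_one]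
    · refine (norm_add_le _ _).trans ?_
      rw [norm_mul, norm_mul, RCLike.norm_conj, RCLike.norm_conj, hG.ep.nu, hG.ep.ns, mul_one,
        mul_one]
  | succ n ih =>
    intro y u s hG P Q
    obtain ⟨hμ, hG'⟩ := hG.ep.good hd hp hG.per hG.cls
    obtain ⟨-, -, f3⟩ := slope_step hd hp.hσ hp.hm hG.per hG.cls hG.ep hp.hθ hp.hθρ hp.hg (hp.hgN y)
      (hp.hD y)
    have hau := act_MM_ne hd 0 y hG.ep.une
    have has := act_MM_ne hd 0 y hG.ep.sne
    have hu1 := nm_mul hau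
    have hs1 := nm_mul has
    set a := ‖act (MM α β b (0 : ℝ) y) u‖ with ha
    set a' := ‖act (MM α β b (0 : ℝ) y) s‖ with ha'
    set u' := nm (act (MM α β b (0 : ℝ) y) u) with hu'
    set s' := nm (act (MM α β b (0 : ℝ) y) s) with hs'
    have hapos : 0 < a := norm_pos_iff.2 hau
    have hapos' : 0 < a' := norm_pos_iff.2 has
    have h4 := hG'.slp_le hd hp hδ hA hδ' hA'
    rw [← hX] at h4
    set μ := slp h α β b σ m y u s θ with hμd
    set μ' := slp h α β b σ m (h y) u' s' θ with hμd'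
    have hμ' : 0 < μ' := lt_of_lt_of_le (by positivity) hG'.slp_ge
    obtain ⟨d1, d2⟩ := D_near hd hε hε1 y
    obtain ⟨P', Q', e1, e2, e3⟩ := one_step hG'.ep.nu hG'.ep.ns hg hG'.om_ge hG'.slp_ge h4
      (P * a) (Q * a') _ _ (by positivity) d1 d2
    set K := (1 + (1 + 1 / g ^ 3) * (1 + X) / g) with hK
    have hKpos : 0 < K := by positivity
    have hM : cm (MM α β b (ε * I) y) (P * u + Q * s,
        P * (starRingEnd ℂ) u + Q * (starRingEnd ℂ) s) =
        (P' * u' + Q' * s', P' * (starRingEnd ℂ) u' + Q' * (starRingEnd ℂ) s') := by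
      rw [← e1, ← e2]
      have g1 : α y * u + β y * (starRingEnd ℂ) u = (a : ℂ) * u' := by
        rw [hu1, act_MM, Dp_zero, one_mul]
      have g2 : α y * s + β y * (starRingEnd ℂ) s = (a' : ℂ) * s' := by
        rw [hs1, act_MM, Dp_zero, one_mul]
      have g3 : (starRingEnd ℂ) (α y) * (starRingEnd ℂ) u + (starRingEnd ℂ) (β y) * u =
          (a : ℂ) * (starRingEnd ℂ) u' := by
        have := congrArg (starRingEnd ℂ) g1
        simpa only [map_add, map_mul, Complex.conj_conj, Complex.conj_ofReal] using this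
      have g4 : (starRingEnd ℂ) (α y) * (starRingEnd ℂ) s + (starRingEnd ℂ) (β y) * s =
          (a' : ℂ) * (starRingEnd ℂ) s' := by
        have := congrArg (starRingEnd ℂ) g2
        simpa only [map_add, map_mul, Complex.conj_conj, Complex.conj_ofReal] using this
      unfold cm MM
      simp only [Matrix.of_apply, Matrix.cons_val', Matrix.cons_val_zero, Matrix.cons_val_one,
        Matrix.cons_val_fin_one]
      ext1
      · linear_combination (Dp b (ε * I) y * P) * g1 + (Dp b (ε * I) y * Q) * g2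
      · linear_combination (Dm b (ε * I) y * P) * g3 + (Dm b (ε * I) y * Q) * g4
    have h5 : PP h α β b (ε * I) (n + 1) y =
        PP h α β b (ε * I) n (h y) * MM α β b (ε * I) y := rfl
    rw [h5, cm_mul, hM]
    refine (ih (h y) u' s' hG' P' Q').trans ?_
    have h6 : ‖act (PP h α β b (0 : ℝ) (n + 1) y) u‖ =
        a * ‖act (PP h α β b (0 : ℝ) n (h y)) u'‖ := by
      rw [← act_PP_MM, ← hu1, act_smul, norm_mul, Complex.norm_real, Real.norm_eq_abs,
        abs_of_pos hapos]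
    rw [h6]
    have h7 : ‖P * a‖ + ‖Q * a'‖ / μ' ≤ a * (‖P‖ + ‖Q‖ / μ) := by
      rw [norm_mul, norm_mul, Complex.norm_real, Complex.norm_real, Real.norm_eq_abs,
        Real.norm_eq_abs, abs_of_pos hapos, abs_of_pos hapos']
      have h8 : a' / a * μ ≤ μ' := by
        have : 0 < g ^ 3 := by positivity
        linarith
      have h9 : a' / μ' ≤ a / μ := by
        rw [div_le_div_iff₀ hμ' hμ]
        have : a' / a * μ * a ≤ μ' * a := mul_le_mul_of_nonneg_right h8 hapos.le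
        have h10 : a' / a * μ * a = a' * μ := by field_simp
        linarith
      have h10 := mul_le_mul_of_nonneg_left h9 (norm_nonneg Q)
      have h11 : ‖Q‖ * a' / μ' = ‖Q‖ * (a' / μ') := by ring
      have h12 : a * (‖P‖ + ‖Q‖ / μ) = ‖P‖ * a + ‖Q‖ * (a / μ) := by ring
      rw [h11, h12]
      linarith
    set T := (1 + K * (2 ^ J * ε)) with hT
    have hTpos : 0 < T := by positivity
    set B := (1 + X) * ‖act (PP h α β b (0 : ℝ) n (h y)) u'‖ with hB
    have hBpos : 0 ≤ B := by positivity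
    calc B * T ^ n * (‖P'‖ + ‖Q'‖ / μ') ≤ B * T ^ n * (T * (a * (‖P‖ + ‖Q‖ / μ))) := by
          apply mul_le_mul_of_nonneg_left _ (by positivity)
          exact e3.trans (mul_le_mul_of_nonneg_left h7 hTpos.le)
      _ = _ := by
          rw [hB]
          ring

theorem d_growth (hd : CD h α β b) (hp : Pm b σ m ρ g θ) {δ A : ℝ} (hδ : 0 < δ) (hA : 1 ≤ A)
    (hδ' : ∀ y, δ ≤ ‖α y‖ ^ 2 - ‖β y‖ ^ 2) (hA' : ∀ y, ‖α y‖ + ‖β y‖ ≤ A) {X : ℝ}
    (hX : X = A ^ 2 / (g * δ)) {ε : ℝ} (hε : 0 ≤ ε) (hε1 : ε ≤ 1) (n : ℕ) {y : Y} {u s : ℂ}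
    (hG : Gd h α β b σ m ρ g θ y u s) : ‖PP h α β b (ε * I) n y 1 1‖ ≤
      ((1 + X) * ((1 + 1 / g ^ 3) / g)) * ‖act (PP h α β b (0 : ℝ) n y) u‖ *
        (1 + (1 + (1 + 1 / g ^ 3) * (1 + X) / g) * (2 ^ J * ε)) ^ n := by
  have hg := hp.hg
  have hXpos : 0 < X := by rw [hX]; positivity
  set W := om u s with hW
  have hWpos : 0 < W := hG.ep.om_pos
  have hWC : (W : ℂ) ≠ 0 := by exact_mod_cast hWpos.ne'
  have h1 := growth hd hp hδ hA hδ' hA' hX hε hε1 n y u s hG (s / (2 * I * W)) (-u / (2 * I * W))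
  have e1 : s / (2 * I * W) * u + -u / (2 * I * W) * s = 0 := by ring
  have e2 : s / (2 * I * W) * (starRingEnd ℂ) u + -u / (2 * I * W) * (starRingEnd ℂ) s = 1 := by
    have h2 : s * (starRingEnd ℂ) u - u * (starRingEnd ℂ) s = 2 * I * W := by
      have h3 : s * (starRingEnd ℂ) u - u * (starRingEnd ℂ) s =
        ((starRingEnd ℂ) u * s) - (starRingEnd ℂ) ((starRingEnd ℂ) u * s) := by
        rw [map_mul, Complex.conj_conj]
        ring
      rw [h3, Complex.sub_conj, hW]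
      unfold om
      push_cast
      ring
    have h3 : (2 * I * W : ℂ) ≠ 0 := by
      simp [Complex.I_ne_zero, hWC]
    rw [div_mul_eq_mul_div, div_mul_eq_mul_div, ← add_div, div_eq_one_iff_eq h3, ← h2]
    ring
  rw [e1, e2] at h1
  have h2 : ‖PP h α β b (ε * I) n y 1 1‖ ≤ ‖cm (PP h α β b (ε * I) n y) (0, 1)‖ := by
    have h3 : (cm (PP h α β b (ε * I) n y) (0, 1)).2 = PP h α β b (ε * I) n y 1 1 := by
      unfold cm
      simp
    rw [← h3]
    exact norm_snd_le _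
  refine h2.trans (h1.trans ?_)
  have h4 : ‖s / (2 * I * W)‖ ≤ 1 / g := by
    rw [norm_div, hG.ep.ns, norm_mul, norm_mul, Complex.norm_I, mul_one, Complex.norm_ofNat,
      Complex.norm_real, Real.norm_eq_abs, abs_of_pos hWpos]
    apply one_div_le_one_div_of_le hg
    have := hG.om_ge
    linarith
  have h5 : ‖-u / (2 * I * W)‖ ≤ 1 / g := by
    rw [norm_div, norm_neg, hG.ep.nu, norm_mul, norm_mul, Complex.norm_I, mul_one,
      Complex.norm_ofNat, Complex.norm_real, Real.norm_eq_abs, abs_of_pos hWpos]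
    apply one_div_le_one_div_of_le hg
    have := hG.om_ge
    linarith
  have hμ : 0 < slp h α β b σ m y u s θ := lt_of_lt_of_le (by positivity) hG.slp_ge
  have h6 : ‖s / (2 * I * W)‖ + ‖-u / (2 * I * W)‖ / slp h α β b σ m y u s θ ≤
      (1 + 1 / g ^ 3) / g := by
    have h7 : ‖-u / (2 * I * W)‖ / slp h α β b σ m y u s θ ≤ (1 / g) / g ^ 3 :=
      div_le_div₀ (by positivity) h5 (by positivity) hG.slp_ge
    calc _ ≤ 1 / g + (1 / g) / g ^ 3 := add_le_add h4 h7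
      _ = _ := by
        field_simp
  calc _ ≤ (1 + X) * ‖act (PP h α β b (0 : ℝ) n y) u‖ *
        (1 + (1 + (1 + 1 / g ^ 3) * (1 + X) / g) * (2 ^ J * ε)) ^ n * ((1 + 1 / g ^ 3) / g) := by
        apply mul_le_mul_of_nonneg_left h6 (by positivity)
    _ = _ := by ring

/-- transversality persists -/
theorem Gd.om_iter (hd : CD h α β b) (hp : Pm b σ m ρ g θ) (n : ℕ) : ∀ {y : Y} {u s : ℂ},
    Gd h α β b σ m ρ g θ y u s →
    g * (‖act (PP h α β b (0 : ℝ) n y) u‖ * ‖act (PP h α β b (0 : ℝ) n y) s‖) ≤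
      dt h α β b n y 0 * om u s := by
  induction n with
  | zero =>
    intro y u s hG
    have h5 : ∀ u, act (PP h α β b (0 : ℝ) 0 y) u = u := by
      intro u
      change act 1 u = u
      unfold act
      simp
    rw [h5, h5, hG.ep.nu, hG.ep.ns, mul_one, mul_one]
    have h6 : dt h α β b 0 y 0 = 1 := by
      unfold dt
      change ‖(1 : Matrix (Fin 2) (Fin 2) ℂ) 0 0‖ ^ 2 - ‖(1 : Matrix (Fin 2) (Fin 2) ℂ) 0 1‖ ^ 2 = 1
      simp
    rw [h6, one_mul]
    exact hG.om_ge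
  | succ n ih =>
    intro y u s hG
    obtain ⟨-, hG'⟩ := hG.ep.good hd hp hG.per hG.cls
    have h1 := ih hG'
    have hau := act_MM_ne hd 0 y hG.ep.une
    have has := act_MM_ne hd 0 y hG.ep.sne
    have hu1 := nm_mul hau
    have hs1 := nm_mul has
    set a := ‖act (MM α β b (0 : ℝ) y) u‖ with ha
    set a' := ‖act (MM α β b (0 : ℝ) y) s‖ with ha'
    set u' := nm (act (MM α β b (0 : ℝ) y) u) with hu'
    set s' := nm (act (MM α β b (0 : ℝ) y) s) with hs'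
    have hapos : 0 < a := norm_pos_iff.2 hau
    have hapos' : 0 < a' := norm_pos_iff.2 has
    have h6 : ‖act (PP h α β b (0 : ℝ) (n + 1) y) u‖ =
        a * ‖act (PP h α β b (0 : ℝ) n (h y)) u'‖ := by
      rw [← act_PP_MM, ← hu1, act_smul, norm_mul, Complex.norm_real, Real.norm_eq_abs,
        abs_of_pos hapos]
    have h7 : ‖act (PP h α β b (0 : ℝ) (n + 1) y) s‖ =
        a' * ‖act (PP h α β b (0 : ℝ) n (h y)) s'‖ := by
      rw [← act_PP_MM, ← hs1, act_smul, norm_mul, Complex.norm_real, Real.norm_eq_abs,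
        abs_of_pos hapos']
    have h8 : dt h α β b (n + 1) y 0 * om u s = a * a' * (dt h α β b n (h y) 0 * om u' s') := by
      have h9 := om_act (PP h α β b (0 : ℝ) (n + 1) y) u s
      have h10 := om_act (PP h α β b (0 : ℝ) n (h y)) u' s'
      have h11 : dt h α β b (n + 1) y 0 = ‖PP h α β b (0 : ℝ) (n + 1) y 0 0‖ ^ 2 -
        ‖PP h α β b (0 : ℝ) (n + 1) y 0 1‖ ^ 2 := rfl
      have h12 : dt h α β b n (h y) 0 = ‖PP h α β b (0 : ℝ) n (h y) 0 0‖ ^ 2 -
        ‖PP h α β b (0 : ℝ) n (h y) 0 1‖ ^ 2 := rfl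
      rw [h11, h12, ← h9, ← h10, ← act_PP_MM, ← act_PP_MM, ← hu1, ← hs1, act_smul, act_smul,
        om_smul_left, om_smul_right]
      ring
    rw [h6, h7, h8]
    calc _ = a * a' * (g * (‖act (PP h α β b (0 : ℝ) n (h y)) u'‖ *
          ‖act (PP h α β b (0 : ℝ) n (h y)) s'‖)) := by ring
      _ ≤ _ := mul_le_mul_of_nonneg_left h1 (by positivity)

/-- eigenvectors exist -/
theorem exists_EP (hd : CD h α β b) (hp : Pm b σ m ρ g θ) {y : Y}
    (hc : Cls h α β b ρ σ m y) : ∃ u s : ℂ, EP h α β b σ m y u s := by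
  have hρ : 0 < ρ := hp.hθ.trans hp.hθρ
  have h0 : |(0 : ℝ)| ≤ ρ := by simp [hρ.le]
  have h1 := lo_add_hi (h := h) (α := α) (β := β) (b := b) σ m y 0
  have h2 := lo_mul_hi hd hp.hσ hc h0
  have h3 := dsc_pos hd hp.hσ hc h0
  have h4 := hi_sub_lo (h := h) (α := α) (β := β) (b := b) σ m y 0
  have htr : tr h α β b m y 0 = 2 * (PP h α β b (0 : ℝ) m y 0 0).re := rfl
  have hdt : dt h α β b m y 0 =
    ‖PP h α β b (0 : ℝ) m y 0 0‖ ^ 2 - ‖PP h α β b (0 : ℝ) m y 0 1‖ ^ 2 := rfl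
  have hσ := hp.hσ
  obtain ⟨u, hu, hu'⟩ := exists_eig (M := PP h α β b (0 : ℝ) m y)
    (c := σ * hi h α β b σ m y 0) (by
      rw [← htr, ← hdt, ← h2]
      have : tr h α β b m y 0 = σ * (lo h α β b σ m y 0 + hi h α β b σ m y 0) := by
        rw [h1, ← mul_assoc, hσ, one_mul]
      rw [this]
      linear_combination (-(lo h α β b σ m y 0 * hi h α β b σ m y 0)) * hσ)
  obtain ⟨s, hs, hs'⟩ := exists_eig (M := PP h α β b (0 : ℝ) m y)
    (c := σ * lo h α β b σ m y 0) (by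
      rw [← htr, ← hdt, ← h2]
      have : tr h α β b m y 0 = σ * (lo h α β b σ m y 0 + hi h α β b σ m y 0) := by
        rw [h1, ← mul_assoc, hσ, one_mul]
      rw [this]
      linear_combination (-(lo h α β b σ m y 0 * hi h α β b σ m y 0)) * hσ)
  -- independence
  have hne : om u s ≠ 0 := by
    intro h5
    obtain ⟨c, hc1⟩ := parallel hu h5
    have hc0 : (c : ℂ) ≠ 0 := by
      intro h6
      rw [h6, zero_mul] at hc1
      exact hs hc1
    have h6 : ((σ * hi h α β b σ m y 0 : ℝ) : ℂ) * s = ((σ * lo h α β b σ m y 0 : ℝ) : ℂ) * s := by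
      rw [← hs', hc1, act_smul, hu']
      ring
    have h7 := mul_right_cancel₀ hs h6
    have h8 : σ * hi h α β b σ m y 0 = σ * lo h α β b σ m y 0 := by exact_mod_cast h7
    have h9 : σ ≠ 0 := by
      rintro rfl
      simp at hσ
    have h10 := mul_left_cancel₀ h9 h8
    linarith
  have hn : ∀ (M : Matrix (Fin 2) (Fin 2) ℂ) (c : ℝ) (w : ℂ), act M w = c * w →
      act M (nm w) = c * nm w := by
    intro M c w hw
    unfold nm
    rw [act_smul, hw]
    ring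
  rcases lt_or_gt_of_ne hne with h5 | h5
  · have hms : -s ≠ 0 := neg_ne_zero.2 hs
    have hs'' : act (PP h α β b (0 : ℝ) m y) (-s) = ((σ * lo h α β b σ m y 0 : ℝ) : ℂ) * (-s) := by
      have : -s = ((-1 : ℝ) : ℂ) * s := by push_cast; ring
      rw [this, act_smul, hs']
      ring
    refine ⟨nm u, nm (-s), nm_norm hu, nm_norm hms, ?_, hn _ _ _ hu', hn _ _ _ hs''⟩
    unfold nm
    rw [om_smul_left, om_smul_right]
    have h6 : 0 < om u (-s) := by
      have : om u (-s) = -om u s := by simp only [om_eq, neg_re, neg_im]; ring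
      linarith
    have h7 := norm_pos_iff.2 hu
    have h8 := norm_pos_iff.2 hms
    positivity
  · refine ⟨nm u, nm s, nm_norm hu, nm_norm hs, ?_, hn _ _ _ hu', hn _ _ _ hs'⟩
    unfold nm
    rw [om_smul_left, om_smul_right]
    have h7 := norm_pos_iff.2 hu
    have h8 := norm_pos_iff.2 hs
    positivity

end

end Pool.Agent.Helper21S
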