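import Pool.Agent.Helper21S.Sad6

/-!
# Project ST: contracted directions
-/

set_option autoImplicit false
set_option linter.unusedSectionVars false

open Filter Set Complex Topology

namespace Pool.Agent.Helper21S

open Pool.Agent.W564.SC

section

variable {Y : Type*} [TopologicalSpace Y] {J : ℕ} {b : Fin J → Y → ℝ} {h : Y → Y} {α β : Y → ℂ}
  {σ : ℝ} {m : ℕ} {ρ g θ : ℝ}

theorem det_ge (hd : CD h α β b) {ε κ' : ℝ} (hε : 0 ≤ ε) (hε1 : ε ≤ 1)
    (hκ' : Real.exp (-κ') ≤ (1 - ε ^ 2) ^ J) (n : ℕ) (y : Y) :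
    Real.exp (-(κ' * n)) * ‖(PP h α β b (0 : ℝ) n y).det‖ ≤ ‖(PP h α β b (ε * I) n y).det‖ := by
  induction n generalizing y with
  | zero =>
    change Real.exp (-(κ' * (0 : ℕ))) * ‖(1 : Matrix (Fin 2) (Fin 2) ℂ).det‖ ≤
      ‖(1 : Matrix (Fin 2) (Fin 2) ℂ).det‖
    simp
  | succ n ih =>
    rw [det_PP_succ, det_PP_succ, DD_eq, DD_eq]
    have e1 : ∏ j, (1 + (b j y : ℂ) ^ 2 * ((0 : ℝ) : ℂ) ^ 2) = 1 := by simp
    rw [e1, one_mul, norm_mul, norm_mul, norm_mul]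
    have e2 : Real.exp (-κ') ≤ ‖∏ j, (1 + (b j y : ℂ) ^ 2 * (ε * I) ^ 2)‖ := by
      refine hκ'.trans ?_
      rw [norm_prod]
      calc (1 - ε ^ 2) ^ J = ∏ _j : Fin J, (1 - ε ^ 2) := by simp
        _ ≤ _ := by
          apply Finset.prod_le_prod
          · intro j _
            nlinarith
          · intro j _
            have h1 : (1 + (b j y : ℂ) ^ 2 * (ε * I) ^ 2) = ((1 - b j y ^ 2 * ε ^ 2 : ℝ) : ℂ) := by
              rw [mul_pow, I_sq]
              push_cast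
              ring
            rw [h1, Complex.norm_real, Real.norm_eq_abs]
            refine le_trans ?_ (le_abs_self _)
            have h2 := hd.b0 j y
            have h3 := hd.b1 j y
            have h4 : b j y ^ 2 ≤ 1 := by nlinarith
            nlinarith [sq_nonneg ε]
    have e3 : Real.exp (-(κ' * ((n + 1 : ℕ) : ℝ))) = Real.exp (-(κ' * n)) * Real.exp (-κ') := by
      rw [← Real.exp_add]
      congr 1
      push_cast
      ring
    rw [e3]
    calc _ = (Real.exp (-(κ' * n)) * ‖(PP h α β b (0 : ℝ) n (h y)).det‖) *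
        (Real.exp (-κ') * ‖((‖α y‖ ^ 2 - ‖β y‖ ^ 2 : ℝ) : ℂ)‖) := by ring
      _ ≤ _ := by
        apply mul_le_mul (ih _) _ (by positivity) (norm_nonneg _)
        exact mul_le_mul_of_nonneg_right e2 (norm_nonneg _)

/-- good pairs and contracted directions -/
theorem Gd.sd (hd : CD h α β b) (hp : Pm b σ m ρ g θ) {δ A : ℝ} (hδ : 0 < δ) (hA : 1 ≤ A)
    (hδ' : ∀ y, δ ≤ ‖α y‖ ^ 2 - ‖β y‖ ^ 2) (hA' : ∀ y, ‖α y‖ + ‖β y‖ ≤ A) {X : ℝ}
    (hX : X = A ^ 2 / (g * δ)) {ε κ C : ℝ} (hε : 0 ≤ ε) (hε1 : ε ≤ 1) (hκ : 0 < κ) (hC : 0 < C)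
    (hT : 1 + (1 + (1 + 1 / g ^ 3) * (1 + X) / g) * (2 ^ J * ε) ≤ Real.exp (κ / 16))
    (hdet : Real.exp (-(κ / 16)) ≤ (1 - ε ^ 2) ^ J)
    (hall : ∀ (n : ℕ) (y : Y), Real.exp (κ / 4 * n) ≤ C * ‖PP h α β b (ε * I) n y 1 1‖ ∧
        ‖(PP h α β b (ε * I) n y).det‖ ≤ C * Real.exp (-(κ / 4 * n)) *
          ‖PP h α β b (ε * I) n y 1 1‖) {y : Y} {u s : ℂ} (hG : Gd h α β b σ m ρ g θ y u s) :
    ∀ n : ℕ, ‖act (PP h α β b (0 : ℝ) n y) s‖ ≤ (C * ((1 + X) * ((1 + 1 / g ^ 3) / g)) / g) *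
        Real.exp (-(κ / 8 * n)) ∧
      Real.exp (κ / 8 * n) ≤ (C * ((1 + X) * ((1 + 1 / g ^ 3) / g)) / g) *
        ‖act (PP h α β b (0 : ℝ) n y) u‖ := by
  have hg := hp.hg
  have hXpos : 0 < X := by rw [hX]; positivity
  intro n
  obtain ⟨a1, a2⟩ := hall n y
  have a3 := d_growth hd hp hδ hA hδ' hA' hX hε hε1 n hG
  have a4 := hG.om_iter hd hp n
  have a5 := det_ge hd (h := h) (α := α) (β := β) hε hε1 hdet n y
  rw [det_real, Complex.norm_real, Real.norm_eq_abs,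
    abs_of_pos (dt_pos (h := h) (α := α) (β := β) hd.b0 hd.lt n y 0)] at a5
  set K₁ := (1 + X) * ((1 + 1 / g ^ 3) / g) with hK₁
  have hK₁pos : 0 < K₁ := by positivity
  set pu := ‖act (PP h α β b (0 : ℝ) n y) u‖ with hpu
  set ps := ‖act (PP h α β b (0 : ℝ) n y) s‖ with hps
  have hpu0 : 0 < pu := norm_pos_iff.2 (act_ne hd.b0 hd.lt 0 n y hG.ep.une)
  have hps0 : 0 < ps := norm_pos_iff.2 (act_ne hd.b0 hd.lt 0 n y hG.ep.sne)
  set T := 1 + (1 + (1 + 1 / g ^ 3) * (1 + X) / g) * (2 ^ J * ε) with hTd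
  have hTpos : 0 < T := by positivity
  have hTn : T ^ n ≤ Real.exp (κ / 16 * n) := by
    calc T ^ n ≤ (Real.exp (κ / 16)) ^ n := by gcongr
      _ = Real.exp (κ / 16 * n) := by
        rw [← Real.exp_nat_mul]
        congr 1
        ring
  have a3' : ‖PP h α β b (ε * I) n y 1 1‖ ≤ K₁ * pu * Real.exp (κ / 16 * n) :=
    a3.trans (mul_le_mul_of_nonneg_left hTn (by positivity))
  have hn : (0 : ℝ) ≤ n := Nat.cast_nonneg n
  -- growth of `u`
  have c1 : Real.exp (κ / 8 * n) ≤ C * K₁ * pu := by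
    have h1 : Real.exp (κ / 4 * n) ≤ C * (K₁ * pu * Real.exp (κ / 16 * n)) :=
      a1.trans (mul_le_mul_of_nonneg_left a3' hC.le)
    have h2 : Real.exp (κ / 8 * n) * Real.exp (κ / 16 * n) ≤ Real.exp (κ / 4 * n) := by
      rw [← Real.exp_add]
      apply Real.exp_le_exp.2
      nlinarith
    have h3 : Real.exp (κ / 8 * n) * Real.exp (κ / 16 * n) ≤
        (C * K₁ * pu) * Real.exp (κ / 16 * n) := by
      refine h2.trans (h1.trans (le_of_eq ?_))
      ring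
    exact le_of_mul_le_mul_right h3 (Real.exp_pos _)
  -- determinant
  have c2 : dt h α β b n y 0 ≤ C * K₁ * Real.exp (-(κ / 8 * n)) * pu := by
    have h1 : Real.exp (-(κ / 16 * n)) * dt h α β b n y 0 ≤
        C * Real.exp (-(κ / 4 * n)) * (K₁ * pu * Real.exp (κ / 16 * n)) :=
      a5.trans (a2.trans (mul_le_mul_of_nonneg_left a3' (by positivity)))
    have h2 := mul_le_mul_of_nonneg_left h1 (Real.exp_pos (κ / 16 * n)).le
    have h3 : Real.exp (κ / 16 * n) * Real.exp (-(κ / 16 * n)) = 1 := by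
      rw [← Real.exp_add]; simp
    rw [← mul_assoc, h3, one_mul] at h2
    refine h2.trans (le_of_eq ?_)
    have h4 : Real.exp (-(κ / 8 * n)) = Real.exp (κ / 16 * n) * Real.exp (-(κ / 4 * n)) *
        Real.exp (κ / 16 * n) := by
      rw [← Real.exp_add, ← Real.exp_add]
      congr 1
      ring
    rw [h4]
    ring
  have hom : om u s ≤ 1 := by
    have := om_sq u s
    rw [hG.ep.nu, hG.ep.ns] at this
    nlinarith [hG.ep.om_pos, sq_nonneg ((starRingEnd ℂ) u * s).re]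
  have hdt := dt_pos (h := h) (α := α) (β := β) hd.b0 hd.lt n y 0
  have c3 : g * (pu * ps) ≤ dt h α β b n y 0 := by
    refine a4.trans ?_
    calc _ ≤ dt h α β b n y 0 * 1 := mul_le_mul_of_nonneg_left hom hdt.le
      _ = _ := mul_one _
  constructor
  · have h1 : (g * ps) * pu ≤ (C * K₁ * Real.exp (-(κ / 8 * n))) * pu := by
      calc (g * ps) * pu = g * (pu * ps) := by ring
        _ ≤ _ := c3.trans c2
    have h2 := le_of_mul_le_mul_right h1 hpu0
    rw [div_mul_eq_mul_div, le_div_iff₀ hg]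
    linarith
  · have hg1 : g ≤ 1 := hG.om_ge.trans hom
    rw [show C * K₁ / g * pu = C * K₁ * pu / g by ring, le_div_iff₀ hg]
    calc Real.exp (κ / 8 * n) * g ≤ Real.exp (κ / 8 * n) * 1 :=
          mul_le_mul_of_nonneg_left hg1 (Real.exp_pos _).le
      _ ≤ _ := by
        rw [mul_one]
        exact c1

end

end Pool.Agent.Helper21S
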