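import Pool.Agent.Helper21S.Sad7

/-!
# Project ST: invariant splittings
-/

set_option autoImplicit false
set_option linter.unusedSectionVars false

open Filter Set Complex Topology

namespace Pool.Agent.Helper21S

/-- one step -/
noncomputable def st {X : Type*} (α β : X → ℂ) (x : X) (z : ℂ) : ℂ :=
  α x * z + β x * (starRingEnd ℂ) z

/-- `n` steps -/
noncomputable def an {X : Type*} (f : X → X) (α β : X → ℂ) : ℕ → X → ℂ → ℂ
  | 0, _, z => z
  | n + 1, x, z => an f α β n (f x) (st α β x z)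

section

variable {X : Type*} {f : X → X} {α β : X → ℂ}

theorem st_add (x : X) (z w : ℂ) : st α β x (z + w) = st α β x z + st α β x w := by
  unfold st
  rw [map_add]
  ring

theorem st_smul (x : X) (c : ℝ) (z : ℂ) : st α β x (c * z) = c * st α β x z := by
  unfold st
  rw [map_mul, Complex.conj_ofReal]
  ring

theorem an_add (n : ℕ) (x : X) (z w : ℂ) :
    an f α β n x (z + w) = an f α β n x z + an f α β n x w := by
  induction n generalizing x z w with
  | zero => rfl
  | succ n ih =>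
    change an f α β n (f x) (st α β x (z + w)) = _
    rw [st_add, ih]
    rfl

theorem an_smul (n : ℕ) (x : X) (c : ℝ) (z : ℂ) :
    an f α β n x (c * z) = c * an f α β n x z := by
  induction n generalizing x z with
  | zero => rfl
  | succ n ih =>
    change an f α β n (f x) (st α β x (c * z)) = _
    rw [st_smul, ih]
    rfl

theorem st_ne (hlt : ∀ x, ‖β x‖ < ‖α x‖) (x : X) {z : ℂ} (hz : z ≠ 0) : st α β x z ≠ 0 := by
  intro h0
  have h1 : ‖α x * z‖ = ‖β x * (starRingEnd ℂ) z‖ := by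
    unfold st at h0
    rw [eq_neg_of_add_eq_zero_left h0, norm_neg]
  rw [norm_mul, norm_mul, RCLike.norm_conj] at h1
  have h2 := mul_lt_mul_of_pos_right (hlt x) (norm_pos_iff.2 hz)
  linarith

/-- the induced map on pairs of unit vectors -/
noncomputable def Ph (f : X → X) (α β : X → ℂ) (q : X × ℂ × ℂ) : X × ℂ × ℂ :=
  (f q.1, nm (st α β q.1 q.2.1), nm (st α β q.1 q.2.2))

theorem om_le (u v : ℂ) : |om u v| ≤ ‖u‖ * ‖v‖ := by
  have h1 := om_sq u v
  refine abs_le_of_sq_le_sq ?_ (by positivity)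
  rw [mul_pow]
  nlinarith [sq_nonneg ((starRingEnd ℂ) u * v).re]

/-- small quantities vanish -/
theorem zero_of_exp {x B κ : ℝ} (hκ : 0 < κ) (hx : 0 ≤ x)
    (h : ∀ n : ℕ, x ≤ B * Real.exp (-(κ * n))) : x = 0 := by
  have h1 : Tendsto (fun n : ℕ => B * Real.exp (-(κ * n))) atTop (𝓝 (B * 0)) := by
    apply Tendsto.const_mul
    apply Real.tendsto_exp_neg_atTop_nhds_zero.comp
    exact (tendsto_natCast_atTop_atTop (R := ℝ)).const_mul_atTop hκ
  rw [mul_zero] at h1
  exact le_antisymm (ge_of_tendsto' h1 h) hx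

end

section

variable {X : Type*} [TopologicalSpace X] {f : X → X} {α β : X → ℂ}

theorem st_cont (hα : Continuous α) (hβ : Continuous β) {Z : Type*} [TopologicalSpace Z]
    {p : Z → X} {w : Z → ℂ} (hp : Continuous p) (hw : Continuous w) :
    Continuous fun z => st α β (p z) (w z) := by
  unfold st
  exact ((hα.comp hp).mul hw).add ((hβ.comp hp).mul (Complex.continuous_conj.comp hw))

theorem an_cont (hf : Continuous f) (hα : Continuous α) (hβ : Continuous β) (n : ℕ) {Z : Type*}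
    [TopologicalSpace Z] {p : Z → X} {w : Z → ℂ} (hp : Continuous p) (hw : Continuous w) :
    Continuous fun z => an f α β n (p z) (w z) := by
  induction n generalizing p w with
  | zero => exact hw
  | succ n ih => exact ih (hf.comp hp) (st_cont hα hβ hp hw)

variable [CompactSpace X] [T2Space X]

/-- The splitting. -/
theorem splitting (hf : Continuous f) (hinj : Function.Injective f) (hα : Continuous α)
    (hβ : Continuous β) (hlt : ∀ x, ‖β x‖ < ‖α x‖) {κ C g : ℝ} (hκ : 0 < κ) (hC : 0 < C)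
    (hg : 0 < g) (D : Set (X × ℂ × ℂ))
    (hD1 : ∀ q ∈ D, ‖q.2.1‖ = 1 ∧ ‖q.2.2‖ = 1 ∧ g ≤ om q.2.1 q.2.2)
    (hD2 : ∀ q ∈ D, ∀ n : ℕ, ‖an f α β n q.1 q.2.2‖ ≤ C * Real.exp (-(κ * n)) ∧
      Real.exp (κ * n) ≤ C * ‖an f α β n q.1 q.2.1‖)
    (hD3 : ∀ q ∈ D, Ph f α β q ∈ D) (hD4 : ∀ q ∈ D, ∃ q' ∈ D, Ph f α β q' = q)
    (hD5 : ∀ x, x ∈ closure (Prod.fst '' D)) :
    ∃ u s : X → ℂ, (∀ x, ‖u x‖ = 1 ∧ ‖s x‖ = 1 ∧ g ≤ om (u x) (s x)) ∧
      (∀ x, om (u (f x)) (st α β x (u x)) = 0 ∧ om (s (f x)) (st α β x (s x)) = 0) ∧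
      (∀ x, ∀ n : ℕ, ‖an f α β n x (s x)‖ ≤ C * Real.exp (-(κ * n)) ∧
        Real.exp (κ * n) ≤ C * ‖an f α β n x (u x)‖) ∧
      (Continuous fun x => u x ^ 2) ∧ Continuous fun x => s x ^ 2 := by
  set R : Set (X × ℂ × ℂ) := closure D with hR
  have c1 : Continuous fun q : X × ℂ × ℂ => q.1 := continuous_fst
  have c2 : Continuous fun q : X × ℂ × ℂ => q.2.1 := continuous_fst.comp continuous_snd
  have c3 : Continuous fun q : X × ℂ × ℂ => q.2.2 := continuous_snd.comp continuous_snd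
  have hR1 : ∀ q ∈ R, ‖q.2.1‖ = 1 ∧ ‖q.2.2‖ = 1 ∧ g ≤ om q.2.1 q.2.2 := by
    have hcl : IsClosed {q : X × ℂ × ℂ | ‖q.2.1‖ = 1 ∧ ‖q.2.2‖ = 1 ∧ g ≤ om q.2.1 q.2.2} := by
      apply (isClosed_eq c2.norm continuous_const).and
      apply (isClosed_eq c3.norm continuous_const).and
      apply isClosed_le continuous_const
      unfold om
      exact Complex.continuous_im.comp ((Complex.continuous_conj.comp c2).mul c3)
    exact fun q hq => closure_minimal hD1 hcl hq
  have hR2 : ∀ q ∈ R, ∀ n : ℕ, ‖an f α β n q.1 q.2.2‖ ≤ C * Real.exp (-(κ * n)) ∧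
      Real.exp (κ * n) ≤ C * ‖an f α β n q.1 q.2.1‖ := by
    intro q hq n
    have hcl : IsClosed {q : X × ℂ × ℂ | ‖an f α β n q.1 q.2.2‖ ≤ C * Real.exp (-(κ * n)) ∧
        Real.exp (κ * n) ≤ C * ‖an f α β n q.1 q.2.1‖} := by
      apply (isClosed_le (an_cont hf hα hβ n c1 c3).norm continuous_const).and
      exact isClosed_le continuous_const
        (continuous_const.mul (an_cont hf hα hβ n c1 c2).norm)
    exact closure_minimal (fun q hq => hD2 q hq n) hcl hq
  have hRc : IsCompact R := by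
    apply (isCompact_univ.prod ((isCompact_sphere (0 : ℂ) 1).prod
      (isCompact_sphere (0 : ℂ) 1))).of_isClosed_subset isClosed_closure
    intro q hq
    obtain ⟨h1, h2, -⟩ := hR1 q hq
    refine ⟨mem_univ _, ?_, ?_⟩
    · simpa using h1
    · simpa using h2
  have hne : ∀ q ∈ R, q.2.1 ≠ 0 ∧ q.2.2 ≠ 0 := by
    intro q hq
    obtain ⟨h1, h2, -⟩ := hR1 q hq
    constructor
    · intro h0
      rw [h0, norm_zero] at h1
      exact zero_ne_one h1
    · intro h0
      rw [h0, norm_zero] at h2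
      exact zero_ne_one h2
  have hnmc : ∀ z : ℂ, z ≠ 0 → ContinuousAt nm z := by
    intro z hz
    unfold nm
    apply ContinuousAt.mul _ continuousAt_id
    apply Complex.continuous_ofReal.continuousAt.comp
    exact continuous_norm.continuousAt.inv₀ (norm_ne_zero_iff.2 hz)
  have hPc : ContinuousOn (Ph f α β) R := by
    intro q hq
    obtain ⟨h1, h2⟩ := hne q hq
    apply ContinuousAt.continuousWithinAt
    unfold Ph
    apply (hf.comp c1).continuousAt.prodMk
    apply ContinuousAt.prodMk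
    · exact ContinuousAt.comp (f := fun q : X × ℂ × ℂ => st α β q.1 q.2.1)
        (hnmc _ (st_ne hlt _ h1)) (st_cont hα hβ c1 c2).continuousAt
    · exact ContinuousAt.comp (f := fun q : X × ℂ × ℂ => st α β q.1 q.2.2)
        (hnmc _ (st_ne hlt _ h2)) (st_cont hα hβ c1 c3).continuousAt
  have hR3 : ∀ q ∈ R, Ph f α β q ∈ R := by
    intro q hq
    have h1 := hPc.image_closure (f := Ph f α β) (s := D)
    have h2 : Ph f α β '' D ⊆ D := by
      rintro _ ⟨q, hq, rfl⟩
      exact hD3 q hq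
    exact closure_mono h2 (h1 ⟨q, hq, rfl⟩)
  have hR4 : ∀ q ∈ R, ∃ q' ∈ R, Ph f α β q' = q := by
    have h1 : IsClosed (Ph f α β '' R) := (hRc.image_of_continuousOn hPc).isClosed
    have h2 : D ⊆ Ph f α β '' R := by
      intro q hq
      obtain ⟨q', hq', h3⟩ := hD4 q hq
      exact ⟨q', subset_closure hq', h3⟩
    intro q hq
    exact closure_minimal h2 h1 hq
  have hR5 : ∀ x, ∃ u s : ℂ, (x, u, s) ∈ R := by
    intro x
    have h1 : IsClosed (Prod.fst '' R) := (hRc.image continuous_fst).isClosed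
    have h2 : x ∈ Prod.fst '' R :=
      closure_minimal (image_mono subset_closure) h1 (hD5 x)
    obtain ⟨⟨x', u, s⟩, hq, rfl⟩ := h2
    exact ⟨u, s, hq⟩
  -- uniqueness of the contracted direction
  have hus : ∀ (x : X) (u s u' s' : ℂ), (x, u, s) ∈ R → (x, u', s') ∈ R → om s s' = 0 := by
    intro x u s u' s' h1 h2
    obtain ⟨a1, a2, a3⟩ := hR1 _ h1
    obtain ⟨b1, b2, b3⟩ := hR1 _ h2
    simp only at a1 a2 a3 b1 b2 b3
    have h3 : |om s' s| = 0 := by
      refine zero_of_exp (B := 2 * C ^ 2) (κ := 2 * κ) (by positivity) (abs_nonneg _) fun n => ?_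
      obtain ⟨a4, a5⟩ := hR2 _ h1 n
      obtain ⟨b4, b5⟩ := hR2 _ h2 n
      simp only at a4 a5 b4 b5
      have h4 := congrArg (an f α β n x) (om_expand s' u s)
      rw [an_add, an_smul, an_smul, an_smul] at h4
      have h5 : (om s' s : ℂ) * an f α β n x u =
          (om u s : ℂ) * an f α β n x s' - (om u s' : ℂ) * an f α β n x s := by
        rw [h4]; ring
      have h6 := congrArg norm h5
      rw [norm_mul, Complex.norm_real, Real.norm_eq_abs] at h6
      have h7 := norm_sub_le ((om u s : ℂ) * an f α β n x s') ((om u s' : ℂ) * an f α β n x s)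
      rw [norm_mul, norm_mul, Complex.norm_real, Complex.norm_real, Real.norm_eq_abs,
        Real.norm_eq_abs, ← h6] at h7
      have h8 := om_le u s
      have h9 := om_le u s'
      rw [a1, a2, one_mul] at h8
      rw [a1, b2, one_mul] at h9
      have h10 : |om s' s| * ‖an f α β n x u‖ ≤ 2 * (C * Real.exp (-(κ * n))) := by
        have k1 := mul_le_mul h8 b4 (norm_nonneg _) zero_le_one
        have k2 := mul_le_mul h9 a4 (norm_nonneg _) zero_le_one
        linarith
      have h11 : |om s' s| * Real.exp (κ * n) ≤ 2 * C ^ 2 * Real.exp (-(κ * n)) := by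
        calc |om s' s| * Real.exp (κ * n) ≤ |om s' s| * (C * ‖an f α β n x u‖) :=
              mul_le_mul_of_nonneg_left a5 (abs_nonneg _)
          _ = C * (|om s' s| * ‖an f α β n x u‖) := by ring
          _ ≤ C * (2 * (C * Real.exp (-(κ * n)))) := mul_le_mul_of_nonneg_left h10 hC.le
          _ = _ := by ring
      have h12 := mul_le_mul_of_nonneg_right h11 (Real.exp_pos (-(κ * n))).le
      have h13 : Real.exp (κ * n) * Real.exp (-(κ * n)) = 1 := by
        rw [← Real.exp_add]; simp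
      rw [mul_assoc, h13, mul_one, mul_assoc (2 * C ^ 2), ← Real.exp_add] at h12
      refine h12.trans (le_of_eq ?_)
      congr 2
      ring
    rw [om_comm s' s, abs_eq_zero.1 h3, neg_zero]
  -- past orbits
  have hpast : ∀ n : ℕ, ∀ q ∈ R, ∃ q' ∈ R, ∃ t : ℝ, f^[n] q'.1 = q.1 ∧
      an f α β n q'.1 q'.2.1 = t * q.2.1 := by
    intro n
    induction n with
    | zero => exact fun q hq => ⟨q, hq, 1, rfl, by simp [an]⟩
    | succ n ih =>
      intro q hq
      obtain ⟨q₁, hq₁, t, h1, h2⟩ := ih q hq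
      obtain ⟨q₂, hq₂, h3⟩ := hR4 q₁ hq₁
      refine ⟨q₂, hq₂, ‖st α β q₂.1 q₂.2.1‖ * t, ?_, ?_⟩
      · rw [Function.iterate_succ_apply, ← h1, ← h3]
        rfl
      · change an f α β n (f q₂.1) (st α β q₂.1 q₂.2.1) = _
        have h4 : st α β q₂.1 q₂.2.1 = ((‖st α β q₂.1 q₂.2.1‖ : ℝ) : ℂ) * q₁.2.1 := by
          rw [← h3]
          exact (nm_mul (st_ne hlt _ (hne q₂ hq₂).1)).symm
        have h5 : f q₂.1 = q₁.1 := by rw [← h3]; rfl
        rw [h5]
        conv_lhs => rw [h4]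
        rw [an_smul, h2]
        push_cast
        ring
  have huu : ∀ (x : X) (u s u' s' : ℂ), (x, u, s) ∈ R → (x, u', s') ∈ R → om u u' = 0 := by
    intro x u s u' s' h1 h2
    obtain ⟨a1, a2, a3⟩ := hR1 _ h1
    obtain ⟨b1, b2, b3⟩ := hR1 _ h2
    simp only at a1 a2 a3 b1 b2 b3
    have h3 : |om u u'| = 0 := by
      refine zero_of_exp (B := C ^ 2 / g) (κ := 2 * κ) (by positivity) (abs_nonneg _) fun n => ?_
      obtain ⟨⟨x₁, u₁, s₁⟩, hq₁, t, k1, k2⟩ := hpast n _ h1
      obtain ⟨⟨x₂, u₂, s₂⟩, hq₂, t', k1', k2'⟩ := hpast n _ h2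
      simp only at k1 k2 k1' k2'
      have hx : x₁ = x₂ := (hinj.iterate n) (by rw [k1, k1'])
      subst hx
      obtain ⟨a4, a5⟩ := hR2 _ hq₁ n
      obtain ⟨b4, b5⟩ := hR2 _ hq₂ n
      obtain ⟨d1, d2, d3⟩ := hR1 _ hq₁
      obtain ⟨e1, e2, e3⟩ := hR1 _ hq₂
      simp only at a4 a5 b4 b5 d1 d2 d3 e1 e2 e3
      have h4 := congrArg (an f α β n x₁) (om_expand u₂ u₁ s₁)
      rw [an_add, an_smul, an_smul, an_smul, k2, k2'] at h4
      have h5 := congrArg (om u) h4
      rw [om_add_right, om_smul_right, om_smul_right, om_smul_right, om_smul_right, om_smul_right,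
        om_self, mul_zero, mul_zero, zero_add] at h5
      have h6 : |om u₁ s₁| * (|t'| * |om u u'|) ≤ C * Real.exp (-(κ * n)) := by
        rw [← abs_mul, ← abs_mul, h5, abs_mul]
        have m1 := om_le u₁ u₂
        rw [d1, e1, one_mul] at m1
        have m2 := om_le u (an f α β n x₁ s₁)
        rw [a1, one_mul] at m2
        have m3 := mul_le_mul m1 (m2.trans a4) (abs_nonneg _) zero_le_one
        linarith
      have h7 : Real.exp (κ * n) ≤ C * |t'| := by
        rw [k2', norm_mul, b1, mul_one, Complex.norm_real, Real.norm_eq_abs] at b5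
        exact b5
      have h8 : g ≤ |om u₁ s₁| := d3.trans (le_abs_self _)
      have h9 : g * (|t'| * |om u u'|) ≤ C * Real.exp (-(κ * n)) :=
        (mul_le_mul_of_nonneg_right h8 (by positivity)).trans h6
      have h10 : g * (Real.exp (κ * n) * |om u u'|) ≤ C ^ 2 * Real.exp (-(κ * n)) := by
        calc g * (Real.exp (κ * n) * |om u u'|) ≤ g * ((C * |t'|) * |om u u'|) := by gcongr
          _ = C * (g * (|t'| * |om u u'|)) := by ring
          _ ≤ C * (C * Real.exp (-(κ * n))) := mul_le_mul_of_nonneg_left h9 hC.le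
          _ = _ := by ring
      have h12 := mul_le_mul_of_nonneg_right h10 (Real.exp_pos (-(κ * n))).le
      have h13 : g * (Real.exp (κ * n) * |om u u'|) * Real.exp (-(κ * n)) = g * |om u u'| := by
        calc _ = g * |om u u'| * (Real.exp (κ * n) * Real.exp (-(κ * n))) := by ring
          _ = _ := by rw [← Real.exp_add]; simp
      rw [h13, mul_assoc, ← Real.exp_add] at h12
      have h14 : -(κ * (n : ℝ)) + -(κ * n) = -(2 * κ * n) := by ring
      rw [h14] at h12
      rw [div_mul_eq_mul_div, le_div_iff₀ hg]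
      linarith
    exact abs_eq_zero.1 h3
  -- the functions
  choose u s hq using hR5
  have hsq : ∀ a c : ℂ, ‖a‖ = 1 → ‖c‖ = 1 → om a c = 0 → a ^ 2 = c ^ 2 := by
    intro a c ha hc h1
    have ha0 : a ≠ 0 := by
      rintro rfl
      rw [norm_zero] at ha
      exact zero_ne_one ha
    obtain ⟨t, ht⟩ := parallel ha0 h1
    have h2 : |t| = 1 := by
      have := congrArg norm ht
      rw [norm_mul, ha, hc, mul_one, Complex.norm_real, Real.norm_eq_abs] at this
      exact this.symm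
    have h3 : (t : ℂ) ^ 2 = 1 := by
      have : t ^ 2 = 1 := by rw [← sq_abs, h2, one_pow]
      exact_mod_cast this
    rw [ht, mul_pow, h3, one_mul]
  -- graph of the squares
  set G : Set (X × ℂ × ℂ) := (fun q : X × ℂ × ℂ => (q.1, q.2.1 ^ 2, q.2.2 ^ 2)) '' R with hG
  have hGc : IsCompact G := hRc.image (c1.prodMk ((c2.pow 2).prodMk (c3.pow 2)))
  have hGmem : ∀ q ∈ G, q = (q.1, u q.1 ^ 2, s q.1 ^ 2) := by
    rintro _ ⟨⟨x, u', s'⟩, hq', rfl⟩
    obtain ⟨a1, a2, -⟩ := hR1 _ hq'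
    obtain ⟨b1, b2, -⟩ := hR1 _ (hq x)
    simp only at a1 a2 b1 b2 ⊢
    rw [hsq u' (u x) a1 b1 (huu x _ _ _ _ hq' (hq x)), hsq s' (s x) a2 b2 (hus x _ _ _ _ hq' (hq x))]
  have hGx : ∀ x, (x, u x ^ 2, s x ^ 2) ∈ G := fun x => ⟨_, hq x, rfl⟩
  have hcont : Continuous fun x => (u x ^ 2, s x ^ 2) := by
    rw [continuous_iff_isClosed]
    intro T hT
    have h1 : (fun x => (u x ^ 2, s x ^ 2)) ⁻¹' T =
        Prod.fst '' (G ∩ (Prod.snd ⁻¹' T)) := by
      ext x
      constructor
      · intro hx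
        exact ⟨(x, u x ^ 2, s x ^ 2), ⟨hGx x, hx⟩, rfl⟩
      · rintro ⟨q, ⟨hq1, hq2⟩, rfl⟩
        have := hGmem q hq1
        rw [this] at hq2
        exact hq2
    rw [h1]
    exact ((hGc.inter_right (hT.preimage continuous_snd)).image continuous_fst).isClosed
  refine ⟨u, s, fun x => hR1 _ (hq x), fun x => ?_, fun x n => hR2 _ (hq x) n,
    continuous_fst.comp hcont, continuous_snd.comp hcont⟩
  have h1 := hR3 _ (hq x)
  have h2 := huu _ _ _ _ _ (hq (f x)) h1
  have h3 := hus _ _ _ _ _ (hq (f x)) h1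
  simp only at h2 h3
  have hx := hne _ (hq x)
  constructor
  · have h4 := nm_mul (st_ne hlt x hx.1)
    simp only at h4
    rw [← h4, om_smul_right, h2, mul_zero]
  · have h4 := nm_mul (st_ne hlt x hx.2)
    simp only at h4
    rw [← h4, om_smul_right, h3, mul_zero]

end

end Pool.Agent.Helper21S
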