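import Mathlib

/-!
# Project ST: two constants
-/

set_option autoImplicit false

open Filter Set Complex Topology

namespace Pool.Agent.Helper21S

/-- A bounded function which is small on a real interval is small near the middle of it. -/
theorem two_const {f : ℂ → ℂ} {ρ a c M : ℝ} (hρ : 0 < ρ) (hac : 0 ≤ a + c)
    (hd : ∀ z : ℂ, |z.re| ≤ ρ → 0 ≤ z.im → z.im ≤ ρ / 2 → DifferentiableAt ℂ f z)
    (hR : ∀ x : ℝ, |x| ≤ ρ → ‖f x‖ ≤ M * Real.exp (-a))
    (hC : ∀ z : ℂ, |z.re| ≤ ρ → 0 ≤ z.im → z.im ≤ ρ / 2 → ‖f z‖ ≤ M * Real.exp c) {ε : ℝ}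
    (hε : 0 ≤ ε) (hε1 : ε ≤ ρ / 2) :
    ‖f (ε * I)‖ ≤ M * Real.exp (-a + 3 * (a + c) / ρ * ε) := by
  set A : ℝ := 3 * (a + c) / ρ with hA
  set B : ℝ := 2 * (a + c) / ρ ^ 2 with hB
  have hA0 : 0 ≤ A := by positivity
  have hB0 : 0 ≤ B := by positivity
  have hM : 0 ≤ M := by
    have := (norm_nonneg _).trans (hR 0 (by simp [hρ.le]))
    by_contra hcon
    push Not at hcon
    have := mul_neg_of_neg_of_pos hcon (Real.exp_pos (-a))
    linarith
  set g : ℂ → ℂ := fun z => f z * Complex.exp (-(-(I * A * z) + B * z ^ 2)) with hg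
  have hexp : ∀ z : ℂ, ‖Complex.exp (-(-(I * A * z) + B * z ^ 2))‖ =
      Real.exp (-(A * z.im + B * (z.re ^ 2 - z.im ^ 2))) := by
    intro z
    rw [Complex.norm_exp]
    congr 1
    simp only [neg_re, add_re, mul_re, I_re, ofReal_re, zero_mul, I_im, ofReal_im, mul_zero,
      sub_zero, mul_im, one_mul, pow_two]
    ring
  have hgn : ∀ z : ℂ, ‖g z‖ = ‖f z‖ * Real.exp (-(A * z.im + B * (z.re ^ 2 - z.im ^ 2))) := by
    intro z
    rw [← hexp, ← norm_mul]
  set U : Set ℂ := Ioo (-ρ) ρ ×ℂ Ioo 0 (ρ / 2) with hU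
  have hcl : closure U = Icc (-ρ) ρ ×ℂ Icc 0 (ρ / 2) := by
    rw [hU, Complex.closure_reProdIm, closure_Ioo (by linarith), closure_Ioo (by linarith)]
  have hmem : ∀ z ∈ closure U, |z.re| ≤ ρ ∧ 0 ≤ z.im ∧ z.im ≤ ρ / 2 := by
    intro z hz
    rw [hcl, Complex.mem_reProdIm] at hz
    exact ⟨abs_le.2 hz.1, hz.2.1, hz.2.2⟩
  have hopen : IsOpen U := isOpen_Ioo.reProdIm isOpen_Ioo
  have hbd : Bornology.IsBounded U :=
    (Metric.isBounded_Ioo _ _).reProdIm (Metric.isBounded_Ioo _ _)
  have hdc : DiffContOnCl ℂ g U := by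
    apply DifferentiableOn.diffContOnCl
    intro z hz
    obtain ⟨h1, h2, h3⟩ := hmem z hz
    apply DifferentiableAt.differentiableWithinAt
    apply (hd z h1 h2 h3).mul
    fun_prop
  have hfr : ∀ z ∈ frontier U, ‖g z‖ ≤ M * Real.exp (-a) := by
    intro z hz
    have hzc := frontier_subset_closure hz
    obtain ⟨h1, h2, h3⟩ := hmem z hzc
    have hzn : z ∉ U := by
      rw [hopen.frontier_eq] at hz
      exact hz.2
    rw [hgn]
    by_cases him : z.im = 0
    · have e1 : z = (z.re : ℂ) := by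
        apply Complex.ext <;> simp [him]
      have e2 := hR z.re h1
      rw [← e1] at e2
      calc ‖f z‖ * Real.exp (-(A * z.im + B * (z.re ^ 2 - z.im ^ 2))) ≤
            (M * Real.exp (-a)) * 1 := by
            apply mul_le_mul e2 _ (Real.exp_pos _).le (by positivity)
            rw [Real.exp_le_one_iff, him]
            nlinarith [mul_nonneg hB0 (sq_nonneg z.re)]
        _ = _ := mul_one _
    · have key : a + c ≤ A * z.im + B * (z.re ^ 2 - z.im ^ 2) := by
        by_cases htop : z.im = ρ / 2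
        · have e1 : A * z.im + B * (z.re ^ 2 - z.im ^ 2) = (a + c) + B * z.re ^ 2 := by
            rw [htop, hA, hB]
            field_simp
            ring
          rw [e1]
          nlinarith [mul_nonneg hB0 (sq_nonneg z.re)]
        · have hre : z.re ^ 2 = ρ ^ 2 := by
            by_contra hcon
            apply hzn
            rw [hU, Complex.mem_reProdIm]
            have h5 : |z.re| < ρ := by
              refine lt_of_le_of_ne h1 fun h6 => hcon ?_
              rw [← h6, sq_abs]
            refine ⟨abs_lt.1 h5, lt_of_le_of_ne h2 (Ne.symm him), lt_of_le_of_ne h3 htop⟩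
          rw [hre]
          have e2 : z.im ^ 2 ≤ ρ ^ 2 / 4 := by nlinarith
          have e3 : B * (ρ ^ 2 - ρ ^ 2 / 4) = 3 / 2 * (a + c) := by
            rw [hB]
            field_simp
            ring
          have e4 : B * (ρ ^ 2 - ρ ^ 2 / 4) ≤ B * (ρ ^ 2 - z.im ^ 2) :=
            mul_le_mul_of_nonneg_left (by linarith) hB0
          have e5 : 0 ≤ A * z.im := mul_nonneg hA0 h2
          linarith
      calc ‖f z‖ * Real.exp (-(A * z.im + B * (z.re ^ 2 - z.im ^ 2))) ≤
            (M * Real.exp c) * Real.exp (-(a + c)) := by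
            apply mul_le_mul (hC z h1 h2 h3) _ (Real.exp_pos _).le (by positivity)
            apply Real.exp_le_exp.2
            linarith
        _ = M * Real.exp (-a) := by
            rw [mul_assoc, ← Real.exp_add]
            congr 2
            ring
  have hz0 : (ε * I : ℂ) ∈ closure U := by
    rw [hcl, Complex.mem_reProdIm]
    simp only [mul_re, ofReal_re, I_re, mul_zero, ofReal_im, I_im, mul_one, sub_self, mul_im,
      add_zero, mem_Icc]
    exact ⟨⟨by linarith, by linarith⟩, hε, hε1⟩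
  have hfin := Complex.norm_le_of_forall_mem_frontier_norm_le hbd hdc hfr hz0
  rw [hgn] at hfin
  simp only [mul_re, ofReal_re, I_re, mul_zero, ofReal_im, I_im, mul_one, sub_self, mul_im,
    add_zero] at hfin
  have h9 : Real.exp (-(A * ε + B * (0 ^ 2 - ε ^ 2))) * Real.exp (A * ε - B * ε ^ 2) = 1 := by
    rw [← Real.exp_add, Real.exp_eq_one_iff]
    ring
  have h10 := mul_le_mul_of_nonneg_right hfin (Real.exp_pos (A * ε - B * ε ^ 2)).le
  rw [mul_assoc, h9, mul_one] at h10
  refine h10.trans ?_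
  rw [mul_assoc, ← Real.exp_add]
  apply mul_le_mul_of_nonneg_left _ hM
  apply Real.exp_le_exp.2
  nlinarith [mul_nonneg hB0 (sq_nonneg ε)]

end Pool.Agent.Helper21S
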