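import Pool.Agent.Helper21S.Five
import Pool.Agent.Helper21S.Six

/-!
# Project ST: periodic products
-/

set_option autoImplicit false

open Filter Set Complex Topology

namespace Pool.Agent.Helper21S

/-! ### quadratic equations -/

theorem roots2 (T Δ : ℂ) : ∃ μ ν : ℂ, μ + ν = T ∧ μ * ν = Δ ∧ μ ^ 2 - T * μ + Δ = 0 ∧
    ν ^ 2 - T * ν + Δ = 0 := by
  obtain ⟨s, hs⟩ := IsAlgClosed.exists_pow_nat_eq (T ^ 2 - 4 * Δ) (n := 2) (by norm_num)
  refine ⟨(T + s) / 2, (T - s) / 2, by ring, ?_, ?_, ?_⟩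
  · linear_combination (-1 / 4) * hs
  · linear_combination (1 / 4) * hs
  · linear_combination (1 / 4) * hs

theorem root_real {t D : ℝ} {μ : ℂ} (h : μ ^ 2 - t * μ + D = 0) :
    ‖μ‖ ^ 2 = D ∨ (μ.im = 0 ∧ |t| * ‖μ‖ = ‖μ‖ ^ 2 + D) ∨ D ≤ 0 := by
  have h1 := congrArg Complex.re h
  have h2 := congrArg Complex.im h
  simp only [pow_two, sub_re, add_re, mul_re, ofReal_re, ofReal_im, zero_mul, sub_zero, zero_re,
    sub_im, add_im, mul_im, add_zero, zero_im] at h1 h2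
  have h3 : μ.im * (2 * μ.re - t) = 0 := by linarith
  rcases mul_eq_zero.1 h3 with h4 | h4
  · rcases le_or_gt D 0 with hD | hD
    · exact Or.inr (Or.inr hD)
    · right; left
      refine ⟨h4, ?_⟩
      rw [h4] at h1
      have h5 : ‖μ‖ = |μ.re| := by
        have : μ = (μ.re : ℂ) := Complex.ext (by simp) (by simp [h4])
        rw [this, Complex.norm_real, Real.norm_eq_abs]
        simp
      rw [h5, ← abs_mul, sq_abs]
      have h6 : t * μ.re = μ.re ^ 2 + D := by nlinarith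
      rw [h6, abs_of_nonneg (by positivity)]
  · left
    rw [← Complex.normSq_eq_norm_sq, Complex.normSq_apply]
    have h5 : t = 2 * μ.re := by linarith
    rw [h5] at h1
    nlinarith

theorem jury0 {t D : ℝ} (hD : 0 < D) (hD1 : D < 1) (ht : |t| < 1 + D) {μ : ℂ}
    (h : μ ^ 2 - t * μ + D = 0) : ‖μ‖ < 1 := by
  have h0 := norm_nonneg μ
  rcases root_real h with h1 | ⟨-, h1⟩ | h1
  · nlinarith
  · by_contra hcon
    push Not at hcon
    nlinarith [mul_nonneg (sub_nonneg.2 hcon) (sub_nonneg.2 (hD1.le.trans hcon))]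
  · linarith

theorem jury2 {t D : ℝ} (hD1 : 1 < D) (ht : |t| < 1 + D) {μ : ℂ}
    (h : μ ^ 2 - t * μ + D = 0) : 1 < ‖μ‖ := by
  have h0 := norm_nonneg μ
  rcases root_real h with h1 | ⟨-, h1⟩ | h1
  · nlinarith
  · by_contra hcon
    push Not at hcon
    have h2 : μ ≠ 0 := by
      rintro rfl
      simp at h
      linarith
    have h3 : 0 < ‖μ‖ := norm_pos_iff.2 h2
    nlinarith [mul_nonneg (sub_nonneg.2 hcon) (sub_nonneg.2 (hcon.trans hD1.le))]
  · linarith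

/-- a continuous function without zeros on an interval -/
theorem sign_const {f : ℝ → ℝ} (hf : Continuous f) {ρ : ℝ} (h : ∀ x, |x| ≤ ρ → f x ≠ 0)
    (h0 : f 0 < 0) {x : ℝ} (hx : |x| ≤ ρ) : f x < 0 := by
  by_contra hcon
  push Not at hcon
  have h1 : (0 : ℝ) ∈ f '' uIcc 0 x :=
    intermediate_value_uIcc hf.continuousOn (by
      rw [mem_uIcc]
      left
      exact ⟨h0.le, hcon⟩)
  obtain ⟨z, hz, hz0⟩ := h1
  refine h z ?_ hz0
  refine le_trans ?_ hx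
  rw [mem_uIcc] at hz
  rcases hz with ⟨h2, h3⟩ | ⟨h2, h3⟩
  · rw [abs_of_nonneg h2, abs_of_nonneg (h2.trans h3)]
    exact h3
  · rw [abs_of_nonpos h3, abs_of_nonpos (h2.trans h3)]
    linarith

section

variable {Y : Type*} {J : ℕ} {b : Fin J → Y → ℝ} {h : Y → Y} {α β : Y → ℂ}

/-- trace -/
noncomputable def TT (h : Y → Y) (α β : Y → ℂ) (b : Fin J → Y → ℝ) (θ : ℂ) (n : ℕ) (y : Y) : ℂ :=
  PP h α β b θ n y 0 0 + PP h α β b θ n y 1 1

/-- the gap of the eigenvalues of the periodic products with real parameters -/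
def GapR (h : Y → Y) (α β : Y → ℂ) (b : Fin J → Y → ℝ) (κ ρ : ℝ) : Prop :=
  ∀ (y : Y) (m : ℕ), 1 ≤ m → h^[m] y = y → ∀ θ : ℝ, |θ| ≤ ρ → ∀ μ : ℂ,
    μ ^ 2 - TT h α β b θ m y * μ + (PP h α β b θ m y).det = 0 →
      Real.exp (κ * m) ≤ ‖μ‖ ∨ ‖μ‖ ≤ Real.exp (-(κ * m))

/-- the real trace and determinant -/
noncomputable def tr (h : Y → Y) (α β : Y → ℂ) (b : Fin J → Y → ℝ) (n : ℕ) (y : Y) (θ : ℝ) : ℝ :=
  2 * (PP h α β b θ n y 0 0).re

noncomputable def dt (h : Y → Y) (α β : Y → ℂ) (b : Fin J → Y → ℝ) (n : ℕ) (y : Y) (θ : ℝ) : ℝ :=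
  ‖PP h α β b θ n y 0 0‖ ^ 2 - ‖PP h α β b θ n y 0 1‖ ^ 2

theorem TT_real (n : ℕ) (y : Y) (θ : ℝ) : TT h α β b θ n y = (tr h α β b n y θ : ℂ) := by
  unfold TT tr
  rw [(real_form h θ n y).1, Complex.add_conj]

theorem det_real (n : ℕ) (y : Y) (θ : ℝ) :
    (PP h α β b θ n y).det = (dt h α β b n y θ : ℂ) := by
  rw [Matrix.det_fin_two, (real_form h θ n y).1, (real_form h θ n y).2, Complex.mul_conj,
    Complex.mul_conj, Complex.normSq_eq_norm_sq, Complex.normSq_eq_norm_sq]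
  unfold dt
  push_cast
  rfl

theorem dt_pos (h0 : ∀ j y, 0 ≤ b j y) (hlt : ∀ y, ‖β y‖ < ‖α y‖) (n : ℕ) (y : Y) (θ : ℝ) :
    0 < dt h α β b n y θ := by
  have h1 := J_grow h (α := α) (β := β) h0 hlt (θ := (θ : ℂ)) (by simp) (0, 1) n y
  have h2 := QQ_pos h (α := α) (β := β) h0 hlt (θ := (θ : ℂ)) (by simp) n y
  have h5 : Jf ((0 : ℂ), (1 : ℂ)) = 1 := by unfold Jf; simp
  rw [h5, mul_one] at h1
  have h4 : Jf (rm (0, 1) (PP h α β b θ n y)) = dt h α β b n y θ := by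
    unfold Jf rm dt
    simp only [zero_mul, one_mul, zero_add]
    rw [(real_form h θ n y).1, (real_form h θ n y).2, RCLike.norm_conj, RCLike.norm_conj]
  rw [h4] at h1
  linarith

theorem tr_cont (n : ℕ) (y : Y) : Continuous (tr h α β b n y) := by
  have h1 := (isPoly_PP h α β b n y 0 0).differentiable.continuous
  have h2 : Continuous fun θ : ℝ => PP h α β b (θ : ℂ) n y 0 0 := h1.comp Complex.continuous_ofReal
  exact continuous_const.mul (Complex.continuous_re.comp h2)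

theorem dt_cont (n : ℕ) (y : Y) : Continuous (dt h α β b n y) := by
  have h1 := (isPoly_PP h α β b n y 0 0).differentiable.continuous
  have h2 : Continuous fun θ : ℝ => PP h α β b (θ : ℂ) n y 0 0 := h1.comp Complex.continuous_ofReal
  have h3 := (isPoly_PP h α β b n y 0 1).differentiable.continuous
  have h4 : Continuous fun θ : ℝ => PP h α β b (θ : ℂ) n y 0 1 := h3.comp Complex.continuous_ofReal
  exact (h2.norm.pow 2).sub (h4.norm.pow 2)

theorem GapR.root {κ ρ : ℝ} (hg : GapR h α β b κ ρ) {y : Y} {m : ℕ} (hm : 1 ≤ m)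
    (hy : h^[m] y = y) {θ : ℝ} (hθ : |θ| ≤ ρ) {μ : ℂ}
    (hμ : μ ^ 2 - (tr h α β b m y θ : ℂ) * μ + (dt h α β b m y θ : ℂ) = 0) :
    Real.exp (κ * m) ≤ ‖μ‖ ∨ ‖μ‖ ≤ Real.exp (-(κ * m)) := by
  apply hg y m hm hy θ hθ μ
  rw [TT_real, det_real]
  exact hμ

theorem GapR.ne_one {κ ρ : ℝ} (hκ : 0 < κ) (hg : GapR h α β b κ ρ) {y : Y} {m : ℕ} (hm : 1 ≤ m)
    (hy : h^[m] y = y) {θ : ℝ} (hθ : |θ| ≤ ρ) {μ : ℂ}
    (hμ : μ ^ 2 - (tr h α β b m y θ : ℂ) * μ + (dt h α β b m y θ : ℂ) = 0) : ‖μ‖ ≠ 1 := by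
  have hm' : (1 : ℝ) ≤ m := by exact_mod_cast hm
  have hpos : 0 < κ * m := by positivity
  intro h1
  rcases hg.root hm hy hθ hμ with h2 | h2
  · have := Real.one_lt_exp_iff.2 hpos
    linarith
  · have := Real.exp_lt_exp.2 (show -(κ * m) < 0 by linarith)
    rw [Real.exp_zero] at this
    linarith

/-- `|t| ≠ 1 + D` -/
theorem GapR.u_ne {κ ρ : ℝ} (hκ : 0 < κ) (hg : GapR h α β b κ ρ) {y : Y} {m : ℕ} (hm : 1 ≤ m)
    (hy : h^[m] y = y) {θ : ℝ} (hθ : |θ| ≤ ρ) :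
    |tr h α β b m y θ| - (1 + dt h α β b m y θ) ≠ 0 := by
  intro h1
  rcases le_total 0 (tr h α β b m y θ) with h2 | h2
  · rw [abs_of_nonneg h2] at h1
    refine hg.ne_one hκ hm hy hθ (μ := 1) ?_ (by simp)
    have : tr h α β b m y θ = 1 + dt h α β b m y θ := by linarith
    rw [this]
    push_cast
    ring
  · rw [abs_of_nonpos h2] at h1
    refine hg.ne_one hκ hm hy hθ (μ := -1) ?_ (by simp)
    have : tr h α β b m y θ = -(1 + dt h α β b m y θ) := by linarith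
    rw [this]
    push_cast
    ring

theorem GapR.d_ne {κ ρ : ℝ} (hκ : 0 < κ) (hg : GapR h α β b κ ρ) {y : Y} {m : ℕ} (hm : 1 ≤ m)
    (hy : h^[m] y = y) {θ : ℝ} (hθ : |θ| ≤ ρ)
    (hu : |tr h α β b m y θ| - (1 + dt h α β b m y θ) < 0) : dt h α β b m y θ - 1 ≠ 0 := by
  intro h1
  have hD : dt h α β b m y θ = 1 := by linarith
  obtain ⟨μ, ν, h2, h3, h4, h5⟩ := roots2 (tr h α β b m y θ : ℂ) (dt h α β b m y θ : ℂ)
  refine hg.ne_one hκ hm hy hθ h4 ?_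
  have h0 := norm_nonneg μ
  rcases root_real h4 with h6 | ⟨-, h6⟩ | h6
  · rw [hD] at h6
    nlinarith
  · rw [hD] at h6 hu
    nlinarith [sq_nonneg (‖μ‖ - 1)]
  · linarith

/-- the three classes are constant in the parameter -/
theorem GapR.class0 {κ ρ : ℝ} (hκ : 0 < κ) (hg : GapR h α β b κ ρ) {y : Y} {m : ℕ} (hm : 1 ≤ m)
    (hy : h^[m] y = y) (h0 : |tr h α β b m y 0| < 1 + dt h α β b m y 0)
    {θ : ℝ} (hθ : |θ| ≤ ρ) : |tr h α β b m y θ| < 1 + dt h α β b m y θ := by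
  have h1 := sign_const (f := fun θ => |tr h α β b m y θ| - (1 + dt h α β b m y θ))
    ((tr_cont m y).abs.sub (continuous_const.add (dt_cont m y)))
    (fun x hx => hg.u_ne hκ hm hy hx) (by linarith) hθ
  linarith

theorem GapR.class1 {κ ρ : ℝ} (hκ : 0 < κ) (hg : GapR h α β b κ ρ) {y : Y} {m : ℕ} (hm : 1 ≤ m)
    (hy : h^[m] y = y) (h0 : 1 + dt h α β b m y 0 < |tr h α β b m y 0|)
    {θ : ℝ} (hθ : |θ| ≤ ρ) : 1 + dt h α β b m y θ < |tr h α β b m y θ| := by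
  have h1 := sign_const (f := fun θ => (1 + dt h α β b m y θ) - |tr h α β b m y θ|)
    ((continuous_const.add (dt_cont m y)).sub (tr_cont m y).abs)
    (fun x hx h2 => hg.u_ne hκ hm hy hx (by linarith)) (by linarith) hθ
  linarith

theorem GapR.class0' {κ ρ : ℝ} (hκ : 0 < κ) (hg : GapR h α β b κ ρ) {y : Y} {m : ℕ} (hm : 1 ≤ m)
    (hy : h^[m] y = y) (h0 : |tr h α β b m y 0| < 1 + dt h α β b m y 0)
    (h1 : dt h α β b m y 0 < 1) {θ : ℝ} (hθ : |θ| ≤ ρ) : dt h α β b m y θ < 1 := by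
  have h1 := sign_const (f := fun θ => dt h α β b m y θ - 1)
    ((dt_cont m y).sub continuous_const)
    (fun x hx => hg.d_ne hκ hm hy hx (by linarith [hg.class0 hκ hm hy h0 hx])) (by linarith) hθ
  linarith

theorem GapR.class2' {κ ρ : ℝ} (hκ : 0 < κ) (hg : GapR h α β b κ ρ) {y : Y} {m : ℕ} (hm : 1 ≤ m)
    (hy : h^[m] y = y) (h0 : |tr h α β b m y 0| < 1 + dt h α β b m y 0)
    (h1 : 1 < dt h α β b m y 0) {θ : ℝ} (hθ : |θ| ≤ ρ) : 1 < dt h α β b m y θ := by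
  have h1 := sign_const (f := fun θ => 1 - dt h α β b m y θ)
    (continuous_const.sub (dt_cont m y))
    (fun x hx h2 => hg.d_ne hκ hm hy hx (by linarith [hg.class0 hκ hm hy h0 hx]) (by linarith))
    (by linarith) hθ
  linarith

end

end Pool.Agent.Helper21S
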