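import Pool.Agent.Helper21S.Bumps

/-!
# Project ST: the star property in class `C^r`
-/

set_option autoImplicit false
set_option linter.unusedSectionVars false

open scoped Manifold ContDiff Topology
open Filter Set Metric

universe u

namespace Pool.Agent.Helper21S

open Pool.Agent.H718R2.G Pool.Agent.Y504.CO Pool.Agent.TH80.OMS Pool.Agent.W564.SC
  Pool.Agent.W74.SC

/-- In the balls of radius `1/2` of good charts the distance of `N` is at most a multiple of the
distance of `ℝⁿ` (for instance a Riemannian distance). -/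
def SmoothDist (n : ℕ) (N : Type*) [MetricSpace N] [ChartedSpace (V n) N] : Prop :=
  ∀ (χ : OpenPartialHomeomorph N (V n)) (z : N), GoodChart n N χ z → ∃ L : ℝ, 0 < L ∧
    ∀ y ∈ χ.source, ∀ y' ∈ χ.source, ‖χ y‖ ≤ 1 / 2 → ‖χ y'‖ ≤ 1 / 2 →
      dist y y' ≤ L * ‖χ y - χ y'‖

section

variable {n : ℕ} {N : Type u} [MetricSpace N] [ChartedSpace (V n) N] [IsManifold (𝓡 n) ∞ N]
  [CompactSpace N] {r : ℕ∞}

/-- weighted number of the points of the orbit in `S` -/
noncomputable def wcnt (F : N → N) (S : Set N) (ρ : N → ℝ) (k m : ℕ) (p : N) : ℝ :=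
  ∑ i ∈ Finset.range m, S.indicator (fun x => ρ x ^ (k - 1)) (F^[i + 1] p)

/-- `ρ` bounds the distances of the points of the orbit of `p` -/
def Sep (F : N → N) (m : ℕ) (p : N) (ρ : N → ℝ) : Prop :=
  (∀ x, 0 < ρ x ∧ ρ x ≤ 1) ∧ ∀ i < m, ∀ j < m, i ≠ j →
    ρ (F^[i + 1] p) ≤ dist (F^[i + 1] p) (F^[j + 1] p)

/-- the gap property for the part of the orbits in `S` -/
def SGap (F : N → N) (S : Set N) (k : ℕ) (κ : ℝ) : Prop :=
  ∀ (p : N) (m : ℕ), 1 ≤ m → F^[m] p = p → ∀ ρ : N → ℝ, Sep F m p ρ →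
    ∀ l : V n →ₗ[ℝ] ℂ, l ≠ 0 → ∀ μ : ℂ, (∀ v, l (dm F^[m] p v) = μ * l v) →
      Real.exp (κ * wcnt F S ρ k m p) ≤ ‖μ‖ ∨ ‖μ‖ ≤ Real.exp (-(κ * wcnt F S ρ k m p))

theorem sgap_local (hN : SmoothDist n N) (hr : 1 ≤ r) {F : DiffM n N r} {U : Set (DiffM n N r)}
    (hU : IsOpen[strongTop n N r] U) (hFU : F ∈ U) (hH : ∀ g ∈ U, ∀ p ∈ Per g, HypAt n g p)
    (z : N) : ∃ S ∈ 𝓝 z, ∃ k : ℕ, 1 ≤ k ∧ (k : ℕ∞) ≤ r ∧ ∃ κ : ℝ, 0 < κ ∧
      SGap (n := n) F S k κ := by
  obtain ⟨χ, hχ⟩ := Pool.Agent.W699.SC.gc n N z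
  obtain ⟨L₀, hL₀, hL₀'⟩ := hN χ z hχ
  set L : ℝ := max L₀ 1 with hL
  have hL1 : 1 ≤ L := le_max_right _ _
  have hL0 : 0 < L := by linarith
  have hdist : ∀ y ∈ χ.source, ∀ y' ∈ χ.source, ‖χ y‖ ≤ 1 / 2 → ‖χ y'‖ ≤ 1 / 2 →
      dist y y' ≤ L * ‖χ y - χ y'‖ := by
    intro y hy y' hy' h1 h2
    refine (hL₀' y hy y' hy' h1 h2).trans ?_
    exact mul_le_mul_of_nonneg_right (le_max_left _ _) (norm_nonneg _)
  obtain ⟨k, hk1, hkr, κ₀, hκ₀, hpush⟩ := pushU hr hU hFU hχ
  obtain ⟨C, hC, hbumps⟩ := bumps n k hk1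
  set s₀ : ℝ := min (1 / 2) (κ₀ / C) with hs₀
  have hs₀0 : 0 < s₀ := by positivity
  have hs₀1 : s₀ ≤ 1 / 2 := min_le_left _ _
  set S : Set N := χ.source ∩ χ ⁻¹' ball 0 (1 / 4) with hS
  have hSmem : ∀ y, y ∈ S ↔ y ∈ χ.source ∧ ‖χ y‖ < 1 / 4 := by
    intro y
    rw [hS, mem_inter_iff, mem_preimage, mem_ball, dist_zero_right]
  refine ⟨S, ?_, k, hk1, hkr, s₀ / 2 * ((8 * L)⁻¹) ^ (k - 1), by positivity, ?_⟩
  · apply (χ.isOpen_inter_preimage isOpen_ball).mem_nhds
    rw [← hS, hSmem]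
    exact ⟨hχ.src, by rw [hχ.zero]; simp⟩
  intro p m hm hp ρ hρ l hl μ hμ
  classical
  set y : ℕ → N := fun i => F^[i + 1] p with hy
  set J : Finset ℕ := (Finset.range m).filter fun i => y i ∈ S with hJ
  set σ : ℕ → ℝ := fun i => (8 * L)⁻¹ * ρ (y i) with hσ
  have hJm : ∀ i ∈ J, i < m ∧ y i ∈ χ.source ∧ ‖χ (y i)‖ < 1 / 4 := by
    intro i hi
    rw [hJ, Finset.mem_filter, Finset.mem_range, hSmem] at hi
    exact hi
  have h8L : (8 * L)⁻¹ ≤ 1 / 8 := by
    rw [inv_eq_one_div]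
    apply div_le_div_of_nonneg_left zero_le_one (by norm_num)
    linarith
  have h8L0 : 0 < (8 * L)⁻¹ := by positivity
  have hσρ : ∀ i, 8 * L * σ i = ρ (y i) := by
    intro i
    simp only [hσ]
    field_simp
  have hσ0 : ∀ i, 0 < σ i ∧ σ i ≤ 1 / 8 := by
    intro i
    have h1 := hρ.1 (y i)
    refine ⟨mul_pos h8L0 h1.1, ?_⟩
    calc (8 * L)⁻¹ * ρ (y i) ≤ 1 / 8 * 1 := mul_le_mul h8L h1.2 h1.1.le (by norm_num)
      _ = 1 / 8 := by norm_num
  -- distances in the chart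
  have hfar : ∀ i ∈ J, ∀ j < m, i ≠ j → y j ∈ χ.source → 2 * σ i < ‖χ (y j) - χ (y i)‖ := by
    intro i hi j hj hij hjs
    obtain ⟨him, his, hi4⟩ := hJm i hi
    by_cases hj2 : ‖χ (y j)‖ ≤ 1 / 2
    · have h1 := hρ.2 i him j hj hij
      have h2 := hdist _ hjs _ his hj2 (by linarith)
      have h3 := hσρ i
      have h4 := (hσ0 i).1
      rw [dist_comm] at h2
      have h5 : 8 * L * σ i ≤ L * ‖χ (y j) - χ (y i)‖ := by
        rw [h3]
        exact h1.trans h2
      have h6 : 8 * σ i ≤ ‖χ (y j) - χ (y i)‖ := by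
        rw [mul_comm 8 L, mul_assoc] at h5
        exact le_of_mul_le_mul_left h5 hL0
      linarith
    · push Not at hj2
      have h1 : ‖χ (y j)‖ - ‖χ (y i)‖ ≤ ‖χ (y j) - χ (y i)‖ := norm_sub_norm_le _ _
      have h2 := (hσ0 i).2
      linarith
  have hdis : ∀ i ∈ J, ∀ j ∈ J, i ≠ j → 2 * σ i + 2 * σ j < ‖χ (y i) - χ (y j)‖ := by
    intro i hi j hj hij
    obtain ⟨him, his, hi4⟩ := hJm i hi
    obtain ⟨hjm, hjs, hj4⟩ := hJm j hj
    have h1 := hρ.2 i him j hjm hij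
    have h1' := hρ.2 j hjm i him hij.symm
    rw [dist_comm] at h1'
    have h2 := hdist _ his _ hjs (by linarith) (by linarith)
    have h3 := hσρ i
    have h3' := hσρ j
    have h5 : 8 * L * σ i ≤ L * ‖χ (y i) - χ (y j)‖ := by
      rw [h3]
      exact h1.trans h2
    have h5' : 8 * L * σ j ≤ L * ‖χ (y i) - χ (y j)‖ := by
      rw [h3']
      exact h1'.trans h2
    have h6 : 8 * σ i ≤ ‖χ (y i) - χ (y j)‖ := by
      rw [mul_comm 8 L, mul_assoc] at h5
      exact le_of_mul_le_mul_left h5 hL0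
    have h6' : 8 * σ j ≤ ‖χ (y i) - χ (y j)‖ := by
      rw [mul_comm 8 L, mul_assoc] at h5'
      exact le_of_mul_le_mul_left h5' hL0
    have h4 := (hσ0 i).1
    have h4' := (hσ0 j).1
    linarith
  obtain ⟨u, hu, husupp, hubd, huc, huo⟩ := hbumps J (fun i => χ (y i)) σ
    (fun i _ => hσ0 i) (fun i hi => (hJm i hi).2.2) hdis
  have hsmall : ∀ s : ℝ, |s| ≤ s₀ → Small n k κ₀ (fun v => s • u v) := by
    intro s hs
    refine ⟨hu.const_smul s, fun x hx => by simp only [husupp x hx, smul_zero], ?_⟩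
    intro j hj x
    have h1 : iteratedFDeriv ℝ j (s • u) x = s • iteratedFDeriv ℝ j u x := by
      apply iteratedFDeriv_const_smul_apply
      exact (hu.of_le (by exact_mod_cast le_top)).contDiffAt
    change ‖iteratedFDeriv ℝ j (s • u) x‖ ≤ κ₀
    rw [h1, norm_smul, Real.norm_eq_abs]
    calc |s| * ‖iteratedFDeriv ℝ j u x‖ ≤ (κ₀ / C) * C :=
          mul_le_mul (hs.trans (min_le_right _ _)) (hubd j hj x) (norm_nonneg _) (by positivity)
      _ = κ₀ := by field_simp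
  set b : ℕ → ℝ := fun i => if 1 ≤ i ∧ i - 1 ∈ J then σ (i - 1) ^ (k - 1) else 0 with hb
  have hb01 : ∀ i, 0 ≤ b i ∧ b i ≤ 1 := by
    intro i
    simp only [hb]
    split_ifs
    · exact ⟨pow_nonneg (hσ0 _).1.le _, pow_le_one₀ (hσ0 _).1.le ((hσ0 _).2.trans (by norm_num))⟩
    · exact ⟨le_rfl, zero_le_one⟩
  have hbJ : ∀ i, b (i + 1) = if i ∈ J then σ i ^ (k - 1) else 0 := by
    intro i
    simp only [hb]
    rw [Nat.add_sub_cancel]
    by_cases h : i ∈ J <;> simp [h]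
  -- the field at the points of the orbit
  have hu0 : ∀ i < m, y i ∈ χ.source → u (χ (y i)) = 0 := by
    intro i hi his
    by_cases hiJ : i ∈ J
    · exact (huc i hiJ).1
    · refine (huo _ fun j hj => hfar j hj i hi ?_ his).self_of_nhds
      rintro rfl
      exact hiJ hj
  have hder : ∀ (s : ℝ) (Θ : DiffM n N r), IsPush n N r χ (fun v => s • u v) Θ → ∀ i < m,
      Θ (y i) = y i ∧ ∀ v : V n, dm Θ (y i) v = (1 + s * b (i + 1)) • v := by
    intro s Θ hΘ i hi
    refine ⟨push_fix hΘ fun his => by simp only [hu0 i hi his, smul_zero], fun v => ?_⟩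
    by_cases his : y i ∈ χ.source
    · apply (dc_bij hχ.mem his).injective
      by_cases hiJ : i ∈ J
      · have hD : HasFDerivAt (fun v => s • u v)
            (s • (σ i ^ (k - 1) • ContinuousLinearMap.id ℝ (V n))) (χ (y i)) :=
          (huc i hiJ).2.const_smul s
        rw [push_dm hr hχ.mem hΘ his (by simp only [hu0 i hi his, smul_zero]) hD v, hbJ,
          if_pos hiJ, map_smul]
        simp only [smul_apply, ContinuousLinearMap.id_apply]
        module
      · have h0 : (fun v => s • u v) =ᶠ[𝓝 (χ (y i))] fun _ => 0 := by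
          have := huo (χ (y i)) fun j hj => hfar j hj i hi (by
            rintro rfl
            exact hiJ hj) his
          filter_upwards [this] with x hx
          rw [hx, smul_zero]
        have hD : HasFDerivAt (fun v => s • u v) (0 : V n →L[ℝ] V n) (χ (y i)) :=
          (hasFDerivAt_const (0 : V n) (χ (y i))).congr_of_eventuallyEq h0
        rw [push_dm hr hχ.mem hΘ his (by simp only [hu0 i hi his, smul_zero]) hD v, hbJ,
          if_neg hiJ]
        simp
    · have h1 := push_out hχ (u := fun v => s • u v)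
        (fun x hx => by simp only [husupp x hx, smul_zero]) hΘ (y := y i) (by
          rintro ⟨v, hv, hvy⟩
          apply his
          rw [← hvy]
          exact χ.map_target (hχ.ball (closedBall_subset_closedBall (by norm_num) hv))) v
      have hiJ : i ∉ J := fun h => his (hJm i h).2.1
      rw [h1, hbJ, if_neg hiJ]
      simp
  have hmain := ivt_prod m b s₀ hs₀0 hs₀1 hb01 ‖μ‖ (norm_nonneg _) (by
      intro s hs
      obtain ⟨Θ, hΘ, hΘU⟩ := hpush _ (hsmall s hs)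
      have hd := hder s Θ hΘ
      refine key hr hH hΘU hm hp ?_ l hl μ hμ (fun i => s * b i) ?_
      · intro i hi1 him
        have := (hd (i - 1) (by omega)).1
        simp only [hy] at this
        rwa [Nat.sub_add_cancel hi1] at this
      · intro i hi1 him v
        have := (hd (i - 1) (by omega)).2 v
        simp only [hy] at this
        rw [Nat.sub_add_cancel hi1] at this
        rw [this, map_smul, map_smul, Complex.real_smul])
  have hcnt : ((8 * L)⁻¹) ^ (k - 1) * wcnt F S ρ k m p ≤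
      ∑ i ∈ Finset.range m, b (i + 1) := by
    rw [wcnt, Finset.mul_sum]
    apply Finset.sum_le_sum
    intro i hi
    rw [hbJ]
    by_cases h : y i ∈ S
    · have hiJ : i ∈ J := by
        rw [hJ, Finset.mem_filter]
        exact ⟨hi, h⟩
      rw [if_pos hiJ, indicator_of_mem (show F^[i + 1] p ∈ S from h)]
      simp only [hσ]
      rw [mul_pow]
    · have hiJ : i ∉ J := by
        rw [hJ, Finset.mem_filter]
        exact fun h' => h h'.2
      rw [if_neg hiJ, indicator_of_notMem (show F^[i + 1] p ∉ S from h), mul_zero]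
  have hle : s₀ / 2 * ((8 * L)⁻¹) ^ (k - 1) * wcnt F S ρ k m p ≤
      s₀ / 2 * ∑ i ∈ Finset.range m, b (i + 1) := by
    rw [mul_assoc]
    exact mul_le_mul_of_nonneg_left hcnt (by positivity)
  rcases hmain with h | h
  · left
    exact (Real.exp_le_exp.2 hle).trans h
  · right
    exact h.trans (Real.exp_le_exp.2 (neg_le_neg hle))

theorem wcnt_nonneg (F : N → N) (S : Set N) (ρ : N → ℝ) (hρ : ∀ x, 0 < ρ x ∧ ρ x ≤ 1) (k m : ℕ)
    (p : N) : 0 ≤ wcnt F S ρ k m p := by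
  apply Finset.sum_nonneg
  intro i _
  apply indicator_nonneg
  intro x _
  exact pow_nonneg (hρ x).1.le _

theorem SGap.mono {F : N → N} {S S' : Set N} {k k' : ℕ} {κ κ' : ℝ} (hκ0 : 0 ≤ κ') (hκ : κ' ≤ κ)
    (hk : k ≤ k') (h : SGap (n := n) F S k κ) (hS : S' ⊆ S) : SGap (n := n) F S' k' κ' := by
  intro p m hm hp ρ hρ l hl μ hμ
  have h1 : wcnt F S' ρ k' m p ≤ wcnt F S ρ k m p := by
    apply Finset.sum_le_sum
    intro i _
    have h2 := hρ.1 (F^[i + 1] p)
    by_cases hi : F^[i + 1] p ∈ S'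
    · rw [indicator_of_mem hi, indicator_of_mem (hS hi)]
      exact pow_le_pow_of_le_one h2.1.le h2.2 (by omega)
    · rw [indicator_of_notMem hi]
      apply indicator_nonneg
      intro x _
      exact pow_nonneg (hρ.1 x).1.le _
  have hle : κ' * wcnt F S' ρ k' m p ≤ κ * wcnt F S ρ k m p :=
    mul_le_mul hκ h1 (wcnt_nonneg F S' ρ hρ.1 k' m p) (hκ0.trans hκ)
  rcases h p m hm hp ρ hρ l hl μ hμ with h1 | h1
  · exact Or.inl ((Real.exp_le_exp.2 hle).trans h1)
  · exact Or.inr (h1.trans (Real.exp_le_exp.2 (neg_le_neg hle)))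

theorem SGap.union {F : N → N} {S T : Set N} {k : ℕ} {κ : ℝ} (hκ : 0 < κ)
    (h : SGap (n := n) F S k κ) (h' : SGap (n := n) F T k κ) :
    SGap (n := n) F (S ∪ T) k (κ / 2) := by
  intro p m hm hp ρ hρ l hl μ hμ
  have h1 : wcnt F (S ∪ T) ρ k m p ≤ wcnt F S ρ k m p + wcnt F T ρ k m p := by
    rw [wcnt, wcnt, wcnt, ← Finset.sum_add_distrib]
    apply Finset.sum_le_sum
    intro i _
    have hnn : ∀ (R : Set N) (x : N), 0 ≤ R.indicator (fun x => ρ x ^ (k - 1)) x := by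
      intro R x
      apply indicator_nonneg
      intro x _
      exact pow_nonneg (hρ.1 x).1.le _
    by_cases hS : F^[i + 1] p ∈ S
    · rw [indicator_of_mem (mem_union_left T hS), indicator_of_mem hS]
      have := hnn T (F^[i + 1] p)
      linarith
    · by_cases hT : F^[i + 1] p ∈ T
      · rw [indicator_of_mem (mem_union_right S hT), indicator_of_mem hT, indicator_of_notMem hS]
        simp
      · rw [indicator_of_notMem hS, indicator_of_notMem hT, indicator_of_notMem]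
        · simp
        · rintro (h | h)
          · exact hS h
          · exact hT h
  have h2 := wcnt_nonneg F S ρ hρ.1 k m p
  have h3 := wcnt_nonneg F T ρ hρ.1 k m p
  rcases le_total (wcnt F S ρ k m p) (wcnt F T ρ k m p) with h4 | h4
  · have hle : κ / 2 * wcnt F (S ∪ T) ρ k m p ≤ κ * wcnt F T ρ k m p := by nlinarith
    rcases h' p m hm hp ρ hρ l hl μ hμ with h1 | h1
    · exact Or.inl ((Real.exp_le_exp.2 hle).trans h1)
    · exact Or.inr (h1.trans (Real.exp_le_exp.2 (neg_le_neg hle)))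
  · have hle : κ / 2 * wcnt F (S ∪ T) ρ k m p ≤ κ * wcnt F S ρ k m p := by nlinarith
    rcases h p m hm hp ρ hρ l hl μ hμ with h1 | h1
    · exact Or.inl ((Real.exp_le_exp.2 hle).trans h1)
    · exact Or.inr (h1.trans (Real.exp_le_exp.2 (neg_le_neg hle)))

theorem sgap (hN : SmoothDist n N) (hr : 1 ≤ r) {F : DiffM n N r} (hF : OmegaStable n N r F) :
    ∃ k : ℕ, 1 ≤ k ∧ (k : ℕ∞) ≤ r ∧ ∃ κ : ℝ, 0 < κ ∧ SGap (n := n) F univ k κ := by
  obtain ⟨U, hU, hFU, -, hH⟩ := stable_hyp Plug.hF2 hr hF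
  refine (isCompact_univ (X := N)).induction_on
    (p := fun S => ∃ k : ℕ, 1 ≤ k ∧ (k : ℕ∞) ≤ r ∧ ∃ κ : ℝ, 0 < κ ∧ SGap (n := n) F S k κ)
    ?_ ?_ ?_ ?_
  · refine ⟨1, le_rfl, hr, 1, one_pos, ?_⟩
    intro p m hm hp ρ hρ l hl μ hμ
    have h0 : wcnt F ∅ ρ 1 m p = 0 := by simp [wcnt]
    rw [h0]
    simp only [mul_zero, Real.exp_zero, neg_zero]
    exact le_total _ _
  · rintro S T hST ⟨k, hk, hkr, κ, hκ, h⟩
    exact ⟨k, hk, hkr, κ, hκ, h.mono hκ.le le_rfl le_rfl hST⟩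
  · rintro S T ⟨k, hk, hkr, κ, hκ, h⟩ ⟨k', hk', hkr', κ', hκ', h'⟩
    refine ⟨max k k', le_max_of_le_left hk, ?_, min κ κ' / 2, by positivity, ?_⟩
    · rcases max_choice k k' with hm | hm <;> rw [hm] <;> assumption
    · have hm : 0 < min κ κ' := lt_min hκ hκ'
      exact SGap.union hm
        (h.mono hm.le (min_le_left _ _) (le_max_left _ _) subset_rfl)
        (h'.mono hm.le (min_le_right _ _) (le_max_right _ _) subset_rfl)
  · intro z _
    obtain ⟨S, hS, k, hk, hkr, κ, hκ, h⟩ := sgap_local hN hr hU hFU hH z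
    exact ⟨S, mem_nhdsWithin_of_mem_nhds hS, k, hk, hkr, κ, hκ, h⟩

end

end Pool.Agent.Helper21S
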