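import Pool.Agent.Helper21S.Two

/-!
# Project ST: the cone of the cocycle
-/

set_option autoImplicit false

open Filter Set Complex

namespace Pool.Agent.Helper21S

/-- the data of the cocycle -/
structure CD {Y : Type*} [TopologicalSpace Y] (h : Y → Y) {J : ℕ} (α β : Y → ℂ)
    (b : Fin J → Y → ℝ) : Prop where
  hh : Continuous h
  cα : Continuous α
  cβ : Continuous β
  cb : ∀ j, Continuous (b j)
  lt : ∀ y, ‖β y‖ < ‖α y‖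
  b0 : ∀ j y, 0 ≤ b j y
  b1 : ∀ j y, b j y ≤ 1
  one : ∀ y, ∃ j, b j y = 1

section

variable {Y : Type*} {J : ℕ} {b : Fin J → Y → ℝ}

theorem f_sq (t : ℝ) (θ : ℂ) : ‖1 + I * (t : ℂ) * θ‖ ^ 2 = (1 - t * θ.im) ^ 2 + (t * θ.re) ^ 2 ∧
    ‖1 - I * (t : ℂ) * θ‖ ^ 2 = (1 + t * θ.im) ^ 2 + (t * θ.re) ^ 2 := by
  constructor
  · rw [← Complex.normSq_eq_norm_sq, Complex.normSq_apply]
    simp only [add_re, one_re, mul_re, I_re, ofReal_re, I_im, ofReal_im, mul_im, add_im, one_im]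
    ring
  · rw [← Complex.normSq_eq_norm_sq, Complex.normSq_apply]
    simp only [sub_re, one_re, mul_re, I_re, ofReal_re, I_im, ofReal_im, mul_im, sub_im, one_im]
    ring

theorem f_le {t : ℝ} (ht : 0 ≤ t) {θ : ℂ} (hθ : 0 ≤ θ.im) :
    ‖1 + I * (t : ℂ) * θ‖ ≤ ‖1 - I * (t : ℂ) * θ‖ := by
  obtain ⟨h1, h2⟩ := f_sq t θ
  apply le_of_sq_le_sq _ (norm_nonneg _)
  rw [h1, h2]
  nlinarith [mul_nonneg ht hθ]

theorem f_one {t : ℝ} (ht : 0 ≤ t) {θ : ℂ} (hθ : 0 ≤ θ.im) : 1 ≤ ‖1 - I * (t : ℂ) * θ‖ := by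
  obtain ⟨h1, h2⟩ := f_sq t θ
  apply le_of_sq_le_sq _ (norm_nonneg _)
  rw [h2]
  nlinarith [mul_nonneg ht hθ, sq_nonneg (t * θ.re), sq_nonneg (t * θ.im)]

theorem D_le (h0 : ∀ j y, 0 ≤ b j y) {θ : ℂ} (hθ : 0 ≤ θ.im) (y : Y) :
    ‖Dp b θ y‖ ≤ ‖Dm b θ y‖ := by
  unfold Dp Dm
  rw [norm_prod, norm_prod]
  exact Finset.prod_le_prod (fun _ _ => norm_nonneg _) fun j _ => f_le (h0 j y) hθ

theorem D_one (h0 : ∀ j y, 0 ≤ b j y) {θ : ℂ} (hθ : 0 ≤ θ.im) (y : Y) : 1 ≤ ‖Dm b θ y‖ := by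
  unfold Dm
  rw [norm_prod]
  calc (1 : ℝ) = ∏ _j : Fin J, (1 : ℝ) := by simp
    _ ≤ _ := Finset.prod_le_prod (fun _ _ => zero_le_one) fun j _ => f_one (h0 j y) hθ

theorem D_lt (h0 : ∀ j y, 0 ≤ b j y) (h1 : ∀ y, ∃ j, b j y = 1) {θ : ℂ} (hθ : 0 < θ.im) (y : Y) :
    ‖Dp b θ y‖ < ‖Dm b θ y‖ := by
  obtain ⟨j, hj⟩ := h1 y
  unfold Dp Dm
  rw [norm_prod, norm_prod, ← Finset.mul_prod_erase _ _ (Finset.mem_univ j),
    ← Finset.mul_prod_erase Finset.univ (fun j => ‖1 - I * (b j y : ℂ) * θ‖) (Finset.mem_univ j)]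
  have h2 : ‖1 + I * (b j y : ℂ) * θ‖ < ‖1 - I * (b j y : ℂ) * θ‖ := by
    obtain ⟨h1, h2⟩ := f_sq (b j y) θ
    apply lt_of_pow_lt_pow_left₀ 2 (norm_nonneg _)
    rw [h1, h2, hj]
    nlinarith
  have h3 : ∏ i ∈ Finset.univ.erase j, ‖1 + I * (b i y : ℂ) * θ‖ ≤
      ∏ i ∈ Finset.univ.erase j, ‖1 - I * (b i y : ℂ) * θ‖ :=
    Finset.prod_le_prod (fun _ _ => norm_nonneg _) fun j _ => f_le (h0 j y) hθ.le
  have h4 : 0 < ∏ i ∈ Finset.univ.erase j, ‖1 - I * (b i y : ℂ) * θ‖ :=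
    Finset.prod_pos fun i _ => lt_of_lt_of_le one_pos (f_one (h0 i y) hθ.le)
  calc _ ≤ ‖1 + I * (b j y : ℂ) * θ‖ * ∏ i ∈ Finset.univ.erase j, ‖1 - I * (b i y : ℂ) * θ‖ :=
        mul_le_mul_of_nonneg_left h3 (norm_nonneg _)
    _ < _ := mul_lt_mul_of_pos_right h2 h4

variable (h : Y → Y) {α β : Y → ℂ}

/-- lower bound of the growth of the form -/
noncomputable def QQ (h : Y → Y) (α β : Y → ℂ) (b : Fin J → Y → ℝ) (θ : ℂ) : ℕ → Y → ℝ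
  | 0, _ => 1
  | n + 1, y => QQ h α β b θ n (h y) * (‖Dm b θ y‖ ^ 2 * (‖α y‖ ^ 2 - ‖β y‖ ^ 2))

theorem det_pos (hlt : ∀ y, ‖β y‖ < ‖α y‖) (y : Y) : 0 < ‖α y‖ ^ 2 - ‖β y‖ ^ 2 := by
  have h1 := hlt y
  have h2 := norm_nonneg (β y)
  nlinarith

theorem QQ_pos (h0 : ∀ j y, 0 ≤ b j y) (hlt : ∀ y, ‖β y‖ < ‖α y‖) {θ : ℂ} (hθ : 0 ≤ θ.im)
    (n : ℕ) (y : Y) : 0 < QQ h α β b θ n y := by
  induction n generalizing y with
  | zero => exact one_pos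
  | succ n ih =>
    have h1 := D_one h0 hθ y
    have h2 := det_pos hlt y
    exact mul_pos (ih _) (by positivity)

theorem J_step (h0 : ∀ j y, 0 ≤ b j y) (hlt : ∀ y, ‖β y‖ < ‖α y‖) {θ : ℂ} (hθ : 0 ≤ θ.im)
    (x : ℂ × ℂ) (y : Y) : ‖Dm b θ y‖ ^ 2 * (‖α y‖ ^ 2 - ‖β y‖ ^ 2) * Jf x ≤
      Jf (rm x (MM α β b θ y)) := by
  rw [jf_MM]
  have h1 := D_le h0 hθ y
  have h2 := det_pos hlt y
  have h3 : ‖Dp b θ y‖ ^ 2 ≤ ‖Dm b θ y‖ ^ 2 := by gcongr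
  unfold Jf
  have h4 : ‖Dm b θ y‖ ^ 2 * (‖x.2‖ ^ 2 - ‖x.1‖ ^ 2) ≤
      ‖Dm b θ y‖ ^ 2 * ‖x.2‖ ^ 2 - ‖Dp b θ y‖ ^ 2 * ‖x.1‖ ^ 2 := by
    have := mul_le_mul_of_nonneg_right h3 (sq_nonneg ‖x.1‖)
    linarith
  have h5 := mul_le_mul_of_nonneg_right h4 h2.le
  linarith

theorem J_grow (h0 : ∀ j y, 0 ≤ b j y) (hlt : ∀ y, ‖β y‖ < ‖α y‖) {θ : ℂ} (hθ : 0 ≤ θ.im)
    (x : ℂ × ℂ) (n : ℕ) (y : Y) : QQ h α β b θ n y * Jf x ≤ Jf (rm x (PP h α β b θ n y)) := by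
  induction n generalizing y with
  | zero =>
    change 1 * Jf x ≤ Jf (rm x 1)
    rw [rm_one, one_mul]
  | succ n ih =>
    change _ ≤ Jf (rm x (PP h α β b θ n (h y) * MM α β b θ y))
    rw [rm_mul]
    refine le_trans ?_ (J_step h0 hlt hθ _ y)
    have h1 := D_one h0 hθ y
    have h2 := det_pos hlt y
    have h3 := mul_le_mul_of_nonneg_left (ih (h y))
      (show 0 ≤ ‖Dm b θ y‖ ^ 2 * (‖α y‖ ^ 2 - ‖β y‖ ^ 2) by positivity)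
    have h4 : QQ h α β b θ (n + 1) y =
      QQ h α β b θ n (h y) * (‖Dm b θ y‖ ^ 2 * (‖α y‖ ^ 2 - ‖β y‖ ^ 2)) := rfl
    rw [h4]
    linarith

theorem J_strict (h0 : ∀ j y, 0 ≤ b j y) (h1 : ∀ y, ∃ j, b j y = 1) (hlt : ∀ y, ‖β y‖ < ‖α y‖)
    {θ : ℂ} (hθ : 0 < θ.im) {η : ℂ} (hη : ‖η‖ ≤ 1) {n : ℕ} (hn : 1 ≤ n) (y : Y) :
    0 < Jf (rm (η, 1) (PP h α β b θ n y)) := by
  induction n generalizing y with
  | zero => omega
  | succ n ih =>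
    change 0 < Jf (rm (η, 1) (PP h α β b θ n (h y) * MM α β b θ y))
    rw [rm_mul]
    have h2 := det_pos hlt y
    rcases Nat.eq_zero_or_pos n with h3 | h3
    · subst h3
      change 0 < Jf (rm (rm (η, 1) 1) (MM α β b θ y))
      rw [rm_one, jf_MM]
      apply mul_pos _ h2
      have h4 := D_lt h0 h1 hθ y
      have h5 : ‖Dp b θ y‖ ^ 2 < ‖Dm b θ y‖ ^ 2 := by
        have := norm_nonneg (Dp b θ y)
        gcongr
      simp only [norm_one, one_pow, mul_one]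
      have h6 : ‖η‖ ^ 2 ≤ 1 := pow_le_one₀ (norm_nonneg _) hη
      nlinarith [sq_nonneg ‖Dp b θ y‖, sq_nonneg ‖η‖]
    · refine lt_of_lt_of_le ?_ (J_step h0 hlt hθ.le _ y)
      have h4 := D_one h0 hθ.le y
      have := ih h3 (h y)
      positivity

/-- the lower right entry at `0` and at `iε` -/
theorem d_le (h0 : ∀ j y, 0 ≤ b j y) (hlt : ∀ y, ‖β y‖ < ‖α y‖) {ε : ℝ} (hε : 0 ≤ ε) (n : ℕ)
    (y : Y) : ‖PP h α β b 0 n y 1 1‖ ≤ ‖PP h α β b (ε * I) n y 1 1‖ := by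
  refine hb_le (f := fun θ => PP h α β b θ n y 1 1) (isPoly_PP h α β b n y 1 1) ?_ hε
  intro θ hθ h3
  have h1 := J_grow h h0 hlt hθ.le (0, 1) n y
  have h2 := QQ_pos h h0 hlt hθ.le n y
  have h4 : Jf (rm (0, 1) (PP h α β b θ n y)) =
      ‖PP h α β b θ n y 1 1‖ ^ 2 - ‖PP h α β b θ n y 1 0‖ ^ 2 := by
    unfold Jf rm
    simp

  rw [h4, h3] at h1
  have h5 : Jf ((0 : ℂ), (1 : ℂ)) = 1 := by unfold Jf; simp
  rw [h5, norm_zero] at h1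
  nlinarith [sq_nonneg ‖PP h α β b θ n y 1 0‖]

/-- strictly cone preserving matrices have nonzero traces -/
theorem trace_ne {M : Matrix (Fin 2) (Fin 2) ℂ}
    (hM : ∀ η : ℂ, ‖η‖ ≤ 1 → 0 < Jf (rm (η, 1) M)) : M 0 0 + M 1 1 ≠ 0 := by
  intro hT
  set a := M 0 0 with ha
  set b' := M 0 1 with hb
  set c := M 1 0 with hc
  set d := M 1 1 with hd
  have had : a = -d := eq_neg_of_add_eq_zero_left hT
  have h1 := hM 1 (by simp)
  unfold Jf rm at h1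
  simp only [one_mul] at h1
  rw [← ha, ← hb, ← hc, ← hd, had] at h1
  have hne : b' + d ≠ 0 := by
    intro h0
    rw [h0, norm_zero] at h1
    nlinarith [sq_nonneg ‖-d + c‖]
  have hpos : 0 < ‖b' + d‖ := norm_pos_iff.2 hne
  have hlt : ‖-d + c‖ ≤ ‖b' + d‖ := by
    apply le_of_sq_le_sq _ hpos.le
    linarith
  have h2 := hM ((-d + c) / (b' + d)) (by
    rw [norm_div, div_le_one hpos]
    exact hlt)
  unfold Jf rm at h2
  simp only [one_mul] at h2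
  rw [← ha, ← hb, ← hc, ← hd, had] at h2
  have e1 : (-d + c) / (b' + d) * b' + d = (c * b' + d * d) / (b' + d) := by
    field_simp
    ring
  have e2 : (-d + c) / (b' + d) * -d + c = (c * b' + d * d) / (b' + d) := by
    field_simp
    ring
  rw [e1, e2] at h2
  linarith

theorem T_le (h0 : ∀ j y, 0 ≤ b j y) (h1 : ∀ y, ∃ j, b j y = 1) (hlt : ∀ y, ‖β y‖ < ‖α y‖)
    {ε : ℝ} (hε : 0 ≤ ε) {n : ℕ} (hn : 1 ≤ n) (y : Y) :
    ‖PP h α β b 0 n y 0 0 + PP h α β b 0 n y 1 1‖ ≤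
      ‖PP h α β b (ε * I) n y 0 0 + PP h α β b (ε * I) n y 1 1‖ :=
  hb_le (f := fun θ => PP h α β b θ n y 0 0 + PP h α β b θ n y 1 1)
    ((isPoly_PP h α β b n y 0 0).add (isPoly_PP h α β b n y 1 1))
    (fun _ hθ => trace_ne fun _ hη => J_strict h h0 h1 hlt hθ hη hn y) hε

/-- real parameters -/
theorem real_form (θ : ℝ) (n : ℕ) (y : Y) :
    PP h α β b θ n y 1 1 = (starRingEnd ℂ) (PP h α β b θ n y 0 0) ∧
      PP h α β b θ n y 1 0 = (starRingEnd ℂ) (PP h α β b θ n y 0 1) := by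
  have hD : ∀ y, Dm b θ y = (starRingEnd ℂ) (Dp b θ y) := by
    intro y
    unfold Dp Dm
    rw [map_prod]
    refine Finset.prod_congr rfl fun j _ => ?_
    simp [sub_eq_add_neg]
  induction n generalizing y with
  | zero =>
    change (1 : Matrix (Fin 2) (Fin 2) ℂ) 1 1 = _ ∧ (1 : Matrix (Fin 2) (Fin 2) ℂ) 1 0 = _
    simp [PP]
  | succ n ih =>
    obtain ⟨h1, h2⟩ := ih (h y)
    change (PP h α β b θ n (h y) * MM α β b θ y) 1 1 =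
      (starRingEnd ℂ) ((PP h α β b θ n (h y) * MM α β b θ y) 0 0) ∧
      (PP h α β b θ n (h y) * MM α β b θ y) 1 0 =
      (starRingEnd ℂ) ((PP h α β b θ n (h y) * MM α β b θ y) 0 1)
    simp only [Matrix.mul_apply, Fin.sum_univ_two, h1, h2, MM, hD, Matrix.of_apply,
      Matrix.cons_val', Matrix.cons_val_zero, Matrix.cons_val_one, Matrix.cons_val_fin_one,
      map_add, map_mul, Complex.conj_conj]
    constructor <;> ring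

end

end Pool.Agent.Helper21S
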