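import Mathlib

/-!
# Project ST: cocycles of plane maps with a complex rotation parameter
-/

set_option autoImplicit false

open Filter Set Complex

namespace Pool.Agent.Helper21S

/-- polynomial functions -/
def IsPoly (f : ℂ → ℂ) : Prop := ∃ p : Polynomial ℂ, ∀ z, f z = p.eval z

theorem IsPoly.add {f g : ℂ → ℂ} (hf : IsPoly f) (hg : IsPoly g) : IsPoly fun z => f z + g z := by
  obtain ⟨p, hp⟩ := hf
  obtain ⟨q, hq⟩ := hg
  exact ⟨p + q, fun z => by simp only [Polynomial.eval_add, hp, hq]⟩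

theorem IsPoly.mul {f g : ℂ → ℂ} (hf : IsPoly f) (hg : IsPoly g) : IsPoly fun z => f z * g z := by
  obtain ⟨p, hp⟩ := hf
  obtain ⟨q, hq⟩ := hg
  exact ⟨p * q, fun z => by simp only [Polynomial.eval_mul, hp, hq]⟩

theorem isPoly_const (c : ℂ) : IsPoly fun _ => c := ⟨Polynomial.C c, fun z => by simp⟩

theorem isPoly_id : IsPoly fun z => z := ⟨Polynomial.X, fun z => by simp⟩

theorem isPoly_prod {ι : Type*} (s : Finset ι) (f : ι → ℂ → ℂ) (hf : ∀ i, IsPoly (f i)) :
    IsPoly fun z => ∏ i ∈ s, f i z := by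
  classical
  induction s using Finset.induction_on with
  | empty => simpa using isPoly_const 1
  | insert a s ha ih =>
    have := (hf a).mul ih
    simpa [Finset.prod_insert ha] using this

theorem IsPoly.differentiable {f : ℂ → ℂ} (hf : IsPoly f) : Differentiable ℂ f := by
  obtain ⟨p, hp⟩ := hf
  have : f = fun z => p.eval z := funext hp
  rw [this]
  exact p.differentiable

/-- A polynomial function without zeros in the upper half plane is at `iε` at least as large as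
at `0`. -/
theorem hb_le {f : ℂ → ℂ} (hf : IsPoly f) (h : ∀ z : ℂ, 0 < z.im → f z ≠ 0) {ε : ℝ}
    (hε : 0 ≤ ε) : ‖f 0‖ ≤ ‖f (ε * I)‖ := by
  obtain ⟨p, hp⟩ := hf
  have hp0 : p ≠ 0 := by
    rintro rfl
    exact h I (by simp) (by rw [hp]; simp)
  have hsp := IsAlgClosed.splits p
  have hev : ∀ z : ℂ, ‖f z‖ = ‖p.leadingCoeff‖ * (p.roots.map fun r => ‖z - r‖).prod := by
    intro z
    rw [hp]
    conv_lhs => rw [hsp.eq_prod_roots]
    rw [Polynomial.eval_mul, Polynomial.eval_C, norm_mul, Polynomial.eval_multiset_prod,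
      Multiset.map_map]
    congr 1
    have h1 : ∀ s : Multiset ℂ, ‖(s.map fun r => z - r).prod‖ = (s.map fun r => ‖z - r‖).prod := by
      intro s
      induction s using Multiset.induction_on with
      | empty => simp
      | cons a s ih => simp [ih]
    rw [← h1]
    congr 2
    simp
  rw [hev, hev]
  apply mul_le_mul_of_nonneg_left _ (norm_nonneg _)
  apply Multiset.prod_map_le_prod_map₀
  · intro r _
    exact norm_nonneg _
  · intro r hr
    have hr1 : r.im ≤ 0 := by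
      by_contra hc
      push Not at hc
      apply h r hc
      rw [hp]
      exact (Polynomial.mem_roots hp0).1 hr
    rw [Complex.norm_def, Complex.norm_def]
    apply Real.sqrt_le_sqrt
    rw [Complex.normSq_apply, Complex.normSq_apply]
    simp only [sub_re, zero_re, sub_im, zero_im, mul_re, ofReal_re, I_re, mul_zero, ofReal_im,
      I_im, mul_one, mul_im, add_zero, sub_self]
    nlinarith

/-! ### the cocycle -/

section

variable {Y : Type*} {J : ℕ}

/-- multipliers -/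
noncomputable def Dp (b : Fin J → Y → ℝ) (θ : ℂ) (y : Y) : ℂ := ∏ j, (1 + I * (b j y : ℂ) * θ)

noncomputable def Dm (b : Fin J → Y → ℝ) (θ : ℂ) (y : Y) : ℂ := ∏ j, (1 - I * (b j y : ℂ) * θ)

/-- one step -/
noncomputable def MM (α β : Y → ℂ) (b : Fin J → Y → ℝ) (θ : ℂ) (y : Y) :
    Matrix (Fin 2) (Fin 2) ℂ :=
  !![Dp b θ y * α y, Dp b θ y * β y;
    Dm b θ y * (starRingEnd ℂ) (β y), Dm b θ y * (starRingEnd ℂ) (α y)]

/-- the products -/
noncomputable def PP (h : Y → Y) (α β : Y → ℂ) (b : Fin J → Y → ℝ) (θ : ℂ) :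
    ℕ → Y → Matrix (Fin 2) (Fin 2) ℂ
  | 0, _ => 1
  | n + 1, y => PP h α β b θ n (h y) * MM α β b θ y

variable (h : Y → Y) (α β : Y → ℂ) (b : Fin J → Y → ℝ)

theorem PP_add (θ : ℂ) (k n : ℕ) (y : Y) :
    PP h α β b θ (k + n) y = PP h α β b θ k (h^[n] y) * PP h α β b θ n y := by
  induction n generalizing y with
  | zero => simp [PP]
  | succ n ih =>
    rw [← Nat.add_assoc]
    change PP h α β b θ (k + n) (h y) * MM α β b θ y = _
    rw [ih, Function.iterate_succ_apply]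
    change _ = _ * (PP h α β b θ n (h y) * MM α β b θ y)
    rw [Matrix.mul_assoc]

theorem isPoly_Dp (y : Y) : IsPoly fun θ => Dp b θ y :=
  isPoly_prod _ _ fun j => (isPoly_const 1).add ((isPoly_const (I * (b j y : ℂ))).mul isPoly_id)

theorem isPoly_Dm (y : Y) : IsPoly fun θ => Dm b θ y := by
  have := isPoly_prod Finset.univ (fun j θ => 1 + (-(I * (b j y : ℂ))) * θ)
    fun j => (isPoly_const 1).add ((isPoly_const (-(I * (b j y : ℂ)))).mul isPoly_id)
  obtain ⟨p, hp⟩ := this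
  refine ⟨p, fun z => ?_⟩
  rw [← hp]
  exact Finset.prod_congr rfl fun j _ => by ring

theorem isPoly_MM (y : Y) (i j : Fin 2) : IsPoly fun θ => MM α β b θ y i j := by
  fin_cases i <;> fin_cases j
  · exact (isPoly_Dp b y).mul (isPoly_const _)
  · exact (isPoly_Dp b y).mul (isPoly_const _)
  · exact (isPoly_Dm b y).mul (isPoly_const _)
  · exact (isPoly_Dm b y).mul (isPoly_const _)

theorem isPoly_PP (n : ℕ) (y : Y) (i j : Fin 2) : IsPoly fun θ => PP h α β b θ n y i j := by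
  induction n generalizing y i j with
  | zero =>
    have : (fun θ => PP h α β b θ 0 y i j) = fun _ => (1 : Matrix (Fin 2) (Fin 2) ℂ) i j := rfl
    rw [this]
    exact isPoly_const _
  | succ n ih =>
    have : (fun θ => PP h α β b θ (n + 1) y i j) = fun θ =>
        PP h α β b θ n (h y) i 0 * MM α β b θ y 0 j + PP h α β b θ n (h y) i 1 * MM α β b θ y 1 j := by
      funext θ
      change (PP h α β b θ n (h y) * MM α β b θ y) i j = _
      rw [Matrix.mul_apply, Fin.sum_univ_two]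
    rw [this]
    exact ((ih _ _ _).mul (isPoly_MM α β b y _ _)).add ((ih _ _ _).mul (isPoly_MM α β b y _ _))

/-- determinants -/
theorem det_MM (θ : ℂ) (y : Y) : (MM α β b θ y).det =
    Dp b θ y * Dm b θ y * ((‖α y‖ ^ 2 - ‖β y‖ ^ 2 : ℝ) : ℂ) := by
  rw [MM, Matrix.det_fin_two_of]
  have h1 : α y * (starRingEnd ℂ) (α y) = ((‖α y‖ ^ 2 : ℝ) : ℂ) := by
    rw [Complex.mul_conj, Complex.normSq_eq_norm_sq]
  have h2 : β y * (starRingEnd ℂ) (β y) = ((‖β y‖ ^ 2 : ℝ) : ℂ) := by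
    rw [Complex.mul_conj, Complex.normSq_eq_norm_sq]
  rw [Complex.ofReal_sub, ← h1, ← h2]
  ring

theorem det_PP_succ (θ : ℂ) (n : ℕ) (y : Y) : (PP h α β b θ (n + 1) y).det =
    (PP h α β b θ n (h y)).det * (Dp b θ y * Dm b θ y * ((‖α y‖ ^ 2 - ‖β y‖ ^ 2 : ℝ) : ℂ)) := by
  change (PP h α β b θ n (h y) * MM α β b θ y).det = _
  rw [Matrix.det_mul, det_MM]

/-- the indefinite form of a row -/
noncomputable def Jf (x : ℂ × ℂ) : ℝ := ‖x.2‖ ^ 2 - ‖x.1‖ ^ 2

/-- a row times a matrix -/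
noncomputable def rm (x : ℂ × ℂ) (M : Matrix (Fin 2) (Fin 2) ℂ) : ℂ × ℂ :=
  (x.1 * M 0 0 + x.2 * M 1 0, x.1 * M 0 1 + x.2 * M 1 1)

theorem rm_mul (x : ℂ × ℂ) (M M' : Matrix (Fin 2) (Fin 2) ℂ) : rm x (M * M') = rm (rm x M) M' := by
  unfold rm
  simp only [Matrix.mul_apply, Fin.sum_univ_two]
  ext <;> simp <;> ring

theorem rm_one (x : ℂ × ℂ) : rm x 1 = x := by
  unfold rm
  simp

theorem jf_id (x y u v : ℂ) : ‖x * v + y * (starRingEnd ℂ) u‖ ^ 2 -
    ‖x * u + y * (starRingEnd ℂ) v‖ ^ 2 = (‖y‖ ^ 2 - ‖x‖ ^ 2) * (‖u‖ ^ 2 - ‖v‖ ^ 2) := by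
  simp only [← Complex.normSq_eq_norm_sq, Complex.normSq_apply, add_re, add_im, mul_re, mul_im,
    conj_re, conj_im]
  ring

theorem jf_MM (x : ℂ × ℂ) (θ : ℂ) (y : Y) : Jf (rm x (MM α β b θ y)) =
    (‖Dm b θ y‖ ^ 2 * ‖x.2‖ ^ 2 - ‖Dp b θ y‖ ^ 2 * ‖x.1‖ ^ 2) * (‖α y‖ ^ 2 - ‖β y‖ ^ 2) := by
  have h1 := jf_id (x.1 * Dp b θ y) (x.2 * Dm b θ y) (α y) (β y)
  rw [norm_mul, norm_mul] at h1
  unfold Jf rm MM
  simp only [Matrix.of_apply, Matrix.cons_val', Matrix.cons_val_zero, Matrix.cons_val_one,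
    Matrix.cons_val_fin_one]
  rw [show x.1 * (Dp b θ y * β y) + x.2 * (Dm b θ y * (starRingEnd ℂ) (α y)) =
    x.1 * Dp b θ y * β y + x.2 * Dm b θ y * (starRingEnd ℂ) (α y) by ring,
    show x.1 * (Dp b θ y * α y) + x.2 * (Dm b θ y * (starRingEnd ℂ) (β y)) =
    x.1 * Dp b θ y * α y + x.2 * Dm b θ y * (starRingEnd ℂ) (β y) by ring, h1]
  ring

end

end Pool.Agent.Helper21S
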